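import Pool.Agent.Lib.MP_d98eb9_al.W.Cay

/-! One-edge tree actions described by a subgroup and one side of the base edge. -/

namespace Pool.Agent.Lib.MP_d98eb9_al.W

variable {G : Type} [Group G]

/-- The other side. -/
def opp (C : Subgroup G) (X : Set G) : Set G := {x | x ∉ C ∧ x ∉ X}

/-- The edges `xC` that separate the edges `C` and `yC`. -/
def Sp (C : Subgroup G) (X : Set G) (y : G) : Set (G ⧸ C) :=
  {q | ∃ x : G, (x : G ⧸ C) = q ∧ x ∉ C ∧ x⁻¹ * y ∉ C ∧ ¬ (x⁻¹ ∈ X ↔ x⁻¹ * y ∈ X)}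

/-- The number of separating edges. -/
noncomputable def nn (C : Subgroup G) (X : Set G) (y : G) : ℕ := (Sp C X y).ncard

/-- The side of the base edge that does not contain the edge `x⁻¹ C`. -/
def far (C : Subgroup G) (X : Set G) (x : G) : Set G :=
  {z | z ∉ C ∧ ¬ (x⁻¹ ∈ X ↔ z ∈ X)}

/-- The stabiliser of a set inside `C`. -/
def blk (C : Subgroup G) (β : Set G) : Subgroup G where
  carrier := {c | c ∈ C ∧ tr c β = β}
  one_mem' := ⟨C.one_mem, tr_one β⟩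
  mul_mem' := fun ha hb => ⟨C.mul_mem ha.1 hb.1, by rw [← tr_tr, hb.2, ha.2]⟩
  inv_mem' := fun {a} ha => ⟨C.inv_mem ha.1, by
    conv_lhs => rw [← ha.2]
    exact tr_inv_tr a β⟩

theorem blk_le (C : Subgroup G) (β : Set G) : blk C β ≤ C := fun _ h => h.1

/-- The cosets of `C` are the edges of a tree, and `X` is one side of the edge `C`. -/
structure Sys (C : Subgroup G) (X : Set G) : Prop where
  disj : ∀ x ∈ X, x ∉ C
  left : ∀ c ∈ C, ∀ x ∈ X, c * x ∈ X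
  right : ∀ c ∈ C, ∀ x ∈ X, x * c ∈ X
  nest : ∀ x y, x ∉ C → y ∉ C → ¬ (x ∈ X ↔ y ∈ X) → (x⁻¹ * y ∈ X ↔ x⁻¹ ∈ X)
  fin : ∀ y, (Sp C X y).Finite
  ne : X.Nonempty
  ne' : (opp C X).Nonempty

variable {C : Subgroup G} {X : Set G} {x y z c : G}

theorem Sys.left_iff (h : Sys C X) (hc : c ∈ C) : c * x ∈ X ↔ x ∈ X :=
  ⟨fun hx => by simpa using h.left _ (C.inv_mem hc) _ hx, h.left c hc x⟩

theorem Sys.right_iff (h : Sys C X) (hc : c ∈ C) : x * c ∈ X ↔ x ∈ X :=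
  ⟨fun hx => by simpa using h.right _ (C.inv_mem hc) _ hx, h.right c hc x⟩

theorem Sys.opp_opp (h : Sys C X) : opp C (opp C X) = X := by
  ext x
  have := h.disj x
  simp only [opp, Set.mem_ofPred_eq]
  tauto

theorem Sp_opp (C : Subgroup G) (X : Set G) (y : G) : Sp C (opp C X) y = Sp C X y := by
  ext q
  refine exists_congr fun x => and_congr_right fun _ => and_congr_right fun h1 =>
    and_congr_right fun h2 => ?_
  have h3 : x⁻¹ ∉ C := fun e => h1 (C.inv_mem_iff.mp e)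
  simp only [opp, Set.mem_ofPred_eq]
  tauto

theorem nn_opp (C : Subgroup G) (X : Set G) (y : G) : nn C (opp C X) y = nn C X y := by
  rw [nn, Sp_opp, nn]

/-- Points on different sides lie in different cosets. -/
theorem Sys.not_mem (h : Sys C X) (hxy : ¬ (x ∈ X ↔ y ∈ X)) : x⁻¹ * y ∉ C := fun e =>
  hxy (by rw [← h.right_iff (x := x) e, mul_inv_cancel_left])

theorem Sys.swap (h : Sys C X) : Sys C (opp C X) where
  disj _ hx := hx.1
  left c hc x hx := ⟨fun e => hx.1 ((C.mul_mem_cancel_left hc).mp e),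
    fun e => hx.2 ((h.left_iff hc).mp e)⟩
  right c hc x hx := ⟨fun e => hx.1 ((C.mul_mem_cancel_right hc).mp e),
    fun e => hx.2 ((h.right_iff hc).mp e)⟩
  nest x y hx hy hxy := by
    have h1 : ¬ (x ∈ X ↔ y ∈ X) := fun e => hxy (by simp only [opp, Set.mem_ofPred_eq]; tauto)
    have h2 := h.nest x y hx hy h1
    have h3 := h.not_mem h1
    have h4 : x⁻¹ ∉ C := fun e => hx (C.inv_mem_iff.mp e)
    simp only [opp, Set.mem_ofPred_eq]
    tauto
  fin y := Sp_opp C X y ▸ h.fin y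
  ne := h.ne'
  ne' := h.opp_opp.symm ▸ h.ne

theorem far_eq (hx : x ∉ C) (hX : ∀ x ∈ X, x ∉ C) : far C X x = X ∨ far C X x = opp C X := by
  have _ := hx
  by_cases h : x⁻¹ ∈ X
  · refine Or.inr (Set.ext fun z => ?_)
    simp only [far, opp, Set.mem_ofPred_eq]
    tauto
  · refine Or.inl (Set.ext fun z => ?_)
    have := hX z
    simp only [far, Set.mem_ofPred_eq]
    tauto

theorem Sys.far_right (h : Sys C X) (hc : c ∈ C) : far C X (x * c) = far C X x := by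
  ext z
  simp only [far, Set.mem_ofPred_eq, mul_inv_rev, h.left_iff (C.inv_mem hc)]

/-- Edges beyond `xC` are on the same side of `C` as `xC`. -/
theorem Sys.far_mem (h : Sys C X) (hx : x ∈ X) (hz : z ∈ far C X x) : x * z ∈ X := by
  have := h.nest x⁻¹ z (fun e => h.disj x hx (C.inv_mem_iff.mp e)) hz.1 hz.2
  rw [inv_inv] at this
  exact this.mpr hx

/-- The far side of an edge beyond `xC` lies in the far side of `xC`. -/
theorem Sys.far_far (h : Sys C X) (hx : x ∉ C) (hz : z ∈ far C X x) (hy : y ∈ far C X (x * z)) :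
    z * y ∈ far C X x := by
  have h1 := h.nest z x⁻¹ hz.1 (fun e => hx (C.inv_mem_iff.mp e)) fun e => hz.2 e.symm
  have h2 : ¬ (z⁻¹ ∈ X ↔ y ∈ X) := fun e => hy.2 (by rw [mul_inv_rev, h1, e])
  have h3 := h.nest z⁻¹ y (fun e => hz.1 (C.inv_mem_iff.mp e)) hy.1 h2
  have h4 := h.not_mem h2
  rw [inv_inv] at h3 h4
  exact ⟨h4, fun e => hz.2 (e.trans h3)⟩

namespace SysA

/-- The edge `wC` separates the edges `aC` and `bC`. -/
def sep (C : Subgroup G) (X : Set G) (w a b : G) : Prop :=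
  w⁻¹ * a ∉ C ∧ w⁻¹ * b ∉ C ∧ ¬ (w⁻¹ * a ∈ X ↔ w⁻¹ * b ∈ X)

/-- The edges that separate `aC` and `bC`. -/
def S2 (C : Subgroup G) (X : Set G) (a b : G) : Set (G ⧸ C) :=
  {q | ∃ w : G, (w : G ⧸ C) = q ∧ sep C X w a b}

variable {w a b : G}

theorem Sp_eq : Sp C X y = S2 C X 1 y := by
  simp only [Sp, S2, sep, mul_one, C.inv_mem_iff]

theorem sep.symm (h : sep C X w a b) : sep C X w b a := ⟨h.2.1, h.1, fun e => h.2.2 e.symm⟩

theorem sep_mul (g : G) : sep C X (g * w) (g * a) (g * b) ↔ sep C X w a b := by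
  simp only [sep, mul_inv_rev, mul_assoc, inv_mul_cancel_left]

theorem S2_symm : S2 C X a b = S2 C X b a :=
  Set.ext fun _ => exists_congr fun _ => and_congr_right fun _ => ⟨sep.symm, sep.symm⟩

theorem S2_mul (g : G) : S2 C X (g * a) (g * b) = (fun q => g • q) '' S2 C X a b := by
  ext q
  constructor
  · rintro ⟨w, rfl, hw⟩
    refine ⟨(g⁻¹ * w : G), ⟨_, rfl, (sep_mul g).mp (by rwa [mul_inv_cancel_left])⟩, ?_⟩
    show ((g * (g⁻¹ * w) : G) : G ⧸ C) = w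
    rw [mul_inv_cancel_left]
  · rintro ⟨_, ⟨w, rfl, hw⟩, rfl⟩
    exact ⟨g * w, rfl, (sep_mul g).mpr hw⟩

theorem card_S2 : (S2 C X a b).ncard = nn C X (a⁻¹ * b) := by
  have := S2_mul (C := C) (X := X) (a := 1) (b := a⁻¹ * b) a
  rw [mul_one, mul_inv_cancel_left] at this
  rw [this, Set.ncard_image_of_injective _ (MulAction.injective a), nn, Sp_eq]

theorem fin_S2 (h : Sys C X) (a b : G) : (S2 C X a b).Finite := by
  have := S2_mul (C := C) (X := X) (a := 1) (b := a⁻¹ * b) a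
  rw [mul_one, mul_inv_cancel_left] at this
  rw [this, ← Sp_eq]
  exact (h.fin _).image _

theorem S2_right (h : Sys C X) (hc : c ∈ C) : S2 C X a (b * c) = S2 C X a b := by
  simp only [S2, sep, ← mul_assoc, C.mul_mem_cancel_right hc, h.right_iff hc]

theorem mem_S2 (h : Sys C X) : (w : G ⧸ C) ∈ S2 C X a b ↔ sep C X w a b := by
  refine ⟨fun ⟨v, e, hv⟩ => ?_, fun hw => ⟨w, rfl, hw⟩⟩
  have hc := C.inv_mem (QuotientGroup.eq.mp e)
  have k : ∀ t, w⁻¹ * t = (v⁻¹ * w)⁻¹ * (v⁻¹ * t) := fun t => by group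
  simpa only [sep, k, C.mul_mem_cancel_left hc, h.left_iff hc] using hv

/-- An edge between `wC` and `bC` lies between `aC` and `bC` if `wC` does. -/
theorem sep.trans (h : Sys C X) {v : G} (hw : sep C X w a b) (hv : sep C X v w b) :
    sep C X v a b := by
  have h1 := h.nest _ _ hv.1 hv.2.1 hv.2.2
  rw [show (v⁻¹ * w)⁻¹ * (v⁻¹ * b) = w⁻¹ * b by group, show (v⁻¹ * w)⁻¹ = w⁻¹ * v by group] at h1
  have h2 : ¬ (w⁻¹ * v ∈ X ↔ w⁻¹ * a ∈ X) := fun e => hw.2.2 (h1.trans e).symm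
  have h3 := h.nest _ _ (fun e => hv.1 (by simpa using C.inv_mem e)) hw.1 h2
  have h4 := h.not_mem h2
  rw [show (w⁻¹ * v)⁻¹ * (w⁻¹ * a) = v⁻¹ * a by group] at h3 h4
  rw [show (w⁻¹ * v)⁻¹ = v⁻¹ * w by group] at h3
  exact ⟨h4, hv.2.1, fun e => hv.2.2 (h3.symm.trans e)⟩

theorem sep.lt (h : Sys C X) (hw : sep C X w a b) : nn C X (w⁻¹ * b) < nn C X (a⁻¹ * b) := by
  rw [← card_S2, ← card_S2]
  refine Set.ncard_lt_ncard ⟨?_, fun e => ?_⟩ (fin_S2 h a b)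
  · rintro _ ⟨v, rfl, hv⟩
    exact ⟨v, rfl, hw.trans h hv⟩
  · exact ((mem_S2 h).mp (e ⟨w, rfl, hw⟩)).1 (by simp)

theorem exists_finite {A : Set G} {g : G} (hg : g ∈ Subgroup.closure A) :
    ∃ B ⊆ A, B.Finite ∧ g ∈ Subgroup.closure B := by
  induction hg using Subgroup.closure_induction with
  | mem g hg =>
    exact ⟨{g}, Set.singleton_subset_iff.mpr hg, Set.finite_singleton g,
      Subgroup.subset_closure rfl⟩
  | one => exact ⟨∅, Set.empty_subset _, Set.finite_empty, Subgroup.one_mem _⟩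
  | mul a b _ _ ha hb =>
    obtain ⟨B, h1, h2, h3⟩ := ha
    obtain ⟨B', h4, h5, h6⟩ := hb
    exact ⟨B ∪ B', Set.union_subset h1 h4, h2.union h5,
      Subgroup.mul_mem _ (Subgroup.closure_mono Set.subset_union_left h3)
        (Subgroup.closure_mono Set.subset_union_right h6)⟩
  | inv a _ ha =>
    obtain ⟨B, h1, h2, h3⟩ := ha
    exact ⟨B, h1, h2, Subgroup.inv_mem _ h3⟩

end SysA

open SysA

theorem Sys.nn_inv (h : Sys C X) (y : G) : nn C X y⁻¹ = nn C X y := by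
  have _ := h
  have h1 := card_S2 (C := C) (X := X) (a := y) (b := 1)
  rw [S2_symm, card_S2, inv_one, one_mul, mul_one] at h1
  exact h1.symm

theorem Sys.nn_right (h : Sys C X) (hc : c ∈ C) (y : G) : nn C X (y * c) = nn C X y := by
  rw [nn, nn, Sp_eq, Sp_eq, S2_right h hc]

theorem Sys.nn_left (h : Sys C X) (hc : c ∈ C) (y : G) : nn C X (c * y) = nn C X y := by
  rw [← h.nn_inv, mul_inv_rev, h.nn_right (C.inv_mem hc), h.nn_inv]

theorem Sys.nn_lt (h : Sys C X) (hx : x ∉ C) (hy : y ∉ C) (hxy : ¬ (x ∈ X ↔ y ∈ X)) :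
    nn C X y < nn C X (x⁻¹ * y) := by
  simpa using sep.lt (w := 1) (a := x) (b := y) h (by simpa [sep] using ⟨hx, hy, hxy⟩)

theorem Sys.nn_bdd (h : Sys C X) (Γ : Gen G) (r : ℕ) :
    ∃ j, ∀ y, ∀ c ∈ C, y * c ∈ Γ.N r C → nn C X y ≤ j := by
  obtain ⟨j, hj⟩ := ((Gen.ball_finite (Γ := Γ) 1 r).image (nn C X)).bddAbove
  refine ⟨j, fun y c hc ⟨a, ha, hd⟩ => ?_⟩
  rw [← h.nn_right hc, ← h.nn_left (C.inv_mem ha)]
  exact hj ⟨_, by rwa [Gen.d_eq] at hd, rfl⟩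

theorem Sys.not_near (h : Sys C X) (Γ : Gen G) : ¬ Γ.Near X C := by
  rintro ⟨r, hr⟩
  obtain ⟨j, hj⟩ := h.nn_bdd Γ r
  have key : ∀ k, ∃ y ∈ X, k ≤ nn C X y := fun k => by
    induction k with
    | zero => exact h.ne.imp fun y hy => ⟨hy, Nat.zero_le _⟩
    | succ k ih =>
      obtain ⟨y, hy, hk⟩ := ih
      obtain ⟨z, hz⟩ : (far C X y).Nonempty := by
        rcases far_eq (h.disj y hy) h.disj with e | e <;> rw [e]
        exacts [h.ne, h.ne']
      have h1 := h.nn_lt hz.1 (fun e => h.disj y hy (C.inv_mem_iff.mp e)) fun e => hz.2 e.symm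
      rw [← mul_inv_rev, h.nn_inv, h.nn_inv] at h1
      exact ⟨y * z, h.far_mem hy hz, by omega⟩
  obtain ⟨y, hy, hk⟩ := key (j + 1)
  have := hj y 1 C.one_mem (by simpa using hr hy)
  omega

theorem Sys.fr_near (h : Sys C X) (Γ : Gen G) : Γ.Near (Γ.fr X) C := by
  obtain ⟨r, hr⟩ := Gen.bdd_of_finite (Γ := Γ) (((Gen.ball_finite (Γ := Γ) 1 1).biUnion
    fun s _ => h.fin s).image fun q => q.out⁻¹) 1
  refine ⟨r + 1, fun p ⟨q, hd, hpq⟩ => ?_⟩
  by_cases hp : p ∈ C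
  · exact Gen.subset_N _ _ hp
  by_cases hq : q ∈ C
  · exact ⟨q, hq, by rw [Gen.d_comm]; omega⟩
  have h1 : ((p⁻¹ : G) : G ⧸ C) ∈ Sp C X (p⁻¹ * q) :=
    ⟨p⁻¹, rfl, fun e => hp (C.inv_mem_iff.mp e), by simpa using hq, by simpa using hpq⟩
  have h2 := hr _ ⟨_, Set.mem_biUnion (x := p⁻¹ * q) (by rwa [Gen.d_eq] at hd) h1, rfl⟩
  refine ⟨p * ((p⁻¹ : G) : G ⧸ C).out, ?_, ?_⟩
  · simpa using QuotientGroup.eq.mp (QuotientGroup.out_eq' ((p⁻¹ : G) : G ⧸ C)).symm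
  · rw [Gen.d_eq, mul_inv_rev, inv_mul_cancel_right]
    exact h2.trans (Nat.le_succ r)

/-- A generating family whose edges do not jump over an edge of the tree. -/
theorem Sys.exists_gen (h : Sys C X) (hG : Group.FG G) (T : Finset G) (hT : ∀ t ∈ T, t ∈ C) :
    ∃ Γ : Gen G, (∀ p q, Γ.d p q ≤ 1 → p ∈ X → q ∉ opp C X) ∧ ∀ t ∈ T, ∃ i, Γ.s i = t := by
  classical
  have key : ∀ k y, nn C X y < k → y ∈ Subgroup.closure {s | s ∈ C ∨ Sp C X s = ∅} := fun k => by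
    induction k with
    | zero => exact fun y hy => absurd hy (Nat.not_lt_zero _)
    | succ k ih =>
      intro y hy
      rcases (Sp C X y).eq_empty_or_nonempty with e | ⟨_, e⟩
      · exact Subgroup.subset_closure (Or.inr e)
      · rw [Sp_eq] at e
        obtain ⟨w, -, hw⟩ := e
        have h1 := hw.lt h
        have h2 := hw.symm.lt h
        rw [inv_one, one_mul] at h1
        rw [mul_one, mul_one, h.nn_inv, h.nn_inv] at h2
        simpa using Subgroup.mul_mem _ (ih w (by omega)) (ih (w⁻¹ * y) (by omega))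
  obtain ⟨S, hS, hSf⟩ := Group.fg_iff.mp hG
  choose B hB1 hB2 hB3 using fun g => exists_finite (key _ g (Nat.lt_succ_self _))
  have hF : ((T : Set G) ∪ ⋃ g ∈ S, B g).Finite :=
    T.finite_toSet.union (hSf.biUnion fun g _ => hB2 g)
  have hr : Set.range (fun i => (hF.toFinset.equivFin.symm i : G)) = (T : Set G) ∪ ⋃ g ∈ S, B g := by
    ext g
    exact ⟨fun ⟨i, e⟩ => e ▸ hF.mem_toFinset.mp (hF.toFinset.equivFin.symm i).2,
      fun hg => ⟨hF.toFinset.equivFin ⟨g, hF.mem_toFinset.mpr hg⟩, by simp⟩⟩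
  have hs : ∀ i, (hF.toFinset.equivFin.symm i : G) ∈ C ∨
      Sp C X (hF.toFinset.equivFin.symm i : G) = ∅ := fun i => by
    rcases hr.subset ⟨i, rfl⟩ with e | e
    · exact Or.inl (hT _ e)
    · obtain ⟨g, -, e⟩ := Set.mem_iUnion₂.mp e
      exact hB1 g e
  have hn : ∀ p s, (s ∈ C ∨ Sp C X s = ∅) → p ∉ C → p * s ∉ C → (p ∈ X ↔ p * s ∈ X) := by
    rintro p s (e | e) h1 h2
    · exact (h.right_iff e).symm
    · by_contra h3
      exact Set.eq_empty_iff_forall_notMem.mp e ((p⁻¹ : G) : G ⧸ C)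
        ⟨p⁻¹, rfl, fun e => h1 (C.inv_mem_iff.mp e), by simpa using h2, by simpa using h3⟩
  refine ⟨⟨_, fun i => (hF.toFinset.equivFin.symm i : G), ?_⟩, fun p q hd hp hq => ?_,
    fun t ht => hr.superset (Or.inl ht)⟩
  · rw [hr, eq_top_iff, ← hS, Subgroup.closure_le]
    exact fun g hg => Subgroup.closure_mono
      (fun x hx => Or.inr (Set.mem_biUnion hg hx)) (hB3 g)
  · rcases Gen.d_le_one.mp hd with rfl | ⟨i, rfl | rfl⟩
    · exact hq.2 hp
    · exact hq.2 ((hn _ _ (hs i) (h.disj _ hp) hq.1).mp hp)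
    · exact hq.2 ((hn _ _ (hs i) hq.1 (h.disj _ hp)).mpr hp)

/-- An element of `C` that carries a point of a block into the block stabilises it. -/
theorem Sys.mem_blk (h : Sys C X) {R : G → G → Prop} (hR : Equivalence R)
    (hl : ∀ c ∈ C, ∀ x y, R x y → R (c * x) (c * y)) {x0 : G} (hc : c ∈ C)
    (hx : x ∈ X ∧ R x0 x) (hcx : R x0 (c * x)) : c ∈ blk C {x | x ∈ X ∧ R x0 x} := by
  have h1 : R x0 (c * x0) := hR.trans hcx (hR.symm (hl c hc _ _ hx.2))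
  refine ⟨hc, Set.ext fun p => and_congr (h.left_iff (C.inv_mem hc)) ⟨fun e => ?_, fun e => ?_⟩⟩
  · simpa using hR.trans h1 (hl c hc _ _ e)
  · have h2 := hl _ (C.inv_mem hc) _ _ h1
    rw [inv_mul_cancel_left] at h2
    exact hR.trans (hR.symm h2) (hl _ (C.inv_mem hc) _ _ e)

/-- Unfolding along an invariant equivalence relation on the side `X`. -/
theorem Sys.unfold (h : Sys C X) {R : G → G → Prop} (hR : Equivalence R)
    (hl : ∀ c ∈ C, ∀ x y, R x y → R (c * x) (c * y)) (hr : ∀ c ∈ C, ∀ x ∈ X, R x (x * c))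
    (D1 : ∀ x ∈ X, ∀ z ∈ far C X x, R x (x * z))
    (D2 : ∀ x ∈ X, ∀ y ∈ X, x⁻¹ ∈ X → x⁻¹ * y ∈ X → (y⁻¹ ∈ X ↔ y⁻¹ * x ∈ X) →
      R x y ∨ R x⁻¹ (x⁻¹ * y))
    (D3 : ∀ y, {q : G ⧸ C | ∃ x : G, (x : G ⧸ C) = q ∧ x⁻¹ ∈ X ∧ x⁻¹ * y ∈ X ∧
      ¬ R x⁻¹ (x⁻¹ * y)}.Finite)
    {x0 : G} (hx0 : x0 ∈ X) :
    Sys (blk C {x | x ∈ X ∧ R x0 x}) {x | x ∈ X ∧ R x0 x} := by
  set β := {x | x ∈ X ∧ R x0 x} with hβ
  have hiff : ∀ a ∈ X, ∀ b ∈ X, R a b → (a ∈ β ↔ b ∈ β) := fun a ha b hb e =>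
    ⟨fun k => ⟨hb, hR.trans k.2 e⟩, fun k => ⟨ha, hR.trans k.2 (hR.symm e)⟩⟩
  have hright : ∀ c ∈ C, ∀ x ∈ β, x * c ∈ β := fun c hc x hx =>
    ⟨h.right c hc x hx.1, hR.trans hx.2 (hr c hc x hx.1)⟩
  have hinj : ∀ a : G, Set.InjOn (Subgroup.quotientMapOfLE (blk_le C β))
      {q | ∃ x : G, (x : G ⧸ blk C β) = q ∧ x⁻¹ * a ∈ β} := by
    rintro a _ ⟨x, rfl, hx⟩ _ ⟨x', rfl, hx'⟩ e
    refine QuotientGroup.eq.mpr (h.mem_blk hR hl (QuotientGroup.eq.mp e) hx' ?_)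
    rw [mul_assoc, mul_inv_cancel_left]
    exact hx.2
  refine ⟨fun x hx e => h.disj x hx.1 e.1, fun c hc x hx => ?_, fun c hc => hright c hc.1,
    fun x y hx hy hxy => ?_, fun y => ?_, ⟨x0, hx0, hR.refl x0⟩,
    h.ne'.imp fun x hx => ⟨fun e => hx.1 e.1, fun e => hx.2 e.1⟩⟩
  · rw [← hc.2]
    exact mul_mem_tr.mpr hx
  · by_cases hxC : x ∈ C
    · have hyβ : y ∈ β := by
        by_contra e
        exact hxy ⟨fun k => (h.disj x k.1 hxC).elim, fun k => (e k).elim⟩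
      exact ⟨fun e => (hx ((blk C β).inv_mem_iff.mp
        (h.mem_blk hR hl (C.inv_mem hxC) hyβ e.2))).elim,
        fun e => (h.disj _ e.1 (C.inv_mem hxC)).elim⟩
    by_cases hyC : y ∈ C
    · exact ⟨fun e => by simpa using hright _ (C.inv_mem hyC) _ e, hright y hyC _⟩
    by_cases hX : x ∈ X ↔ y ∈ X
    · have hx' : x ∈ X := by
        by_contra e
        exact hxy ⟨fun k => (e k.1).elim, fun k => (e (hX.mpr k.1)).elim⟩
      have hy' := hX.mp hx'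
      have hn : ¬ R x y := fun e => hxy (hiff x hx' y hy' e)
      have h1 : x⁻¹ * y ∉ C := fun e => hn (by simpa using hr _ e x hx')
      have h2 : x⁻¹ ∈ X ↔ x⁻¹ * y ∈ X := by
        by_contra e
        exact hn (by simpa using D1 x hx' _ ⟨h1, e⟩)
      have h3 : y⁻¹ ∈ X ↔ y⁻¹ * x ∈ X := by
        by_contra e
        exact hn (hR.symm (by
          simpa using D1 y hy' _ ⟨fun k => h1 (by simpa using C.inv_mem k), e⟩))
      by_cases h4 : x⁻¹ ∈ X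
      · exact (hiff _ h4 _ (h2.mp h4) ((D2 x hx' y hy' h4 (h2.mp h4) h3).resolve_left hn)).symm
      · exact ⟨fun e => (h4 (h2.mpr e.1)).elim, fun e => (h4 e.1).elim⟩
    · by_cases h4 : x⁻¹ ∈ X
      · have h5 : y ∈ far C X x⁻¹ := ⟨hyC, by rwa [inv_inv]⟩
        exact (hiff _ h4 _ (h.far_mem h4 h5) (D1 _ h4 y h5)).symm
      · exact ⟨fun e => (h4 ((h.nest x y hxC hyC hX).mp e.1)).elim, fun e => (h4 e.1).elim⟩
  · have hF := (((h.fin y).union (D3 y)).insert ((1 : G) : G ⧸ C)).insert (y : G ⧸ C)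
    have hA := fun a => Set.Finite.of_finite_image
      (hF.subset (Set.image_subset_iff.mpr Set.inter_subset_right))
      ((hinj a).mono Set.inter_subset_left)
    refine ((hA 1).union (hA y)).subset ?_
    rintro _ ⟨x, rfl, -, -, h3⟩
    have h4 : x⁻¹ ∈ β ∨ x⁻¹ * y ∈ β := by tauto
    have h5 : (x : G ⧸ C) ∈ insert (y : G ⧸ C) (insert ((1 : G) : G ⧸ C) (Sp C X y ∪
        {q : G ⧸ C | ∃ x : G, (x : G ⧸ C) = q ∧ x⁻¹ ∈ X ∧ x⁻¹ * y ∈ X ∧
          ¬ R x⁻¹ (x⁻¹ * y)})) := by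
      by_cases h6 : x⁻¹ * y ∈ C
      · exact Or.inl (QuotientGroup.eq.mpr h6)
      by_cases h7 : x ∈ C
      · exact Or.inr (Or.inl (QuotientGroup.eq.mpr (by simpa using h7)))
      by_cases h8 : x⁻¹ ∈ X ↔ x⁻¹ * y ∈ X
      · have h9 : x⁻¹ ∈ X := h4.elim (fun e => e.1) fun e => h8.mpr e.1
        exact Or.inr (Or.inr (Or.inr ⟨x, rfl, h9, h8.mp h9,
          fun e => h3 (hiff _ h9 _ (h8.mp h9) e)⟩))
      · exact Or.inr (Or.inr (Or.inl ⟨x, rfl, h7, h6, h8⟩))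
    exact h4.imp (fun e => ⟨⟨x, rfl, by rwa [mul_one]⟩, h5⟩) fun e => ⟨⟨x, rfl, e⟩, h5⟩

end Pool.Agent.Lib.MP_d98eb9_al.W
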