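import Pool.Agent.Lib.MP_d98eb9_al.W.Half

/-! Complementary components. -/

namespace Pool.Agent.Lib.MP_d98eb9_al.W

namespace Gen

variable {G : Type} [Group G] {Γ : Gen G} {U W Y Z : Set G} {p q : G} {J : Subgroup G}

/-- Paths in an invariant set can be taken of bounded size. -/
theorem bdd_conn (hZ : ∀ c ∈ J, tr c Z = Z) (t s : ℕ) : ∃ l, ∀ p ∈ Γ.N t J, ∀ q, Γ.d p q ≤ s →
    Γ.Conn Z p q → Γ.Conn (Z ∪ {x | l < Γ.d p x}) p q := by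
  have h1 : ∀ x : G × G, ∃ l, Γ.Conn Z x.1 x.2 → Γ.Conn (Z ∪ {y | l < Γ.d x.1 y}) x.1 x.2 := by
    intro x
    by_cases h : Γ.Conn Z x.1 x.2
    · obtain ⟨F, hF, h⟩ := h.exists_finite
      obtain ⟨l, hl⟩ := bdd_of_finite (Γ := Γ) hF x.1
      exact ⟨l, fun _ => h.mono (Set.union_subset_union_right _ fun y hy hyF =>
        absurd (hl y hyF) (not_le.mpr hy))⟩
    · exact ⟨0, fun h' => absurd h' h⟩
  choose l hl using h1
  obtain ⟨L, hL⟩ := (((ball_finite (Γ := Γ) 1 t).prod (ball_finite (Γ := Γ) 1 (t + s))).image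
    l).bddAbove
  refine ⟨L, fun p ⟨c, hc, hd⟩ q hq h => ?_⟩
  have h2 := h.mul c⁻¹
  rw [hZ _ (J.inv_mem hc)] at h2
  have h3 := d_tri (Γ := Γ) c p q
  have h4 : l (c⁻¹ * p, c⁻¹ * q) ≤ L :=
    hL ⟨_, ⟨by rwa [d_eq] at hd, show Γ.d 1 (c⁻¹ * q) ≤ _ by rw [← d_eq]; omega⟩, rfl⟩
  have h5 := (hl (c⁻¹ * p, c⁻¹ * q) h2).mul c
  simp only [mul_inv_cancel_left] at h5
  refine h5.mono ?_
  rintro x (hx | hx)
  · exact Or.inl ((hZ c hc).ge hx)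
  · exact Or.inr ((lt_of_le_of_lt h4 hx).trans_eq (d_mul c⁻¹ p x).symm)

theorem Conn.const (h : Γ.Conn Z p q) (u : G → ℤ) (hY : ∀ x, x ∉ Z → x ∈ Y)
    (hE : ∀ x, x ∉ Z → x ∉ {p | p ∈ Y ∧ ∃ q ∈ Y, Γ.d p q ≤ 1 ∧ u p ≠ u q}) : u q = u p :=
  h.ind (P := fun x => u x = u p) rfl fun a b ha hb hd e => by_contra fun hn =>
    hE a ha ⟨hY a ha, b, hY b hb, hd, fun e' => hn (e'.symm.trans e)⟩

/-- The frontier between two connected sets is coarsely connected. -/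
theorem LP0.rc_fr (h : Γ.LP0) : ∃ r, ∀ U : Set G, (∀ p ∈ U, ∀ q ∈ U, Γ.Conn Uᶜ p q) →
    (∀ p, p ∉ U → ∀ q, q ∉ U → Γ.Conn U p q) → Γ.RC r (Γ.fr U) := by
  classical
  obtain ⟨ρ, h⟩ := h
  refine ⟨2 * ρ + 1, fun U h1 h2 A hA => ?_⟩
  obtain ⟨u, hu⟩ := h ℤ (fun p i => if p ∈ A ∧ p ∈ Γ.fr U then
    (if p * Γ.s i ∈ U then 1 else 0) - (if p ∈ U then 1 else 0) else 0) fun x => by
      by_cases hx : ∃ a ∈ Γ.fr U, a ∈ A ∧ Γ.d x a ≤ ρ
      · obtain ⟨a, ha, haA, hd⟩ := hx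
        refine ⟨fun p => if p ∈ U then 1 else 0, fun p i hp => ?_⟩
        by_cases hf : p ∈ Γ.fr U
        · have e1 := d_tri (Γ := Γ) a x p
          have e2 := d_comm (Γ := Γ) a x
          rw [if_pos ⟨hA a ha p hf (by omega) haA, hf⟩]
        · have : p ∈ U ↔ p * Γ.s i ∈ U := by_contra fun h => hf ⟨_, d_gen p i, h⟩
          simp [hf, this]
      · exact ⟨0, fun p i hp => by rw [if_neg fun h => hx ⟨p, h.2, h.1, hp⟩]; simp⟩
  have k1 : ∀ a b, Γ.d a b ≤ 1 → (a ∈ U ↔ b ∈ U) → u b = u a := fun a b hd e => by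
    rcases d_le_one.mp hd with h | ⟨i, h | h⟩
    · rw [h]
    · have := hu a i
      rw [← h] at this
      simp only [e, sub_self, ite_self] at this
      omega
    · have := hu b i
      rw [← h] at this
      simp only [e, sub_self, ite_self] at this
      omega
  have k2 : ∀ a ∈ U, ∀ b, b ∉ U → Γ.d a b ≤ 1 → (a ∈ A ↔ b ∈ A) ∧ (a ∈ A ↔ u a ≠ u b) := by
    intro a ha b hb hd
    have fa := mem_fr ha hb hd
    have fb := mem_fr' ha hb hd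
    have e : a ∈ A ↔ b ∈ A := ⟨hA a fa b fb (by omega), hA b fb a fa (by rw [d_comm]; omega)⟩
    refine ⟨e, ?_⟩
    rcases d_le_one.mp hd with h | ⟨i, h | h⟩
    · exact absurd (h ▸ ha) hb
    · have := hu a i
      rw [← h] at this
      by_cases hA : a ∈ A <;> simp [hA, fa, ha, hb] at this ⊢ <;> omega
    · have := hu b i
      rw [← h, ← e] at this
      by_cases hA : a ∈ A <;> simp [hA, fb, ha, hb] at this ⊢ <;> omega
  have k3 : ∀ x ∈ Γ.fr U, ∃ a ∈ U, ∃ b, b ∉ U ∧ (x ∈ A ↔ u a ≠ u b) := fun x ⟨y, hd, h⟩ => by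
    by_cases hx : x ∈ U
    · exact ⟨x, hx, y, by tauto, (k2 x hx y (by tauto) hd).2⟩
    · have := k2 y (by tauto) x hx (by rwa [d_comm])
      exact ⟨y, by tauto, x, hx, this.1.symm.trans this.2⟩
  intro p hp q hq hpA
  obtain ⟨a, ha, b, hb, e⟩ := k3 p hp
  obtain ⟨a', ha', b', hb', e'⟩ := k3 q hq
  have e1 : u a' = u a := (h1 a ha a' ha').ind (P := fun x => u x = u a) rfl
    fun x y hx hy hd e => (k1 x y hd (by simp_all)).trans e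
  have e2 : u b' = u b := (h2 b hb b' hb').ind (P := fun x => u x = u b) rfl
    fun x y hx hy hd e => (k1 x y hd (by simp_all)).trans e
  rw [e', e1, e2]
  exact e.mp hpA

variable (Γ) in
/-- `W` is a component of the complement of `Z`. -/
def Comp (Z W : Set G) : Prop := ∃ p, p ∉ Z ∧ W = {q | Γ.Conn Z p q}

theorem Comp.eq (h : Γ.Comp Z W) (hp : p ∈ W) : W = {q | Γ.Conn Z p q} := by
  obtain ⟨x, -, rfl⟩ := h
  exact Set.ext fun q => ⟨fun h => (Conn.symm hp).trans h, fun h => Conn.trans hp h⟩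

theorem Comp.out (h : Γ.Comp Z W) (hp : p ∈ W) : p ∉ Z := by
  obtain ⟨x, hx, rfl⟩ := h
  exact Conn.not_mem hp hx

theorem Comp.ne (h : Γ.Comp Z W) : W.Nonempty := by
  obtain ⟨x, -, rfl⟩ := h
  exact ⟨x, Conn.refl _ _⟩

theorem Comp.adj (h : Γ.Comp Z W) (hp : p ∈ W) (hq : q ∉ W) (hd : Γ.d p q ≤ 1) : q ∈ Z :=
  by_contra fun h' => hq ((h.eq hp).ge (Conn.single (h.out hp) h' hd))

theorem Comp.fr_subset (h : Γ.Comp Z W) : Γ.fr W ⊆ Γ.N 1 Z := fun p ⟨q, hd, hn⟩ => by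
  by_cases hp : p ∈ W
  · exact ⟨q, h.adj hp (by tauto) hd, by rwa [d_comm]⟩
  · exact subset_N _ _ (h.adj (p := q) (by tauto) hp (by rwa [d_comm]))

theorem Comp.conn (h : Γ.Comp Z W) (hp : p ∈ W) (hq : q ∈ W) : Γ.Conn Wᶜ p q :=
  (Conn.ind (P := fun x => x ∈ W ∧ Γ.Conn Wᶜ p x) ((h.eq hp).le hq) ⟨hp, Conn.refl _ _⟩
    fun _ _ _ hb hd e =>
      have := by_contra fun h' => hb (h.adj e.1 h' hd)
      ⟨this, e.2.trans (Conn.single (fun h => h e.1) (fun h => h this) hd)⟩).2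

theorem Comp.disj (h : Γ.Comp Z W) (h' : Γ.Comp Z U) (hp : p ∈ W) (hp' : p ∈ U) : W = U :=
  (h.eq hp).trans (h'.eq hp').symm

theorem Comp.tr (h : Γ.Comp Z W) (g : G) : Γ.Comp (tr g Z) (tr g W) := by
  obtain ⟨x, hx, rfl⟩ := h
  refine ⟨g * x, by simpa using hx, Set.ext fun q => ⟨fun h => ?_, fun h => ?_⟩⟩
  · simpa using Conn.mul h g
  · simpa [tr_inv_tr] using Conn.mul h g⁻¹

theorem Comp.conn' (h : Γ.Comp Z W) (hne : Z.Nonempty) (hZ : ∀ p ∈ Z, ∀ q ∈ Z, Γ.Conn Zᶜ p q)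
    (hp : p ∉ W) (hq : q ∉ W) : Γ.Conn W p q := by
  have key : ∀ p, p ∉ W → ∃ z ∈ Z, Γ.Conn W p z := fun p hp => by
    by_cases hpZ : p ∈ Z
    · exact ⟨p, hpZ, Conn.refl _ _⟩
    have h' : Γ.Comp Z {q | Γ.Conn Z p q} := ⟨p, hpZ, rfl⟩
    have hpp : p ∈ {q | Γ.Conn Z p q} := Conn.refl _ _
    obtain ⟨z, hz⟩ := hne
    obtain ⟨b, ⟨b', hd, hn⟩, hb, -⟩ := exists_fr (Γ := Γ) hpp fun h => h'.out (p := z) h hz
    have hb' := h'.adj hb (by tauto) hd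
    have hW : W ⊆ {q | Γ.Conn Z p q}ᶜ := fun x hx hx' => hp ((h.disj h' hx hx').ge hpp)
    exact ⟨b', hb', ((h'.conn hpp hb).mono hW).trans
      (Conn.single (fun h => hW h hb) (fun h1 => h.out h1 hb') hd)⟩
  obtain ⟨a, ha, h1⟩ := key p hp
  obtain ⟨b, hb, h2⟩ := key q hq
  exact (h1.trans ((hZ a ha b hb).mono fun x hx => h.out hx)).trans h2.symm

/-- There are finitely many orbits of components. -/
theorem comp_finite (R : ℕ) (J : Subgroup G) : ∃ F : Set (Set G), F.Finite ∧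
    (∀ W ∈ F, Γ.Comp (Γ.N R J) W) ∧ ∀ W, Γ.Comp (Γ.N R J) W → ∃ c ∈ J, ∃ U ∈ F, W = tr c U := by
  refine ⟨{W | Γ.Comp (Γ.N R J) W ∧ ∃ f ∈ W, Γ.d 1 f ≤ R + 1},
    ((ball_finite (Γ := Γ) 1 (R + 1)).image fun f => {q | Γ.Conn (Γ.N R J) f q}).subset
      fun W ⟨hW, f, hf, hd⟩ => ⟨f, hd, (hW.eq hf).symm⟩, fun W hW => hW.1, fun W hW => ?_⟩
  obtain ⟨p, hp⟩ := hW.ne
  obtain ⟨b, hb, hbW, -⟩ := exists_fr (Γ := Γ) hp fun h =>
    hW.out (p := 1) h (subset_N _ _ J.one_mem)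
  obtain ⟨c, hc, hd⟩ := N_N subset_rfl (hW.fr_subset hb)
  have := hW.tr c⁻¹
  rw [tr_N, tr_subgroup (J.inv_mem hc)] at this
  exact ⟨c, hc, _, ⟨this, c⁻¹ * b, by simpa using hbW, by rwa [← d_eq]⟩, (tr_tr_inv c W).symm⟩

end Gen

end Pool.Agent.Lib.MP_d98eb9_al.W
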