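import Pool.Agent.Lib.MP_d98eb9_al.W.Loc

/-! Cochains supported near a subgroup, and comparison of resolutions. -/

namespace Pool.Agent.Lib.MP_d98eb9_al.W

open MonoidAlgebra

variable {G : Type} [Group G] {Γ : Gen G}

section

variable {w : G →* ℤ} {J : Subgroup G} {A : Type} [AddCommGroup A]

namespace Rep

theorem rel_map {S Y T A : Type} [Ring S] [AddCommGroup A] [Fintype T] (a : T → S →+ A)
    (v : T → Y →₀ S) (h : ∀ y r, ∑ t, a t (v t y * r) = 0) (ν : (Y →₀ S) →ₗ[S] S) :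
    ∑ t, a t (ν (v t)) = 0 := by
  classical
  have hν : ∀ j, ν (v j) = ∑ y ∈ Finset.univ.biUnion fun j => (v j).support,
      v j y * ν (Finsupp.single y 1) := by
    intro j
    conv_lhs => rw [← Finsupp.sum_single (v j),
      Finsupp.sum_of_support_subset _
        (Finset.subset_biUnion_of_mem (fun j => (v j).support) (Finset.mem_univ j))
        _ (by simp), map_sum]
    refine Finset.sum_congr rfl fun y _ => ?_
    rw [← smul_eq_mul, ← map_smul, Finsupp.smul_single, smul_eq_mul, mul_one]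
  rw [Finset.sum_congr rfl fun j _ => by rw [hν j, map_sum], Finset.sum_comm]
  exact Finset.sum_eq_zero fun y _ => h y _

theorem rel_mul {P : Type} [AddCommGroup P] [Module (ZG G) P] {T : Type} [Fintype T]
    (a : T → ZG J →+ A) (q : T → Du w J P) (h : ∀ x, ∑ t, a t (prAt w J x (q t)) = 0) (x : P)
    (r : ZG J) : ∑ t, a t (prAt w J x (q t) * r) = 0 := by
  induction r using ind1 with
  | h0 => simp
  | hadd b c hb hc => simp only [mul_add, map_add, Finset.sum_add_distrib, hb, hc, add_zero]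
  | hneg b hb => simp only [mul_neg, map_neg, Finset.sum_neg_distrib, hb, neg_zero]
  | hs c =>
    have h1 := h ((single ((c⁻¹ : J) : G) 1 : ZG G) • x)
    have h2 : ∀ t, prAt w J ((single ((c⁻¹ : J) : G) 1 : ZG G) • x) (q t) =
        w ((c⁻¹ : J) : G) • (prAt w J x (q t) * single c 1) := by
      intro t
      rw [prAt_apply, prAt_apply, map_smul, smul_eq_mul, pr_mul_left, inv_inv, single_eq_zsmul,
        mul_smul_comm]
    simp only [h2, map_zsmul] at h1
    rw [← Finset.smul_sum] at h1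
    have h3 := congrArg (fun z => w (c : G) • z) h1
    simp only [smul_smul, Subgroup.coe_inv, w_mul_inv, one_smul, smul_zero] at h3
    exact h3

theorem repr_db {P : Type} [AddCommGroup P] [Module (ZG G) P] (w : G →* ℤ) (B : DB G P)
    (Ψ : P →+ A) (T : Finset (G ⧸ J))
    (hc : ∀ i g, ((g⁻¹ : G) : G ⧸ J) ∉ T → Ψ ((single g 1 : ZG G) • B.x i) = 0) :
    ∃ (T : Type) (_ : Fintype T) (a : T → ZG J →+ A) (q : T → Du w J P),
      ∀ x, Ψ x = ∑ t, a t (prAt w J x (q t)) := by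
  classical
  let a : Fin B.n → G ⧸ J → ZG J →+ A := fun i y =>
    lsum fun c : J => w c • Ψ ((single ((c : G)⁻¹ * y.out⁻¹) 1 : ZG G) • B.x i)
  have key : ∀ (i : Fin B.n) (r : ZG G), Ψ (r • B.x i) =
      ∑ y ∈ T, a i y (pr w J (r * single y.out 1)) := by
    intro i r
    induction r using ind1 with
    | h0 => simp
    | hadd b c hb hc => simp only [add_smul, map_add, hb, hc, add_mul, Finset.sum_add_distrib]
    | hneg b hb => simp only [neg_smul, map_neg, hb, neg_mul, Finset.sum_neg_distrib]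
    | hs h =>
      have hm : h * ((h⁻¹ : G) : G ⧸ J).out ∈ J := by
        simpa using J.inv_mem (out_inv_mul_mem (C := J) h⁻¹)
      have e : Ψ ((single h 1 : ZG G) • B.x i) = a i ((h⁻¹ : G) : G ⧸ J)
          (pr w J (single h 1 * single ((h⁻¹ : G) : G ⧸ J).out 1)) := by
        rw [single_mul_single, one_mul, pr_single_mem (⟨_, hm⟩ : J)]
        simp only [a, lsum_single, smul_smul, Subgroup.coe_inv, w_mul_inv, one_smul, inv_inv,
          mul_inv_cancel_right]
      rw [Finset.sum_eq_single ((h⁻¹ : G) : G ⧸ J), e]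
      · intro y _ hy
        rw [single_mul_single, pr_single_not_mem, map_zero]
        intro h'
        apply hy
        rw [← QuotientGroup.out_eq' y]
        exact (QuotientGroup.eq.mpr (by simpa using h')).symm
      · intro hn
        rw [← e]
        exact hc i h hn
  refine ⟨Fin B.n × T, inferInstance, fun j => a j.1 j.2,
    fun j => rm w J (B.f j.1) (single (j.2 : G ⧸ J).out 1), fun x => ?_⟩
  rw [Fintype.sum_prod_type]
  conv_lhs => rw [← B.sum_eq x, map_sum]
  refine Finset.sum_congr rfl fun i _ => ?_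
  rw [key, ← Finset.sum_coe_sort]
  rfl

theorem cosets (Γ : Gen G) (J : Subgroup G) (r : ℕ) :
    ∃ T : Finset (G ⧸ J), ∀ g, ((g⁻¹ : G) : G ⧸ J) ∉ T → g ∉ Γ.N r J := by
  refine ⟨((Γ.ball_finite 1 r).image fun f : G => ((f⁻¹ : G) : G ⧸ J)).toFinset, ?_⟩
  rintro g hg ⟨c, hc, hd⟩
  apply hg
  rw [Set.Finite.mem_toFinset]
  refine ⟨c⁻¹ * g, by rwa [Gen.d_eq] at hd, QuotientGroup.eq.mpr ?_⟩
  simpa using hc

/-- The standard dual basis of a free module. -/
noncomputable def dbFr (G : Type) [Group G] (n : ℕ) : DB G (Fr G n) where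
  n := n
  x i := e 1 i
  f i := Finsupp.lapply i
  sum_eq p := by
    conv_rhs => rw [← Finsupp.univ_sum_single p]
    exact Finset.sum_congr rfl fun i _ => by simp [e, ← one_def]

/-- The standard dual basis of the group ring. -/
noncomputable def db0 (G : Type) [Group G] : DB G (ZG G) where
  n := 1
  x _ := 1
  f _ := LinearMap.id
  sum_eq p := by simp

theorem pr_eq_zero {r : ZG G} (h : ∀ k ∈ r.coeff.support, k ∉ J) : pr w J r = 0 := by
  rw [pr, lsum_congr (u' := fun _ => 0), lsum_const, smul_zero]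
  exact fun k hk => dif_neg (h k hk)

theorem lift {S M N P : Type} [Ring S] [AddCommGroup M] [AddCommGroup N] [AddCommGroup P]
    [Module S M] [Module S N] [Module S P] (hP : Module.Projective S P) (f : M →ₗ[S] N)
    (g : P →ₗ[S] N) (h : ∀ x, g x ∈ Set.range f) : ∃ l : P →ₗ[S] M, ∀ x, f (l x) = g x := by
  obtain ⟨l, hl⟩ := Module.projective_lifting_property f.rangeRestrict
    (g.codRestrict (LinearMap.range f) h) f.surjective_rangeRestrict
  exact ⟨l, fun x => congrArg Subtype.val (LinearMap.congr_fun hl x)⟩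

end Rep

theorem rel {P : Type} [AddCommGroup P] [Module (ZG G) P] (B : DB G P) {T : Type} [Fintype T]
    (a : T → ZG J →+ A) (q : T → Du w J P) (h : ∀ x, ∑ t, a t (prAt w J x (q t)) = 0)
    (μ : Du w J P →ₗ[ZG J] ZG J) : ∑ t, a t (μ (q t)) = 0 := by
  have hμ : ∀ j, μ (q j) = ∑ i, (μ ∘ₗ Finsupp.linearCombination (ZG J)
      (fun y : G ⧸ J => rm w J (B.f i) (single y.out 1))) (kap w J ((q j).ev (B.x i))) := by
    intro j
    conv_lhs => rw [B.dual_eq (q j), map_sum]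
    exact Finset.sum_congr rfl fun i _ => by rw [LinearMap.comp_apply, lc_kap]
  rw [Finset.sum_congr rfl fun j _ => by rw [hμ j, map_sum], Finset.sum_comm]
  refine Finset.sum_eq_zero fun i _ => Rep.rel_map a _ (fun y r => ?_) _
  simp only [kap_apply]
  simpa using Rep.rel_mul a q h ((single y.out⁻¹ 1 : ZG G) • B.x i) r

theorem repr (w : G →* ℤ) {n : ℕ} (φ : Fr G n →+ A) {r : ℕ}
    (h : ∀ g i, g ∉ Γ.N r J → φ (e g i) = 0) :
    ∃ (T : Type) (_ : Fintype T) (a : T → ZG J →+ A) (q : T → Du w J (Fr G n)),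
      ∀ x, φ x = ∑ t, a t (prAt w J x (q t)) := by
  obtain ⟨T, hT⟩ := Rep.cosets Γ J r
  refine Rep.repr_db w (Rep.dbFr G n) φ T fun i g hg => ?_
  have := h g i (hT g hg)
  rwa [← mul_one g, ← smul_e] at this

theorem repr0 (w : G →* ℤ) (u : G → A) {r : ℕ} (h : ∀ g, g ∉ Γ.N r J → u g = 0) :
    ∃ (T : Type) (_ : Fintype T) (a : T → ZG J →+ A) (q : T → Du w J (ZG G)),
      ∀ x, lsum u x = ∑ t, a t (prAt w J x (q t)) := by
  obtain ⟨T, hT⟩ := Rep.cosets Γ J r
  refine Rep.repr_db w (Rep.db0 G) (lsum u) T fun i g hg => ?_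
  change lsum u ((single g 1 : ZG G) * 1) = 0
  rw [mul_one, lsum_single, h g (hT g hg), smul_zero]

theorem prAt_far0 (Γ : Gen G) (q : Du w J (ZG G)) :
    ∃ r, ∀ g, g ∉ Γ.N r J → prAt w J (single g 1 : ZG G) q = 0 := by
  obtain ⟨r, hr⟩ := Γ.bdd_of_finite (q.ev 1).coeff.support.finite_toSet 1
  refine ⟨r, fun g hg => ?_⟩
  have h1 : q.ev (single g 1) = single g 1 * q.ev 1 := by
    rw [← smul_eq_mul, ← map_smul, smul_eq_mul, mul_one]
  rw [prAt_apply, h1, pr, lsum_mul_left, lsum_congr (u' := fun _ => 0), lsum_const, smul_zero]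
  intro k hk
  refine dif_neg fun h => hg ⟨g * k, h, ?_⟩
  rw [Gen.d_comm, Gen.d_mul_right]
  exact hr k hk

theorem prAt_eq_zero {n : ℕ} {Z : Set G} (hZ : ∀ c ∈ J, ∀ g ∈ Z, c * g ∈ Z) (q : Du w J (Fr G n))
    (h : ∀ g i, g ∉ Z → co q.ev (e g i) = 0) {g : G} (hg : g ∉ Z) (i : Fin n) :
    prAt w J (e g i) q = 0 := by
  refine Rep.pr_eq_zero fun c hc hJ => Finsupp.mem_support_iff.mp hc ?_
  have h1 := h (c⁻¹ * g) i fun h' => hg (by simpa using hZ c hJ _ h')
  rw [co_apply, ← smul_e, map_smul, smul_eq_mul] at h1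
  simpa using h1

end

/-- A chain map from the Cayley resolution of `J` to the dual resolution. -/
structure Alpha (X : Geo Γ) {J : Subgroup G} (D : Dual Γ X.w X.d1 J) {k : ℕ} (t : Fin k → J) where
  x0 : G
  α1 : (Fin k →₀ ZG J) →ₗ[ZG J] Du X.w J (Fr G X.m)
  α2 : LinearMap.ker (bd t) →ₗ[ZG J] Du X.w J (Fr G Γ.n)
  h1 : ∀ v, D.e1 (α1 v) = bd t v • D.q x0
  h2 : ∀ κ, Du.map X.w J X.d1 (α2 κ) = α1 κ

variable {X : Geo Γ} {J : Subgroup G} {D : Dual Γ X.w X.d1 J} {k : ℕ} {t : Fin k → J}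

/-- A homotopy inverse. -/
structure Beta (α : Alpha X D t) where
  β1 : Du X.w J (Fr G X.m) →ₗ[ZG J] (Fin k →₀ ZG J)
  β2 : Du X.w J (Fr G Γ.n) →ₗ[ZG J] LinearMap.ker (bd t)
  h1 : Du X.w J (Fr G X.m) →ₗ[ZG J] Du X.w J (Fr G Γ.n)
  h2 : Du X.w J (Fr G Γ.n) →ₗ[ZG J] Du X.w J (ZG G)
  k1 : (Fin k →₀ ZG J) →ₗ[ZG J] LinearMap.ker (bd t)
  hβ : ∀ y, (β2 y : Fin k →₀ ZG J) = β1 (Du.map X.w J X.d1 y)
  hh : ∀ y, y = α.α2 (β2 y) + Du.map X.w J (bd Γ.s) (h2 y) + h1 (Du.map X.w J X.d1 y)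
  hk : ∀ κ, κ = β2 (α.α2 κ) + k1 κ

theorem exists_beta (α : Alpha X D t) (ht : Subgroup.closure (Set.range t) = ⊤) :
    Nonempty (Beta α) := by
  have p1 := (Rep.dbFr G Γ.n).projective (w := X.w) (C := J)
  have p2 := (Rep.dbFr G X.m).projective (w := X.w) (C := J)
  have pQ := D.proj
  have exb := exact_bd t ht
  obtain ⟨β0, hβ0⟩ := exists_beta' D.η_smul
  obtain ⟨β1, hβ⟩ := Rep.lift p2 (bd t) (β0 ∘ₗ D.e1) fun x =>
    (exb _).mp (by rw [LinearMap.comp_apply, hβ0]; exact D.exη.apply_apply_eq_zero x)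
  simp only [LinearMap.comp_apply] at hβ
  let β2 : Du X.w J (Fr G Γ.n) →ₗ[ZG J] LinearMap.ker (bd t) :=
    (β1 ∘ₗ Du.map X.w J X.d1).codRestrict _ fun y => by
      rw [LinearMap.mem_ker, LinearMap.comp_apply, hβ, D.ex2.apply_apply_eq_zero, map_zero]
  have hβ2 : ∀ y, (β2 y : Fin k →₀ ZG J) = β1 (Du.map X.w J X.d1 y) := fun _ => rfl
  obtain ⟨h0, hh0⟩ := Rep.lift pQ D.e1
    (LinearMap.id - LinearMap.toSpanSingleton (ZG J) _ (D.q α.x0) ∘ₗ β0) fun x =>
      (D.exη _).mp (by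
        rw [LinearMap.sub_apply, LinearMap.comp_apply, LinearMap.toSpanSingleton_apply, map_sub,
          eps_smul D.η_smul, hβ0, D.η_q, mul_one, LinearMap.id_apply, sub_self])
  simp only [LinearMap.sub_apply, LinearMap.comp_apply, LinearMap.toSpanSingleton_apply,
    LinearMap.id_apply] at hh0
  obtain ⟨h1, hh1⟩ := Rep.lift p2 (Du.map X.w J X.d1)
    (LinearMap.id - α.α1 ∘ₗ β1 - h0 ∘ₗ D.e1) fun y => (D.ex2 _).mp (by
      simp only [LinearMap.sub_apply, LinearMap.comp_apply, LinearMap.id_apply, map_sub, hh0,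
        α.h1, hβ, sub_self])
  simp only [LinearMap.sub_apply, LinearMap.comp_apply, LinearMap.id_apply] at hh1
  obtain ⟨h2, hh2⟩ := Rep.lift p1 (Du.map X.w J (bd Γ.s))
    (LinearMap.id - α.α2 ∘ₗ β2 - h1 ∘ₗ Du.map X.w J X.d1) fun y => by
      have h3 : Du.map X.w J X.d1 (y - α.α2 (β2 y) - h1 (Du.map X.w J X.d1 y)) = 0 := by
        simp only [map_sub, hh1, α.h2, hβ2, D.ex2.apply_apply_eq_zero, map_zero, sub_zero,
          sub_self]
      obtain ⟨θ, hθ⟩ := X.H1 _ (LinearMap.ext fun z =>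
        congrArg (fun v : Du X.w J (Fr G X.m) => v.ev z) h3)
      exact ⟨Du.mk X.w J θ, Du.ext fun x => LinearMap.congr_fun hθ x⟩
  simp only [LinearMap.sub_apply, LinearMap.comp_apply, LinearMap.id_apply] at hh2
  obtain ⟨s0, hs0⟩ := (exb (β0 (D.q α.x0) - 1)).mp (by
    rw [map_sub, hβ0, D.η_q, map_one, sub_self])
  let k1 : (Fin k →₀ ZG J) →ₗ[ZG J] LinearMap.ker (bd t) :=
    (LinearMap.id + LinearMap.toSpanSingleton (ZG J) _ s0 ∘ₗ bd t - β1 ∘ₗ α.α1).codRestrict _
      fun v => by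
        simp only [LinearMap.mem_ker, LinearMap.sub_apply, LinearMap.comp_apply, LinearMap.id_apply,
          LinearMap.add_apply, map_add,
          LinearMap.toSpanSingleton_apply, map_sub, map_smul, hβ, α.h1, hs0, smul_eq_mul]
        noncomm_ring
  refine ⟨⟨β1, β2, h1, h2, k1, hβ2, fun y => by rw [hh2]; abel, fun κ => Subtype.ext ?_⟩⟩
  have hκ : bd t κ = 0 := κ.2
  rw [Submodule.coe_add, hβ2, α.h2]
  simp [k1, hκ]

theorem exists_alpha (D : Dual Γ X.w X.d1 J) (t : Fin k → J)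
    (hp : Module.Projective (ZG J) (LinearMap.ker (bd t))) : Nonempty (Alpha X D t) := by
  choose u hu using fun i : Fin k => (D.exη ((single (t i) 1 - 1 : ZG J) • D.q 1)).mp
    (by rw [sub_smul, one_smul, map_sub, D.η_smul, sub_self])
  let α1 : (Fin k →₀ ZG J) →ₗ[ZG J] Du X.w J (Fr G X.m) := Finsupp.linearCombination (ZG J) u
  have hα : ∀ v, D.e1 (α1 v) = bd t v • D.q 1 := by
    intro v
    induction v using Finsupp.induction_linear with
    | zero => simp
    | add a b ha hb => simp only [map_add, ha, hb, add_smul]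
    | single i r => simp [α1, bd, hu, mul_smul]
  obtain ⟨α2, h2⟩ := Rep.lift (S := ZG J) (P := LinearMap.ker (bd t)) hp (Du.map X.w J X.d1)
    (α1 ∘ₗ (LinearMap.ker (bd t)).subtype) fun p => (D.ex2 _).mp (by
      rw [LinearMap.comp_apply, hα, Submodule.subtype_apply, show bd t p = 0 from p.2, zero_smul])
  exact ⟨⟨1, α1, α2, hα, h2⟩⟩

theorem Alpha.supp (α : Alpha X D t) (hf : Module.Finite (ZG J) (LinearMap.ker (bd t))) :
    ∃ R, ∀ κ g i, g ∉ Γ.N R J → co (α.α2 κ).ev (e g i) = 0 := by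
  obtain ⟨s, hs⟩ := hf.fg_top
  obtain ⟨R, hR⟩ := Γ.bdd_of_finite
    (s.finite_toSet.biUnion fun κ _ => co_finite (α.α2 κ).ev) 1
  refine ⟨R, fun κ => ?_⟩
  have hadd : ∀ (a b : Du X.w J (Fr G Γ.n)) x, co (a + b).ev x = co a.ev x + co b.ev x := by
    intro a b x
    simp [co_apply]
  have hκ : κ ∈ Submodule.span (ZG J) (s : Set (LinearMap.ker (bd t))) := hs ▸ Submodule.mem_top
  induction hκ using Submodule.span_induction with
  | mem κ hκ =>
    intro g i hg
    by_contra hne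
    exact hg ⟨1, J.one_mem, hR g (Set.mem_biUnion hκ ⟨i, hne⟩)⟩
  | zero => intro g i _; simp [co_apply]
  | add a b _ _ ha hb => intro g i hg; rw [map_add, hadd, ha g i hg, hb g i hg, add_zero]
  | smul r κ _ ih =>
    intro g i hg
    rw [map_smul]
    induction r using ind1 with
    | h0 => simp [co_apply]
    | hadd a b ha hb => rw [add_smul, hadd, ha, hb, add_zero]
    | hneg a ha =>
      rw [co_apply] at ha
      simp [co_apply, ha]
    | hs c =>
      have h1 := co_smul c (α.α2 κ) (e ((c : G)⁻¹ * g) i)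
      rw [smul_e, mul_inv_cancel_left] at h1
      rw [h1, ih _ i fun h => hg ((Gen.mul_mem_N (J.inv_mem c.2)).mp h), mul_zero]

end Pool.Agent.Lib.MP_d98eb9_al.W
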