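import Mathlib

/-! Word metric, neighbourhoods, frontiers, paths and ends. -/

namespace Pool.Agent.Lib.MP_d98eb9_al.W

open Relation

variable {G : Type} [Group G]

/-- A finite generating family. -/
structure Gen (G : Type) [Group G] where
  n : ℕ
  s : Fin n → G
  gen : Subgroup.closure (Set.range s) = ⊤

/-- Left translate of a set. -/
def tr (g : G) (A : Set G) : Set G := {p | g⁻¹ * p ∈ A}

@[simp] theorem mem_tr {g p : G} {A : Set G} : p ∈ tr g A ↔ g⁻¹ * p ∈ A := Iff.rfl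

theorem mul_mem_tr {g p : G} {A : Set G} : g * p ∈ tr g A ↔ p ∈ A := by simp

theorem tr_tr (g h : G) (A : Set G) : tr g (tr h A) = tr (g * h) A := by
  ext p; simp [mul_assoc]

@[simp] theorem tr_one (A : Set G) : tr 1 A = A := by ext p; simp

theorem tr_inv_tr (g : G) (A : Set G) : tr g⁻¹ (tr g A) = A := by rw [tr_tr]; simp

theorem tr_tr_inv (g : G) (A : Set G) : tr g (tr g⁻¹ A) = A := by rw [tr_tr]; simp

theorem tr_compl (g : G) (A : Set G) : tr g Aᶜ = (tr g A)ᶜ := rfl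

theorem tr_mono (g : G) {A B : Set G} (h : A ⊆ B) : tr g A ⊆ tr g B := fun _ hp => h hp

theorem tr_finite (g : G) {A : Set G} (h : A.Finite) : (tr g A).Finite :=
  h.preimage (f := fun p => g⁻¹ * p) (mul_right_injective _).injOn

theorem tr_subgroup {J : Subgroup G} {c : G} (hc : c ∈ J) : tr c (J : Set G) = J := by
  ext p
  simp [J.mul_mem_cancel_left (J.inv_mem hc)]

/-- A one-ended subgroup. -/
def OE (J : Subgroup G) : Prop :=
  (J : Set G).Infinite ∧ ∀ L : Set G, L ⊆ J → (∀ g ∈ J, {x | x ∈ L ∧ x * g ∉ L}.Finite) →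
    L.Finite ∨ ((J : Set G) \ L).Finite

namespace Gen

variable (Γ : Gen G)

/-- Equal or adjacent in the Cayley graph. -/
def Adj (p q : G) : Prop := q = p ∨ ∃ i, q = p * Γ.s i ∨ p = q * Γ.s i

/-- Joined by a path of at most `r` edges. -/
def Le : ℕ → G → G → Prop
  | 0, p, q => p = q
  | r + 1, p, q => ∃ x, Γ.Adj p x ∧ Le r x q

variable {Γ}

theorem Adj.symm {p q : G} (h : Γ.Adj p q) : Γ.Adj q p := by
  rcases h with h | ⟨i, h | h⟩
  · exact Or.inl h.symm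
  · exact Or.inr ⟨i, Or.inr h⟩
  · exact Or.inr ⟨i, Or.inl h⟩

theorem Adj.mul {p q : G} (h : Γ.Adj p q) (g : G) : Γ.Adj (g * p) (g * q) := by
  rcases h with h | ⟨i, h | h⟩
  · exact Or.inl (by rw [h])
  · exact Or.inr ⟨i, Or.inl (by rw [h, mul_assoc])⟩
  · exact Or.inr ⟨i, Or.inr (by rw [h, mul_assoc])⟩

theorem Le.mul : ∀ {r : ℕ} {p q : G}, Γ.Le r p q → ∀ g, Γ.Le r (g * p) (g * q)
  | 0, _, _, h, g => congrArg (g * ·) h
  | _ + 1, _, _, ⟨x, h1, h2⟩, g => ⟨g * x, h1.mul g, h2.mul g⟩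

theorem Le.trans : ∀ {r s : ℕ} {p q z : G}, Γ.Le r p q → Γ.Le s q z → Γ.Le (s + r) p z
  | 0, _, _, _, _, h, h' => by
    have h1 : _ = _ := h
    rw [h1]
    exact h'
  | _ + 1, _, _, _, _, ⟨x, h1, h2⟩, h' => ⟨x, h1, h2.trans h'⟩

theorem Le.symm : ∀ {r : ℕ} {p q : G}, Γ.Le r p q → Γ.Le r q p
  | 0, _, _, h => Eq.symm h
  | r + 1, p, _, ⟨x, h1, h2⟩ => by
    have h3 : Γ.Le 1 x p := ⟨p, h1.symm, rfl⟩
    have := h2.symm.trans h3
    rwa [add_comm] at this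

theorem Le.succ : ∀ {r : ℕ} {p q : G}, Γ.Le r p q → Γ.Le (r + 1) p q :=
  fun h => ⟨_, Or.inl rfl, h⟩

theorem Le.mono {r s : ℕ} {p q : G} (h : Γ.Le r p q) (hrs : r ≤ s) : Γ.Le s p q := by
  induction hrs with
  | refl => exact h
  | step _ ih => exact ih.succ

theorem exists_le (p q : G) : ∃ r, Γ.Le r p q := by
  have key : ∀ g : G, ∃ r, Γ.Le r 1 g := by
    intro g
    have hg : g ∈ Subgroup.closure (Set.range Γ.s) := Γ.gen ▸ Subgroup.mem_top g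
    induction hg using Subgroup.closure_induction with
    | mem g hg =>
      obtain ⟨i, rfl⟩ := hg
      exact ⟨1, _, Or.inr ⟨i, Or.inl (one_mul _).symm⟩, rfl⟩
    | one => exact ⟨0, rfl⟩
    | mul a b _ _ ha hb =>
      obtain ⟨r, hr⟩ := ha
      obtain ⟨s, hs⟩ := hb
      have := hs.mul a
      rw [mul_one] at this
      exact ⟨_, hr.trans this⟩
    | inv a _ ha =>
      obtain ⟨r, hr⟩ := ha
      have := hr.symm.mul a⁻¹
      rw [inv_mul_cancel, mul_one] at this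
      exact ⟨_, this⟩
  obtain ⟨r, hr⟩ := key (p⁻¹ * q)
  have := hr.mul p
  rw [mul_one, mul_inv_cancel_left] at this
  exact ⟨r, this⟩

variable (Γ) in
/-- The word metric. -/
noncomputable def d (p q : G) : ℕ := sInf {r | Γ.Le r p q}

theorem d_le_iff {r : ℕ} {p q : G} : Γ.d p q ≤ r ↔ Γ.Le r p q :=
  ⟨fun h => Le.mono (Nat.sInf_mem (s := {r | Γ.Le r p q}) (exists_le p q)) h,
    fun h => Nat.sInf_le h⟩

@[simp] theorem d_self (p : G) : Γ.d p p = 0 := Nat.le_zero.mp (d_le_iff.mpr rfl)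

theorem eq_of_d {p q : G} (h : Γ.d p q ≤ 0) : p = q := d_le_iff.mp h

theorem d_comm (p q : G) : Γ.d p q = Γ.d q p :=
  le_antisymm (d_le_iff.mpr (d_le_iff.mp le_rfl).symm) (d_le_iff.mpr (d_le_iff.mp le_rfl).symm)

theorem d_tri (p q z : G) : Γ.d p z ≤ Γ.d p q + Γ.d q z := by
  rw [add_comm]
  exact d_le_iff.mpr ((d_le_iff.mp le_rfl).trans (d_le_iff.mp le_rfl))

@[simp] theorem d_mul (g p q : G) : Γ.d (g * p) (g * q) = Γ.d p q := by
  refine le_antisymm (d_le_iff.mpr ((d_le_iff.mp le_rfl).mul g)) ?_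
  have := (d_le_iff.mp (le_refl (Γ.d (g * p) (g * q)))).mul g⁻¹
  rw [inv_mul_cancel_left, inv_mul_cancel_left] at this
  exact d_le_iff.mpr this

theorem d_mul_right (p g : G) : Γ.d p (p * g) = Γ.d 1 g := by
  rw [← d_mul p 1 g, mul_one]

theorem d_eq (p q : G) : Γ.d p q = Γ.d 1 (p⁻¹ * q) := by
  rw [← d_mul p⁻¹ p q, inv_mul_cancel]

theorem d_le_one {p q : G} : Γ.d p q ≤ 1 ↔ Γ.Adj p q :=
  d_le_iff.trans ⟨fun ⟨_, h, h'⟩ => (show _ = _ from h') ▸ h, fun h => ⟨_, h, rfl⟩⟩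

theorem d_gen (p : G) (i : Fin Γ.n) : Γ.d p (p * Γ.s i) ≤ 1 :=
  d_le_one.mpr (Or.inr ⟨i, Or.inl rfl⟩)

theorem d_step {r : ℕ} {p q : G} (h : Γ.d p q ≤ r + 1) : ∃ x, Γ.d p x ≤ 1 ∧ Γ.d x q ≤ r := by
  obtain ⟨x, h1, h2⟩ := d_le_iff.mp h
  exact ⟨x, d_le_one.mpr h1, d_le_iff.mpr h2⟩

theorem ball_finite (p : G) (r : ℕ) : {q | Γ.d p q ≤ r}.Finite := by
  induction r with
  | zero => exact (Set.finite_singleton p).subset fun q hq => (eq_of_d hq).symm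
  | succ r ih =>
    refine (ih.union ((ih.biUnion fun x _ => Set.finite_range fun i => x * Γ.s i).union
      (ih.biUnion fun x _ => Set.finite_range fun i => x * (Γ.s i)⁻¹))).subset fun q hq => ?_
    have hq' : Γ.d q p ≤ r + 1 := by rw [d_comm]; exact hq
    obtain ⟨x, h1, h2⟩ := d_step hq'
    rw [d_comm] at h2
    rcases d_le_one.mp h1 with h | ⟨i, h | h⟩
    · exact Or.inl (h ▸ h2)
    · exact Or.inr (Or.inr (Set.mem_biUnion h2 ⟨i, by simp [h]⟩))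
    · exact Or.inr (Or.inl (Set.mem_biUnion h2 ⟨i, h.symm⟩))

theorem bdd_of_finite {F : Set G} (hF : F.Finite) (p : G) : ∃ r, ∀ q ∈ F, Γ.d p q ≤ r := by
  obtain ⟨r, hr⟩ := (hF.image (Γ.d p)).bddAbove
  exact ⟨r, fun q hq => hr ⟨q, hq, rfl⟩⟩

variable (Γ)

/-- The neighbourhood of radius `r`. -/
def N (r : ℕ) (A : Set G) : Set G := {p | ∃ a ∈ A, Γ.d a p ≤ r}

/-- Coarse containment. -/
def Near (A B : Set G) : Prop := ∃ r, A ⊆ Γ.N r B

/-- The endpoints of the edges between `U` and its complement. -/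
def fr (U : Set G) : Set G := {p | ∃ q, Γ.d p q ≤ 1 ∧ ¬ (p ∈ U ↔ q ∈ U)}

/-- Joined by a path that avoids `Z` (or equal). -/
def Conn (Z : Set G) (p q : G) : Prop := ReflTransGen (fun a b => a ∉ Z ∧ b ∉ Z ∧ Γ.d a b ≤ 1) p q

/-- Coarsely disjoint up to finite sets. -/
def Far (A B : Set G) : Prop := ∀ r, (Γ.N r A ∩ B).Finite

/-- A one-ended subset. -/
def OEs (Z : Set G) : Prop :=
  Z.Infinite ∧ ∀ A B : Set G, Γ.Near Z (A ∪ B) → Γ.Far A B → Γ.Far A Z ∨ Γ.Far B Z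

/-- A subset that is connected by jumps of length at most `r`. -/
def RC (r : ℕ) (Z : Set G) : Prop :=
  ∀ A : Set G, (∀ p ∈ Z, ∀ q ∈ Z, Γ.d p q ≤ r → p ∈ A → q ∈ A) → ∀ p ∈ Z, ∀ q ∈ Z, p ∈ A → q ∈ A

/-- Functions that change along finitely many edges inside `Y` are almost constant on `Y`. -/
def OEf (Y : Set G) : Prop :=
  ∀ u : G → ℤ, {p | p ∈ Y ∧ ∃ q ∈ Y, Γ.d p q ≤ 1 ∧ u p ≠ u q}.Finite → ∃ a, {p | p ∈ Y ∧ u p ≠ a}.Finite

/-- Cochains that are locally coboundaries are coboundaries. -/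
def LP0 : Prop :=
  ∃ ρ, ∀ (A : Type) [AddCommGroup A] (z : G → Fin Γ.n → A),
    (∀ h, ∃ g : G → A, ∀ p i, Γ.d h p ≤ ρ → z p i = g (p * Γ.s i) - g p) →
      ∃ u : G → A, ∀ p i, z p i = u (p * Γ.s i) - u p

/-- Cochains that are locally coboundaries away from a finite set are almost coboundaries. -/
def LP1 : Prop :=
  ∃ ρ, ∀ z : G → Fin Γ.n → ℤ,
    {h | ¬ ∃ g : G → ℤ, ∀ p i, Γ.d h p ≤ ρ → z p i = g (p * Γ.s i) - g p}.Finite →
      ∃ u : G → ℤ, {p | ∃ i, z p i ≠ u (p * Γ.s i) - u p}.Finite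

variable {Γ} {A B C U Z Z' : Set G} {p q z : G} {r s : ℕ}

theorem subset_N (r : ℕ) (A : Set G) : A ⊆ Γ.N r A := fun a ha => ⟨a, ha, by simp⟩

theorem N_mono (h : r ≤ s) (hA : A ⊆ B) : Γ.N r A ⊆ Γ.N s B :=
  fun _ ⟨a, ha, hd⟩ => ⟨a, hA ha, hd.trans h⟩

theorem mem_N_of_d (hp : p ∈ Γ.N r A) (h : Γ.d p q ≤ s) : q ∈ Γ.N (r + s) A := by
  obtain ⟨a, ha, hd⟩ := hp
  exact ⟨a, ha, (d_tri a p q).trans (add_le_add hd h)⟩

theorem N_N (h : A ⊆ Γ.N r B) : Γ.N s A ⊆ Γ.N (r + s) B :=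
  fun _ ⟨_, ha, hd⟩ => mem_N_of_d (h ha) hd

theorem N_union : Γ.N r (A ∪ B) = Γ.N r A ∪ Γ.N r B := by
  ext p
  constructor
  · rintro ⟨a, ha | ha, hd⟩
    · exact Or.inl ⟨a, ha, hd⟩
    · exact Or.inr ⟨a, ha, hd⟩
  · rintro (⟨a, ha, hd⟩ | ⟨a, ha, hd⟩)
    · exact ⟨a, Or.inl ha, hd⟩
    · exact ⟨a, Or.inr ha, hd⟩

theorem N_finite (h : A.Finite) (r : ℕ) : (Γ.N r A).Finite :=
  (h.biUnion fun a _ => ball_finite (Γ := Γ) a r).subset fun _ ⟨_, ha, hd⟩ =>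
    Set.mem_biUnion ha hd

theorem tr_N (g : G) (r : ℕ) (A : Set G) : tr g (Γ.N r A) = Γ.N r (tr g A) := by
  ext p
  constructor
  · rintro ⟨a, ha, hd⟩
    exact ⟨g * a, by simpa using ha, by rwa [← d_mul g, mul_inv_cancel_left] at hd⟩
  · rintro ⟨a, ha, hd⟩
    exact ⟨g⁻¹ * a, ha, by rwa [d_mul]⟩

theorem mul_mem_N {J : Subgroup G} {c : G} (hc : c ∈ J) :
    c * p ∈ Γ.N r (J : Set G) ↔ p ∈ Γ.N r (J : Set G) := by
  conv_lhs => rw [← tr_subgroup hc, ← tr_N, mul_mem_tr]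

theorem Near.refl (A : Set G) : Γ.Near A A := ⟨0, subset_N 0 A⟩

theorem Near.of_subset (h : A ⊆ B) : Γ.Near A B := ⟨0, h.trans (subset_N 0 B)⟩

theorem Near.trans (h : Γ.Near A B) (h' : Γ.Near B C) : Γ.Near A C := by
  obtain ⟨r, hr⟩ := h
  obtain ⟨s, hs⟩ := h'
  exact ⟨_, hr.trans (N_N hs)⟩

theorem near_N (r : ℕ) (A : Set G) : Γ.Near (Γ.N r A) A := ⟨r, subset_rfl⟩

theorem Near.union (h : Γ.Near A C) (h' : Γ.Near B C) : Γ.Near (A ∪ B) C := by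
  obtain ⟨r, hr⟩ := h
  obtain ⟨s, hs⟩ := h'
  exact ⟨r + s, Set.union_subset (hr.trans (N_mono (by omega) subset_rfl))
    (hs.trans (N_mono (by omega) subset_rfl))⟩

theorem Near.tr (h : Γ.Near A B) (g : G) : Γ.Near (tr g A) (tr g B) := by
  obtain ⟨r, hr⟩ := h
  exact ⟨r, tr_N (Γ := Γ) g r B ▸ tr_mono g hr⟩

theorem Near.finite (h : Γ.Near A B) (hB : B.Finite) : A.Finite := by
  obtain ⟨r, hr⟩ := h
  exact (N_finite hB r).subset hr

/-- A subgroup is near every nonempty invariant set. -/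
theorem near_of_inv {J : Subgroup G} (hA : ∀ c ∈ J, ∀ a ∈ A, c * a ∈ A) (hne : A.Nonempty) :
    Γ.Near J A := by
  obtain ⟨a, ha⟩ := hne
  exact ⟨Γ.d a 1, fun c hc => ⟨c * a, hA c hc a ha, by rw [← d_mul c⁻¹]; simp⟩⟩

theorem fr_compl (U : Set G) : Γ.fr Uᶜ = Γ.fr U := by
  ext p
  simp only [fr, Set.mem_ofPred_eq, Set.mem_compl_iff, not_iff_not]

theorem tr_fr (g : G) (U : Set G) : tr g (Γ.fr U) = Γ.fr (tr g U) := by
  ext p
  constructor
  · rintro ⟨q, hd, h⟩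
    exact ⟨g * q, by rwa [← d_mul g, mul_inv_cancel_left] at hd, by simpa using h⟩
  · rintro ⟨q, hd, h⟩
    exact ⟨g⁻¹ * q, by rwa [d_mul], h⟩

theorem mem_fr (hp : p ∈ U) (hq : q ∉ U) (h : Γ.d p q ≤ 1) : p ∈ Γ.fr U :=
  ⟨q, h, fun h' => hq (h'.mp hp)⟩

theorem mem_fr' (hp : p ∈ U) (hq : q ∉ U) (h : Γ.d p q ≤ 1) : q ∈ Γ.fr U :=
  ⟨p, by rwa [d_comm], fun h' => hq (h'.mpr hp)⟩

/-- A geodesic from `U` to its complement meets the frontier. -/
theorem exists_fr (hp : p ∈ U) (hq : q ∉ U) :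
    ∃ b ∈ Γ.fr U, b ∈ U ∧ Γ.d p b + Γ.d b q ≤ Γ.d p q := by
  have key : ∀ (r : ℕ) (p : G), p ∈ U → Γ.d p q ≤ r →
      ∃ b ∈ Γ.fr U, b ∈ U ∧ Γ.d p b + Γ.d b q ≤ r := by
    intro r
    induction r with
    | zero => exact fun p hp h => absurd (eq_of_d h ▸ hp) hq
    | succ r ih =>
      intro p hp h
      obtain ⟨x, h1, h2⟩ := d_step h
      by_cases hx : x ∈ U
      · obtain ⟨b, hb, hbU, hd⟩ := ih x hx h2
        have := d_tri (Γ := Γ) p x b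
        exact ⟨b, hb, hbU, by omega⟩
      · exact ⟨p, mem_fr hp hx h1, hp, by simpa using h⟩
  exact key _ p hp le_rfl

theorem N_inter_subset (r : ℕ) (U : Set G) : Γ.N r U ∩ Γ.N r Uᶜ ⊆ Γ.N r (Γ.fr U) := by
  rintro p ⟨⟨a, ha, hd⟩, b, hb, hd'⟩
  by_cases hp : p ∈ U
  · obtain ⟨x, hx, -, h⟩ := exists_fr (Γ := Γ) hp hb
    rw [d_comm] at hd'
    exact ⟨x, hx, by rw [d_comm]; omega⟩
  · obtain ⟨x, hx, -, h⟩ := exists_fr (Γ := Γ) ha hp
    exact ⟨x, hx, by omega⟩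

theorem mem_N_fr (hp : p ∈ U) (h : p ∈ Γ.N r Uᶜ) : p ∈ Γ.N r (Γ.fr U) :=
  N_inter_subset r U ⟨subset_N r U hp, h⟩

theorem mem_N_fr' (hp : p ∉ U) (h : p ∈ Γ.N r U) : p ∈ Γ.N r (Γ.fr U) :=
  N_inter_subset r U ⟨h, subset_N r Uᶜ hp⟩

theorem Near.fr (h : Γ.Near A U) (h' : Γ.Near A Uᶜ) : Γ.Near A (Γ.fr U) := by
  obtain ⟨r, hr⟩ := h
  obtain ⟨s, hs⟩ := h'
  exact ⟨r + s, fun a ha => N_inter_subset _ U ⟨N_mono (by omega) subset_rfl (hr ha),
    N_mono (by omega) subset_rfl (hs ha)⟩⟩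

theorem fr_subset (U : Set G) : Γ.fr U ⊆ Γ.N 1 U := by
  rintro p ⟨q, hd, h⟩
  by_cases hp : p ∈ U
  · exact subset_N 1 U hp
  · exact ⟨q, by tauto, by rwa [d_comm]⟩

theorem fr_subset' (U : Set G) : Γ.fr U ⊆ Γ.N 1 Uᶜ := fr_compl (Γ := Γ) U ▸ fr_subset Uᶜ

theorem fr_subset_inner (U : Set G) : Γ.fr U ⊆ Γ.N 1 (U ∩ Γ.fr U) := by
  rintro p ⟨q, hd, h⟩
  by_cases hp : p ∈ U
  · exact subset_N 1 _ ⟨hp, q, hd, h⟩
  · have hq : q ∈ U := by tauto
    rw [d_comm] at hd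
    exact ⟨q, ⟨hq, mem_fr hq hp hd⟩, hd⟩

theorem fr_inter (U V : Set G) :
    Γ.fr (U ∩ V) ⊆ (Γ.fr U ∩ Γ.N 1 V) ∪ (Γ.fr V ∩ Γ.N 1 U) := by
  intro p hp
  have h1 := fr_subset _ hp
  obtain ⟨q, hd, h⟩ := hp
  by_cases hU : p ∈ U ↔ q ∈ U
  · exact Or.inr ⟨⟨q, hd, fun hV => h (by simp [hU, hV])⟩,
      N_mono le_rfl Set.inter_subset_left h1⟩
  · exact Or.inl ⟨⟨q, hd, hU⟩, N_mono le_rfl Set.inter_subset_right h1⟩

theorem Conn.refl (Z : Set G) (p : G) : Γ.Conn Z p p := ReflTransGen.refl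

theorem Conn.trans (h : Γ.Conn Z p q) (h' : Γ.Conn Z q z) : Γ.Conn Z p z := ReflTransGen.trans h h'

theorem Conn.single (hp : p ∉ Z) (hq : q ∉ Z) (h : Γ.d p q ≤ 1) : Γ.Conn Z p q :=
  ReflTransGen.single ⟨hp, hq, h⟩

theorem Conn.symm (h : Γ.Conn Z p q) : Γ.Conn Z q p := by
  induction h with
  | refl => exact Conn.refl _ _
  | tail _ h2 ih => exact (Conn.single h2.2.1 h2.1 (by rw [d_comm]; exact h2.2.2)).trans ih

theorem Conn.mono (h : Γ.Conn Z p q) (hZ : Z' ⊆ Z) : Γ.Conn Z' p q := by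
  induction h with
  | refl => exact Conn.refl _ _
  | tail _ h ih =>
    exact ih.trans (Conn.single (fun h' => h.1 (hZ h')) (fun h' => h.2.1 (hZ h')) h.2.2)

theorem Conn.not_mem (h : Γ.Conn Z p q) (hp : p ∉ Z) : q ∉ Z := by
  induction h with
  | refl => exact hp
  | tail _ h2 _ => exact h2.2.1

theorem Conn.mul (h : Γ.Conn Z p q) (g : G) : Γ.Conn (tr g Z) (g * p) (g * q) := by
  induction h with
  | refl => exact Conn.refl _ _
  | tail _ h2 ih =>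
    exact ih.trans (Conn.single (by simpa using h2.1) (by simpa using h2.2.1)
      (by simpa using h2.2.2))

/-- Induction along a path. -/
theorem Conn.ind {P : G → Prop} (h : Γ.Conn Z p q) (hp : P p)
    (hs : ∀ a b, a ∉ Z → b ∉ Z → Γ.d a b ≤ 1 → P a → P b) : P q := by
  induction h with
  | refl => exact hp
  | tail _ h2 ih => exact hs _ _ h2.1 h2.2.1 h2.2.2 ih

theorem Conn.mem (h : Γ.Conn Z p q) (hU : U ∩ Γ.fr U ⊆ Z) (hp : p ∈ U) : q ∈ U :=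
  h.ind hp fun _ _ ha _ hd hU' => by_contra fun hb => ha (hU ⟨hU', mem_fr hU' hb hd⟩)

/-- A path inside `U` also avoids every set whose trace on `U` it avoids. -/
theorem Conn.inside (h : Γ.Conn Z p q) (hU : U ∩ Γ.fr U ⊆ Z) (hp : p ∈ U) (hZ : Z' ∩ U ⊆ Z) :
    Γ.Conn Z' p q :=
  (h.ind (P := fun x => x ∈ U ∧ Γ.Conn Z' p x) ⟨hp, Conn.refl _ _⟩ fun _ _ ha hb hd hP =>
    have hb' := (Conn.single ha hb hd).mem hU hP.1
    ⟨hb', hP.2.trans (Conn.single (fun h => ha (hZ ⟨h, hP.1⟩)) (fun h => hb (hZ ⟨h, hb'⟩)) hd)⟩).2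

theorem conn_of_d (hp : p ∉ Γ.N r Z) (h : Γ.d p q ≤ r) : Γ.Conn Z p q := by
  induction r generalizing p with
  | zero => exact eq_of_d h ▸ Conn.refl _ _
  | succ r ih =>
    obtain ⟨x, h1, h2⟩ := d_step h
    have hx : x ∉ Γ.N r Z := fun hx => hp (mem_N_of_d hx (by rwa [d_comm]))
    exact (Conn.single (fun h => hp (subset_N _ _ h)) (fun h => hx (subset_N _ _ h)) h1).trans
      (ih hx h2)

theorem conn_empty (p q : G) : Γ.Conn ∅ p q :=
  conn_of_d (r := Γ.d p q) (fun ⟨_, h, _⟩ => h) le_rfl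

/-- A path passes through finitely many points. -/
theorem Conn.exists_finite (h : Γ.Conn Z p q) : ∃ F : Set G, F.Finite ∧ Γ.Conn (Z ∪ Fᶜ) p q := by
  induction h with
  | refl => exact ⟨∅, Set.finite_empty, Conn.refl _ _⟩
  | @tail b c _ h2 ih =>
    obtain ⟨F, hF, h⟩ := ih
    refine ⟨insert b (insert c F), (hF.insert c).insert b,
      (h.mono (Set.union_subset_union_right _ (Set.compl_subset_compl.mpr fun x hx => ?_))).trans
        (Conn.single ?_ ?_ h2.2.2)⟩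
    · exact Or.inr (Or.inr hx)
    · simp [h2.1]
    · simp [h2.2.1]

theorem eq_of_fr_empty (h : U ∩ Γ.fr U = ∅) : U = ∅ ∨ U = Set.univ := by
  rcases U.eq_empty_or_nonempty with h0 | ⟨p, hp⟩
  · exact Or.inl h0
  · exact Or.inr (Set.eq_univ_of_forall fun q => (conn_empty (Γ := Γ) p q).mem h.subset hp)

theorem Far.symm (h : Γ.Far A B) : Γ.Far B A := fun r =>
  (N_finite (Γ := Γ) (h r) r).subset fun a ⟨⟨b, hb, hd⟩, ha⟩ =>
    ⟨b, ⟨⟨a, ha, by rwa [d_comm]⟩, hb⟩, hd⟩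

theorem Far.near_left (h : Γ.Far A B) (h' : Γ.Near C A) : Γ.Far C B := fun r => by
  obtain ⟨s, hs⟩ := h'
  exact (h (s + r)).subset (Set.inter_subset_inter_left _ (N_N hs))

theorem Far.near_right (h : Γ.Far A B) (h' : Γ.Near C B) : Γ.Far A C :=
  (h.symm.near_left h').symm

theorem far_of_finite (h : A.Finite) (B : Set G) : Γ.Far A B :=
  fun r => (N_finite h r).subset Set.inter_subset_left

theorem Far.union (h : Γ.Far A C) (h' : Γ.Far B C) : Γ.Far (A ∪ B) C := fun r => by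
  rw [N_union, Set.union_inter_distrib_right]
  exact (h r).union (h' r)

theorem Far.finite (h : Γ.Far A B) (h' : Γ.Near A B) : A.Finite := by
  have := (h.near_right h') 0
  exact this.subset fun a ha => ⟨subset_N 0 A ha, ha⟩

theorem OEs.near (h : Γ.OEs Z) (h1 : Γ.Near Z Z') (h2 : Γ.Near Z' Z) : Γ.OEs Z' :=
  ⟨fun hf => h.1 (h1.finite hf), fun A B hn hf =>
    (h.2 A B (h1.trans hn) hf).imp (fun h => h.near_right h2) fun h => h.near_right h2⟩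

theorem oes_iff {J : Subgroup G} : Γ.OEs J ↔ OE J := by
  refine and_congr_right fun _ => ⟨fun h L hL hai => ?_, fun h A B hn hf => ?_⟩
  · have hf : Γ.Far L (J \ L) := fun r => by
      refine (((ball_finite (Γ := Γ) 1 r).inter_of_left (J : Set G)).biUnion fun g hg =>
        (hai g hg.2).image (· * g)).subset ?_
      rintro p ⟨⟨a, ha, hd⟩, hp, hpL⟩
      refine Set.mem_biUnion (x := a⁻¹ * p) ⟨?_, J.mul_mem (J.inv_mem (hL ha)) hp⟩
        ⟨a, ⟨ha, by simpa using hpL⟩, by simp⟩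
      rwa [d_eq] at hd
    rcases h L (J \ L) (Near.of_subset (by simp)) hf with h | h
    · exact Or.inl (h.finite (Near.of_subset hL))
    · exact Or.inr (h.finite (Near.of_subset Set.sdiff_subset))
  · obtain ⟨r, hr⟩ := hn
    rw [N_union] at hr
    have hAB : ∀ s, (Γ.N s A ∩ Γ.N r B).Finite := fun s => hf.near_right (near_N r B) s
    rcases h (J ∩ Γ.N r A) Set.inter_subset_left (fun g hg => (N_finite (Γ := Γ)
      (hAB (r + Γ.d 1 g)) (Γ.d 1 g)).subset fun x hx => ⟨x * g, ⟨mem_N_of_d hx.1.2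
        (d_mul_right x g).le, (hr (J.mul_mem hx.1.1 hg)).resolve_left fun h' =>
          hx.2 ⟨J.mul_mem hx.1.1 hg, h'⟩⟩, by rw [d_comm, d_mul_right]⟩) with h | h
    · refine Or.inl fun s => (h.union (hAB s)).subset fun x hx => ?_
      exact (hr hx.2).imp (fun h' => ⟨hx.2, h'⟩) fun h' => ⟨hx.1, h'⟩
    · refine Or.inr fun s => (h.union ((hf.symm.near_right (near_N r A)) s)).subset fun x hx => ?_
      by_cases h' : x ∈ Γ.N r A
      · exact Or.inr ⟨hx.1, h'⟩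
      · exact Or.inl ⟨hx.2, fun h2 => h' h2.2⟩

theorem OE.finite_of_fr (h : OE (⊤ : Subgroup G)) (hU : (U ∩ Γ.fr U).Finite) :
    U.Finite ∨ Uᶜ.Finite := by
  have hf : Γ.Far U Uᶜ := fun r => by
    refine (N_finite (Γ := Γ) hU r).subset ?_
    rintro p ⟨⟨a, ha, hd⟩, hp⟩
    obtain ⟨b, hb, hbU, h⟩ := exists_fr (Γ := Γ) ha hp
    exact ⟨b, ⟨hbU, hb⟩, by omega⟩
  rcases (oes_iff.mpr h).2 U Uᶜ (Near.of_subset (by simp)) hf with h | h
  · exact Or.inl (h.finite (Near.of_subset (by simp)))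
  · exact Or.inr (h.finite (Near.of_subset (by simp)))

theorem RC.mono (h : Γ.RC r Z) (hrs : r ≤ s) : Γ.RC s Z :=
  fun A hA => h A fun p hp q hq hd => hA p hp q hq (hd.trans hrs)

theorem RC.near (h : Γ.RC r Z) (h1 : Z ⊆ Γ.N s Z') (h2 : Z' ⊆ Γ.N s Z) : Γ.RC (r + 2 * s) Z' := by
  intro A hA p hp q hq hpA
  obtain ⟨p', hp', hd⟩ := h2 hp
  obtain ⟨q', hq', hd'⟩ := h2 hq
  obtain ⟨y, hy, hyA, hd2⟩ := h {x | ∃ y ∈ Z', y ∈ A ∧ Γ.d y x ≤ s} (fun a _ b hb hab ⟨y, hy, hyA, hd⟩ => by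
    obtain ⟨y', hy', hd'⟩ := h1 hb
    have h3 := d_tri (Γ := Γ) y a y'
    have h4 := d_tri (Γ := Γ) a b y'
    have h5 := d_comm (Γ := Γ) b y'
    exact ⟨y', hy', hA y hy y' hy' (by omega) hyA, hd'⟩) p' hp' q' hq'
      ⟨p, hp, hpA, by rwa [d_comm]⟩
  have h3 := d_tri (Γ := Γ) y q' q
  exact hA y hy q hq (by omega) hyA

theorem RC.tr (h : Γ.RC r Z) (g : G) : Γ.RC r (tr g Z) := fun A hA p hp q hq hpA => by
  have := h (W.tr g⁻¹ A) (fun a ha b hb hd h' => by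
    simpa using hA (g * a) (by simpa using ha) (g * b) (by simpa using hb) (by simpa using hd)
      (by simpa using h')) _ hp _ hq (by simpa using hpA)
  simpa using this

theorem fg_iff_rc {J : Subgroup G} : J.FG ↔ ∃ r, Γ.RC r J := by
  constructor
  · rintro ⟨T, hT⟩
    obtain ⟨r, hr⟩ := bdd_of_finite (Γ := Γ) T.finite_toSet 1
    refine ⟨r, fun A hA p hp q hq hpA => ?_⟩
    have key : ∀ g ∈ Subgroup.closure (T : Set G), ∀ x ∈ J, (x ∈ A ↔ x * g ∈ A) := by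
      intro g hg
      induction hg using Subgroup.closure_induction with
      | mem g hg =>
        intro x hx
        have hx' : x * g ∈ J := J.mul_mem hx (hT ▸ Subgroup.subset_closure hg)
        have hd : Γ.d x (x * g) ≤ r := by rw [d_mul_right]; exact hr g hg
        exact ⟨hA x hx _ hx' hd, hA _ hx' x hx (by rwa [d_comm])⟩
      | one => simp
      | mul a b ha _ iha ihb =>
        intro x hx
        rw [iha x hx, ihb _ (J.mul_mem hx (hT ▸ ha)), mul_assoc]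
      | inv a ha iha =>
        intro x hx
        rw [iha _ (J.mul_mem hx (J.inv_mem (hT ▸ ha))), inv_mul_cancel_right]
    have := (key (p⁻¹ * q) (hT ▸ J.mul_mem (J.inv_mem hp) hq) p hp).mp hpA
    simpa using this
  · rintro ⟨r, hr⟩
    have hfin := (ball_finite (Γ := Γ) 1 r).inter_of_left (J : Set G)
    refine ⟨hfin.toFinset, le_antisymm ((Subgroup.closure_le _).mpr fun x hx => ?_) fun q hq => ?_⟩
    · exact (hfin.mem_toFinset.mp hx).2
    · refine hr (Subgroup.closure (hfin.toFinset : Set G)) (fun a ha b hb hd h => ?_) 1 J.one_mem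
        q hq (Subgroup.one_mem _)
      have : a⁻¹ * b ∈ Subgroup.closure (hfin.toFinset : Set G) := Subgroup.subset_closure
        (hfin.mem_toFinset.mpr ⟨by rwa [d_eq] at hd, J.mul_mem (J.inv_mem ha) hb⟩)
      simpa using Subgroup.mul_mem _ h this

theorem fg_of_near {J : Subgroup G} (h : Γ.RC r Z) (h1 : Γ.Near Z J) (h2 : Γ.Near J Z) : J.FG := by
  obtain ⟨a, ha⟩ := h1
  obtain ⟨b, hb⟩ := h2
  exact fg_iff_rc.mpr ⟨_, h.near (s := a + b) (ha.trans (N_mono (by omega) subset_rfl))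
    (hb.trans (N_mono (by omega) subset_rfl))⟩

/-- A set near `J` on which translation by `J` is controlled by `H` is near `H`. -/
theorem near_of_stab {J H : Subgroup G} (hA : Γ.Near A J)
    (h : ∀ c ∈ J, ∀ a ∈ A, c * a ∈ A → c ∈ H) : Γ.Near A H := by
  classical
  obtain ⟨r, hr⟩ := hA
  have hex : ∀ b : G, ∃ t : G, ∀ c ∈ J, c * b ∈ A → ∃ k ∈ H, c * b = k * t := by
    intro b
    by_cases hb : ∃ c ∈ J, c * b ∈ A
    · obtain ⟨c0, hc0, h0⟩ := hb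
      refine ⟨c0 * b, fun c hc hcb => ⟨c * c0⁻¹, h _ (J.mul_mem hc (J.inv_mem hc0)) _ h0
        (by simpa [mul_assoc] using hcb), by simp [mul_assoc]⟩⟩
    · exact ⟨1, fun c hc hcb => absurd ⟨c, hc, hcb⟩ hb⟩
  choose t ht using hex
  obtain ⟨s, hs⟩ := bdd_of_finite (Γ := Γ) ((ball_finite (Γ := Γ) 1 r).image t) 1
  refine ⟨s, fun a ha => ?_⟩
  obtain ⟨c, hc, hd⟩ := hr ha
  obtain ⟨k, hk, e⟩ := ht (c⁻¹ * a) c hc (by simpa using ha)
  rw [mul_inv_cancel_left] at e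
  refine ⟨k, hk, ?_⟩
  rw [e, d_mul_right]
  exact hs _ ⟨c⁻¹ * a, by rwa [d_eq] at hd, rfl⟩

/-- A set that contains arbitrarily large balls is not near a subgroup of infinite index. -/
theorem not_near_of_balls {J : Subgroup G} (hJ : ¬ Γ.Near Set.univ J)
    (h : ∀ r, ∃ p, ∀ q, Γ.d p q ≤ r → q ∈ A) : ¬ Γ.Near A J := by
  rintro ⟨s, hs⟩
  refine hJ ⟨s, fun g _ => ?_⟩
  obtain ⟨p, hp⟩ := h (s + Γ.d 1 g)
  obtain ⟨c, hc, hd⟩ := hs (hp p (by simp))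
  have h1 := d_tri (Γ := Γ) p c (c * g)
  rw [d_mul_right, d_comm p c] at h1
  exact (mul_mem_N hc).mp (hs (hp (c * g) (by omega)))

theorem infinite_quot {J : Subgroup G} (hJ : ¬ Γ.Near Set.univ J) : Infinite (G ⧸ J) := by
  by_contra hfin
  rw [not_infinite_iff_finite] at hfin
  obtain ⟨r, hr⟩ := bdd_of_finite (Γ := Γ) (Set.finite_range fun y : G ⧸ J => y.out⁻¹) 1
  refine hJ ⟨r, fun g _ => ⟨g * ((g⁻¹ : G) : G ⧸ J).out, ?_, ?_⟩⟩
  · have := QuotientGroup.eq.mp (QuotientGroup.out_eq' ((g⁻¹ : G) : G ⧸ J)).symm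
    simpa using this
  · rw [d_eq]
    simpa using hr _ ⟨((g⁻¹ : G) : G ⧸ J), rfl⟩

/-- A neighbourhood of a finitely generated subgroup is connected. -/
theorem conn_N {J : Subgroup G} (h : Γ.RC r J) (hrs : r ≤ s) (hp : p ∈ Γ.N s J)
    (hq : q ∈ Γ.N s J) : Γ.Conn (Γ.N s J)ᶜ p q := by
  have key : ∀ c ∈ J, ∀ x, Γ.d c x ≤ s → Γ.Conn (Γ.N s J)ᶜ c x := fun c hc x hd =>
    (conn_of_d (Z := {y | ¬ Γ.d c y ≤ s}) (r := s) (fun ⟨y, hy, hd⟩ => hy (by rwa [d_comm])) hd).mono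
      fun y hy hd => hy ⟨c, hc, hd⟩
  obtain ⟨a, ha, hd⟩ := hp
  obtain ⟨b, hb, hd'⟩ := hq
  exact ((key a ha p hd).symm.trans (h {x | Γ.Conn (Γ.N s J)ᶜ a x}
    (fun x hx y _ hd h => Conn.trans h (key x hx y (hd.trans hrs))) a ha b hb
      (Conn.refl _ _))).trans (key b hb q hd')

end Gen

end Pool.Agent.Lib.MP_d98eb9_al.W
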