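import Mathlib

/-! Groups of type `FP_2`. -/

namespace Pool.Agent.Lib.MP_d98eb9_al.W

/-- `G` is of type `FP_2`: there is an exact sequence `P2 → P1 → P0 → ℤ → 0` of left
`ℤ[G]`-modules, with `ℤ` the trivial module and `P0`, `P1`, `P2` finitely generated projective. -/
def IsFP2 (G : Type) [Group G] : Prop :=
  ∃ (P0 P1 P2 : ModuleCat.{0} (MonoidAlgebra ℤ G)) (d1 : P2 →ₗ[MonoidAlgebra ℤ G] P1)
    (d0 : P1 →ₗ[MonoidAlgebra ℤ G] P0) (ε : P0 →+ ℤ),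
    (∀ (g : G) (x : P0), ε (MonoidAlgebra.single g (1 : ℤ) • x) = ε x) ∧ Function.Surjective ε ∧
      Function.Exact d0 ε ∧ Function.Exact d1 d0 ∧
      Module.Finite (MonoidAlgebra ℤ G) P0 ∧ Module.Finite (MonoidAlgebra ℤ G) P1 ∧
      Module.Finite (MonoidAlgebra ℤ G) P2 ∧ Module.Projective (MonoidAlgebra ℤ G) P0 ∧
      Module.Projective (MonoidAlgebra ℤ G) P1 ∧ Module.Projective (MonoidAlgebra ℤ G) P2

end Pool.Agent.Lib.MP_d98eb9_al.W
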