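import Pool.Agent.Lib.MP_d98eb9_al.Main
import Pool.Agent.Lib.MP_d98eb9_al.W.Cay
import Pool.Agent.Lib.MP_d98eb9_al.W.Defs

/-! The Cayley complex of a Poincare duality group of dimension three and its dual. -/

namespace Pool.Agent.Lib.MP_d98eb9_al.W

open MonoidAlgebra

variable {G : Type} [Group G]

/-- Free modules. -/
abbrev Fr (G : Type) [Group G] (n : ℕ) : Type := Fin n →₀ ZG G

/-- The basis over the integers. -/
noncomputable def e {n : ℕ} (g : G) (i : Fin n) : Fr G n := Finsupp.single i (single g 1)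

/-- A functional as a finitely supported integral cochain. -/
noncomputable def co {P : Type} [AddCommGroup P] [Module (ZG G) P] (q : P →ₗ[ZG G] ZG G) :
    P →+ ℤ := AddMonoidHom.mk' (fun x => (q x).coeff 1) fun x y => by simp

theorem co_apply {P : Type} [AddCommGroup P] [Module (ZG G) P] (q : P →ₗ[ZG G] ZG G) (x : P) :
    co q x = (q x).coeff 1 := rfl

theorem smul_e {n : ℕ} (g h : G) (i : Fin n) : (single g 1 : ZG G) • e h i = e (g * h) i := by
  simp [e, single_mul_single]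

theorem bd_e {n : ℕ} (s : Fin n → G) (g : G) (i : Fin n) :
    bd s (e g i) = single (g * s i) 1 - single g 1 := by
  simp [e, bd, mul_sub, single_mul_single]

/-- The additive map with given values on the basis. -/
noncomputable def ofFun {n : ℕ} {A : Type} [AddCommGroup A] (f : G → Fin n → A) : Fr G n →+ A :=
  Finsupp.liftAddHom fun i => lsum fun g => f g i

@[simp] theorem ofFun_e {n : ℕ} {A : Type} [AddCommGroup A] (f : G → Fin n → A) (g : G)
    (i : Fin n) : ofFun f (e g i) = f g i := by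
  simp [ofFun, e]

theorem fr_ext {n : ℕ} {A : Type} [AddCommGroup A] {φ ψ : Fr G n →+ A}
    (h : ∀ g i, φ (e g i) = ψ (e g i)) (x : Fr G n) : φ x = ψ x := by
  induction x using Finsupp.induction_linear with
  | zero => simp
  | add a b ha hb => simp [ha, hb]
  | single i r =>
    exact hom_ext (f := φ.comp (Finsupp.singleAddHom i)) (f' := ψ.comp (Finsupp.singleAddHom i))
      (fun g => h g i) r

/-- The end of the dual resolution, over a subgroup `J`. -/
structure Dual (Γ : Gen G) (w : G →* ℤ) {m : ℕ} (d1 : Fr G m →ₗ[ZG G] Fr G Γ.n)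
    (J : Subgroup G) : Type 1 where
  Q : ModuleCat.{0} (ZG J)
  proj : Module.Projective (ZG J) Q
  e1 : Du w J (Fr G m) →ₗ[ZG J] Q
  η : Q →+ ℤ
  η_smul : ∀ (c : J) (x : Q), η ((single c 1 : ZG J) • x) = η x
  exη : Function.Exact e1 η
  ex2 : Function.Exact (Du.map w J d1) e1
  q : G → Q
  η_q : ∀ g, η (q g) = 1
  q_smul : ∀ (c : J) (g : G), (single c 1 : ZG J) • q g = q (c * g)
  ν : G → Fin Γ.n → Du w J (Fr G m)
  e1_ν : ∀ g i, e1 (ν g i) = q (g * Γ.s i) - q g
  ν_smul : ∀ (c : J) (g : G) i, (single c 1 : ZG J) • ν g i = ν (c * g) i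
  ν_loc : ∃ ρ, ∀ g i h k, co (ν g i).ev (e h k) ≠ 0 → Γ.d g h ≤ ρ

/-- The Cayley complex with its duality properties. -/
structure Geo (Γ : Gen G) : Type 1 where
  m : ℕ
  d1 : Fr G m →ₗ[ZG G] Fr G Γ.n
  ex1 : Function.Exact d1 (bd Γ.s)
  w : G →* ℤ
  inf : Infinite G
  H1 : ∀ φ : Fr G Γ.n →ₗ[ZG G] ZG G, φ ∘ₗ d1 = 0 → ∃ θ : ZG G →ₗ[ZG G] ZG G, θ ∘ₗ bd Γ.s = φ
  H2 : ∀ ψ : Fr G m →ₗ[ZG G] ZG G, (∀ z, d1 z = 0 → ψ z = 0) →
    ∃ φ : Fr G Γ.n →ₗ[ZG G] ZG G, φ ∘ₗ d1 = ψ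
  dual : ∀ J, Nonempty (Dual Γ w d1 J)

end Pool.Agent.Lib.MP_d98eb9_al.W
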