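import Mathlib

/-! A finite cut that is nested with its translates. -/

namespace Pool.Agent.Lib.MP_d98eb9_al.W

/-- The edges between `L` and its complement. -/
def cut {V E : Type} (a b : E → V) (L : Set V) : Set E := {ε | ¬ (a ε ∈ L ↔ b ε ∈ L)}

namespace Cut

variable {V E : Type} {a b : E → V} {V0 : Set V}

lemma mem_cut {L : Set V} {ε : E} : ε ∈ cut a b L ↔ ¬ (a ε ∈ L ↔ b ε ∈ L) := Iff.rfl

lemma cut_compl (L : Set V) : cut a b Lᶜ = cut a b L := by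
  ext ε
  simp only [mem_cut, Set.mem_compl_iff]
  tauto

variable (a b V0) in
/-- Finite cuts with two large sides. -/
def Adm (L : Set V) : Prop := (cut a b L).Finite ∧ (L ∩ V0).Infinite ∧ (Lᶜ ∩ V0).Infinite

variable (a b V0) in
/-- Cuts of least size. -/
def Thin (L : Set V) : Prop :=
  Adm a b V0 L ∧ ∀ M, Adm a b V0 M → (cut a b L).ncard ≤ (cut a b M).ncard

lemma Thin.compl {L : Set V} (h : Thin a b V0 L) : Thin a b V0 Lᶜ := by
  refine ⟨⟨by rw [cut_compl]; exact h.1.1, h.1.2.2, by rw [compl_compl]; exact h.1.2.1⟩, ?_⟩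
  rw [cut_compl]
  exact h.2

lemma inf_or {L : Set V} (h : (L ∩ V0).Infinite) (M : Set V) :
    ((L ∩ M) ∩ V0).Infinite ∨ ((L ∩ Mᶜ) ∩ V0).Infinite := by
  rw [← Set.infinite_union]
  refine h.mono fun v hv => ?_
  by_cases hm : v ∈ M
  · exact Or.inl ⟨⟨hv.1, hm⟩, hv.2⟩
  · exact Or.inr ⟨⟨hv.1, hm⟩, hv.2⟩

lemma Thin.not_lt {L A : Set V} (h : Thin a b V0 L) (hA : A ⊆ L) (hi : (A ∩ V0).Infinite)
    (hc : cut a b A ⊆ cut a b L) {ε : E} (h1 : ε ∈ cut a b L) (h2 : ε ∉ cut a b A) : False := by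
  have h3 := h.2 A ⟨h.1.1.subset hc, hi,
    h.1.2.2.mono (Set.inter_subset_inter_left _ (Set.compl_subset_compl.2 hA))⟩
  have h4 := Set.ncard_lt_ncard ⟨hc, fun h5 => h2 (h5 h1)⟩ h.1.1
  omega

/-- A thin cut has connected sides. -/
lemma Thin.conn (hconn : ∀ L : Set V, L.Nonempty → Lᶜ.Nonempty → (cut a b L).Nonempty)
    {L A : Set V} (h : Thin a b V0 L) (hA : A ⊆ L) (hc : cut a b A ⊆ cut a b L)
    (hne : A.Nonempty) : L ⊆ A := by
  by_contra hn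
  obtain ⟨y, hy, hyA⟩ := Set.not_subset.1 hn
  obtain ⟨z, hz, -⟩ := h.1.2.2.nonempty
  have hc' : cut a b (L ∩ Aᶜ) ⊆ cut a b L := by
    intro ε hε
    have := @hc ε
    simp only [mem_cut, Set.mem_inter_iff, Set.mem_compl_iff] at hε this ⊢
    tauto
  have hd : ∀ ε, ε ∈ cut a b A → ε ∉ cut a b (L ∩ Aᶜ) := by
    intro ε h1 h2
    have h3 := hc h1
    have h4 := @hA (a ε)
    have h5 := @hA (b ε)
    simp only [mem_cut, Set.mem_inter_iff, Set.mem_compl_iff] at h1 h2 h3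
    tauto
  obtain ⟨ε₁, h1⟩ := hconn A hne ⟨y, hyA⟩
  obtain ⟨ε₂, h2⟩ := hconn (L ∩ Aᶜ) ⟨y, hy, hyA⟩ ⟨z, fun h3 => hz h3.1⟩
  rcases inf_or h.1.2.1 A with hi | hi
  · rw [Set.inter_eq_self_of_subset_right hA] at hi
    exact h.not_lt hA hi hc (hc' h2) fun h3 => hd _ h3 h2
  · exact h.not_lt Set.inter_subset_left hi hc' (hc h1) (hd _ h1)

variable (a b) in
/-- The points are joined through finitely many edges of `F`. -/
def Link (F : Set E) (x y : V) : Prop :=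
  ∃ P : Set E, P.Finite ∧ P ⊆ F ∧ ∀ L : Set V, (∀ ε ∈ P, ε ∉ cut a b L) → (x ∈ L ↔ y ∈ L)

lemma Link.refl (F : Set E) (x : V) : Link a b F x x :=
  ⟨∅, Set.finite_empty, Set.empty_subset _, fun _ _ => Iff.rfl⟩

lemma Link.symm {F : Set E} {x y : V} (h : Link a b F x y) : Link a b F y x := by
  obtain ⟨P, h1, h2, h3⟩ := h
  exact ⟨P, h1, h2, fun L hL => (h3 L hL).symm⟩

lemma Link.trans {F : Set E} {x y z : V} (h : Link a b F x y) (h' : Link a b F y z) :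
    Link a b F x z := by
  obtain ⟨P, h1, h2, h3⟩ := h
  obtain ⟨Q, k1, k2, k3⟩ := h'
  exact ⟨P ∪ Q, h1.union k1, Set.union_subset h2 k2, fun L hL =>
    (h3 L fun ε hε => hL ε (Or.inl hε)).trans (k3 L fun ε hε => hL ε (Or.inr hε))⟩

lemma Link.mono {F F' : Set E} {x y : V} (h : Link a b F x y) (hF : F ⊆ F') : Link a b F' x y := by
  obtain ⟨P, h1, h2, h3⟩ := h
  exact ⟨P, h1, h2.trans hF, h3⟩

lemma Link.edge {F : Set E} {ε : E} (h : ε ∈ F) : Link a b F (a ε) (b ε) :=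
  ⟨{ε}, Set.finite_singleton _, Set.singleton_subset_iff.2 h, fun _ hL => not_not.1 (hL ε rfl)⟩

lemma cut_link (F : Set E) (x : V) : cut a b {y | Link a b F x y} ⊆ Fᶜ := fun _ hε hF =>
  hε ⟨fun h => Link.trans h (Link.edge hF), fun h => Link.trans h (Link.edge hF).symm⟩

lemma link_univ (hconn : ∀ L : Set V, L.Nonempty → Lᶜ.Nonempty → (cut a b L).Nonempty)
    (x y : V) : Link a b Set.univ x y := by
  by_contra h
  obtain ⟨ε, hε⟩ := hconn {y | Link a b Set.univ x y} ⟨x, Link.refl _ _⟩ ⟨y, h⟩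
  exact cut_link _ _ hε (Set.mem_univ _)

lemma Thin.link (hconn : ∀ L : Set V, L.Nonempty → Lᶜ.Nonempty → (cut a b L).Nonempty)
    {L : Set V} (h : Thin a b V0 L) {x y : V} (hx : x ∈ L) (hy : y ∈ L) :
    Link a b (cut a b L)ᶜ x y := by
  refine h.conn hconn (A := {y | Link a b (cut a b L)ᶜ x y}) ?_ ?_ ⟨x, Link.refl _ _⟩ hy
  · rintro z ⟨P, -, h2, h3⟩
    exact (h3 L fun ε hε => h2 hε).1 hx
  · simpa using cut_link (a := a) (b := b) (cut a b L)ᶜ x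

lemma Thin.link' (hconn : ∀ L : Set V, L.Nonempty → Lᶜ.Nonempty → (cut a b L).Nonempty)
    {L : Set V} (h : Thin a b V0 L) {D : Set E} (hD : D ⊆ cut a b L) {ε : E}
    (h1 : ε ∈ cut a b L) (h2 : ε ∉ D) {x y : V} (hx : x ∈ L) (hy : y ∉ L) :
    Link a b Dᶜ x y := by
  have hs : (cut a b L)ᶜ ⊆ Dᶜ := Set.compl_subset_compl.2 hD
  have k1 : ∀ u ∈ L, ∀ v ∈ L, Link a b Dᶜ u v := fun u hu v hv => (h.link hconn hu hv).mono hs
  have k2 : ∀ u ∉ L, ∀ v ∉ L, Link a b Dᶜ u v := fun u hu v hv =>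
    (h.compl.link hconn hu hv).mono (by rw [cut_compl]; exact hs)
  have k3 : Link a b Dᶜ (a ε) (b ε) := Link.edge h2
  by_cases ha : a ε ∈ L
  · have hb : b ε ∉ L := fun hb => h1 ⟨fun _ => hb, fun _ => ha⟩
    exact ((k1 _ hx _ ha).trans k3).trans (k2 _ hb _ hy)
  · have hb : b ε ∈ L := by_contra fun hb => h1 ⟨fun h => absurd h ha, fun h => absurd h hb⟩
    exact ((k1 _ hx _ hb).trans k3.symm).trans (k2 _ ha _ hy)

lemma finite_aux (hconn : ∀ L : Set V, L.Nonempty → Lᶜ.Nonempty → (cut a b L).Nonempty)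
    (x y : V) (k : ℕ) : ∀ D : Set E, {L | Thin a b V0 L ∧ x ∈ L ∧ y ∉ L ∧ D ⊆ cut a b L ∧
      (cut a b L \ D).ncard = k}.Finite := by
  induction k with
  | zero =>
    intro D
    apply Set.Subsingleton.finite
    rintro L ⟨h1, h2, -, h4, h5⟩ M ⟨k1, k2, -, k4, k5⟩
    rw [Set.ncard_eq_zero (h1.1.1.subset Set.sdiff_subset), Set.sdiff_eq_empty] at h5
    rw [Set.ncard_eq_zero (k1.1.1.subset Set.sdiff_subset), Set.sdiff_eq_empty] at k5
    by_contra hne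
    have h6 : ∃ z, ¬ (z ∈ L ↔ z ∈ M) := by
      by_contra h7
      push Not at h7
      exact hne (Set.ext h7)
    obtain ⟨z, hz⟩ := h6
    obtain ⟨ε, hε⟩ := hconn {v | v ∈ L ↔ v ∈ M} ⟨x, iff_of_true h2 k2⟩ ⟨z, hz⟩
    have h8 : ε ∈ cut a b L ↔ ε ∈ cut a b M := ⟨fun h => k4 (h5 h), fun h => h4 (k5 h)⟩
    simp only [mem_cut, Set.mem_ofPred_eq] at hε h8
    tauto
  | succ k ih =>
    intro D
    rcases Set.eq_empty_or_nonempty {L | Thin a b V0 L ∧ x ∈ L ∧ y ∉ L ∧ D ⊆ cut a b L ∧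
      (cut a b L \ D).ncard = k + 1} with h | ⟨L0, h1, h2, h3, h4, h5⟩
    · rw [h]; exact Set.finite_empty
    obtain ⟨ε, hε⟩ := Set.nonempty_of_ncard_ne_zero (s := cut a b L0 \ D) (by omega)
    obtain ⟨P, p1, p2, p3⟩ := h1.link' hconn h4 hε.1 hε.2 h2 h3
    refine (p1.biUnion fun ε' _ => ih (insert ε' D)).subset ?_
    rintro L ⟨k1, k2, k3, k4, k5⟩
    have h6 : ∃ ε' ∈ P, ε' ∈ cut a b L := by
      by_contra h7
      push Not at h7
      exact k3 ((p3 L h7).1 k2)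
    obtain ⟨ε', e1, e2⟩ := h6
    refine Set.mem_biUnion e1 ⟨k1, k2, k3, Set.insert_subset e2 k4, ?_⟩
    have e3 : cut a b L \ insert ε' D = (cut a b L \ D) \ {ε'} := by
      ext η
      simp only [Set.mem_sdiff, Set.mem_insert_iff, Set.mem_singleton_iff]
      tauto
    have e4 := Set.ncard_sdiff_singleton_add_one (s := cut a b L \ D) ⟨e2, p2 e1⟩
      (k1.1.1.subset Set.sdiff_subset)
    rw [e3]
    omega

lemma finite_sep (hconn : ∀ L : Set V, L.Nonempty → Lᶜ.Nonempty → (cut a b L).Nonempty)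
    (x y : V) : {L | Thin a b V0 L ∧ x ∈ L ∧ y ∉ L}.Finite := by
  rcases Set.eq_empty_or_nonempty {L | Thin a b V0 L ∧ x ∈ L ∧ y ∉ L} with h | ⟨L0, h1, -⟩
  · rw [h]; exact Set.finite_empty
  refine (finite_aux (V0 := V0) hconn x y (cut a b L0).ncard ∅).subset ?_
  rintro L ⟨k1, k2, k3⟩
  refine ⟨k1, k2, k3, Set.empty_subset _, ?_⟩
  rw [Set.sdiff_empty]
  exact le_antisymm (k1.2 _ h1.1) (h1.2 _ k1.1)

/-- One of the four corners is empty. -/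
def Nest (L M : Set V) : Prop :=
  (∀ v, v ∈ L → v ∈ M) ∨ (∀ v, v ∈ L → v ∉ M) ∨ (∀ v, v ∉ L → v ∈ M) ∨ ∀ v, v ∉ L → v ∉ M

lemma nest_compl {L M : Set V} : Nest L Mᶜ ↔ Nest L M := by
  simp only [Nest, Set.mem_compl_iff, not_not]
  tauto

lemma Nest.symm {L M : Set V} (h : Nest L M) : Nest M L := by
  unfold Nest at h ⊢
  grind

lemma nest_of_ends (hconn : ∀ L : Set V, L.Nonempty → Lᶜ.Nonempty → (cut a b L).Nonempty)
    {L M : Set V} (hM : Thin a b V0 M) (h : ∀ ε ∈ cut a b L, a ε ∉ M ∧ b ε ∉ M) : Nest L M := by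
  rcases Set.eq_empty_or_nonempty (L ∩ M) with h1 | h1
  · exact Or.inr (Or.inl fun v h2 h3 => (Set.eq_empty_iff_forall_notMem.1 h1 v) ⟨h2, h3⟩)
  · have h2 := hM.conn hconn (A := L ∩ M) Set.inter_subset_right (by
      intro ε hε
      have := h ε
      simp only [mem_cut, Set.mem_inter_iff] at hε this ⊢
      tauto) h1
    exact Or.inr (Or.inr (Or.inr fun v h3 h4 => h3 (h2 h4).1))

variable (a b V0) in
/-- The thin cuts that cross `L`. -/
def Cr (L : Set V) : Set (Set V) := {M | Thin a b V0 M ∧ ¬ Nest L M}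

lemma finite_Cr (hconn : ∀ L : Set V, L.Nonempty → Lᶜ.Nonempty → (cut a b L).Nonempty)
    {L : Set V} (hL : Thin a b V0 L) : (Cr a b V0 L).Finite := by
  obtain ⟨x, -⟩ := hL.1.2.1.nonempty
  choose P p1 _ p3 using link_univ hconn x
  have hP : (⋃ ε ∈ cut a b L, (P (a ε) ∪ P (b ε))).Finite :=
    hL.1.1.biUnion fun ε _ => (p1 _).union (p1 _)
  refine (hP.biUnion fun η _ => (finite_sep (V0 := V0) hconn (a η) (b η)).union
    (finite_sep (V0 := V0) hconn (b η) (a η))).subset ?_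
  rintro M ⟨h1, h2⟩
  have h3 : ∃ η ∈ ⋃ ε ∈ cut a b L, (P (a ε) ∪ P (b ε)), η ∈ cut a b M := by
    by_contra h4
    push Not at h4
    have h5 : ∀ ε ∈ cut a b L, (x ∈ M ↔ a ε ∈ M) ∧ (x ∈ M ↔ b ε ∈ M) := fun ε hε =>
      ⟨p3 _ M fun η hη => h4 η (Set.mem_biUnion hε (Or.inl hη)),
        p3 _ M fun η hη => h4 η (Set.mem_biUnion hε (Or.inr hη))⟩
    by_cases hx : x ∈ M
    · exact h2 (nest_compl.1 (nest_of_ends hconn h1.compl fun ε hε =>
        ⟨not_not.2 ((h5 ε hε).1.1 hx), not_not.2 ((h5 ε hε).2.1 hx)⟩))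
    · exact h2 (nest_of_ends hconn h1 fun ε hε =>
        ⟨fun h => hx ((h5 ε hε).1.2 h), fun h => hx ((h5 ε hε).2.2 h)⟩)
  obtain ⟨η, e1, e2⟩ := h3
  refine Set.mem_biUnion e1 ?_
  by_cases ha : a η ∈ M
  · exact Or.inl ⟨h1, ha, fun hb => e2 (iff_of_true ha hb)⟩
  · exact Or.inr ⟨h1, by_contra fun hb => e2 (iff_of_false ha hb), ha⟩

lemma ncard_add_le {α : Type} {A B C D : Set α} (hC : C.Finite) (hD : D.Finite)
    (h1 : A ∪ B ⊆ C ∪ D) (h2 : A ∩ B ⊆ C ∩ D) :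
    A.ncard + B.ncard + (C ∪ D).ncard ≤ C.ncard + D.ncard + (A ∪ B).ncard := by
  have hu := (hC.union hD).subset h1
  have k1 := Set.ncard_union_add_ncard_inter A B (hu.subset Set.subset_union_left)
    (hu.subset Set.subset_union_right)
  have k2 := Set.ncard_union_add_ncard_inter C D hC hD
  have k3 := Set.ncard_le_ncard h2 (hC.subset Set.inter_subset_left)
  omega

lemma corner_thin {L M : Set V} (hL : Thin a b V0 L) (hM : Thin a b V0 M)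
    (h1 : ((L ∩ M) ∩ V0).Infinite) (h2 : ((Lᶜ ∩ Mᶜ) ∩ V0).Infinite) :
    Thin a b V0 (L ∩ M) ∧ Thin a b V0 (Lᶜ ∩ Mᶜ) := by
  have s1 : cut a b (L ∩ M) ∪ cut a b (Lᶜ ∩ Mᶜ) ⊆ cut a b L ∪ cut a b M := by
    intro ε
    simp only [mem_cut, Set.mem_union, Set.mem_inter_iff, Set.mem_compl_iff]
    tauto
  have s2 : cut a b (L ∩ M) ∩ cut a b (Lᶜ ∩ Mᶜ) ⊆ cut a b L ∩ cut a b M := by
    intro ε
    simp only [mem_cut, Set.mem_inter_iff, Set.mem_compl_iff]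
    tauto
  have hu := hL.1.1.union hM.1.1
  have a1 : Adm a b V0 (L ∩ M) := ⟨(hu.subset s1).subset Set.subset_union_left, h1,
    h2.mono fun v hv => ⟨fun h => hv.1.1 h.1, hv.2⟩⟩
  have a2 : Adm a b V0 (Lᶜ ∩ Mᶜ) := ⟨(hu.subset s1).subset Set.subset_union_right, h2,
    h1.mono fun v hv => ⟨fun h => h.1 hv.1.1, hv.2⟩⟩
  have k1 := ncard_add_le hL.1.1 hM.1.1 s1 s2
  have k2 := Set.ncard_le_ncard s1 hu
  have k3 := hL.2 _ a1
  have k4 := hL.2 _ a2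
  have k5 := hM.2 _ hL.1
  exact ⟨⟨a1, fun T hT => by have := hL.2 T hT; omega⟩,
    ⟨a2, fun T hT => by have := hL.2 T hT; omega⟩⟩

lemma corner_lt (hconn : ∀ L : Set V, L.Nonempty → Lᶜ.Nonempty → (cut a b L).Nonempty)
    {L M : Set V} (hL : Thin a b V0 L) (hM : Thin a b V0 M) (hn : ¬ Nest L M) :
    (Cr a b V0 (L ∩ M)).ncard + (Cr a b V0 (Lᶜ ∩ Mᶜ)).ncard <
      (Cr a b V0 L).ncard + (Cr a b V0 M).ncard := by
  have s1 : Cr a b V0 (L ∩ M) ∪ Cr a b V0 (Lᶜ ∩ Mᶜ) ⊆ Cr a b V0 L ∪ Cr a b V0 M := by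
    intro T hT
    have hT1 : Thin a b V0 T := hT.elim (·.1) (·.1)
    by_contra hc
    have h1 : Nest L T := by_contra fun h => hc (Or.inl ⟨hT1, h⟩)
    have h2 : Nest M T := by_contra fun h => hc (Or.inr ⟨hT1, h⟩)
    have h3 : Nest (L ∩ M) T ∧ Nest (Lᶜ ∩ Mᶜ) T := by
      simp only [Nest, Set.mem_inter_iff, Set.mem_compl_iff] at h1 h2 hn ⊢
      grind
    exact hT.elim (·.2 h3.1) (·.2 h3.2)
  have s2 : Cr a b V0 (L ∩ M) ∩ Cr a b V0 (Lᶜ ∩ Mᶜ) ⊆ Cr a b V0 L ∩ Cr a b V0 M := by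
    rintro T ⟨h1, h2⟩
    have h3 := h1.2
    have h4 := h2.2
    refine ⟨⟨h1.1, fun h => ?_⟩, ⟨h1.1, fun h => ?_⟩⟩ <;>
    · simp only [Nest, Set.mem_inter_iff, Set.mem_compl_iff] at h h3 h4
      grind
  have fL := finite_Cr hconn hL
  have fM := finite_Cr hconn hM
  have k1 := ncard_add_le fL fM s1 s2
  have k2 := Set.ncard_lt_ncard ⟨s1, fun h => by
    have h1 := h (Or.inl ⟨hM, hn⟩ : M ∈ Cr a b V0 L ∪ Cr a b V0 M)
    rcases h1 with h1 | h1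
    · exact h1.2 (Or.inl fun v hv => hv.2)
    · exact h1.2 (Or.inr (Or.inl fun v hv => hv.2))⟩ (fL.union fM)
  omega

lemma Cr_compl (L : Set V) : Cr a b V0 Lᶜ = Cr a b V0 L := by
  ext T
  exact and_congr_right fun _ => not_congr
    ⟨fun h => (nest_compl.1 h.symm).symm, fun h => (nest_compl.2 h.symm).symm⟩

lemma nest_of_min (hconn : ∀ L : Set V, L.Nonempty → Lᶜ.Nonempty → (cut a b L).Nonempty)
    {L M : Set V} (hL : Thin a b V0 L) (hM : Thin a b V0 M)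
    (hmin : ∀ T, Thin a b V0 T → (Cr a b V0 L).ncard ≤ (Cr a b V0 T).ncard)
    (hle : (Cr a b V0 M).ncard ≤ (Cr a b V0 L).ncard) : Nest L M := by
  by_contra hn
  have key : ∀ M, Thin a b V0 M → ¬ Nest L M → (Cr a b V0 M).ncard ≤ (Cr a b V0 L).ncard →
      ((L ∩ M) ∩ V0).Infinite → ((Lᶜ ∩ Mᶜ) ∩ V0).Infinite → False := by
    intro M hM hn hle h1 h2
    obtain ⟨t1, t2⟩ := corner_thin hL hM h1 h2
    have k1 := corner_lt hconn hL hM hn
    have k2 := hmin _ t1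
    have k3 := hmin _ t2
    omega
  have key' := key Mᶜ hM.compl (fun h => hn (nest_compl.1 h)) (by rwa [Cr_compl])
  rw [compl_compl] at key'
  have i1 := inf_or hL.1.2.1 M
  have i2 := inf_or hL.1.2.2 M
  have i3 := inf_or hM.1.2.1 L
  have i4 := inf_or hM.1.2.2 L
  rw [Set.inter_comm M, Set.inter_comm M] at i3
  rw [Set.inter_comm Mᶜ, Set.inter_comm Mᶜ] at i4
  have := key M hM hn hle
  tauto

section Act

variable {H : Type} [Group H] [MulAction H V] [MulAction H E]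

/-- The preimage of a set under a group element. -/
def pre (h : H) (L : Set V) : Set V := {v | h • v ∈ L}

lemma pre_pre (h : H) (L : Set V) : pre h (pre h⁻¹ L) = L := by
  ext v
  simp [pre]

lemma inf_pre (hV0 : ∀ (h : H), ∀ v ∈ V0, h • v ∈ V0) (h : H) {L : Set V}
    (hL : (L ∩ V0).Infinite) : (pre h L ∩ V0).Infinite := by
  refine (hL.image (MulAction.injective h⁻¹).injOn).mono ?_
  rintro _ ⟨v, hv, rfl⟩
  exact ⟨by simpa [pre] using hv.1, hV0 _ _ hv.2⟩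

variable (ha : ∀ (h : H) ε, a (h • ε) = h • a ε) (hb : ∀ (h : H) ε, b (h • ε) = h • b ε)
include ha hb

lemma cut_pre (h : H) (L : Set V) : cut a b (pre h L) = (fun ε => h⁻¹ • ε) '' cut a b L := by
  ext ε
  constructor
  · intro hε
    refine ⟨h • ε, ?_, inv_smul_smul _ _⟩
    rw [mem_cut, ha, hb]
    exact hε
  · rintro ⟨η, hη, rfl⟩
    simpa [mem_cut, pre, ha, hb] using hη

lemma Thin.pre (hV0 : ∀ (h : H), ∀ v ∈ V0, h • v ∈ V0) (h : H) {L : Set V}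
    (hL : Thin a b V0 L) : Thin a b V0 (pre h L) := by
  refine ⟨⟨?_, inf_pre hV0 h hL.1.2.1, inf_pre hV0 h hL.1.2.2⟩, ?_⟩
  · rw [cut_pre ha hb]
    exact hL.1.1.image _
  · rw [cut_pre ha hb, Set.ncard_image_of_injective _ (MulAction.injective h⁻¹)]
    exact hL.2

lemma Cr_pre (hV0 : ∀ (h : H), ∀ v ∈ V0, h • v ∈ V0) (h : H) {L : Set V}
    (hL : (Cr a b V0 L).Finite) : (Cr a b V0 (pre h L)).ncard ≤ (Cr a b V0 L).ncard := by
  refine le_trans (Set.ncard_le_ncard ?_ (hL.image (pre h))) (Set.ncard_image_le hL)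
  rintro T ⟨h1, h2⟩
  refine ⟨pre h⁻¹ T, ⟨h1.pre ha hb hV0 _, fun h3 => h2 ?_⟩, pre_pre _ _⟩
  rw [← pre_pre h T]
  rcases h3 with h3 | h3 | h3 | h3
  · exact Or.inl fun v => h3 _
  · exact Or.inr (Or.inl fun v => h3 _)
  · exact Or.inr (Or.inr (Or.inl fun v => h3 _))
  · exact Or.inr (Or.inr (Or.inr fun v => h3 _))

end Act

end Cut

theorem exists_nested_cut {H V E : Type} [Group H] [MulAction H V] [MulAction H E] (a b : E → V)
    (ha : ∀ (h : H) ε, a (h • ε) = h • a ε) (hb : ∀ (h : H) ε, b (h • ε) = h • b ε)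
    (hconn : ∀ L : Set V, L.Nonempty → Lᶜ.Nonempty → (cut a b L).Nonempty)
    (V0 : Set V) (hV0 : ∀ (h : H), ∀ v ∈ V0, h • v ∈ V0)
    (L0 : Set V) (h0 : (cut a b L0).Finite) (h1 : (L0 ∩ V0).Infinite) (h2 : (L0ᶜ ∩ V0).Infinite) :
    ∃ L : Set V, (cut a b L).Finite ∧ (L ∩ V0).Infinite ∧ (Lᶜ ∩ V0).Infinite ∧
      ∀ h : H, (∀ v ∈ L, h • v ∈ L) ∨ (∀ v ∈ L, h • v ∉ L) ∨ (∀ v ∉ L, h • v ∈ L) ∨
        ∀ v ∉ L, h • v ∉ L := by
  obtain ⟨L1, k1, k2⟩ := (measure fun L => (cut a b L).ncard).wf.has_min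
    {L | Cut.Adm a b V0 L} ⟨L0, h0, h1, h2⟩
  have t1 : Cut.Thin a b V0 L1 := ⟨k1, fun M hM => not_lt.1 (k2 M hM)⟩
  obtain ⟨L, k3, k4⟩ := (measure fun L => (Cut.Cr a b V0 L).ncard).wf.has_min
    {L | Cut.Thin a b V0 L} ⟨L1, t1⟩
  refine ⟨L, k3.1.1, k3.1.2.1, k3.1.2.2, fun h => ?_⟩
  exact Cut.nest_of_min hconn k3 (Cut.Thin.pre ha hb hV0 h k3) (fun T hT => not_lt.1 (k4 T hT))
    (Cut.Cr_pre ha hb hV0 h (Cut.finite_Cr hconn k3))

end Pool.Agent.Lib.MP_d98eb9_al.W
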