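import Pool.Agent.Lib.MP_d98eb9_al.W.FG
import Pool.Agent.Lib.MP_d98eb9_al.W.Cut

/-! A nested cut of one side. -/

namespace Pool.Agent.Lib.MP_d98eb9_al.W

namespace OneEndA

/-- Nested cuts for invariant subgraphs. -/
theorem nested {H V E : Type} [Group H] [MulAction H V] [MulAction H E] (a b : E → V)
    (ha : ∀ (h : H) ε, a (h • ε) = h • a ε) (hb : ∀ (h : H) ε, b (h • ε) = h • b ε)
    (VS : SubMulAction H V) (ES : SubMulAction H E) (haS : ∀ ε ∈ ES, a ε ∈ VS)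
    (hbS : ∀ ε ∈ ES, b ε ∈ VS)
    (hconn : ∀ L : Set V, (∃ v ∈ VS, v ∈ L) → (∃ v ∈ VS, v ∉ L) → ∃ ε ∈ ES, ε ∈ cut a b L)
    (V0 : Set V) (hS : ∀ v ∈ V0, v ∈ VS) (hV0 : ∀ (h : H), ∀ v ∈ V0, h • v ∈ V0)
    (L0 : Set V) (h0 : (cut a b L0 ∩ ES).Finite) (h1 : (L0 ∩ V0).Infinite)
    (h2 : (V0 \ L0).Infinite) :
    ∃ L : Set V, (cut a b L ∩ ES).Finite ∧ (L ∩ V0).Infinite ∧ (V0 \ L).Infinite ∧
      ∀ h : H, (∀ v ∈ L, h • v ∈ L) ∨ (∀ v ∈ L, h • v ∉ L) ∨ (∀ v ∈ VS, v ∉ L → h • v ∈ L) ∨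
        ∀ v ∈ VS, v ∉ L → h • v ∉ L := by
  have mem : ∀ (L : Set VS) (v : VS), v.1 ∈ Subtype.val '' L ↔ v ∈ L := fun L v =>
    Subtype.val_injective.mem_set_image
  obtain ⟨L, c0, c1, c2, c3⟩ := exists_nested_cut (H := H) (V := VS) (E := ES)
    (fun ε => ⟨a ε.1, haS _ ε.2⟩) (fun ε => ⟨b ε.1, hbS _ ε.2⟩)
    (fun h ε => Subtype.ext (ha h ε.1)) (fun h ε => Subtype.ext (hb h ε.1))
    (fun L ⟨v, hv⟩ ⟨v', hv'⟩ => by
      obtain ⟨ε, hε, hc⟩ := hconn (Subtype.val '' L) ⟨v.1, v.2, (mem L v).2 hv⟩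
        ⟨v'.1, v'.2, fun h => hv' ((mem L v').1 h)⟩
      exact ⟨⟨ε, hε⟩, fun h => hc (((mem L ⟨_, haS _ hε⟩).trans h).trans
        (mem L ⟨_, hbS _ hε⟩).symm)⟩)
    (Subtype.val ⁻¹' V0) (fun h v hv => hV0 h v.1 hv) (Subtype.val ⁻¹' L0)
    ((h0.preimage Subtype.val_injective.injOn).subset fun ε hε => ⟨hε, ε.2⟩)
    (fun hf => h1 ((hf.image Subtype.val).subset fun v hv => ⟨⟨v, hS v hv.2⟩, hv, rfl⟩))
    (fun hf => h2 ((hf.image Subtype.val).subset fun v hv => ⟨⟨v, hS v hv.1⟩, ⟨hv.2, hv.1⟩, rfl⟩))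
  refine ⟨Subtype.val '' L, (c0.image Subtype.val).subset fun ε hε => ⟨⟨ε, hε.2⟩, fun h => hε.1
    (((mem L ⟨_, haS _ hε.2⟩).trans h).trans (mem L ⟨_, hbS _ hε.2⟩).symm), rfl⟩,
    fun hf => c1 ((hf.preimage Subtype.val_injective.injOn).subset fun v hv =>
      ⟨(mem L v).2 hv.1, hv.2⟩),
    fun hf => c2 ((hf.preimage Subtype.val_injective.injOn).subset fun v hv =>
      ⟨hv.2, fun h => hv.1 ((mem L v).1 h)⟩), fun h => ?_⟩
  rcases c3 h with c | c | c | c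
  · refine Or.inl ?_
    rintro _ ⟨v, hv, rfl⟩
    exact (mem L (h • v)).2 (c v hv)
  · refine Or.inr (Or.inl ?_)
    rintro _ ⟨v, hv, rfl⟩ h'
    exact c v hv ((mem L (h • v)).1 h')
  · exact Or.inr (Or.inr (Or.inl fun v hv hL =>
      (mem L (h • ⟨v, hv⟩)).2 (c _ fun h' => hL ((mem L ⟨v, hv⟩).2 h'))))
  · exact Or.inr (Or.inr (Or.inr fun v hv hL h'' =>
      c ⟨v, hv⟩ (fun h' => hL ((mem L ⟨v, hv⟩).2 h')) ((mem L (h • ⟨v, hv⟩)).1 h'')))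

variable {G : Type} [Group G] {C : Subgroup G} {X : Set G} {Γ : Gen G}

/-- The edges inside `Y` that are cut by `L`. -/
def ed (Γ : Gen G) (Y L : Set G) : Set (G × G) :=
  {e | e.1 ∈ Y ∧ e.2 ∈ Y ∧ Γ.d e.1 e.2 ≤ 1 ∧ ¬ (e.1 ∈ L ↔ e.2 ∈ L)}

/-- Finite cuts of `Y` with two infinite sides. -/
def Good (Γ : Gen G) (Y L : Set G) : Prop :=
  (ed Γ Y L).Finite ∧ (L ∩ Y).Infinite ∧ (Y \ L).Infinite

theorem ed_compl (Y L : Set G) : ed Γ Y Lᶜ = ed Γ Y L := by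
  ext e
  simp only [ed, Set.mem_ofPred_eq, Set.mem_compl_iff, not_iff_not]

theorem Good.compl {Y L : Set G} (h : Good Γ Y L) : Good Γ Y Lᶜ :=
  ⟨by rw [ed_compl]; exact h.1, fun hf => h.2.2 (hf.subset fun _ hp => ⟨hp.2, hp.1⟩),
    fun hf => h.2.1 (hf.subset fun _ hp => ⟨hp.2, fun h' => h' hp.1⟩)⟩

theorem touch_finite {F : Set G} (hF : F.Finite) :
    {e : G × G | Γ.d e.1 e.2 ≤ 1 ∧ (e.1 ∈ F ∨ e.2 ∈ F)}.Finite := by
  refine ((Gen.N_finite (Γ := Γ) hF 1).prod (Gen.N_finite (Γ := Γ) hF 1)).subset ?_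
  rintro e ⟨hd, h | h⟩
  · exact ⟨Gen.subset_N 1 F h, _, h, hd⟩
  · exact ⟨⟨_, h, by rwa [Gen.d_comm]⟩, Gen.subset_N 1 F h⟩

theorem mem_Y (h : Sys C X) {p : G} : p ∈ (opp C X)ᶜ ↔ p ∈ C ∨ p ∈ X := by
  simp only [opp, Set.mem_compl_iff, Set.mem_ofPred_eq]
  have := h.ne
  tauto

theorem rc_of_gen {T : Finset G} (hT : Subgroup.closure (T : Set G) = C)
    (hr : ∀ t ∈ T, ∃ i, Γ.s i = t) : Γ.RC 1 C := by
  intro A hA p hp q hq hpA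
  have key : ∀ g ∈ Subgroup.closure (T : Set G), ∀ x ∈ C, (x ∈ A ↔ x * g ∈ A) := by
    intro g hg
    induction hg using Subgroup.closure_induction with
    | mem g hg =>
      intro x hx
      have hx' : x * g ∈ C := C.mul_mem hx (hT ▸ Subgroup.subset_closure hg)
      obtain ⟨i, rfl⟩ := hr g hg
      have hd := Gen.d_gen (Γ := Γ) x i
      exact ⟨hA x hx _ hx' hd, hA _ hx' x hx (by rwa [Gen.d_comm])⟩
    | one => simp
    | mul a b ha _ iha ihb =>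
      intro x hx
      rw [iha x hx, ihb _ (C.mul_mem hx (hT ▸ ha)), mul_assoc]
    | inv a ha iha =>
      intro x hx
      rw [iha _ (C.mul_mem hx (C.inv_mem (hT ▸ ha))), inv_mul_cancel_right]
  have := (key (p⁻¹ * q) (hT ▸ C.mul_mem (C.inv_mem hp) hq) p hp).mp hpA
  simpa using this

theorem exists_ed {Z L : Set G} (h : Γ.RC 1 Z) {p q : G} (hp : p ∈ Z) (hq : q ∈ Z) (hpL : p ∈ L)
    (hqL : q ∉ L) : (ed Γ Z L).Nonempty := by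
  by_contra hne
  refine hqL (h L (fun a ha b hb hd haL => ?_) p hp q hq hpL)
  by_contra hbL
  exact hne ⟨(a, b), ha, hb, hd, fun h' => hbL (h'.1 haL)⟩

theorem near_of_finite {F : Set G} (hF : F.Finite) : Γ.Near F C := by
  obtain ⟨r, hr⟩ := Gen.bdd_of_finite (Γ := Γ) hF 1
  exact ⟨r, fun p hp => ⟨1, C.one_mem, hr p hp⟩⟩

theorem infinite_C (h : Sys C X) (h1 : OE (⊤ : Subgroup G)) (Γ : Gen G) :
    (C : Set G).Infinite := by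
  intro hf
  rcases Gen.OE.finite_of_fr (Γ := Γ) (U := X) h1
    (((h.fr_near Γ).finite hf).subset Set.inter_subset_right) with h2 | h2
  · exact h.not_near Γ (near_of_finite h2)
  · exact h.swap.not_near Γ (near_of_finite (h2.subset fun p hp => hp.2))

section Side

variable (h : Sys C X) (hΓ : ∀ p q, Γ.d p q ≤ 1 → p ∈ X → q ∉ opp C X) (hC : Γ.RC 1 C)

include h hΓ hC in
theorem rc_Y : Γ.RC 1 (opp C X)ᶜ := by
  intro A hA
  have key : ∀ p ∈ (opp C X)ᶜ, ∃ c ∈ C, (p ∈ A ↔ c ∈ A) := by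
    intro p hp
    have := (Gen.conn_empty (Γ := Γ) p 1).ind
      (P := fun x => (x ∈ X ∧ (p ∈ A ↔ x ∈ A)) ∨ ∃ c ∈ C, (p ∈ A ↔ c ∈ A))
      (((mem_Y h).1 hp).elim (fun hc => Or.inr ⟨p, hc, Iff.rfl⟩) fun hx => Or.inl ⟨hx, Iff.rfl⟩) ?_
    · exact this.resolve_left fun h' => h.disj 1 h'.1 C.one_mem
    · rintro a b - - hd (⟨ha, e⟩ | h')
      · have hb := hΓ a b hd ha
        have ha' := (mem_Y h).2 (Or.inr ha)
        have e' : p ∈ A ↔ b ∈ A :=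
          e.trans ⟨hA a ha' b hb hd, hA b hb a ha' (by rwa [Gen.d_comm])⟩
        exact ((mem_Y h).1 hb).elim (fun hc => Or.inr ⟨b, hc, e'⟩) fun hx => Or.inl ⟨hx, e'⟩
      · exact Or.inr h'
  intro p hp q hq hpA
  obtain ⟨c, hc, e⟩ := key p hp
  obtain ⟨c', hc', e'⟩ := key q hq
  exact e'.2 (hC A (fun a ha b hb => hA a ((mem_Y h).2 (Or.inl ha)) b ((mem_Y h).2 (Or.inl hb)))
    c hc c' hc' (e.1 hpA))

theorem exists_good {Y : Set G} (hY : Γ.RC 1 Y) (h1 : (1 : G) ∈ Y) (hn : ¬ Γ.OEf Y) :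
    ∃ L, Good Γ Y L := by
  by_contra hne
  refine hn fun u hu => ?_
  by_contra ha
  have hv : ∀ p ∈ Y, u p ∈ insert (u 1) (u '' {p | p ∈ Y ∧ ∃ q ∈ Y, Γ.d p q ≤ 1 ∧ u p ≠ u q}) := by
    intro p hp
    refine hY {p | u p ∈ insert (u 1) (u '' {p | p ∈ Y ∧ ∃ q ∈ Y, Γ.d p q ≤ 1 ∧ u p ≠ u q})}
      (fun a ha b hb hd hA => ?_) 1 h1 p hp (Or.inl rfl)
    by_cases e : u b = u a
    · rw [Set.mem_ofPred_eq, e]
      exact hA
    · exact Or.inr ⟨b, ⟨hb, a, ha, by rwa [Gen.d_comm], e⟩, rfl⟩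
  have hfib : ∀ a, ({p | u p = a} ∩ Y).Finite := by
    intro a
    by_contra hi
    refine hne ⟨{p | u p = a}, (touch_finite (Γ := Γ) hu).subset fun e he => ⟨he.2.2.1, Or.inl
      ⟨he.1, e.2, he.2.1, he.2.2.1, fun h' => he.2.2.2 ?_⟩⟩, hi, fun hf => ha ⟨a, hf⟩⟩
    simp only [Set.mem_ofPred_eq, h']
  refine ha ⟨0, (((hu.image u).insert (u 1)).biUnion fun a _ => hfib a).subset fun p hp => ?_⟩
  exact Set.mem_biUnion (hv p hp.1) ⟨rfl, hp.1⟩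

include h hΓ in
theorem Good.inf (h1 : OE (⊤ : Subgroup G)) {L : Set G} (hL : Good Γ (opp C X)ᶜ L) :
    (L ∩ C).Infinite := by
  intro hf
  have : ((L ∩ (opp C X)ᶜ) ∩ Γ.fr (L ∩ (opp C X)ᶜ)).Finite := by
    refine (hf.union (hL.1.image Prod.fst)).subset ?_
    rintro p ⟨hp, q, hd, hq⟩
    rcases (mem_Y h).1 hp.2 with hc | hx
    · exact Or.inl ⟨hp.1, hc⟩
    · have hq' := hΓ p q hd hx
      exact Or.inr ⟨(p, q), ⟨hp.2, hq', hd, fun e => hq ⟨fun _ => ⟨e.1 hp.1, hq'⟩, fun _ => hp⟩⟩,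
        rfl⟩
  rcases Gen.OE.finite_of_fr h1 this with h2 | h2
  · exact hL.2.1 h2
  · exact hL.2.2 (h2.subset fun p hp h' => hp.2 h'.1)

include h hΓ hC in
theorem coset (h1 : OE (⊤ : Subgroup G)) {L : Set G} (hL : Good Γ (opp C X)ᶜ L)
    (hmin : ∀ X', X' = X ∨ X' = opp C X → ∀ L', Good Γ (opp C X')ᶜ L' →
      (ed Γ (opp C X)ᶜ L).ncard ≤ (ed Γ (opp C X')ᶜ L').ncard) {x : G} (hx : x ∈ X) :
    (L ∩ tr x C).Finite ∨ (tr x C \ L).Finite := by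
  by_contra hc
  rw [not_or] at hc
  have hside := far_eq (h.disj x hx) h.disj
  have hZ : ∀ p ∈ (opp C (far C X x))ᶜ, x * p ∈ X := by
    intro p hp
    by_cases hpC : p ∈ C
    · exact h.right p hpC x hx
    · exact h.far_mem hx (by_contra fun h' => hp ⟨hpC, h'⟩)
  have hCZ : ∀ p ∈ C, p ∈ (opp C (far C X x))ᶜ := fun p hp h' => h'.1 hp
  let f : G × G → G × G := fun e => (x * e.1, x * e.2)
  have hf : Function.Injective f := fun e e' he =>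
    Prod.ext (mul_left_cancel (congrArg Prod.fst he)) (mul_left_cancel (congrArg Prod.snd he))
  have hsub : f '' ed Γ (opp C (far C X x))ᶜ (tr x⁻¹ L) ⊆ ed Γ (opp C X)ᶜ L := by
    rintro _ ⟨e, he, rfl⟩
    exact ⟨(mem_Y h).2 (Or.inr (hZ _ he.1)), (mem_Y h).2 (Or.inr (hZ _ he.2.1)),
      by simpa [f] using he.2.2.1, by simpa [f] using he.2.2.2⟩
  have hg : Good Γ (opp C (far C X x))ᶜ (tr x⁻¹ L) := by
    refine ⟨(hL.1.subset hsub).of_finite_image hf.injOn, fun hfin => hc.1 ?_, fun hfin => hc.2 ?_⟩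
    · exact (tr_finite x hfin).subset fun p hp => ⟨by simpa using hp.1, hCZ _ hp.2⟩
    · exact (tr_finite x hfin).subset fun p hp => ⟨hCZ _ hp.1, by simpa using hp.2⟩
  have heq := Set.eq_of_subset_of_ncard_le hsub
    ((hmin _ hside _ hg).trans (Set.ncard_image_of_injective _ hf).ge) hL.1
  obtain ⟨p, hp⟩ := (hL.inf h hΓ h1).nonempty
  obtain ⟨q, hq⟩ := (hL.compl.inf h hΓ h1).nonempty
  obtain ⟨e, he⟩ := exists_ed hC hp.2 hq.2 hp.1 hq.1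
  have he' : e ∈ ed Γ (opp C X)ᶜ L :=
    ⟨(mem_Y h).2 (Or.inl he.1), (mem_Y h).2 (Or.inl he.2.1), he.2.2⟩
  rw [← heq] at he'
  obtain ⟨e', he', rfl⟩ := he'
  exact h.disj _ (hZ _ he'.1) he.1

theorem tr_coset {x c : G} (hc : c ∈ C) : tr (x * c) (C : Set G) = tr x C := by
  rw [← tr_tr, tr_subgroup hc]

include h hΓ hC in
theorem exists_inv (h1 : OE (⊤ : Subgroup G)) {L : Set G} (hL : Good Γ (opp C X)ᶜ L)
    (hco : ∀ x ∈ X, (L ∩ tr x C).Finite ∨ (tr x C \ L).Finite) :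
    ∃ L1 : Set G, (∀ x ∈ X, ∀ c ∈ C, x ∈ L1 → x * c ∈ L1) ∧ (ed Γ (opp C X)ᶜ L1).Finite ∧
      (L1 ∩ C).Infinite ∧ ((C : Set G) \ L1).Infinite := by
  have hCi := infinite_C h h1 Γ
  let L1 : Set G := (L ∩ C) ∪ {x | x ∈ X ∧ (tr x C \ L).Finite}
  have hC1 : ∀ c ∈ C, c ∈ L1 ↔ c ∈ L := fun c hc =>
    ⟨fun h' => h'.elim (fun h' => h'.1) fun h' => absurd hc (h.disj c h'.1),
      fun h' => Or.inl ⟨h', hc⟩⟩
  have hX1 : ∀ x ∈ X, x ∈ L1 ↔ (tr x C \ L).Finite := fun x hx =>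
    ⟨fun h' => h'.elim (fun h' => absurd h'.2 (h.disj x hx)) fun h' => h'.2,
      fun h' => Or.inr ⟨hx, h'⟩⟩
  have hinf : ∀ x : G, (tr x (C : Set G)).Infinite := fun x hf => hCi (by
    have := tr_finite x⁻¹ hf
    rwa [tr_inv_tr] at this)
  have hself : ∀ x : G, x ∈ tr x (C : Set G) := fun x => by simp
  have hD : {x | x ∈ X ∧ ¬ (x ∈ L ↔ x ∈ L1)}.Finite := by
    have hpiece : ∀ y : G, ({x | x ∈ X ∧ ¬ (x ∈ L ↔ x ∈ L1)} ∩ tr y C).Finite := by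
      intro y
      rcases ({x | x ∈ X ∧ ¬ (x ∈ L ↔ x ∈ L1)} ∩ tr y C).eq_empty_or_nonempty with e | ⟨x, hx, hy⟩
      · rw [e]; exact Set.finite_empty
      have e0 : tr x (C : Set G) = tr y C := by rw [← tr_coset (x := y) hy, mul_inv_cancel_left]
      have e1 : ∀ p ∈ tr y (C : Set G), tr p (C : Set G) = tr y C := fun p hp => by
        rw [← tr_coset (x := y) hp, mul_inv_cancel_left]
      by_cases hf : (tr y C \ L).Finite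
      · refine hf.subset fun p hp => ⟨hp.2, fun hpL => hp.1.2 (iff_of_true hpL ?_)⟩
        rw [hX1 p hp.1.1, e1 p hp.2]
        exact hf
      · refine ((e0 ▸ hco x hx.1).resolve_right hf).subset fun p hp =>
          ⟨by_contra fun hpL => hp.1.2 (iff_of_false hpL ?_), hp.2⟩
        rw [hX1 p hp.1.1, e1 p hp.2]
        exact hf
    refine ((hL.1.image Prod.fst).biUnion fun y _ => hpiece y).subset fun x hx => ?_
    have hne : (ed Γ (tr x C) L).Nonempty := by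
      by_cases hxL : x ∈ L
      · have h2 : ¬ (tr x C \ L).Finite := fun hf => hx.2 (iff_of_true hxL ((hX1 x hx.1).2 hf))
        obtain ⟨q, hq⟩ := Set.Infinite.nonempty h2
        exact exists_ed (hC.tr x) (hself x) hq.1 hxL hq.2
      · have h2 : (tr x C \ L).Finite := (hX1 x hx.1).1 (by_contra fun h' =>
          hx.2 (iff_of_false hxL h'))
        obtain ⟨q, hq, hq'⟩ := (hinf x).exists_notMem_finite h2
        exact exists_ed (hC.tr x) hq (hself x) (by_contra fun h' => hq' ⟨hq, h'⟩) hxL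
    obtain ⟨e, he⟩ := hne
    have hY : ∀ p ∈ tr x (C : Set G), p ∈ (opp C X)ᶜ := fun p hp => (mem_Y h).2 (Or.inr (by
      simpa using h.right _ hp x hx.1))
    refine Set.mem_biUnion (x := e.1) ⟨e, ⟨hY _ he.1, hY _ he.2.1, he.2.2⟩, rfl⟩ ⟨hx, ?_⟩
    simpa using C.inv_mem he.1
  refine ⟨L1, fun x hx c hc hxL => ?_, (hL.1.union (touch_finite (Γ := Γ) hD)).subset fun e he => ?_,
    fun hf => hL.inf h hΓ h1 (hf.subset fun p hp => ⟨(hC1 p hp.2).2 hp.1, hp.2⟩),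
    fun hf => hL.compl.inf h hΓ h1 (hf.subset fun p hp =>
      ⟨hp.2, fun h' => hp.1 ((hC1 p hp.2).1 h')⟩)⟩
  · rw [hX1 _ (h.right c hc x hx), tr_coset hc]
    exact (hX1 x hx).1 hxL
  · by_contra hn
    have key : ∀ p ∈ (opp C X)ᶜ, p = e.1 ∨ p = e.2 → (p ∈ L ↔ p ∈ L1) := by
      intro p hp hpe
      rcases (mem_Y h).1 hp with hc | hx
      · exact (hC1 p hc).symm
      · by_contra h'
        refine hn (Or.inr ⟨he.2.2.1, ?_⟩)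
        rcases hpe with rfl | rfl
        · exact Or.inl ⟨hx, h'⟩
        · exact Or.inr ⟨hx, h'⟩
    refine hn (Or.inl ⟨he.1, he.2.1, he.2.2.1, ?_⟩)
    rw [key _ he.1 (Or.inl rfl), key _ he.2.1 (Or.inr rfl)]
    exact he.2.2.2

open Classical in
/-- Collapsing the cosets different from `C`. -/
noncomputable def col (C : Subgroup G) (p : G) : G ⊕ G ⧸ C :=
  if p ∈ C then Sum.inl p else Sum.inr (p : G ⧸ C)

theorem col_of_mem {c : G} (hc : c ∈ C) : col C c = Sum.inl c := if_pos hc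

theorem col_smul (c : C) (p : G) : col C (c • p) = c • col C p := by
  have e : c • p ∈ C ↔ p ∈ C := C.mul_mem_cancel_left c.2
  by_cases hp : p ∈ C
  · rw [col_of_mem hp, col_of_mem (e.2 hp)]; rfl
  · rw [col, col, if_neg hp, if_neg (fun h => hp (e.1 h))]; rfl

theorem col_mul {x c : G} (hx : x ∉ C) (hc : c ∈ C) : col C (x * c) = col C x := by
  rw [col, col, if_neg hx, if_neg (fun h => hx ((C.mul_mem_cancel_right hc).1 h)),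
    QuotientGroup.mk_mul_of_mem x hc]

theorem col_eq {p q : G} (e : col C p = col C q) : p = q ∨ (p ∉ C ∧ p⁻¹ * q ∈ C) := by
  unfold col at e
  split_ifs at e with h1 h2 h2
  · exact Or.inl (Sum.inl_injective e)
  · exact Or.inr ⟨h1, QuotientGroup.eq.1 (Sum.inr_injective e)⟩

include h hΓ hC in
theorem finish {L1 : Set G} (hr : ∀ x ∈ X, ∀ c ∈ C, x ∈ L1 → x * c ∈ L1)
    (hf : (ed Γ (opp C X)ᶜ L1).Finite) (i1 : (L1 ∩ C).Infinite)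
    (i2 : ((C : Set G) \ L1).Infinite) :
    ∃ L : Set G, L ⊆ (opp C X)ᶜ ∧ (∀ x ∈ X, ∀ c ∈ C, x ∈ L → x * c ∈ L) ∧
      {p | p ∈ L ∧ ∃ q, q ∉ L ∧ q ∉ opp C X ∧ Γ.d p q ≤ 1}.Finite ∧
      (L ∩ C).Infinite ∧ ((C : Set G) \ L).Infinite ∧
      ∀ c ∈ C, (∀ p ∈ L, c * p ∈ L) ∨ (∀ p ∈ L, c * p ∉ L) ∨
        (∀ p, p ∉ opp C X → p ∉ L → c * p ∈ L) ∨ ∀ p, p ∉ opp C X → p ∉ L → c * p ∉ L := by
  have hY : ∀ c ∈ C, ∀ p ∈ (opp C X)ᶜ, c * p ∈ (opp C X)ᶜ := fun c hc p hp =>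
    (mem_Y h).2 (((mem_Y h).1 hp).imp (C.mul_mem hc) (h.left c hc p))
  let VS : SubMulAction C (G ⊕ G ⧸ C) := ⟨col C '' (opp C X)ᶜ, by
    rintro c _ ⟨p, hp, rfl⟩
    exact ⟨c • p, hY c c.2 p hp, col_smul c p⟩⟩
  let ES : SubMulAction C (G × G) :=
    ⟨{e | e.1 ∈ (opp C X)ᶜ ∧ e.2 ∈ (opp C X)ᶜ ∧ Γ.d e.1 e.2 ≤ 1}, fun c e he =>
      ⟨hY c c.2 _ he.1, hY c c.2 _ he.2.1, (Gen.d_mul (c : G) e.1 e.2).le.trans he.2.2⟩⟩
  have sat : ∀ p ∈ (opp C X)ᶜ, col C p ∈ col C '' (L1 ∩ (opp C X)ᶜ) ↔ p ∈ L1 := by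
    refine fun p hp => ⟨?_, fun h' => ⟨p, ⟨h', hp⟩, rfl⟩⟩
    rintro ⟨q, hq, e⟩
    rcases col_eq e with rfl | ⟨h1, h2⟩
    · exact hq.1
    · simpa using hr q (((mem_Y h).1 hq.2).resolve_left h1) _ h2 hq.1
  have hCY : ∀ c ∈ C, c ∈ (opp C X)ᶜ := fun c hc => (mem_Y h).2 (Or.inl hc)
  obtain ⟨L, c0, c1, c2, c3⟩ := nested (H := C) (fun e : G × G => col C e.1)
    (fun e : G × G => col C e.2) (fun c e => col_smul c e.1) (fun c e => col_smul c e.2) VS ES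
    (fun e he => ⟨_, he.1, rfl⟩) (fun e he => ⟨_, he.2.1, rfl⟩)
    (by
      rintro L ⟨_, ⟨p, hp, rfl⟩, hpL⟩ ⟨_, ⟨q, hq, rfl⟩, hqL⟩
      obtain ⟨e, he⟩ := exists_ed (L := col C ⁻¹' L) (rc_Y h hΓ hC) hp hq hpL hqL
      exact ⟨e, ⟨he.1, he.2.1, he.2.2.1⟩, he.2.2.2⟩)
    (Sum.inl '' (C : Set G))
    (by
      rintro _ ⟨c, hc, rfl⟩
      exact ⟨c, hCY c hc, col_of_mem hc⟩)
    (by
      rintro c _ ⟨p, hp, rfl⟩
      exact ⟨c • p, C.mul_mem c.2 hp, rfl⟩)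
    (col C '' (L1 ∩ (opp C X)ᶜ))
    (hf.subset fun e he => ⟨he.2.1, he.2.2.1, he.2.2.2, fun h' =>
      he.1 (((sat _ he.2.1).trans h').trans (sat _ he.2.2.1).symm)⟩)
    (fun h' => i1 ((h'.preimage Sum.inl_injective.injOn).subset fun p hp =>
      ⟨⟨p, ⟨hp.1, hCY p hp.2⟩, col_of_mem hp.2⟩, p, hp.2, rfl⟩))
    (fun h' => i2 ((h'.preimage Sum.inl_injective.injOn).subset fun p hp =>
      ⟨⟨p, hp.1, rfl⟩, fun h2 => hp.2 ((sat p (hCY p hp.1)).1 (by rwa [col_of_mem hp.1]))⟩))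
  refine ⟨(opp C X)ᶜ ∩ col C ⁻¹' L, Set.inter_subset_left, fun x hx c hc hxL => ?_,
    (c0.image Prod.fst).subset ?_, fun h' => c1 ((h'.image Sum.inl).subset ?_),
    fun h' => c2 ((h'.image Sum.inl).subset ?_), fun c hc => ?_⟩
  · refine ⟨(mem_Y h).2 (Or.inr (h.right c hc x hx)), ?_⟩
    show col C (x * c) ∈ L
    rw [col_mul (h.disj x hx) hc]
    exact hxL.2
  · rintro p ⟨hp, q, hq, hq', hd⟩
    exact ⟨(p, q), ⟨fun e => hq ⟨hq', e.1 hp.2⟩, hp.1, hq', hd⟩, rfl⟩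
  · rintro _ ⟨hL, c, hc, rfl⟩
    exact ⟨c, ⟨⟨hCY c hc, by rwa [Set.mem_preimage, col_of_mem hc]⟩, hc⟩, rfl⟩
  · rintro _ ⟨⟨c, hc, rfl⟩, hL⟩
    exact ⟨c, ⟨hc, fun h2 => hL (by rw [← col_of_mem hc]; exact h2.2)⟩, rfl⟩
  · have e := fun p => (congrArg (· ∈ L) (col_smul ⟨c, hc⟩ p)).to_iff
    rcases c3 ⟨c, hc⟩ with k | k | k | k
    · exact Or.inl fun p hp => ⟨hY c hc p hp.1, (e p).2 (k _ hp.2)⟩
    · exact Or.inr (Or.inl fun p hp h' => k _ hp.2 ((e p).1 h'.2))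
    · exact Or.inr (Or.inr (Or.inl fun p hp hL => ⟨hY c hc p hp,
        (e p).2 (k _ ⟨p, hp, rfl⟩ fun h' => hL ⟨hp, h'⟩)⟩))
    · exact Or.inr (Or.inr (Or.inr fun p hp hL h' =>
        k _ ⟨p, hp, rfl⟩ (fun h' => hL ⟨hp, h'⟩) ((e p).1 h'.2)))

include h hΓ in
theorem swap_gen : ∀ p q, Γ.d p q ≤ 1 → p ∈ opp C X → q ∉ opp C (opp C X) := by
  intro p q hd hp
  rw [h.opp_opp]
  exact fun hq => hΓ q p (by rwa [Gen.d_comm]) hq hp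

include h hΓ hC in
theorem exists_side (h1 : OE (⊤ : Subgroup G)) (hLP : Γ.LP1) (hne : ¬ OE C) :
    ∃ X', (X' = X ∨ X' = opp C X) ∧ ∃ L, Good Γ (opp C X')ᶜ L := by
  by_contra hn
  have a1 : Γ.OEf (opp C X)ᶜ := by_contra fun h' =>
    hn ⟨X, Or.inl rfl, exists_good (rc_Y h hΓ hC) (fun h2 => h2.1 C.one_mem) h'⟩
  have a2 : Γ.OEf (opp C (opp C X))ᶜ := by_contra fun h' =>
    hn ⟨_, Or.inr rfl, exists_good (rc_Y h.swap (swap_gen h hΓ) hC) (fun h2 => h2.1 C.one_mem) h'⟩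
  rw [h.opp_opp] at a2
  have e : (opp C X)ᶜ ∩ Xᶜ = C := by
    ext p
    exact ⟨fun hp => ((mem_Y h).1 hp.1).resolve_right hp.2,
      fun hp => ⟨(mem_Y h).2 (Or.inl hp), fun hx => h.disj p hx hp⟩⟩
  refine hne ⟨infinite_C h h1 Γ, fun L hL hai => ?_⟩
  have hf : Γ.Far L (C \ L) := fun r => by
    refine (((Gen.ball_finite (Γ := Γ) 1 r).inter_of_left (C : Set G)).biUnion fun g hg =>
      (hai g hg.2).image (· * g)).subset ?_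
    rintro p ⟨⟨a, ha, hd⟩, hp, hpL⟩
    refine Set.mem_biUnion (x := a⁻¹ * p) ⟨?_, C.mul_mem (C.inv_mem (hL ha)) hp⟩
      ⟨a, ⟨ha, by simpa using hpL⟩, by simp⟩
    rwa [Gen.d_eq] at hd
  have := hLP.sides (Y1 := (opp C X)ᶜ) (Y2 := Xᶜ) (L := L) (fun p q hd => ?_) a1 a2
    (by rwa [e]) (by rwa [e])
  · rwa [e] at this
  · by_cases hp : p ∈ X
    · exact Or.inl ⟨(mem_Y h).2 (Or.inr hp), hΓ p q hd hp⟩
    · by_cases hq : q ∈ X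
      · exact Or.inl ⟨hΓ q p (by rwa [Gen.d_comm]) hq, (mem_Y h).2 (Or.inr hq)⟩
      · exact Or.inr ⟨hp, hq⟩

end Side

end OneEndA

variable {G : Type} [Group G] {C : Subgroup G} {X : Set G}

/-- An invariant nested family of cuts of one closed side. -/
theorem Sys.exists_cut (h : Sys C X) (hG : Group.FG G) (h1 : OE (⊤ : Subgroup G))
    (hLP : ∀ Γ : Gen G, Γ.LP1) (hC : C.FG) (hne : ¬ OE C) :
    ∃ (X' : Set G) (Γ : Gen G) (L : Set G), Sys C X' ∧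
      (∀ p q, Γ.d p q ≤ 1 → p ∈ X' → q ∉ opp C X') ∧ Γ.RC 1 C ∧ L ⊆ (opp C X')ᶜ ∧
      (∀ x ∈ X', ∀ c ∈ C, x ∈ L → x * c ∈ L) ∧
      {p | p ∈ L ∧ ∃ q, q ∉ L ∧ q ∉ opp C X' ∧ Γ.d p q ≤ 1}.Finite ∧
      (L ∩ C).Infinite ∧ ((C : Set G) \ L).Infinite ∧
      ∀ c ∈ C, (∀ p ∈ L, c * p ∈ L) ∨ (∀ p ∈ L, c * p ∉ L) ∨
        (∀ p, p ∉ opp C X' → p ∉ L → c * p ∈ L) ∨ ∀ p, p ∉ opp C X' → p ∉ L → c * p ∉ L := by
  classical
  obtain ⟨T, hT⟩ := hC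
  obtain ⟨Γ, hΓ, hgen⟩ := h.exists_gen hG T fun t ht => hT ▸ Subgroup.subset_closure ht
  have hRC : Γ.RC 1 C := OneEndA.rc_of_gen hT hgen
  have hex : ∃ k, ∃ X', (X' = X ∨ X' = opp C X) ∧ ∃ L, OneEndA.Good Γ (opp C X')ᶜ L ∧
      (OneEndA.ed Γ (opp C X')ᶜ L).ncard = k := by
    obtain ⟨X', hX', L, hL⟩ := OneEndA.exists_side h hΓ hRC h1 (hLP Γ) hne
    exact ⟨_, X', hX', L, hL, rfl⟩
  obtain ⟨X', hX', L, hL, hk⟩ := Nat.find_spec hex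
  have hS : Sys C X' ∧ (∀ p q, Γ.d p q ≤ 1 → p ∈ X' → q ∉ opp C X') ∧
      ∀ Z, Z = X' ∨ Z = opp C X' → Z = X ∨ Z = opp C X := by
    rcases hX' with rfl | rfl
    · exact ⟨h, hΓ, fun _ hZ => hZ⟩
    · exact ⟨h.swap, OneEndA.swap_gen h hΓ, fun _ hZ => by rw [h.opp_opp] at hZ; exact hZ.symm⟩
  obtain ⟨h', hΓ', hZ⟩ := hS
  obtain ⟨L1, a1, a2, a3, a4⟩ := OneEndA.exists_inv h' hΓ' hRC h1 hL fun x hx =>
    OneEndA.coset h' hΓ' hRC h1 hL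
      (fun Z hZ' L' hL' => hk ▸ Nat.find_min' hex ⟨Z, hZ Z hZ', L', hL', rfl⟩) hx
  obtain ⟨L2, b⟩ := OneEndA.finish h' hΓ' hRC a1 a2 a3 a4
  exact ⟨X', Γ, L2, h', hΓ', hRC, b⟩

end Pool.Agent.Lib.MP_d98eb9_al.W
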