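import Mathlib

/-! A square-summable bound for the number of free factors. -/

namespace Pool.Agent.Lib.MP_d98eb9_al.W

/-- There are `k` almost invariant functions whose coboundaries are independent over the
square-summable functions. -/
def Iota (H : Type) [Group H] (k : ℕ) : Prop :=
  ∃ f : Fin k → H → ℤ, (∀ i g, {c | f i (c * g) ≠ f i c}.Finite) ∧
    ∀ ξ : Fin k → H → ℝ, (∀ i, Summable fun c => ξ i c ^ 2) →
      (∀ g h : H, ∑ i, ∑ᶠ c : H, ((f i (c * g) - f i c : ℤ) : ℝ) * ξ i (c * h) = 0) →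
        ∀ i c, ξ i c = 0

namespace L2

open ContinuousLinearMap

section Abs

variable {V W : Type} [NormedAddCommGroup V] [InnerProductSpace ℝ V] [CompleteSpace V]
  [NormedAddCommGroup W] [InnerProductSpace ℝ W] [CompleteSpace W]

lemma exists_res (A : V →L[ℝ] W) {ε : ℝ} (hε : 0 < ε) :
    ∃ R : V →L[ℝ] V, (∀ x, (adjoint A) (A (R x)) + ε • R x = x) ∧
      (∀ x, R ((adjoint A) (A x) + ε • x) = x) := by
  have hu : IsUnit ((adjoint A) ∘L A + ε • (1 : V →L[ℝ] V)) := by
    refine isUnit_of_forall_le_norm_inner_map _ (c := ⟨ε, hε.le⟩) hε fun x => ?_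
    have h1 : inner ℝ (((adjoint A) ∘L A + ε • (1 : V →L[ℝ] V)) x) x
        = ‖A x‖ ^ 2 + ε * ‖x‖ ^ 2 := by
      change inner ℝ ((adjoint A) (A x) + ε • x) x = _
      simp only [inner_add_left, adjoint_inner_left, real_inner_smul_left,
        real_inner_self_eq_norm_sq]
    rw [h1, Real.norm_eq_abs, abs_of_nonneg (by positivity)]
    change ‖x‖ ^ 2 * ε ≤ _
    nlinarith [sq_nonneg ‖A x‖]
  obtain ⟨u, hu⟩ := hu
  refine ⟨(u⁻¹ : (V →L[ℝ] V)ˣ), fun x => ?_, fun x => ?_⟩
  · have := congrArg (fun T : V →L[ℝ] V => T x) u.mul_inv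
    simpa [hu] using this
  · have := congrArg (fun T : V →L[ℝ] V => T x) u.inv_mul
    simpa [hu] using this

lemma energy (A : V →L[ℝ] W) (ε : ℝ) (u : V) :
    inner ℝ ((adjoint A) (A u) + ε • u) u = ‖A u‖ ^ 2 + ε * ‖u‖ ^ 2 := by
  simp only [inner_add_left, adjoint_inner_left, real_inner_smul_left, real_inner_self_eq_norm_sq]

lemma est_small (A : V →L[ℝ] W) {ε : ℝ} {u x : V}
    (h : (adjoint A) (A u) + ε • u = x) : ε * ‖u‖ ≤ ‖x‖ := by
  have h1 := energy A ε u
  rw [h] at h1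
  have h2 := real_inner_le_norm x u
  rcases (norm_nonneg u).eq_or_lt with h0 | h0
  · rw [← h0]; simp
  · have : ε * ‖u‖ * ‖u‖ ≤ ‖x‖ * ‖u‖ := by nlinarith [sq_nonneg ‖A u‖]
    exact le_of_mul_le_mul_right this h0

lemma est_adj (A : V →L[ℝ] W) {ε : ℝ} (hε : 0 < ε) {u : V} {y : W}
    (h : (adjoint A) (A u) + ε • u = adjoint A y) : ‖A u‖ ≤ ‖y‖ ∧ ε * ‖u‖ ^ 2 ≤ ‖y‖ ^ 2 := by
  have h1 := energy A ε u
  rw [h, adjoint_inner_left] at h1
  have h2 := real_inner_le_norm y (A u)
  have h3 : 0 ≤ ε * ‖u‖ ^ 2 := by positivity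
  have h4 : ‖A u‖ ≤ ‖y‖ := by
    rcases (norm_nonneg (A u)).eq_or_lt with h0 | h0
    · rw [← h0]; exact norm_nonneg _
    · have : ‖A u‖ * ‖A u‖ ≤ ‖y‖ * ‖A u‖ := by nlinarith
      exact le_of_mul_le_mul_right this h0
  refine ⟨h4, ?_⟩
  nlinarith [norm_nonneg (A u), norm_nonneg y]

theorem abs_bound {ι κ T : Type} [Fintype ι] [Fintype κ] (A : V →L[ℝ] W)
    (hA : ∀ x, A x = 0 → x = 0) (e : ι → V) (he : ∀ i, ‖e i‖ = 1) (e' : κ → W)
    (he' : ∀ j, ‖e' j‖ = 1) (τ : T → V →L[ℝ] V)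
    (hτ : ∀ t x, (adjoint A) (A (τ t x)) = τ t ((adjoint A) (A x)))
    (htr : ∀ R : V →L[ℝ] V, (∀ t x, R (τ t x) = τ t (R x)) →
      ∑ i, inner ℝ ((A ∘L R) (e i)) (A (e i))
        = ∑ j, inner ℝ (adjoint (A ∘L R) (e' j)) (adjoint A (e' j))) :
    Fintype.card ι ≤ Fintype.card κ := by
  classical
  have hd : Dense (Set.range (adjoint A)) := by
    have h1 : (adjoint A).rangeᗮ = ⊥ := by
      rw [orthogonal_range, adjoint_adjoint, Submodule.eq_bot_iff]
      intro x hx
      exact hA x hx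
    have h2 := (Submodule.topologicalClosure_eq_top_iff (K := (adjoint A).range)).2 h1
    have h3 := Submodule.dense_iff_topologicalClosure_eq_top.2 h2
    exact h3
  set η : ℝ := 1 / (4 * ((Fintype.card ι : ℝ) + 1)) with hη
  have hηpos : 0 < η := by positivity
  have hy : ∀ i, ∃ y : W, ‖e i - adjoint A y‖ < η := by
    intro i
    obtain ⟨z, ⟨y, rfl⟩, hz⟩ := hd.exists_dist_lt (e i) hηpos
    exact ⟨y, by rwa [dist_eq_norm] at hz⟩
  choose y hy using hy
  set M : ℝ := ∑ i, ‖y i‖ + 1 with hM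
  have hMpos : 0 < M := by positivity
  have hyM : ∀ i, ‖y i‖ ≤ M := by
    intro i
    have := Finset.single_le_sum (f := fun i => ‖y i‖) (fun i _ => norm_nonneg _)
      (Finset.mem_univ i)
    linarith
  set δ : ℝ := η / M with hδ
  have hδpos : 0 < δ := by positivity
  have hε : 0 < δ ^ 2 := by positivity
  obtain ⟨R, hR1, hR2⟩ := exists_res A hε
  have hRτ : ∀ t x, R (τ t x) = τ t (R x) := by
    intro t x
    conv_lhs => rw [← hR1 x]
    rw [map_add, map_smul, ← hτ, hR2]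
  have hsym : ∀ x z, inner ℝ (R x) z = inner ℝ x (R z) := by
    intro x z
    conv_lhs => rw [← hR1 z]
    conv_rhs => rw [← hR1 x]
    simp only [inner_add_left, inner_add_right, adjoint_inner_left, adjoint_inner_right,
      real_inner_smul_left, real_inner_smul_right]
  have hadj : ∀ w, adjoint (A ∘L R) w = R (adjoint A w) := by
    intro w
    refine ext_inner_right ℝ fun v => ?_
    rw [adjoint_inner_left, hsym, adjoint_inner_left, comp_apply]
  have h1 := htr R hRτ
  have h2 : ∀ j, inner ℝ (adjoint (A ∘L R) (e' j)) (adjoint A (e' j)) ≤ (1 : ℝ) := by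
    intro j
    rw [hadj, adjoint_inner_right]
    have h3 := (est_adj A hε (hR1 (adjoint A (e' j)))).1
    have h4 := real_inner_le_norm (A (R (adjoint A (e' j)))) (e' j)
    rw [he'] at h3 h4
    linarith
  have h3 : ∀ i, 1 - 2 * η ≤ inner ℝ ((A ∘L R) (e i)) (A (e i)) := by
    intro i
    rw [comp_apply, ← adjoint_inner_left]
    have h4 : adjoint A (A (R (e i))) = e i - δ ^ 2 • R (e i) := eq_sub_of_add_eq (hR1 _)
    rw [h4, inner_sub_left, real_inner_self_eq_norm_sq, he, real_inner_smul_left]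
    have h5 := real_inner_le_norm (R (e i)) (e i)
    rw [he, mul_one] at h5
    have h6 : R (e i) = R (e i - adjoint A (y i)) + R (adjoint A (y i)) := by
      rw [← map_add, sub_add_cancel]
    have h7 := est_small A (hR1 (e i - adjoint A (y i)))
    have h8 := (est_adj A hε (hR1 (adjoint A (y i)))).2
    have h9 : δ * ‖R (adjoint A (y i))‖ ≤ ‖y i‖ := by
      rw [← mul_pow] at h8
      exact (pow_le_pow_iff_left₀ (by positivity) (norm_nonneg _) two_ne_zero).1 h8
    have h10 : δ * M = η := by rw [hδ]; field_simp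
    have h11 : ‖R (e i)‖ ≤ ‖R (e i - adjoint A (y i))‖ + ‖R (adjoint A (y i))‖ := by
      conv_lhs => rw [h6]
      exact norm_add_le _ _
    have h12 : δ ^ 2 * ‖R (adjoint A (y i))‖ ≤ η := by
      have := mul_le_mul_of_nonneg_left (h9.trans (hyM i)) hδpos.le
      nlinarith
    have h13 := mul_le_mul_of_nonneg_left (h5.trans h11) hε.le
    have := hy i
    nlinarith
  have h4 : (Fintype.card ι : ℝ) * (1 - 2 * η) ≤ Fintype.card κ := by
    calc (Fintype.card ι : ℝ) * (1 - 2 * η) = ∑ _i : ι, (1 - 2 * η) := by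
          rw [Finset.sum_const, Finset.card_univ, nsmul_eq_mul]
      _ ≤ _ := Finset.sum_le_sum fun i _ => h3 i
      _ = _ := h1
      _ ≤ ∑ _j : κ, (1 : ℝ) := Finset.sum_le_sum fun j _ => h2 j
      _ = _ := by simp
  have h5 : (Fintype.card ι : ℝ) * (2 * η) < 1 := by
    have h0 : (0 : ℝ) ≤ Fintype.card ι := Nat.cast_nonneg _
    rw [hη, mul_one_div, ← mul_div_assoc, div_lt_one (by positivity)]
    linarith
  have h6 : (Fintype.card ι : ℝ) < (Fintype.card κ : ℝ) + 1 := by nlinarith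
  have h7 : Fintype.card ι < Fintype.card κ + 1 := by exact_mod_cast h6
  omega

end Abs

section Conc

variable {H : Type}

/-- Square-summable real functions. -/
abbrev E (H : Type) : Type := lp (fun _ : H => ℝ) 2

lemma mem_iff (x : H → ℝ) : Memℓp (E := fun _ : H => ℝ) x 2 ↔ Summable fun c => x c ^ 2 := by
  rw [memℓp_gen_iff (by norm_num)]
  simp

lemma inner_E (x y : E H) : inner ℝ x y = ∑' c, x c * y c := by
  rw [lp.inner_eq_tsum]
  refine tsum_congr fun c => ?_
  simp [mul_comm]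

/-- Reindexing along a permutation, as a linear map. -/
def reL (σ : H ≃ H) : E H →ₗ[ℝ] E H where
  toFun x := ⟨fun c => x (σ c), (mem_iff _).2
    ((σ.summable_iff (f := fun c => x c ^ 2)).2 ((mem_iff _).1 x.2))⟩
  map_add' _ _ := rfl
  map_smul' _ _ := rfl

lemma reL_apply (σ : H ≃ H) (x : E H) (c : H) : reL σ x c = x (σ c) := rfl

lemma inner_reL (σ : H ≃ H) (x y : E H) : inner ℝ (reL σ x) (reL σ y) = inner ℝ x y := by
  rw [inner_E, inner_E]
  exact σ.tsum_eq (fun c => x c * y c)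

/-- Reindexing along a permutation. -/
noncomputable def re (σ : H ≃ H) : E H →L[ℝ] E H :=
  ((reL σ).isometryOfInner (inner_reL σ)).toContinuousLinearMap

lemma re_apply (σ : H ≃ H) (x : E H) (c : H) : re σ x c = x (σ c) := rfl

lemma inner_re (σ : H ≃ H) (x y : E H) : inner ℝ (re σ x) (re σ y) = inner ℝ x y :=
  inner_reL σ x y

/-- Finite families of square-summable functions. -/
abbrev F (ι H : Type) [Fintype ι] : Type := PiLp 2 (fun _ : ι => E H)

variable [Group H] {ι κ : Type} [Fintype ι] [Fintype κ]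

/-- Right translation. -/
noncomputable def tau (ι : Type) [Fintype ι] (h : H) : F ι H →L[ℝ] F ι H :=
  (PiLp.continuousLinearEquiv 2 ℝ (fun _ : ι => E H)).symm.toContinuousLinearMap ∘L
    ContinuousLinearMap.pi fun i => re (Equiv.mulRight h) ∘L PiLp.proj 2 (fun _ : ι => E H) i

lemma tau_apply (h : H) (x : F ι H) (i : ι) (c : H) : tau ι h x i c = x i (c * h) := rfl

lemma inner_tau (h : H) (x y : F ι H) : inner ℝ (tau ι h x) (tau ι h y) = inner ℝ x y := by
  rw [PiLp.inner_apply, PiLp.inner_apply]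
  exact Finset.sum_congr rfl fun i _ => inner_re (Equiv.mulRight h) (x i) (y i)

lemma tau_tau (h : H) (x : F ι H) : tau ι h (tau ι h⁻¹ x) = x := by
  ext i c
  simp [tau_apply]

lemma inner_tau_left (h : H) (x y : F ι H) :
    inner ℝ (tau ι h x) y = inner ℝ x (tau ι h⁻¹ y) := by
  rw [← inner_tau h x, tau_tau]

lemma adj_tau (U : F ι H →L[ℝ] F κ H) (hU : ∀ h x, U (tau ι h x) = tau κ h (U x)) (h : H)
    (y : F κ H) : adjoint U (tau κ h y) = tau ι h (adjoint U y) := by
  refine ext_inner_right ℝ fun v => ?_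
  rw [adjoint_inner_left, inner_tau_left, inner_tau_left, adjoint_inner_left, hU]

open Classical in
/-- The standard unit vectors. -/
noncomputable def bs (i : ι) (c : H) : F ι H := PiLp.single 2 i (lp.single 2 c (1 : ℝ))

omit [Group H] in
lemma inner_bs (i : ι) (c : H) (x : F ι H) : inner ℝ (bs i c) x = x i c := by
  classical
  rw [PiLp.inner_apply, Finset.sum_eq_single i]
  · simp [bs, lp.inner_single_left]
  · intro j _ hj
    simp [bs, hj]
  · simp

omit [Group H] in
open Classical in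
lemma bs_apply (i j : ι) (c d : H) : bs i c j d = if j = i ∧ d = c then (1 : ℝ) else 0 := by
  by_cases hj : j = i
  · subst hj
    by_cases hd : d = c
    · subst hd; simp [bs]
    · simp [bs, hd, lp.single_apply]
  · simp [bs, hj]

omit [Group H] in
lemma norm_bs (i : ι) (c : H) : ‖bs i c‖ = 1 := by
  have h := inner_bs i c (bs i c)
  rw [real_inner_self_eq_norm_sq, bs_apply, if_pos ⟨rfl, rfl⟩] at h
  exact (pow_eq_one_iff_of_nonneg (norm_nonneg _) two_ne_zero).1 h

lemma bs_tau (i : ι) (h : H) : bs i h = tau ι h⁻¹ (bs i 1) := by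
  ext j c
  rw [tau_apply, bs_apply, bs_apply, mul_inv_eq_one]

lemma adj_kernel (U : F ι H →L[ℝ] F κ H) (hU : ∀ h x, U (tau ι h x) = tau κ h (U x)) (i : ι)
    (j : κ) (h : H) : adjoint U (bs j 1) i h = U (bs i 1) j h⁻¹ := by
  rw [← inner_bs, adjoint_inner_right, real_inner_comm, inner_bs, bs_tau i h, hU, tau_apply,
    one_mul]

lemma trace_eq (U A : F ι H →L[ℝ] F κ H) (hU : ∀ h x, U (tau ι h x) = tau κ h (U x))
    (hA : ∀ h x, A (tau ι h x) = tau κ h (A x)) :
    ∑ i, inner ℝ (U (bs i 1)) (A (bs i 1))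
      = ∑ j, inner ℝ (adjoint U (bs j 1)) (adjoint A (bs j 1)) := by
  simp only [PiLp.inner_apply, inner_E]
  rw [Finset.sum_comm]
  refine Finset.sum_congr rfl fun j _ => Finset.sum_congr rfl fun i _ => ?_
  simp only [adj_kernel U hU, adj_kernel A hA]
  exact ((Equiv.inv H).tsum_eq (fun c => U (bs i 1) j c * A (bs i 1) j c)).symm

theorem card_le (A : F ι H →L[ℝ] F κ H) (hA : ∀ h x, A (tau ι h x) = tau κ h (A x))
    (hinj : ∀ x, A x = 0 → x = 0) : Fintype.card ι ≤ Fintype.card κ := by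
  refine abs_bound A hinj (fun i => bs i (1 : H)) (fun i => norm_bs i 1) (fun j => bs j (1 : H))
    (fun j => norm_bs j 1) (tau ι) (fun t x => ?_) fun R hR => ?_
  · rw [hA, adj_tau A hA]
  · refine trace_eq (A ∘L R) A (fun h x => ?_) hA
    rw [comp_apply, comp_apply, hR, hA]

/-- The operator given by a matrix of finitely supported coefficients. -/
noncomputable def op (S : κ → ι → Finset H) (a : κ → ι → H → ℝ) : F ι H →L[ℝ] F κ H :=
  (PiLp.continuousLinearEquiv 2 ℝ (fun _ : κ => E H)).symm.toContinuousLinearMap ∘L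
    ContinuousLinearMap.pi fun j => ∑ i, ∑ c ∈ S j i,
      a j i c • (re (Equiv.mulLeft c) ∘L PiLp.proj 2 (fun _ : ι => E H) i)

lemma op_apply (S : κ → ι → Finset H) (a : κ → ι → H → ℝ) (x : F ι H) (j : κ) (h : H) :
    op S a x j h = ∑ i, ∑ c ∈ S j i, a j i c * x i (c * h) := by
  have h1 : op S a x j = ∑ i, ∑ c ∈ S j i, a j i c • re (Equiv.mulLeft c) (x i) := by
    simp [op]
  rw [h1]
  change lp.evalₗ (𝕜 := ℝ) (fun _ : H => ℝ) 2 h _ = _
  simp only [map_sum, map_smul]
  rfl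

lemma op_tau (S : κ → ι → Finset H) (a : κ → ι → H → ℝ) (h : H) (x : F ι H) :
    op S a (tau ι h x) = tau κ h (op S a x) := by
  ext j c
  simp only [tau_apply, op_apply, mul_assoc]

end Conc

lemma fin_supp {H : Type} [Group H] (f : H → ℤ) (g : H) (hf : {c | f (c * g) ≠ f c}.Finite)
    (ξ : H → ℝ) :
    (Function.support fun c => ((f (c * g) - f c : ℤ) : ℝ) * ξ c).Finite := by
  refine hf.subset fun c hc h0 => hc ?_
  simp [h0]

lemma cocycle {H : Type} [Group H] (f : H → ℤ) (hf : ∀ g, {c | f (c * g) ≠ f c}.Finite)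
    (ξ : H → ℝ) (g g' h : H) :
    ∑ᶠ c : H, ((f (c * (g * g')) - f c : ℤ) : ℝ) * ξ (c * h)
      = ∑ᶠ c : H, ((f (c * g') - f c : ℤ) : ℝ) * ξ (c * (g⁻¹ * h))
        + ∑ᶠ c : H, ((f (c * g) - f c : ℤ) : ℝ) * ξ (c * h) := by
  have h1 : ∑ᶠ c : H, ((f (c * g') - f c : ℤ) : ℝ) * ξ (c * (g⁻¹ * h))
      = ∑ᶠ c : H, ((f (c * g * g') - f (c * g) : ℤ) : ℝ) * ξ (c * h) := by
    rw [← finsum_comp_equiv (Equiv.mulRight g)]
    simp [mul_assoc]
  rw [h1, ← finsum_add_distrib]
  · refine finsum_congr fun c => ?_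
    rw [mul_assoc]
    push_cast
    ring
  · have h2 : {c | f (c * g * g') ≠ f (c * g)}.Finite :=
      (hf g').preimage (f := fun c => c * g) (mul_left_injective g).injOn
    refine h2.subset fun c hc h0 => hc ?_
    simp [h0]
  · exact fin_supp f g (hf g) fun c => ξ (c * h)

lemma const_orbit {H : Type} [Group H] (ξ : H → ℝ) (hξ : Summable fun c => ξ c ^ 2) (j : H)
    (hj : ¬ IsOfFinOrder j) (h : ∀ c, ξ (j * c) = ξ c) (c : H) : ξ c = 0 := by
  have h1 : ∀ n : ℕ, ξ (j ^ n * c) = ξ c := by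
    intro n
    induction n with
    | zero => simp
    | succ n ih => rw [pow_succ', mul_assoc, h, ih]
  have h2 : Function.Injective fun n : ℕ => j ^ n * c := fun m n hmn =>
    (injective_pow_iff_not_isOfFinOrder.2 hj) (mul_right_cancel hmn)
  have h3 := hξ.comp_injective h2
  have h4 : ((fun c => ξ c ^ 2) ∘ fun n : ℕ => j ^ n * c) = fun _ => ξ c ^ 2 := by
    ext n
    simp [h1]
  rw [h4, summable_const_iff] at h3
  exact pow_eq_zero_iff two_ne_zero |>.1 h3

end L2

theorem Iota.zero (H : Type) [Group H] : Iota H 0 :=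
  ⟨fun i => i.elim0, fun i => i.elim0, fun _ _ _ i => i.elim0⟩

theorem Iota.bdd (H : Type) [Group H] (hH : Group.FG H) : ∃ d, ∀ k, Iota H k → k ≤ d := by
  classical
  obtain ⟨S, hS⟩ := hH.out
  refine ⟨Fintype.card S, fun k ⟨f, hf, hind⟩ => ?_⟩
  have := L2.card_le (ι := Fin k) (κ := S)
    (L2.op (fun s i => (hf i s).toFinset) fun s i c => ((f i (c * s) - f i c : ℤ) : ℝ))
    (L2.op_tau _ _) fun x hx => ?_
  · simpa using this
  have h1 : ∀ g ∈ Subgroup.closure (S : Set H), ∀ h : H,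
      ∑ i, ∑ᶠ c : H, ((f i (c * g) - f i c : ℤ) : ℝ) * x i (c * h) = 0 := by
    intro g hg
    induction hg using Subgroup.closure_induction with
    | mem s hs =>
      intro h
      have h2 := L2.op_apply (fun (s : S) i => (hf i s).toFinset)
        (fun s i c => ((f i (c * s) - f i c : ℤ) : ℝ)) x ⟨s, hs⟩ h
      rw [hx] at h2
      have h3 : (0 : L2.F S H) ⟨s, hs⟩ h = 0 := rfl
      rw [h3] at h2
      rw [h2]
      refine Finset.sum_congr rfl fun i _ => finsum_eq_sum_of_support_subset _ fun c hc => ?_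
      simp only [Set.Finite.coe_toFinset, Set.mem_ofPred_eq]
      intro h0
      apply hc
      simp [h0]
    | one => intro h; simp
    | mul g g' _ _ ih ih' =>
      intro h
      simp only [L2.cocycle _ (hf _), Finset.sum_add_distrib, ih, ih', add_zero]
    | inv g _ ih =>
      intro h
      have h2 : ∑ i, ∑ᶠ c : H, ((f i (c * (g⁻¹ * g)) - f i c : ℤ) : ℝ) * x i (c * h) = 0 := by
        simp
      simpa only [L2.cocycle _ (hf _), Finset.sum_add_distrib, ih, zero_add] using h2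
  have h2 := hind (fun i c => x i c) (fun i => (L2.mem_iff _).1 (x i).2)
    fun g h => h1 g (by rw [hS]; trivial) h
  ext i c
  exact h2 i c

theorem Iota.step {H H' : Type} [Group H] [Group H'] (φ : H' →* H) (hφ : Function.Injective φ)
    (ρ : H → H') (h1 : ρ 1 = 1) (hl : ∀ a x, ρ (φ a * x) = a * ρ x)
    (hr : ∀ c, c ∉ φ.range → ∀ a, ρ (c * φ a) = ρ c)
    (hfin : ∀ g, ∃ T : Set H, T.Finite ∧ ∀ c, ρ (c * g) ≠ ρ c → ∃ a, ∃ t ∈ T, c = φ a * t)
    (f0 : H → ℤ) (hf0 : ∀ g, {c | f0 (c * g) ≠ f0 c}.Finite) (hf0r : ∀ c a, f0 (c * φ a) = f0 c)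
    (j : H) (hj : ¬ IsOfFinOrder j) (hj1 : f0 j = f0 1 + 1)
    (hj2 : f0 1 = f0 j⁻¹ ∨ f0 1 + 1 = f0 j⁻¹)
    (hj3 : ∀ c, c ≠ 1 → c ≠ j⁻¹ → f0 (c * j) = f0 c) {k : ℕ} (h : Iota H' k) :
    Iota H (k + 1) := by
  classical
  obtain ⟨f, hf, hind⟩ := h
  have hρ : ∀ a, ρ (φ a) = a := fun a => by simpa [h1] using hl a 1
  refine ⟨Fin.cons f0 fun i c => f i (ρ c), fun i g => ?_, fun ξ hξ heq => ?_⟩
  · refine Fin.cases ?_ (fun i => ?_) i
    · simpa using hf0 g
    · obtain ⟨T, hT, hc⟩ := hfin g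
      refine (hT.biUnion fun t _ => (hf i ((ρ t)⁻¹ * ρ (t * g))).image
        fun b => φ (b * (ρ t)⁻¹) * t).subset fun c hc' => ?_
      simp only [Fin.cons_succ, Set.mem_ofPred_eq] at hc'
      obtain ⟨a, t, ht, rfl⟩ := hc c fun h0 => hc' (by rw [h0])
      rw [mul_assoc, hl, hl] at hc'
      simp only [Set.mem_iUnion, Set.mem_image, Set.mem_ofPred_eq]
      refine ⟨t, ht, a * ρ t, ?_, by simp⟩
      simpa [mul_assoc] using hc'
  have hs : ∀ i c, ξ (Fin.succ i) c = 0 := by
    intro i c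
    have h2 := hind (fun i b => ξ (Fin.succ i) (φ b * c))
      (fun i => (hξ i.succ).comp_injective
        (i := fun b => φ b * c) fun b b' hb => hφ (mul_right_cancel hb)) (fun a b => ?_) i 1
    · simpa using h2
    have h3 := heq (φ a) (φ b * c)
    rw [Fin.sum_univ_succ] at h3
    simp only [Fin.cons_zero, Fin.cons_succ, hf0r, sub_self, Int.cast_zero, zero_mul,
      finsum_zero, zero_add] at h3
    rw [← h3]
    refine Finset.sum_congr rfl fun i _ => ?_
    have h4 := finsum_mem_range (f := fun x : H =>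
      ((f i (ρ (x * φ a)) - f i (ρ x) : ℤ) : ℝ) * ξ i.succ (x * (φ b * c))) hφ
    rw [← finsum_mem_univ (f := fun x : H =>
      ((f i (ρ (x * φ a)) - f i (ρ x) : ℤ) : ℝ) * ξ i.succ (x * (φ b * c))),
      finsum_mem_inter_support_eq' _ Set.univ (Set.range φ), h4]
    · refine finsum_congr fun x => ?_
      rw [← map_mul, hρ, hρ, map_mul, mul_assoc]
    · intro x hx
      simp only [Set.mem_univ, true_iff]
      by_contra h5
      apply hx
      simp [hr x h5 a]
  have hj0 : (1 : H) ≠ j⁻¹ := by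
    intro h0
    apply hj
    rw [inv_eq_one.1 h0.symm]
    exact IsOfFinOrder.one
  have h0 : ∀ c, ξ 0 c + ((f0 1 - f0 j⁻¹ : ℤ) : ℝ) * ξ 0 (j⁻¹ * c) = 0 := by
    intro c
    have h3 := heq j c
    rw [Fin.sum_univ_succ] at h3
    simp only [Fin.cons_zero, hs, mul_zero, finsum_zero, Finset.sum_const_zero, add_zero] at h3
    rw [finsum_eq_sum_of_support_subset (s := {1, j⁻¹}), Finset.sum_pair hj0] at h3
    · simpa [hj1] using h3
    · intro x hx
      by_contra h5
      simp only [Finset.coe_insert, Finset.coe_singleton, Set.mem_insert_iff,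
        Set.mem_singleton_iff, not_or] at h5
      apply hx
      simp [hj3 x h5.1 h5.2]
  have h00 : ∀ c, ξ 0 c = 0 := by
    rcases hj2 with h2 | h2
    · intro c
      simpa [h2] using h0 c
    · refine L2.const_orbit (ξ 0) (hξ 0) j hj fun c => ?_
      have h3 := h0 (j * c)
      rw [← h2] at h3
      simp only [inv_mul_cancel_left] at h3
      push_cast at h3
      linarith
  intro i c
  exact Fin.cases (h00 c) (fun i => hs i c) i

theorem fg_of_retr {H H' : Type} [Group H] [Group H'] (φ : H' →* H)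
    (ρ : H → H') (h1 : ρ 1 = 1) (hl : ∀ a x, ρ (φ a * x) = a * ρ x)
    (hfin : ∀ g, ∃ T : Set H, T.Finite ∧ ∀ c, ρ (c * g) ≠ ρ c → ∃ a, ∃ t ∈ T, c = φ a * t)
    (hH : Group.FG H) : Group.FG H' := by
  obtain ⟨S, hS, hSf⟩ := Group.fg_iff.1 hH
  choose T hT hc using hfin
  refine Group.fg_iff.2 ⟨⋃ s ∈ S, (fun t => (ρ t)⁻¹ * ρ (t * s)) '' T s, ?_,
    hSf.biUnion fun s _ => (hT s).image _⟩
  set K := Subgroup.closure (⋃ s ∈ S, (fun t => (ρ t)⁻¹ * ρ (t * s)) '' T s) with hK
  have h2 : ∀ g ∈ Subgroup.closure S, ∀ x, (ρ x)⁻¹ * ρ (x * g) ∈ K := by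
    intro g hg
    induction hg using Subgroup.closure_induction with
    | mem s hs =>
      intro x
      by_cases h0 : ρ (x * s) = ρ x
      · rw [h0, inv_mul_cancel]
        exact K.one_mem
      · obtain ⟨a, t, ht, rfl⟩ := hc s x h0
        refine Subgroup.subset_closure ?_
        simp only [Set.mem_iUnion, Set.mem_image]
        refine ⟨s, hs, t, ht, ?_⟩
        rw [mul_assoc, hl, hl]
        group
    | one => intro x; simp
    | mul g g' _ _ ih ih' =>
      intro x
      have := K.mul_mem (ih x) (ih' (x * g))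
      simpa [mul_assoc] using this
    | inv g _ ih =>
      intro x
      have := K.inv_mem (ih (x * g⁻¹))
      simpa [mul_assoc] using this
  rw [eq_top_iff]
  intro a _
  have h3 := h2 (φ a) (by rw [hS]; trivial) 1
  have h4 : ρ (φ a) = a := by simpa [h1] using hl a 1
  simpa [h1, h4] using h3

end Pool.Agent.Lib.MP_d98eb9_al.W
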