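import Pool.Agent.Lib.MP_d98eb9_al.W.Cay

/-! Combinatorics of a nested family of cuts. -/

namespace Pool.Agent.Lib.MP_d98eb9_al.W.OneEndB

variable {G : Type} [Group G]

/-- One side of a translate of the cut. -/
def Mb (Y : Set G) (χ : G → Prop) (c : G) (b : Prop) : Set G := {p | p ∈ Y ∧ (χ (c * p) ↔ b)}

/-- The translates of the cut that separate two points. -/
def sep (C : Subgroup G) (χ : G → Prop) (p q : G) : Set G :=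
  {c | c ∈ C ∧ ¬ (χ (c * p) ↔ χ (c * q))}

/-- A cut of `Y` that is nested with its translates. -/
structure NC (C : Subgroup G) (Y : Set G) (χ : G → Prop) (x0 : G) : Prop where
  mem : x0 ∈ Y
  inv : ∀ c ∈ C, ∀ p ∈ Y, c * p ∈ Y
  nest : ∀ c ∈ C, ∃ b b' : Prop, ∀ p ∈ Y, (χ p ↔ b) → ¬ (χ (c * p) ↔ b')
  fin : ∀ p ∈ Y, ∀ q ∈ Y, (sep C χ p q).Finite
  both : ∀ b : Prop, ∃ c ∈ C, (χ (c * x0) ↔ b)
  tf : ∀ g : G, IsOfFinOrder g → g = 1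

/-- A side that misses `x` and is maximal with this property. -/
structure IsMax (C : Subgroup G) (Y : Set G) (χ : G → Prop) (x c : G) (b : Prop) : Prop where
  mem : c ∈ C
  nmem : x ∉ Mb Y χ c b
  sub : ∀ c' ∈ C, ∀ b', x ∉ Mb Y χ c' b' → ∀ y ∈ Mb Y χ c' b', y ∈ Mb Y χ c b →
    Mb Y χ c' b' ⊆ Mb Y χ c b

variable {C : Subgroup G} {Y : Set G} {χ : G → Prop} {x0 x y p c c' e a j : G} {b b' : Prop}

theorem NC.mul_mem (h : NC C Y χ x0) (ha : a ∈ C) : a * p ∈ Mb Y χ c b ↔ p ∈ Mb Y χ (c * a) b := by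
  unfold Mb
  simp only [Set.mem_ofPred_eq, mul_assoc]
  refine and_congr_left fun _ => ⟨fun hp => ?_, h.inv a ha p⟩
  simpa using h.inv _ (C.inv_mem ha) _ hp

theorem NC.nest2 (h : NC C Y χ x0) (hc : c ∈ C) (hc' : c' ∈ C) (hx : x ∈ Y)
    (h1 : x ∉ Mb Y χ c b) (h2 : x ∉ Mb Y χ c' b') (h3 : y ∈ Mb Y χ c b) (h4 : y ∈ Mb Y χ c' b') :
    Mb Y χ c b ⊆ Mb Y χ c' b' ∨ Mb Y χ c' b' ⊆ Mb Y χ c b := by
  obtain ⟨e, e', he⟩ := h.nest _ (C.mul_mem hc' (C.inv_mem hc))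
  have k : ∀ p ∈ Y, (χ (c * p) ↔ e) → ¬ (χ (c' * p) ↔ e') := fun p hp => by
    simpa only [mul_assoc, inv_mul_cancel_left] using he _ (h.inv c hc p hp)
  have kx := k x hx
  have ky := k y h3.1
  have h1' : ¬ (χ (c * x) ↔ b) := fun h => h1 ⟨hx, h⟩
  have h2' : ¬ (χ (c' * x) ↔ b') := fun h => h2 ⟨hx, h⟩
  have h3' := h3.2
  have h4' := h4.2
  by_cases hb : e ↔ b
  · refine Or.inl fun p hp => ⟨hp.1, ?_⟩
    have k1 := k p hp.1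
    have k2 := hp.2
    tauto
  · refine Or.inr fun p hp => ⟨hp.1, ?_⟩
    have k1 := k p hp.1
    have k2 := hp.2
    tauto

theorem NC.free (h : NC C Y χ x0) (hc : c ∈ C) (hb : ∀ p ∈ Y, χ (c * p) ↔ (χ p ↔ b)) :
    c = 1 ∧ b := by
  obtain ⟨u, hu, hu'⟩ := h.both True
  obtain ⟨v, hv, hv'⟩ := h.both False
  have hp := h.inv u hu _ h.mem
  have hq := h.inv v hv _ h.mem
  have k : ∀ n : ℕ, c ^ n ∈ sep C χ (u * x0) (v * x0) := by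
    intro n
    refine ⟨C.pow_mem hc n, ?_⟩
    induction n with
    | zero =>
      rw [pow_zero, one_mul, one_mul]
      tauto
    | succ n ih =>
      rw [pow_succ', mul_assoc, mul_assoc c, hb _ (h.inv _ (C.pow_mem hc n) _ hp),
        hb _ (h.inv _ (C.pow_mem hc n) _ hq)]
      tauto
  have h1 : c = 1 := h.tf c (finite_powers.mp ((h.fin _ hp _ hq).subset ?_))
  · refine ⟨h1, ?_⟩
    have := hb _ hp
    rw [h1, one_mul] at this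
    tauto
  · rintro _ ⟨n, rfl⟩
    exact k n

theorem NC.eq (h : NC C Y χ x0) (hc : c ∈ C) (hc' : c' ∈ C) (h1 : Mb Y χ c b ⊆ Mb Y χ c' b')
    (h2 : Mb Y χ c' b' ⊆ Mb Y χ c b) : c = c' ∧ (b ↔ b') := by
  obtain ⟨k1, k2⟩ := h.free (b := (b ↔ b')) (C.mul_mem hc' (C.inv_mem hc)) fun p hp => by
    have hq := h.inv _ (C.inv_mem hc) p hp
    have k1 : (χ (c * (c⁻¹ * p)) ↔ b) → (χ (c' * (c⁻¹ * p)) ↔ b') := fun k => (h1 ⟨hq, k⟩).2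
    have k2 : (χ (c' * (c⁻¹ * p)) ↔ b') → (χ (c * (c⁻¹ * p)) ↔ b) := fun k => (h2 ⟨hq, k⟩).2
    rw [mul_inv_cancel_left] at k1 k2
    rw [mul_assoc]
    tauto
  exact ⟨(mul_inv_eq_one.mp k1).symm, k2⟩

theorem NC.nonempty (h : NC C Y χ x0) (hc : c ∈ C) (b : Prop) : (Mb Y χ c b).Nonempty := by
  obtain ⟨u, hu, hu'⟩ := h.both b
  exact ⟨c⁻¹ * (u * x0), h.inv _ (C.inv_mem hc) _ (h.inv u hu _ h.mem), by simpa using hu'⟩

theorem IsMax.mul (h : NC C Y χ x0) (hm : IsMax C Y χ x c b) (ha : a ∈ C) :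
    IsMax C Y χ (a * x) (c * a⁻¹) b := by
  refine ⟨C.mul_mem hm.mem (C.inv_mem ha), ?_, fun c' hc' b' h1 y h2 h3 p hp => ?_⟩
  · rw [h.mul_mem ha, inv_mul_cancel_right]
    exact hm.nmem
  · rw [h.mul_mem ha] at h1
    rw [← h.mul_mem (C.inv_mem ha)] at h3 ⊢
    refine hm.sub _ (C.mul_mem hc' ha) b' h1 _ ?_ h3 ?_
    · rwa [h.mul_mem (C.inv_mem ha), mul_inv_cancel_right]
    · rwa [h.mul_mem (C.inv_mem ha), mul_inv_cancel_right]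

theorem IsMax.of_rel (hm : IsMax C Y χ x c b) (hx : x ∈ Y) (hy : y ∈ Y)
    (hr : ∀ e ∈ C, χ (e * y) ↔ χ (e * x)) : IsMax C Y χ y c b :=
  ⟨hm.mem, fun k => hm.nmem ⟨hx, (hr c hm.mem).symm.trans k.2⟩,
    fun c' hc' b' k => hm.sub c' hc' b' fun k' => k ⟨hy, (hr c' hc').trans k'.2⟩⟩

theorem NC.exists_max (h : NC C Y χ x0) (hx : x ∈ Y) (hp : p ∈ Y) (hne : (sep C χ x p).Nonempty) :
    ∃ c b, IsMax C Y χ x c b ∧ p ∈ Mb Y χ c b := by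
  obtain ⟨c, hc, hmax⟩ := (h.fin x hx p hp).exists_maximalFor
    (fun c => Mb Y χ c (χ (c * p))) _ hne
  have h1 : x ∉ Mb Y χ c (χ (c * p)) := fun k => hc.2 k.2
  refine ⟨c, χ (c * p), ⟨hc.1, h1, fun c' hc' b' h2 y h3 h4 => ?_⟩, hp, Iff.rfl⟩
  rcases h.nest2 hc' hc.1 hx h2 h1 h3 h4 with k | k
  · exact k
  · have k1 : χ (c' * p) = b' := propext (k ⟨hp, Iff.rfl⟩).2
    subst k1
    exact hmax ⟨hc', fun k2 => h2 ⟨hx, k2⟩⟩ k

theorem IsMax.uniq (h : NC C Y χ x0) (h1 : IsMax C Y χ x c b) (h2 : IsMax C Y χ x c' b')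
    (k1 : y ∈ Mb Y χ c b) (k2 : y ∈ Mb Y χ c' b') : c = c' ∧ b = b' :=
  (h.eq h1.mem h2.mem (h2.sub c h1.mem b h1.nmem y k1 k2)
    (h1.sub c' h2.mem b' h2.nmem y k2 k1)).imp_right propext

theorem IsMax.orbit (h : NC C Y χ x0) (hx : x ∈ Y) (h1 : IsMax C Y χ x c b)
    (h2 : IsMax C Y χ x c' b) (he : e ∈ C) : χ (e * (c'⁻¹ * c * x)) ↔ χ (e * x) := by
  have hk := C.mul_mem (C.inv_mem h2.mem) h1.mem
  have h3 := h1.mul h hk
  rw [show c * (c'⁻¹ * c)⁻¹ = c' by group] at h3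
  by_contra hne
  obtain ⟨y, hy⟩ := h.nonempty h2.mem b
  by_cases k : χ (e * y) ↔ χ (e * x)
  · exact h2.nmem (h3.sub e he (χ (e * x)) (fun k' => hne k'.2) y ⟨hy.1, k⟩ hy ⟨hx, Iff.rfl⟩)
  · refine h3.nmem (h2.sub e he (χ (e * (c'⁻¹ * c * x))) (fun k' => hne k'.2.symm) y
      ⟨hy.1, by tauto⟩ hy ⟨h.inv _ hk _ hx, Iff.rfl⟩)

theorem IsMax.mul' (h : NC C Y χ x0) (hm : IsMax C Y χ x c b) (he : e ∈ C) :
    IsMax C Y χ (e⁻¹ * c * x) e b := by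
  have h3 := hm.mul h (C.mul_mem (C.inv_mem he) hm.mem)
  rwa [show c * (e⁻¹ * c)⁻¹ = e by group] at h3

theorem IsMax.sep_sub (h : NC C Y χ x0) (hm : IsMax C Y χ x0 c b) (hp : p ∈ Y)
    (he : e ∈ sep C χ x0 p) : sep C χ x0 (e⁻¹ * c * x0) ⊆ sep C χ x0 p := by
  intro e' he'
  refine ⟨he'.1, fun k => he.2 ?_⟩
  have h3 := (hm.mul' h he.1).sub e' he'.1 (χ (e' * x0)) fun k' => he'.2 k'.2.symm
  have h4 : x0 ∈ Mb Y χ e' (χ (e' * x0)) := ⟨h.mem, Iff.rfl⟩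
  have h5 : p ∈ Mb Y χ e' (χ (e' * x0)) := ⟨hp, k.symm⟩
  have h6 : Mb Y χ e' (χ (e' * x0)) ⊆ Mb Y χ e b := by
    by_cases k1 : χ (e * x0) ↔ b
    · exact h3 x0 h4 ⟨h.mem, k1⟩
    · have := he.2
      exact h3 p h5 ⟨hp, by tauto⟩
  exact (h6 h4).2.trans (h6 h5).2.symm

theorem IsMax.mem_sep (h : NC C Y χ x0) (hm : IsMax C Y χ x0 c b) (hp : p ∈ Y)
    (hc : c ∈ sep C χ x0 p) (he : e ∈ sep C χ x0 p) (hne : e ≠ c) :
    c ∈ sep C χ x0 (e⁻¹ * c * x0) := by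
  refine ⟨hm.mem, fun k => ?_⟩
  have h0 : ¬ (χ (c * x0) ↔ b) := fun k => hm.nmem ⟨h.mem, k⟩
  have h1 := hc.2
  have h2 := he.2
  have hpM : p ∈ Mb Y χ c b := ⟨hp, by tauto⟩
  by_cases hd : ∃ y ∈ Mb Y χ c b, y ∈ Mb Y χ e b
  · obtain ⟨y, hy, hy'⟩ := hd
    have h3 := (hm.mul' h he.1).sub c hm.mem b (fun k' => h0 (k.trans k'.2)) y hy hy'
    have h4 := (h3 hpM).2
    exact hne (h.eq he.1 hm.mem (hm.sub e he.1 b (fun k' => h2 (k'.2.trans h4.symm)) y hy' hy) h3).1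
  · have h3 : Mb Y χ c b ⊆ Mb Y χ e (¬ b) := fun y hy => ⟨hy.1, by
      have : ¬ (χ (e * y) ↔ b) := fun k' => hd ⟨y, hy, hy.1, k'⟩
      tauto⟩
    have h4 := (h3 hpM).2
    have h5 := (h.eq he.1 hm.mem
      (hm.sub e he.1 (¬ b) (fun k' => h2 (k'.2.trans h4.symm)) p (h3 hpM) hpM) h3).2
    tauto

/-- A translate of the base point that is separated from it by at most two cuts. -/
theorem IsMax.exists_next (h : NC C Y χ x0) (hm : IsMax C Y χ x0 c b) :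
    ∃ j ∈ C, c ∈ sep C χ x0 (j * x0) ∧ ∀ e ∈ sep C χ x0 (j * x0), e = c ∨ e = c * j⁻¹ := by
  have h0 : ¬ (χ (c * x0) ↔ b) := fun k => hm.nmem ⟨h.mem, k⟩
  have hex : ∃ j, j ∈ C ∧ c ∈ sep C χ x0 (j * x0) := by
    obtain ⟨u, hu, hu'⟩ := h.both b
    refine ⟨c⁻¹ * u, C.mul_mem (C.inv_mem hm.mem) hu, hm.mem, fun k => h0 (k.trans ?_)⟩
    simpa [mul_assoc] using hu'
  obtain ⟨j, ⟨hj, hc⟩, hmin⟩ := exists_minimalFor_of_wellFoundedLT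
    (fun j => j ∈ C ∧ c ∈ sep C χ x0 (j * x0)) (fun j => (sep C χ x0 (j * x0)).ncard) hex
  have hp := h.inv j hj _ h.mem
  have key : ∀ e ∈ sep C χ x0 (j * x0), e ≠ c →
      sep C χ x0 (e⁻¹ * c * x0) = sep C χ x0 (j * x0) ∧ (χ (e * x0) ↔ b) := by
    intro e he hne
    have h1 := hm.sep_sub h hp he
    have h2 := hm.mem_sep h hp hc he hne
    have h3 := Set.eq_of_subset_of_ncard_le h1 (hmin ⟨C.mul_mem (C.inv_mem he.1) hm.mem, h2⟩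
      (Set.ncard_le_ncard h1 (h.fin _ h.mem _ hp))) (h.fin _ h.mem _ hp)
    refine ⟨h3, ?_⟩
    have h4 := (h3 ▸ he).2
    rw [mul_assoc, mul_inv_cancel_left] at h4
    tauto
  by_cases hd : ∃ e ∈ sep C χ x0 (j * x0), e ≠ c
  · obtain ⟨e, he, hne⟩ := hd
    obtain ⟨k1, k2⟩ := key e he hne
    refine ⟨e⁻¹ * c, C.mul_mem (C.inv_mem he.1) hm.mem, k1 ▸ hc, fun e' he' => ?_⟩
    rw [show c * (e⁻¹ * c)⁻¹ = e by group]
    refine or_iff_not_imp_left.mpr fun hne' => ?_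
    obtain ⟨k3, k4⟩ := key e' (k1 ▸ he') hne'
    have k5 := (k3 ▸ he).2
    have k6 := he'.2
    exact (h.eq he'.1 he.1
      ((hm.mul' h he.1).sub e' he'.1 b (fun k => k6 (k4.trans k.2.symm)) x0 ⟨h.mem, k4⟩ ⟨h.mem, k2⟩)
      ((hm.mul' h he'.1).sub e he.1 b (fun k => k5 (k2.trans k.2.symm)) x0 ⟨h.mem, k2⟩
        ⟨h.mem, k4⟩)).1
  · exact ⟨j, hj, hc, fun e he => Or.inl (by_contra fun k => hd ⟨e, he, k⟩)⟩

variable {C' : Subgroup G}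

theorem NC.exists_fun (h : NC C Y χ x0)
    (hC' : ∀ a, a ∈ C' ↔ a ∈ C ∧ ∀ e ∈ C, χ (e * (a * x0)) ↔ χ (e * x0)) :
    ∃ (f : G → Prop) (j : G), (∀ g ∈ C, {c | c ∈ C ∧ ¬ (f (c * g) ↔ f c)}.Finite) ∧
      (∀ c ∈ C, ∀ a ∈ C', f (c * a) ↔ f c) ∧ j ∈ C ∧ f j ∧ ¬ f 1 ∧
      ∀ c ∈ C, c ≠ 1 → c ≠ j⁻¹ → (f (c * j) ↔ f c) := by
  obtain ⟨u, hu, hu'⟩ := h.both (¬ χ x0)
  obtain ⟨c, b, hm, -⟩ := h.exists_max h.mem (h.inv u hu _ h.mem)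
    ⟨1, C.one_mem, by rw [one_mul, one_mul]; tauto⟩
  obtain ⟨j, hj, h1, h2⟩ := hm.exists_next h
  have h0 : ¬ (χ (c * x0) ↔ b) := fun k => hm.nmem ⟨h.mem, k⟩
  refine ⟨fun g => χ (c * g * x0) ↔ b, j, fun g hg => ?_, fun d hd a ha => ?_, hj, ?_, ?_,
    fun d hd k1 k2 => ?_⟩
  · refine ((h.fin _ (h.inv g hg _ h.mem) _ h.mem).preimage (f := fun d => c * d)
      (mul_right_injective c).injOn).subset fun d hd => ⟨C.mul_mem hm.mem hd.1, fun k => hd.2 ?_⟩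
    simp only [mul_assoc] at k ⊢
    rw [k]
  · have := ((hC' a).mp ha).2 _ (C.mul_mem hm.mem hd)
    simp only [mul_assoc] at this ⊢
    rw [this]
  · have := h1.2
    simp only [mul_assoc]
    tauto
  · simpa using h0
  · have : χ (c * d * x0) ↔ χ (c * d * (j * x0)) := by
      by_contra k
      rcases h2 _ ⟨C.mul_mem hm.mem hd, k⟩ with k | k
      · exact k1 (by simpa using k)
      · exact k2 (by simpa using k)
    simp only [mul_assoc] at this ⊢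
    rw [this]

theorem NC.exists_retr (h : NC C Y χ x0)
    (hC' : ∀ a, a ∈ C' ↔ a ∈ C ∧ ∀ e ∈ C, χ (e * (a * x0)) ↔ χ (e * x0)) :
    ∃ ρ : G → G, (∀ c ∈ C, ρ c ∈ C') ∧ ρ 1 = 1 ∧ (∀ a ∈ C', ∀ c ∈ C, ρ (a * c) = a * ρ c) ∧
      (∀ c ∈ C, c ∉ C' → ∀ a ∈ C', ρ (c * a) = ρ c) ∧
      ∀ g ∈ C, ∃ T : Set G, T.Finite ∧ ∀ c ∈ C, ρ (c * g) ≠ ρ c → ∃ a ∈ C', ∃ t ∈ T, c = a * t := by
  classical
  have hrep : ∀ b : Prop, ∃ r, ∀ e, IsMax C Y χ x0 e b → IsMax C Y χ x0 r b := by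
    intro b
    by_cases k : ∃ e, IsMax C Y χ x0 e b
    · obtain ⟨e, he⟩ := k
      exact ⟨e, fun _ _ => he⟩
    · exact ⟨1, fun e he => absurd ⟨e, he⟩ k⟩
  choose rep hrep using hrep
  have hρ : ∀ c : G, ∃ r, (c ∈ C' → r = c) ∧ (c ∉ C' → ∀ e b, IsMax C Y χ x0 e b →
      c * x0 ∈ Mb Y χ e b → r = e⁻¹ * rep b) := by
    intro c
    by_cases k : c ∈ C'
    · exact ⟨c, fun _ => rfl, fun k' => absurd k k'⟩
    by_cases k1 : ∃ e b, IsMax C Y χ x0 e b ∧ c * x0 ∈ Mb Y χ e b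
    · obtain ⟨e, b, he, hb⟩ := k1
      refine ⟨e⁻¹ * rep b, fun k' => absurd k' k, fun _ e' b' he' hb' => ?_⟩
      obtain ⟨rfl, rfl⟩ := he.uniq h he' hb hb'
      rfl
    · exact ⟨1, fun k' => absurd k' k, fun _ e b he hb => absurd ⟨e, b, he, hb⟩ k1⟩
  choose ρ h1 h2 using hρ
  have hex : ∀ c ∈ C, c ∉ C' → ∃ e b, IsMax C Y χ x0 e b ∧ c * x0 ∈ Mb Y χ e b := by
    intro c hc k
    refine h.exists_max h.mem (h.inv c hc _ h.mem) (by_contra fun k' => k ((hC' c).mpr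
      ⟨hc, fun e he => by_contra fun k2 => k' ⟨e, he, fun k3 => k2 k3.symm⟩⟩))
  have hmem : ∀ e b, IsMax C Y χ x0 e b → e⁻¹ * rep b ∈ C' := fun e b he =>
    (hC' _).mpr ⟨C.mul_mem (C.inv_mem he.mem) (hrep b e he).mem,
      fun e' he' => (hrep b e he).orbit h h.mem he he'⟩
  refine ⟨ρ, fun c hc => ?_, h1 1 C'.one_mem, fun a ha c hc => ?_, fun c hc k a ha => ?_,
    fun g hg => ?_⟩
  · by_cases k : c ∈ C'
    · rwa [h1 c k]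
    · obtain ⟨e, b, he, hb⟩ := hex c hc k
      rw [h2 c k e b he hb]
      exact hmem e b he
  · by_cases k : c ∈ C'
    · rw [h1 c k, h1 _ (C'.mul_mem ha k)]
    · obtain ⟨e, b, he, hb⟩ := hex c hc k
      obtain ⟨haC, har⟩ := (hC' a).mp ha
      rw [h2 c k e b he hb, h2 (a * c) (fun k' => k ((C'.mul_mem_cancel_left ha).mp k')) (e * a⁻¹) b
        ((he.mul h haC).of_rel (h.inv a haC _ h.mem) h.mem fun e' he' => (har e' he').symm)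
        (by rwa [mul_assoc, h.mul_mem haC, inv_mul_cancel_right])]
      group
  · obtain ⟨e, b, he, hb⟩ := hex c hc k
    obtain ⟨haC, har⟩ := (hC' a).mp ha
    rw [h2 c k e b he hb, h2 (c * a) (fun k' => k ((C'.mul_mem_cancel_right ha).mp k')) e b he
      ⟨h.inv _ (C.mul_mem hc haC) _ h.mem, Iff.trans ?_ hb.2⟩]
    simpa only [mul_assoc] using har _ (C.mul_mem he.mem hc)
  · refine ⟨insert 1 (insert g⁻¹ (Set.image2 (fun b s => (rep b)⁻¹ * s) Set.univ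
      (sep C χ x0 (g * x0)))), ((Set.finite_univ.image2 _
        (h.fin _ h.mem _ (h.inv g hg _ h.mem))).insert _).insert _, fun c hc hne => ?_⟩
    by_cases k : c ∈ C'
    · exact ⟨c, k, 1, Or.inl rfl, (mul_one c).symm⟩
    by_cases k1 : c * g ∈ C'
    · exact ⟨c * g, k1, g⁻¹, Or.inr (Or.inl rfl), (mul_inv_cancel_right c g).symm⟩
    obtain ⟨e, b, he, hb⟩ := hex c hc k
    refine ⟨e⁻¹ * rep b, hmem e b he, (rep b)⁻¹ * (e * c), Or.inr (Or.inr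
      ⟨b, trivial, e * c, ⟨C.mul_mem he.mem hc, fun k2 => hne ?_⟩, rfl⟩), by group⟩
    rw [h2 c k e b he hb, h2 _ k1 e b he ⟨h.inv _ (C.mul_mem hc hg) _ h.mem, Iff.trans ?_ hb.2⟩]
    simpa only [mul_assoc] using k2.symm

end Pool.Agent.Lib.MP_d98eb9_al.W.OneEndB
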