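import Pool.Agent.Lib.MP_d98eb9_al.W.Sys
import Pool.Agent.Lib.MP_d98eb9_al.W.L2
import Pool.Agent.Lib.MP_d98eb9_al.W.OneEndBA

/-! Unfolding along a nested cut. -/

namespace Pool.Agent.Lib.MP_d98eb9_al.W

variable {G : Type} [Group G] {C : Subgroup G} {X : Set G}

namespace OneEndB

open Gen

variable {Γ : Gen G} {L U : Set G} {p q x y c : G}

theorem nmem_opp : p ∉ opp C X ↔ p ∈ C ∨ p ∈ X := by
  unfold opp
  simp only [Set.mem_ofPred_eq]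
  tauto

/-- The endpoints of the edges inside the closed side that cross the cut. -/
def Cr (C : Subgroup G) (X : Set G) (Γ : Gen G) (L : Set G) : Set G :=
  {p | p ∉ opp C X ∧ ∃ q, q ∉ opp C X ∧ Γ.d p q ≤ 1 ∧ ¬ (p ∈ L ↔ q ∈ L)}

theorem cr_finite (hfin : {p | p ∈ L ∧ ∃ q, q ∉ L ∧ q ∉ opp C X ∧ Γ.d p q ≤ 1}.Finite) :
    (Cr C X Γ L).Finite := by
  refine (N_finite (Γ := Γ) hfin 1).subset ?_
  rintro p ⟨hp, q, hq, hd, hne⟩
  by_cases k : p ∈ L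
  · exact subset_N 1 _ ⟨k, q, by tauto, hq, hd⟩
  · rw [d_comm] at hd
    exact ⟨q, ⟨by tauto, p, k, hp, hd⟩, hd⟩

theorem eq_of_nmem_cr (hp : p ∉ opp C X) (hq : q ∉ opp C X) (hd : Γ.d p q ≤ 1)
    (h : p ∉ Cr C X Γ L) : p ∈ L ↔ q ∈ L := by
  by_contra k
  exact h ⟨hp, q, hq, hd, k⟩

theorem left_nmem (h : Sys C X) (hc : c ∈ C) (hp : p ∉ opp C X) : c * p ∉ opp C X := by
  rw [nmem_opp] at hp ⊢
  exact hp.imp (C.mul_mem hc) (h.left c hc p)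

theorem not_mem_of_fr (h1 : OE (⊤ : Subgroup G)) (hC : (C : Set G).Infinite)
    (hU : (U ∩ Γ.fr U).Finite) (hd : ∀ c ∈ C, c ∉ U) (hr : ∀ c ∈ C, p ∈ U → p * c ∈ U) : p ∉ U := by
  intro hp
  rcases OE.finite_of_fr h1 hU with k | k
  · refine hC ((k.preimage (f := fun c => p * c) (mul_right_injective p).injOn).subset ?_)
    exact fun c hc => hr c hc hp
  · exact hC (k.subset hd)

theorem conn_one (h : Sys C X) (hΓ : ∀ p q, Γ.d p q ≤ 1 → p ∈ X → q ∉ opp C X) (hC : Γ.RC 1 C)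
    (hp : p ∉ opp C X) : Γ.Conn (opp C X) p 1 := by
  have k1 : ∀ c ∈ C, Γ.Conn (opp C X) c 1 := fun c hc =>
    hC {x | Γ.Conn (opp C X) x 1} (fun a ha b hb hd k => (Conn.single (fun k' => k'.1 hb)
      (fun k' => k'.1 ha) (by rwa [d_comm])).trans k) 1 C.one_mem c hc (Conn.refl _ _)
  rcases nmem_opp.mp hp with hp' | hp'
  · exact k1 p hp'
  have k2 := (conn_empty (Γ := Γ) p 1).ind
    (P := fun a => (a ∈ X ∧ Γ.Conn (opp C X) p a) ∨ Γ.Conn (opp C X) p 1)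
    (Or.inl ⟨hp', Conn.refl _ _⟩) fun a b _ _ hd k => by
      rcases k with ⟨ha, k⟩ | k
      · have hb := hΓ a b hd ha
        have k3 := k.trans (Conn.single (fun k' => k'.2 ha) hb hd)
        rcases nmem_opp.mp hb with hb' | hb'
        · exact Or.inr (k3.trans (k1 b hb'))
        · exact Or.inl ⟨hb', k3⟩
      · exact Or.inr k
  exact k2.resolve_left fun k => h.disj 1 k.1 C.one_mem

theorem sep_finite (h : Sys C X) (hΓ : ∀ p q, Γ.d p q ≤ 1 → p ∈ X → q ∉ opp C X) (hC : Γ.RC 1 C)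
    (hcr : (Cr C X Γ L).Finite) (hp : p ∉ opp C X) (hq : q ∉ opp C X) :
    (sep C (fun p => p ∈ L) p q).Finite := by
  obtain ⟨F, hF, hc⟩ := ((conn_one h hΓ hC hp).trans (conn_one h hΓ hC hq).symm).exists_finite
  refine (hcr.image2 (fun k f => k * f⁻¹) hF).subset fun c hc' => by_contra fun hn => hc'.2 ?_
  refine hc.ind (P := fun a => (c * p ∈ L ↔ c * a ∈ L)) Iff.rfl fun a b ha hb hd k => k.trans ?_
  refine eq_of_nmem_cr (left_nmem h hc'.1 fun k' => ha (Or.inl k'))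
    (left_nmem h hc'.1 fun k' => hb (Or.inl k')) (by rwa [d_mul]) fun k' => hn
      ⟨c * a, k', a, by_contra fun k2 => ha (Or.inr k2), by simp⟩

theorem right_iff (h : Sys C X) (hLr : ∀ x ∈ X, ∀ c ∈ C, x ∈ L → x * c ∈ L) (hx : x ∈ X)
    (hc : c ∈ C) : x * c ∈ L ↔ x ∈ L :=
  ⟨fun k => by simpa using hLr _ (h.right c hc x hx) _ (C.inv_mem hc) k, hLr x hx c hc⟩

theorem far_iff (h : Sys C X) (h1 : OE (⊤ : Subgroup G)) (hC : (C : Set G).Infinite)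
    (hΓ : ∀ p q, Γ.d p q ≤ 1 → p ∈ X → q ∉ opp C X)
    (hLr : ∀ x ∈ X, ∀ c ∈ C, x ∈ L → x * c ∈ L) (hcr : (Cr C X Γ L).Finite) (hx : x ∈ X)
    (hy : y ∈ far C X x) : x ∈ L ↔ x * y ∈ L := by
  have hW : ∀ p, x⁻¹ * p ∈ far C X x → p ∈ X := fun p hp => by simpa using h.far_mem hx hp
  have hr : ∀ z ∈ far C X x, ∀ c ∈ C, z * c ∈ far C X x := fun z hz c hc =>
    ⟨fun k => hz.1 ((C.mul_mem_cancel_right hc).mp k), by rw [h.right_iff hc]; exact hz.2⟩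
  have key := not_mem_of_fr (Γ := Γ) (U := {p | x⁻¹ * p ∈ far C X x ∧ ¬ (x ∈ L ↔ p ∈ L)})
    (p := x * y) h1 hC (hcr.subset ?_) (fun c hc k => h.disj c (hW c k.1) hc) fun c hc k =>
      ⟨by rw [← mul_assoc]; exact hr _ k.1 c hc, by
        rw [right_iff h hLr (hW _ k.1) hc]; exact k.2⟩
  · by_contra k
    exact key ⟨by simpa using hy, k⟩
  rintro p ⟨hp, q, hd, hne⟩
  have hq : ¬ (x⁻¹ * q ∈ far C X x ∧ ¬ (x ∈ L ↔ q ∈ L)) := fun k => hne ⟨fun _ => k, fun _ => hp⟩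
  have hd' : Γ.d (x⁻¹ * p) (x⁻¹ * q) ≤ 1 := by rwa [d_mul]
  have hq' : q ∈ X ∧ (x ∈ L ↔ q ∈ L) := by
    by_cases k : x⁻¹ * q ∈ C
    · have e : q = x * (x⁻¹ * q) := by simp
      exact ⟨e ▸ h.right _ k x hx, by rw [e, right_iff h hLr hx k]⟩
    · have k1 : x⁻¹ * q ∈ far C X x := by
        refine ⟨k, fun k2 => hp.1.2 (k2.trans ⟨fun k3 => ?_, fun k3 => ?_⟩)⟩
        · exact (nmem_opp.mp (hΓ _ _ (by rwa [d_comm]) k3)).resolve_left hp.1.1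
        · exact (nmem_opp.mp (hΓ _ _ hd' k3)).resolve_left k
      exact ⟨hW q k1, by_contra fun k2 => hq ⟨k1, k2⟩⟩
  exact ⟨fun k => k.2 (hW p hp.1), q, fun k => k.2 hq'.1, hd, fun k => hp.2 (hq'.2.trans k.symm)⟩

theorem corner (h : Sys C X) (h1 : OE (⊤ : Subgroup G)) (hC : (C : Set G).Infinite)
    (hΓ : ∀ p q, Γ.d p q ≤ 1 → p ∈ X → q ∉ opp C X)
    (hLr : ∀ x ∈ X, ∀ c ∈ C, x ∈ L → x * c ∈ L) (hcr : (Cr C X Γ L).Finite) (hx : x ∈ X)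
    (hy : y ∈ X) (hx' : x⁻¹ ∈ X) (hxy : x⁻¹ * y ∈ X) {c c' : G} (hc : c ∈ C) (hc' : c' ∈ C)
    (k1 : ¬ (c * x ∈ L ↔ c * y ∈ L)) : c' * x⁻¹ ∈ L ↔ c' * (x⁻¹ * y) ∈ L := by
  by_contra k2
  have a1 : ∀ p ∈ C, ¬ (c' * (x⁻¹ * p) ∈ L ↔ c' * (x⁻¹ * y) ∈ L) := fun p hp => by
    rwa [← mul_assoc, right_iff h hLr (h.left c' hc' _ hx') hp]
  have a2 : ∀ p, x⁻¹ * p ∈ C → ¬ (c * p ∈ L ↔ c * y ∈ L) := fun p hp => by
    have e : c * p = c * x * (x⁻¹ * p) := by simp [mul_assoc]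
    rwa [e, right_iff h hLr (h.left c hc _ hx) hp]
  refine not_mem_of_fr (Γ := Γ) (U := {p | p ∉ opp C X ∧ x⁻¹ * p ∉ opp C X ∧
      (c * p ∈ L ↔ c * y ∈ L) ∧ (c' * (x⁻¹ * p) ∈ L ↔ c' * (x⁻¹ * y) ∈ L)}) (p := y) h1 hC
    (((tr_finite c⁻¹ hcr).union (tr_finite (c' * x⁻¹)⁻¹ hcr)).subset ?_)
    (fun p hp k => a1 p hp k.2.2.2) (fun e he _ => ⟨fun k => k.2 (h.right e he y hy), fun k => k.2
      (by rw [← mul_assoc]; exact h.right e he _ hxy), by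
        rw [← mul_assoc, right_iff h hLr (h.left c hc _ hy) he], by
        rw [← mul_assoc x⁻¹, ← mul_assoc c', right_iff h hLr (h.left c' hc' _ hxy) he]⟩)
    ⟨fun k => k.2 hy, fun k => k.2 hxy, Iff.rfl, Iff.rfl⟩
  rintro p ⟨hp, q, hd, hne⟩
  obtain ⟨b1, b2, b3, b4⟩ := id hp
  have b5 : q ∉ opp C X := hΓ p q hd ((nmem_opp.mp b1).resolve_left fun k => a1 p k b4)
  have b6 : x⁻¹ * q ∉ opp C X := hΓ _ _ (by rwa [d_mul])
    ((nmem_opp.mp b2).resolve_left fun k => a2 p k b3)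
  by_contra hn
  have b7 : c * p ∈ L ↔ c * q ∈ L := eq_of_nmem_cr (left_nmem h hc b1) (left_nmem h hc b5)
    (by rwa [d_mul]) fun k => hn (Or.inl (by simpa using k))
  have b8 : c' * (x⁻¹ * p) ∈ L ↔ c' * (x⁻¹ * q) ∈ L := eq_of_nmem_cr (left_nmem h hc' b2)
    (left_nmem h hc' b6) (by rwa [d_mul, d_mul]) fun k => hn (Or.inr (by
      rwa [mem_tr, inv_inv, mul_assoc]))
  exact hne ⟨fun _ => ⟨b5, b6, b7.symm.trans b3, b8.symm.trans b4⟩, fun _ => hp⟩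

theorem sep_cosets (hΓ : ∀ p q, Γ.d p q ≤ 1 → p ∈ X → q ∉ opp C X) (h : Sys C X)
    (hcr : (Cr C X Γ L).Finite) (y : G) : {q : G ⧸ C | ∃ x : G, (x : G ⧸ C) = q ∧ x⁻¹ ∈ X ∧
      x⁻¹ * y ∈ X ∧ ¬ ∀ c ∈ C, (c * x⁻¹ ∈ L ↔ c * (x⁻¹ * y) ∈ L)}.Finite := by
  obtain ⟨F, hF, hc⟩ := (conn_empty (Γ := Γ) 1 y).exists_finite
  refine ((hF.image2 (fun f k : G => f * k⁻¹) (hcr.insert 1)).image
    fun g : G => (g : G ⧸ C)).subset ?_
  rintro _ ⟨x, rfl, hx, -, hne⟩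
  by_contra hn
  refine hne fun c hc' => ?_
  have key := hc.ind (P := fun a => c * (x⁻¹ * a) ∈ X ∧ (c * x⁻¹ ∈ L ↔ c * (x⁻¹ * a) ∈ L))
    (by rw [mul_one]; exact ⟨h.left c hc' _ hx, Iff.rfl⟩) fun a b ha hb hd k => by
      have hd' : Γ.d (c * (x⁻¹ * a)) (c * (x⁻¹ * b)) ≤ 1 := by rwa [d_mul, d_mul]
      have b1 := hΓ _ _ hd' k.1
      refine ⟨(nmem_opp.mp b1).resolve_left fun k1 => hn ⟨_, ⟨b, by_contra fun k2 => hb (Or.inr k2),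
        1, Or.inl rfl, rfl⟩, ?_⟩, k.2.trans (eq_of_nmem_cr (fun k1 => k1.2 k.1) b1 hd' fun k1 => hn
          ⟨_, ⟨a, by_contra fun k2 => ha (Or.inr k2), _, Or.inr k1, rfl⟩, ?_⟩)⟩
      · refine (QuotientGroup.eq.mpr ?_).symm
        simpa using (C.mul_mem_cancel_left hc').mp k1
      · refine QuotientGroup.eq.mpr ?_
        simpa [mul_assoc] using hc'
  exact key.2

end OneEndB

open OneEndB in
theorem Sys.cut_step (h : Sys C X) (h1 : OE (⊤ : Subgroup G))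
    (tf : ∀ g : G, IsOfFinOrder g → g = 1) (Γ : Gen G) (L : Set G)
    (hΓ : ∀ p q, Γ.d p q ≤ 1 → p ∈ X → q ∉ opp C X) (hC : Γ.RC 1 C) (hL : L ⊆ (opp C X)ᶜ)
    (hLr : ∀ x ∈ X, ∀ c ∈ C, x ∈ L → x * c ∈ L)
    (hfin : {p | p ∈ L ∧ ∃ q, q ∉ L ∧ q ∉ opp C X ∧ Γ.d p q ≤ 1}.Finite)
    (hi1 : (L ∩ C).Infinite) (hi2 : ((C : Set G) \ L).Infinite)
    (hn : ∀ c ∈ C, (∀ p ∈ L, c * p ∈ L) ∨ (∀ p ∈ L, c * p ∉ L) ∨
      (∀ p, p ∉ opp C X → p ∉ L → c * p ∈ L) ∨ ∀ p, p ∉ opp C X → p ∉ L → c * p ∉ L) :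
    ∃ C' : Subgroup G, C' ≤ C ∧ C'.FG ∧ (∃ X', Sys C' X') ∧ ∀ k, Iota C' k → Iota C (k + 1) := by
  classical
  have hcr := cr_finite hfin
  have hCi : (C : Set G).Infinite := hi2.mono Set.sdiff_subset
  obtain ⟨x0, hx0⟩ := h.ne
  let R : G → G → Prop := fun x y => ∀ c ∈ C, (c * x ∈ L ↔ c * y ∈ L)
  have hR : Equivalence R := ⟨fun _ _ _ => Iff.rfl, fun k c hc => (k c hc).symm,
    fun k k' c hc => (k c hc).trans (k' c hc)⟩
  have hl : ∀ c ∈ C, ∀ x y, R x y → R (c * x) (c * y) := fun c hc x y k e he => by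
    simpa only [mul_assoc] using k _ (C.mul_mem he hc)
  have hS := h.unfold hR hl
    (fun c hc x hx e he => by rw [← mul_assoc, OneEndB.right_iff h hLr (h.left e he x hx) hc])
    (fun x hx z hz e he => by
      rw [← mul_assoc]
      refine far_iff h h1 hCi hΓ hLr hcr (h.left e he x hx) ⟨hz.1, ?_⟩
      rw [mul_inv_rev, h.right_iff (C.inv_mem he)]
      exact hz.2)
    (fun x hx y hy hx' hxy _ => or_iff_not_imp_left.mpr fun k e he => by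
      obtain ⟨c, hc, k1⟩ : ∃ c ∈ C, ¬ (c * x ∈ L ↔ c * y ∈ L) := by
        by_contra k1
        exact k fun c hc => by_contra fun k2 => k1 ⟨c, hc, k2⟩
      exact corner h h1 hCi hΓ hLr hcr hx hy hx' hxy hc he k1)
    (sep_cosets hΓ h hcr) hx0
  have hx0' : x0 ∉ opp C X := fun k => k.2 hx0
  have hN : NC C (opp C X)ᶜ (fun p => p ∈ L) x0 := by
    refine ⟨hx0', fun c hc p hp => left_nmem h hc hp, fun c hc => ?_,
      fun p hp q hq => sep_finite h hΓ hC hcr hp hq, fun b => ?_, tf⟩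
    · rcases hn c hc with k | k | k | k
      · exact ⟨True, False, fun p _ k1 k2 => k2.mp (k p (k1.mpr trivial))⟩
      · exact ⟨True, True, fun p _ k1 k2 => k p (k1.mpr trivial) (k2.mpr trivial)⟩
      · exact ⟨False, False, fun p hp k1 k2 => k2.mp (k p hp k1.mp)⟩
      · exact ⟨False, True, fun p hp k1 k2 => k p hp k1.mp (k2.mpr trivial)⟩
    · have hf := sep_finite h hΓ hC hcr (p := 1) (fun k => k.1 C.one_mem) hx0'
      have k : ∀ c ∈ C, c ∉ sep C (fun p => p ∈ L) 1 x0 → (c * x0 ∈ L ↔ c ∈ L) := fun c hc k => by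
        by_contra k1
        exact k ⟨hc, fun k2 => k1 (by simpa using k2.symm)⟩
      by_cases hb : b
      · obtain ⟨c, hc, hc'⟩ := (hi1.sdiff hf).nonempty
        exact ⟨c, hc.2, iff_of_true ((k c hc.2 hc').mpr hc.1) hb⟩
      · obtain ⟨c, hc, hc'⟩ := (hi2.sdiff hf).nonempty
        exact ⟨c, hc.1, iff_of_false (fun k1 => hc.2 ((k c hc.1 hc').mp k1)) hb⟩
  have hC' : ∀ a, a ∈ blk C {x | x ∈ X ∧ R x0 x} ↔
      a ∈ C ∧ ∀ e ∈ C, (e * (a * x0) ∈ L ↔ e * x0 ∈ L) := fun a =>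
    ⟨fun ha => ⟨ha.1, hR.symm (ha.2 ▸ mul_mem_tr.mpr ⟨hx0, hR.refl x0⟩ :
      a * x0 ∈ {x | x ∈ X ∧ R x0 x}).2⟩,
      fun ha => h.mem_blk hR hl ha.1 ⟨hx0, hR.refl x0⟩ (hR.symm ha.2)⟩
  have hle := blk_le C {x | x ∈ X ∧ R x0 x}
  generalize blk C {x | x ∈ X ∧ R x0 x} = C' at hS hC' hle
  obtain ⟨ρ, r1, r2, r3, r4, r5⟩ := hN.exists_retr hC'
  obtain ⟨f, j, f1, f2, f3, f4, f5, f6⟩ := hN.exists_fun hC'
  let ρ' : C → C' := fun c => ⟨ρ c, r1 c c.2⟩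
  have s1 : ρ' 1 = 1 := Subtype.ext r2
  have s2 : ∀ a x, ρ' (Subgroup.inclusion hle a * x) = a * ρ' x := fun a x =>
    Subtype.ext (r3 a a.2 x x.2)
  have s3 : ∀ g : C, ∃ T : Set C, T.Finite ∧ ∀ c, ρ' (c * g) ≠ ρ' c →
      ∃ a, ∃ t ∈ T, c = Subgroup.inclusion hle a * t := fun g => by
    obtain ⟨T, hT, k⟩ := r5 g g.2
    refine ⟨Subtype.val ⁻¹' T, hT.preimage Subtype.val_injective.injOn, fun c hc => ?_⟩
    obtain ⟨a, ha, t, ht, e⟩ := k c c.2 fun k1 => hc (Subtype.ext k1)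
    exact ⟨⟨a, ha⟩, ⟨t, (C.mul_mem_cancel_left (hle ha)).mp (e ▸ c.2)⟩, ht, Subtype.ext e⟩
  refine ⟨C', hle, (Group.fg_iff_subgroup_fg C').mp (fg_of_retr _ ρ' s1 s2 s3
    ((Group.fg_iff_subgroup_fg C).mpr ((Gen.fg_iff_rc (Γ := Γ)).mpr ⟨1, hC⟩))), ⟨_, hS⟩,
    fun k hk => Iota.step _ (Subgroup.inclusion_injective hle) ρ' s1 s2
      (fun c hc a => Subtype.ext (r4 c c.2 (fun k1 => hc ⟨⟨c, k1⟩, rfl⟩) a a.2)) s3
      (fun c => if f c then 1 else 0) (fun g => ?_) (fun c a => ?_) ⟨j, f3⟩ (fun k1 => ?_) ?_ ?_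
      (fun c k1 k2 => ?_) hk⟩
  · refine ((f1 g g.2).preimage Subtype.val_injective.injOn).subset fun c hc =>
      ⟨c.2, fun k1 => hc ?_⟩
    exact if_congr k1 rfl rfl
  · exact if_congr (f2 c c.2 a a.2) rfl rfl
  · rw [tf j (C.subtype.isOfFinOrder k1)] at f4
    exact f5 f4
  · change (if f j then 1 else 0 : ℤ) = (if f 1 then 1 else 0) + 1
    rw [if_pos f4, if_neg f5, zero_add]
  · change (if f 1 then 1 else 0 : ℤ) = (if f j⁻¹ then 1 else 0) ∨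
      (if f 1 then 1 else 0 : ℤ) + 1 = if f j⁻¹ then 1 else 0
    rw [if_neg f5]
    split_ifs
    · exact Or.inr (zero_add 1)
    · exact Or.inl rfl
  · exact if_congr (f6 c c.2 (fun k3 => k1 (Subtype.ext k3)) fun k3 => k2 (Subtype.ext k3)) rfl rfl

end Pool.Agent.Lib.MP_d98eb9_al.W
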