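import Pool.Agent.Lib.MP_d98eb9_al.W.Alg

/-! The complement of a one-ended subgroup is coarsely acyclic in degree one. -/

namespace Pool.Agent.Lib.MP_d98eb9_al.W

open MonoidAlgebra

variable {G : Type} [Group G] {Γ : Gen G}

namespace Acyc

theorem uni {α : Type} {T : Set α} (hT : T.Finite) {P : ℕ → α → Prop}
    (mono : ∀ a b x, a ≤ b → P a x → P b x) (h : ∀ x ∈ T, ∃ ρ, P ρ x) : ∃ ρ, ∀ x ∈ T, P ρ x := by
  choose! f hf using h
  obtain ⟨ρ, hρ⟩ := (hT.image f).bddAbove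
  exact ⟨ρ, fun x hx => mono _ _ x (hρ ⟨x, hx, rfl⟩) (hf x hx)⟩

/-- Finitely many cycles bound inside one ball. -/
theorem cyc (X : Geo Γ) {T : Set (Fr G Γ.n)} (hT : T.Finite) (h : ∀ x ∈ T, bd Γ.s x = 0) :
    ∃ ρ, ∀ x ∈ T, ∀ (φ : Fr G Γ.n →+ ℤ) (g : G),
      (∀ h k, Γ.d g h ≤ ρ → φ (X.d1 (e h k)) = 0) → φ ((single g 1 : ZG G) • x) = 0 := by
  refine uni hT (fun a b x hab h φ g hg => h φ g fun p k hp => hg p k (hp.trans hab))
    fun x hx => ?_
  obtain ⟨z, rfl⟩ := (X.ex1 x).1 (h x hx)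
  obtain ⟨ρ, hρ⟩ := loc Γ z
  refine ⟨ρ, fun φ g hg => ?_⟩
  rw [← map_smul]
  exact hρ ℤ (φ.comp X.d1.toAddMonoidHom) g hg

theorem fin_supp (Γ : Gen G) {n : ℕ} (y : Fr G n →ₗ[ZG G] ZG G) (x : Fr G n) :
    {g | co y ((single g 1 : ZG G) • x) ≠ 0}.Finite := by
  obtain ⟨ρ, hρ⟩ := loc Γ x
  refine (Gen.N_finite (Γ := Γ) (co_finite y) ρ).subset fun g hg => ?_
  by_contra hc
  refine hg (hρ ℤ (co y) g fun h i hd => ?_)
  by_contra h0
  exact hc ⟨h, ⟨i, h0⟩, by rwa [Gen.d_comm]⟩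

/-- An almost invariant function on a one-ended group is almost constant. -/
theorem oe_const {J : Subgroup G} (hoe : OE J) {k : ℕ} (t : Fin k → J)
    (ht : Subgroup.closure (Set.range t) = ⊤) (v : J → ℤ)
    (h : ∀ b, {c | v (c * b) ≠ v c}.Finite) : ∃ a, {c | v c ≠ a}.Finite := by
  let F : Set J := insert 1 (⋃ κ, {c | v (c * t κ) ≠ v c} ∪ {c | v (c * (t κ)⁻¹) ≠ v c})
  have hF : F.Finite := (Set.finite_iUnion fun κ => (h _).union (h _)).insert 1
  have h1 : ∀ c ∈ Subgroup.closure (Set.range t), v c ∈ v '' F := by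
    intro c hc
    induction hc using Subgroup.closure_induction_right with
    | one => exact ⟨1, Set.mem_insert _ _, rfl⟩
    | mul_right c _ x hx ih =>
      obtain ⟨κ, rfl⟩ := hx
      by_cases h2 : v (c * t κ) = v c
      · rwa [h2]
      · refine ⟨_, Set.mem_insert_of_mem _ (Set.mem_iUnion.2 ⟨κ, Or.inr ?_⟩), rfl⟩
        simpa using Ne.symm h2
    | mul_inv_cancel c _ x hx ih =>
      obtain ⟨κ, rfl⟩ := hx
      by_cases h2 : v (c * (t κ)⁻¹) = v c
      · rwa [h2]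
      · refine ⟨_, Set.mem_insert_of_mem _ (Set.mem_iUnion.2 ⟨κ, Or.inl ?_⟩), rfl⟩
        simpa using Ne.symm h2
  have h2 : ∃ a, (Subtype.val '' {c | v c = a} : Set G).Infinite := by
    by_contra hc
    simp only [not_exists, Set.not_infinite] at hc
    refine hoe.1 (((hF.image v).biUnion fun a _ => hc a).subset fun g hg => ?_)
    exact Set.mem_biUnion (h1 ⟨g, hg⟩ (ht ▸ Subgroup.mem_top _)) ⟨⟨g, hg⟩, rfl, rfl⟩
  obtain ⟨a, ha⟩ := h2
  have h3 := (hoe.2 _ (by rintro _ ⟨c, -, rfl⟩; exact c.2) fun g hg => ?_).resolve_left ha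
  · refine ⟨a, (h3.preimage Subtype.val_injective.injOn).subset fun c hc => ⟨c.2, ?_⟩⟩
    rintro ⟨c', h4, h5⟩
    exact hc (Subtype.val_injective h5 ▸ h4)
  · refine ((h ⟨g, hg⟩).image Subtype.val).subset ?_
    rintro _ ⟨⟨c, h4, rfl⟩, h5⟩
    exact ⟨c, fun h6 => h5 ⟨c * ⟨g, hg⟩, h6.trans h4, rfl⟩, rfl⟩

theorem co_sub {P : Type} [AddCommGroup P] [Module (ZG G) P] (q q' : P →ₗ[ZG G] ZG G) (x : P) :
    co (q - q') x = co q x - co q' x := by simp [co_apply]

/-- Cochains that vanish on the cells based in an invariant set. -/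
def van (w : G →* ℤ) (S : Subgroup G) (n : ℕ) (Z : Set G) (hZ : ∀ c ∈ S, ∀ g ∈ Z, c * g ∈ Z) :
    Submodule (ZG S) (Du w S (Fr G n)) where
  carrier := {q | ∀ g ∈ Z, ∀ i, co q.ev (e g i) = 0}
  add_mem' {a b} ha hb g hg i := by
    have h1 := ha g hg i
    have h2 := hb g hg i
    simp only [co_apply] at h1 h2
    simp [co_apply, h1, h2]
  zero_mem' g _ i := by simp [co_apply]
  smul_mem' r q hq g hg i := by
    induction r using ind1 with
    | h0 => simp [co_apply]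
    | hadd a b ha hb =>
      simp only [co_apply] at ha hb
      simp [co_apply, add_smul, ha, hb]
    | hneg a ha =>
      simp only [co_apply] at ha
      simp [co_apply, ha]
    | hs c =>
      have h1 := co_smul c q (e ((c : G)⁻¹ * g) i)
      rwa [smul_e, mul_inv_cancel_left, hq _ (hZ _ (S.inv_mem c.2) g hg), mul_zero] at h1

end Acyc

theorem Geo.acyc (X : Geo Γ) {J : Subgroup G} (hfg : J.FG) (hfp : IsFP2 J) (hoe : OE J) (r : ℕ) :
    ∃ r', ∀ y : Fr G Γ.n →ₗ[ZG G] ZG G, (∀ g k, g ∈ Γ.N r' J → co y (X.d1 (e g k)) = 0) →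
      ∃ θ : ZG G →ₗ[ZG G] ZG G, ∀ g i, g ∈ Γ.N r J →
        co y (e g i) = co θ (bd Γ.s (e g i)) := by
  classical
  obtain ⟨k, t, ht⟩ := exists_gen_family hfg
  choose γ hγ using fun g : G =>
    (exists_chain (Γ := Γ) (Gen.conn_empty 1 g)).imp fun _ h => h.1
  choose π hπ using fun b : J => (exact_bd t ht (single b 1 - single 1 1)).1 (by simp)
  let A : Fr J k →+ Fr G Γ.n := ofFun fun c κ => (single (c : G) 1 : ZG G) • γ (t κ)
  have hA : ∀ (c : J) x, A ((single c 1 : ZG J) • x) = (single (c : G) 1 : ZG G) • A x :=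
    fun c => fr_ext (φ := A.comp (DistribSMul.toAddMonoidHom _ (single c 1 : ZG J)))
      (ψ := (DistribSMul.toAddMonoidHom _ (single (c : G) 1 : ZG G)).comp A) fun g i => by
        simp [A, smul_e, smul_smul, single_mul_single]
  have hb : ∀ x, bd Γ.s (A x) = lsum (fun c : J => (single (c : G) 1 : ZG G)) (bd t x) :=
    fr_ext (φ := (bd Γ.s).toAddMonoidHom.comp A)
      (ψ := (lsum fun c : J => (single (c : G) 1 : ZG G)).comp (bd t).toAddMonoidHom)
      fun g i => by simp [A, bd_e, hγ, mul_sub, single_mul_single]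
  obtain ⟨T0, hT0⟩ := (hfp.ker_finite t ht).fg_top
  let z : G × Fin Γ.n × J → Fr G Γ.n := fun x => γ x.1 + e x.1 x.2.1
    - (single (x.2.2 : G) 1 : ZG G) • γ ((x.2.2 : G)⁻¹ * (x.1 * Γ.s x.2.1)) - A (π x.2.2)
  have hI : ({f | Γ.d 1 f ≤ r + 1} ×ˢ (Set.univ : Set (Fin Γ.n)) ×ˢ
      (Subtype.val ⁻¹' {b | Γ.d 1 b ≤ 2 * r + 3} : Set J)).Finite :=
    (Gen.ball_finite 1 _).prod (Set.finite_univ.prod
      ((Gen.ball_finite 1 _).preimage Subtype.val_injective.injOn))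
  obtain ⟨ρ, hρ⟩ := Acyc.cyc X ((T0.finite_toSet.image fun κ => A κ.1).union (hI.image z)) (by
    rintro _ (⟨κ, -, rfl⟩ | ⟨x, -, rfl⟩)
    · rw [hb, LinearMap.mem_ker.1 κ.2, map_zero]
    · simp [z, hb, hγ, hπ, bd_e, mul_sub, single_mul_single])
  refine ⟨ρ, fun y hy => ?_⟩
  have h0 := fun x hx (c : J) => hρ x hx (co y) c fun h k hd => hy h k ⟨c, c.2, hd⟩
  have hK : ∀ κ ∈ Submodule.span (ZG J) (T0 : Set (LinearMap.ker (bd t))),
      ∀ c : J, co y (A ((single c 1 : ZG J) • κ.1)) = 0 := by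
    intro κ hκ
    induction hκ using Submodule.span_induction with
    | mem κ hκ => exact fun c => by rw [hA, h0 _ (Or.inl ⟨κ, hκ, rfl⟩)]
    | zero => simp
    | add a b _ _ ha hb => exact fun c => by simp [ha c, hb c]
    | smul s κ _ hκ =>
      intro c
      induction s using ind1 with
      | h0 => simp
      | hadd a b ha hb =>
        rw [add_smul, Submodule.coe_add, smul_add, map_add, map_add, ha, hb, add_zero]
      | hneg a ha =>
        rw [Submodule.coe_smul] at ha ⊢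
        rw [neg_smul, smul_neg, map_neg, map_neg, ha, neg_zero]
      | hs g => rw [Submodule.coe_smul, smul_smul, single_mul_single, mul_one, hκ]
  obtain ⟨v, hv⟩ := exists_pot t ht ((co y).comp A) fun x hx => by
    have := hK ⟨x, hx⟩ (hT0 ▸ Submodule.mem_top) 1
    rwa [← one_def, one_smul] at this
  have hv' : ∀ a b : J, co y ((single (a : G) 1 : ZG G) • A (π b)) = v (a * b) - v a := by
    intro a b
    have := hv ((single a 1 : ZG J) • π b)
    rw [AddMonoidHom.comp_apply, hA, (bd t).map_smul, hπ] at this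
    simpa [mul_sub, single_mul_single] using this
  obtain ⟨a0, ha0⟩ := Acyc.oe_const hoe t ht v fun b =>
    ((Acyc.fin_supp Γ y (A (π b))).preimage Subtype.val_injective.injOn).subset fun c hc => by
      simpa [hv', sub_eq_zero] using hc
  have ex : ∀ g, ∃ a : J, g ∈ Γ.N (r + 1) J → Γ.d a g ≤ r + 1 := fun g => by
    by_cases hg : g ∈ Γ.N (r + 1) J
    · obtain ⟨a, h1, h2⟩ := hg
      exact ⟨⟨a, h1⟩, fun _ => h2⟩
    · exact ⟨1, fun h => absurd h hg⟩
  choose a ha using ex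
  let u : G → ℤ := fun g => if g ∈ Γ.N (r + 1) J then
    v (a g) - a0 + co y ((single (a g : G) 1 : ZG G) • γ ((a g : G)⁻¹ * g)) else 0
  obtain ⟨θ, hθ⟩ := exists_co0 (lsum u) ((Gen.N_finite (Γ := Γ) ((ha0.image Subtype.val).union
    ((Gen.ball_finite (Γ := Γ) 1 (r + 1)).biUnion fun f _ => Acyc.fin_supp Γ y (γ f)))
      (r + 1)).subset fun g hg => by
        simp only [Set.mem_ofPred_eq, lsum_single, one_smul, u] at hg
        split_ifs at hg with h1
        · refine ⟨a g, ?_, ha g h1⟩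
          by_cases h2 : v (a g) = a0
          · refine Or.inr (Set.mem_biUnion (x := (a g : G)⁻¹ * g) ?_ ?_)
            · exact (Gen.d_eq _ _).symm.trans_le (ha g h1)
            · simpa [h2] using hg
          · exact Or.inl ⟨_, h2, rfl⟩
        · exact absurd rfl hg)
  refine ⟨θ, fun g i hg => ?_⟩
  have g1 : g ∈ Γ.N (r + 1) J := Gen.N_mono (Nat.le_succ r) subset_rfl hg
  have g2 : g * Γ.s i ∈ Γ.N (r + 1) J := Gen.mem_N_of_d hg (Gen.d_gen g i)
  have h1 := h0 _ (Or.inr ⟨((a g : G)⁻¹ * g, i, (a g)⁻¹ * a (g * Γ.s i)),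
    ⟨(Gen.d_eq _ _).symm.trans_le (ha g g1), trivial, by
      have d1 := Γ.d_tri (a g) g (a (g * Γ.s i))
      have d2 := Γ.d_tri g (g * Γ.s i) (a (g * Γ.s i))
      have d3 := Γ.d_gen g i
      have d4 := ha g g1
      have d5 := ha _ g2
      rw [Gen.d_comm] at d5
      exact (Gen.d_eq _ _).symm.trans_le (by omega)⟩, rfl⟩) (a g)
  simp only [z, smul_sub, smul_add, map_sub, map_add, hv', smul_e, smul_smul, single_mul_single,
    Subgroup.coe_mul, Subgroup.coe_inv, mul_inv_cancel_left, mul_one, mul_inv_rev, inv_inv,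
    mul_assoc] at h1
  rw [hθ, bd_e, map_sub, lsum_single, lsum_single, one_smul, one_smul]
  simp only [u, if_pos g1, if_pos g2]
  linarith

/-- The other side of a deep component is connected far from the stabiliser. -/
theorem Geo.other_side (X : Geo Γ) {J S : Subgroup G} (hfg : J.FG) (hfp : IsFP2 J) (hoe : OE J)
    (hfg' : S.FG) (hinf : ¬ Γ.Near Set.univ S) {W : Set G}
    (hS : ∀ c ∈ S, c ∈ J ∧ tr c W = W) (hW : Γ.Near (Γ.fr W) J) (hd : ¬ Γ.Near W J)
    (hc : ∀ r, ∃ r', ∀ p ∈ W, ∀ q ∈ W, p ∉ Γ.N r' J → q ∉ Γ.N r' J → Γ.Conn (Γ.N r J) p q)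
    (r : ℕ) : ∃ r', ∀ p q, p ∉ Γ.N r' S → q ∉ Γ.N r' S → Γ.Conn W p q →
      Γ.Conn (Γ.N r S) p q := by
  classical
  obtain ⟨k, t, ht⟩ := exists_gen_family hfg'
  obtain ⟨D⟩ := X.dual S
  have := Gen.infinite_quot hinf
  have := X.ker_proj S t ht
  obtain ⟨R, hR⟩ := hW
  obtain ⟨ρ1, hρ1⟩ := loc_map Γ X.d1
  obtain ⟨ρ, hρ⟩ := D.ν_loc
  obtain ⟨r1, hr1⟩ := X.acyc hfg hfp hoe (R + ρ1)
  obtain ⟨r2, hr2⟩ := hc (r1 + R + ρ)
  obtain ⟨x0, x1, x2⟩ := Set.not_subset.1 fun h => hd ⟨r2, h⟩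
  have hW : ∀ c ∈ S, ∀ g, c * g ∈ W ↔ g ∈ W := fun c hc g => by
    rw [← mul_mem_tr (g := c) (p := g), (hS c hc).2]
  have cross : ∀ {s g h}, Γ.d g h ≤ s → ¬ (g ∈ W ↔ h ∈ W) → h ∈ Γ.N (R + s) J := by
    intro s g h hgh hne
    refine Gen.N_N hR ?_
    by_cases h1 : h ∈ W
    · exact Gen.mem_N_fr h1 ⟨g, fun h2 => hne (iff_of_true h2 h1), hgh⟩
    · exact Gen.mem_N_fr' h1 ⟨g, by_contra fun h2 => hne (iff_of_false h2 h1), hgh⟩
  choose γ hγ hγ' using fun κ => exists_chain (Γ := Γ) (Z := Γ.N (r1 + R + ρ) J ∪ Wᶜ)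
    ((hr2 x0 x1 (t κ * x0) ((hW _ (t κ).2 _).2 x1) x2
      fun h => x2 ((Gen.mul_mem_N (hS _ (t κ).2).1).1 h)).inside
      (fun _ h => Gen.N_mono (by omega) subset_rfl (hR h.2)) x1
      fun _ h => h.1.resolve_right fun h' => h' h.2)
  let α1 : (Fin k →₀ ZG S) →ₗ[ZG S] Du X.w S (Fr G X.m) :=
    Finsupp.linearCombination (ZG S) fun κ => ofFun D.ν (γ κ)
  have h1 : ∀ v, D.e1 (α1 v) = bd t v • D.q x0 := fun v => by
    have h2 : ∀ x, D.e1 (ofFun D.ν x) = lsum D.q (bd Γ.s x) :=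
      fr_ext (φ := D.e1.toAddMonoidHom.comp (ofFun D.ν))
        (ψ := (lsum D.q).comp (bd Γ.s).toAddMonoidHom) fun g i => by simp [D.e1_ν, bd_e]
    induction v using Finsupp.induction_linear with
    | zero => simp
    | add a b ha hb => rw [map_add, map_add, map_add, add_smul, ha, hb]
    | single κ s =>
      simp only [α1, bd, Finsupp.linearCombination_single, map_smul, h2, smul_eq_mul, mul_smul,
        sub_smul, one_smul, D.q_smul]
      rw [← bd, hγ, map_sub, lsum_single, lsum_single, one_smul, one_smul]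
  have h2 : ∀ v, α1 v ∈ Acyc.van X.w S X.m (Γ.N r1 J ∪ Wᶜ) fun c hc g hg =>
      hg.imp (Gen.mul_mem_N (hS c hc).1).2 fun h h' => h ((hW c hc g).1 h') := fun v => by
    rw [Finsupp.linearCombination_apply]
    refine Submodule.sum_mem _ fun κ _ => Submodule.smul_mem _ _ fun h hh l => ?_
    refine hγ' κ ℤ (AddMonoidHom.mk' (fun x => co (ofFun D.ν x).ev (e h l))
      fun a b => by simp [co_apply]) fun g i hg => ?_
    rw [AddMonoidHom.mk'_apply, ofFun_e]
    by_contra h0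
    have h3 := hρ g i h l h0
    rw [Gen.d_comm] at h3
    refine hg (Or.inl ?_)
    rcases hh with h4 | h4
    · exact Gen.N_mono (by omega) subset_rfl (Gen.mem_N_of_d h4 h3)
    · exact Gen.N_mono (by omega) subset_rfl
        (cross h3 fun h5 => h4 (h5.2 (by_contra fun h6 => hg (Or.inr h6))))
  let M := Acyc.van X.w S Γ.n Wᶜ fun c hc g h h' => h ((hW c hc g).1 h')
  let f := Du.map X.w S X.d1 ∘ₗ M.subtype
  have h3 : ∀ κ : LinearMap.ker (bd t), (α1 ∘ₗ (LinearMap.ker (bd t)).subtype) κ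
      ∈ LinearMap.range f := fun κ => by
    obtain ⟨y, hy⟩ := (D.ex2 (α1 κ)).1 (by rw [h1, LinearMap.mem_ker.1 κ.2, zero_smul])
    have h4 : ∀ x, co y.ev (X.d1 x) = co (α1 κ).ev x := fun x => by rw [← hy]; rfl
    obtain ⟨θ, hθ⟩ := hr1 y.ev fun g l hg => by rw [h4, h2 _ g (Or.inl hg)]
    let y1 := y.ev - θ ∘ₗ bd Γ.s
    have h5 : ∀ g i, g ∈ Γ.N (R + ρ1) J → co y1 (e g i) = 0 := fun g i hg => by
      rw [Acyc.co_sub, hθ g i hg]
      exact sub_self _
    have h6 : ∀ x, co y1 (X.d1 x) = co (α1 κ).ev x := fun x => by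
      rw [Acyc.co_sub, h4, co_apply (θ ∘ₗ _), LinearMap.comp_apply,
        X.ex1.apply_apply_eq_zero, map_zero]
      simp
    obtain ⟨y2, h7⟩ := exists_co (ofFun fun g i => if g ∈ W then co y1 (e g i) else 0)
      ((co_finite y1).subset fun g ⟨i, hi⟩ => ⟨i, fun h => hi (by simp [h])⟩)
    refine ⟨⟨Du.mk X.w S y2, fun g hg i => ?_⟩, Du.ext fun x => ?_⟩
    · rw [Du.ev_mk, h7, ofFun_e, if_neg hg]
    · refine DFunLike.congr_fun (co_ext (q := y2 ∘ₗ X.d1) (q' := (α1 κ).ev) (fr_ext fun g l => ?_)) x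
      change co y2 (X.d1 (e g l)) = _
      by_cases hg : g ∈ W
      · rw [← h6, ← sub_eq_zero]
        refine hρ1 ℤ (co y2 - co y1) g l fun h i hh => ?_
        rw [AddMonoidHom.sub_apply, h7, ofFun_e]
        split_ifs with h8
        · exact sub_self _
        · rw [h5 h i (cross hh fun h9 => h8 (h9.1 hg)), sub_self]
      · rw [h2 _ g (Or.inr hg)]
        refine hρ1 ℤ (co y2) g l fun h i hh => ?_
        rw [h7, ofFun_e]
        split_ifs with h8
        · exact h5 h i (cross hh fun h9 => hg (h9.2 h8))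
        · rfl
  obtain ⟨α2, h4⟩ := Module.projective_lifting_property f.rangeRestrict
    (LinearMap.codRestrict _ _ h3) f.surjective_rangeRestrict
  exact Alpha.conn (D := D) ⟨x0, α1, M.subtype ∘ₗ α2, h1, fun κ =>
    congrArg Subtype.val (DFunLike.congr_fun h4 κ)⟩ ht (fun c hc g hg => (hW c hc g).2 hg)
    (fun κ g i hg => (α2 κ).2 g hg i) r

end Pool.Agent.Lib.MP_d98eb9_al.W
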