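import Pool.Agent.Lib.MP_d98eb9_al.W.Rep

/-! Coarse Alexander duality in degree two. -/

namespace Pool.Agent.Lib.MP_d98eb9_al.W

open MonoidAlgebra

variable {G : Type} [Group G] {Γ : Gen G}
  {X : Geo Γ} {J : Subgroup G} {D : Dual Γ X.w X.d1 J} {k : ℕ} {t : Fin k → J}

/-- The coboundary of an almost invariant function, modulo functions supported near `J`. -/
theorem Beta.pot {α : Alpha X D t} (β : Beta α) {A : Type} [AddCommGroup A] (u : G → A)
    {T : Type} [Fintype T] (a : T → ZG J →+ A) (q : T → Du X.w J (Fr G Γ.n))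
    (h : ∀ x, lsum u (bd Γ.s x) = ∑ t, a t (prAt X.w J x (q t))) :
    ∃ (v : G → A) (r : ℕ), (∀ g, g ∉ Γ.N r J → v g = 0) ∧
      ∀ x, ∑ t, a t (prAt X.w J x (α.α2 (β.β2 (q t)))) =
        lsum u (bd Γ.s x) - lsum v (bd Γ.s x) := by
  classical
  obtain ⟨B⟩ := exists_DB (G := G) (Fr G X.m)
  choose r hr using fun t => prAt_far0 Γ (β.h2 (q t))
  refine ⟨fun g => ∑ t, a t (prAt X.w J (single g 1 : ZG G) (β.h2 (q t))), Finset.univ.sup r,
    fun g hg => Finset.sum_eq_zero fun t _ => ?_, fun x => ?_⟩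
  · rw [hr t g fun h' => hg (Gen.N_mono (Finset.le_sup (Finset.mem_univ t)) subset_rfl h'),
      map_zero]
  have h1 : ∀ y : ZG G, lsum (fun g => ∑ t, a t (prAt X.w J (single g 1 : ZG G) (β.h2 (q t)))) y =
      ∑ t, a t (prAt X.w J y (β.h2 (q t))) := fun y =>
    (hom_ext (f' := ∑ t, (a t).comp ((pr X.w J).comp (β.h2 (q t)).ev.toAddMonoidHom))
      (fun g => by simp) y).trans (by simp)
  have h2 := rel B a (fun t => Du.map X.w J X.d1 (q t)) (fun z => by
    have := h (X.d1 z)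
    rw [X.ex1.apply_apply_eq_zero, map_zero] at this
    simpa using this.symm) (prAt X.w J x ∘ₗ β.h1)
  rw [h1, h, eq_sub_iff_add_eq, ← add_zero (_ + _), ← h2, ← Finset.sum_add_distrib,
    ← Finset.sum_add_distrib]
  refine Finset.sum_congr rfl fun t _ => ?_
  conv_rhs => rw [β.hh (q t)]
  simp only [map_add]
  rfl

/-- An almost invariant function is, far from `J`, locally constant off the support of `α2`. -/
theorem Alpha.pot (α : Alpha X D t) (ht : Subgroup.closure (Set.range t) = ⊤) {Z : Set G}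
    (hZ : ∀ c ∈ J, ∀ g ∈ Z, c * g ∈ Z) (hα : ∀ κ g i, g ∉ Z → co (α.α2 κ).ev (e g i) = 0)
    {A : Type} [AddCommGroup A] (u : G → A) {r : ℕ}
    (hu : ∀ g i, g ∉ Γ.N r J → u (g * Γ.s i) = u g) :
    ∃ r', ∀ p q, p ∉ Γ.N r' J → q ∉ Γ.N r' J → Γ.Conn Z p q → u p = u q := by
  obtain ⟨β⟩ := exists_beta α ht
  obtain ⟨T, _, a, q, h⟩ := repr (Γ := Γ) (J := J) X.w ((lsum u).comp (bd Γ.s).toAddMonoidHom)
    (r := r) fun g i hg => by simp [bd_e, hu g i hg]
  obtain ⟨v, r', hv, h2⟩ := β.pot u a q h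
  have h3 : ∀ g i, g ∉ Z → u (g * Γ.s i) - v (g * Γ.s i) = u g - v g := fun g i hg => by
    have := h2 (e g i)
    rw [Finset.sum_eq_zero fun t _ => by rw [prAt_eq_zero hZ _ (hα _) hg, map_zero]] at this
    simp only [bd_e, map_sub, lsum_single, one_smul] at this
    linear_combination (norm := abel) -this
  refine ⟨r', fun p q hp hq hc => ?_⟩
  have h4 : u q - v q = u p - v p := hc.ind (P := fun x => u x - v x = u p - v p) rfl
    fun a b ha hb hd hP => by
      rcases Gen.d_le_one.mp hd with h | ⟨i, h | h⟩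
      · rw [h, hP]
      · rw [h, h3 a i ha, hP]
      · rw [← hP, h, h3 b i hb]
  simpa [hv p hp, hv q hq] using h4.symm

theorem Alpha.conn (α : Alpha X D t) (ht : Subgroup.closure (Set.range t) = ⊤) {Z : Set G}
    (hZ : ∀ c ∈ J, ∀ g ∈ Z, c * g ∈ Z) (hα : ∀ κ g i, g ∉ Z → co (α.α2 κ).ev (e g i) = 0)
    (r : ℕ) : ∃ r', ∀ p q, p ∉ Γ.N r' J → q ∉ Γ.N r' J → Γ.Conn Z p q →
      Γ.Conn (Γ.N r J) p q := by
  obtain ⟨r', h⟩ := α.pot ht hZ hα (A := Set G →₀ ℤ)
    (fun p => Finsupp.single {x | Γ.Conn (Γ.N r J) p x} 1) (r := r + 1) fun g i hg => by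
      have hd := Gen.d_gen (Γ := Γ) g i
      have hc : Γ.Conn (Γ.N r J) g (g * Γ.s i) := Gen.Conn.single
        (fun h => hg (Gen.N_mono (by omega) subset_rfl h))
        (fun h => hg (Gen.mem_N_of_d h (by rwa [Gen.d_comm]))) hd
      congr 1
      ext x
      exact ⟨fun h => hc.trans h, fun h => hc.symm.trans h⟩
  refine ⟨r', fun p q hp hq hc => ?_⟩
  have := Finsupp.single_left_injective one_ne_zero (h p q hp hq hc)
  exact (Set.ext_iff.mp this q).mpr (Gen.Conn.refl _ _)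

/-- Stability of the complementary components. -/
theorem Geo.stable (X : Geo Γ) {J : Subgroup G} (hfg : J.FG) (hfp : IsFP2 J)
    (hinf : ¬ Γ.Near Set.univ J) : ∃ R, ∀ r, ∃ r', ∀ p q, p ∉ Γ.N r' J → q ∉ Γ.N r' J →
      Γ.Conn (Γ.N R J) p q → Γ.Conn (Γ.N r J) p q := by
  obtain ⟨k, t, ht⟩ := exists_gen_family hfg
  obtain ⟨D⟩ := X.dual J
  have := Gen.infinite_quot hinf
  obtain ⟨α⟩ := exists_alpha D t (X.ker_proj J t ht)
  obtain ⟨R, hR⟩ := α.supp (hfp.ker_finite t ht)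
  exact ⟨R, α.conn ht (fun c hc g hg => (Gen.mul_mem_N hc).mpr hg) hR⟩

end Pool.Agent.Lib.MP_d98eb9_al.W
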