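import Pool.Agent.Lib.MP_d98eb9_al.W.KK

/-! The blocks of one side of an edge. -/

namespace Pool.Agent.Lib.MP_d98eb9_al.W

open Gen

variable {G : Type} [Group G] {Γ : Gen G} {C : Subgroup G} {X : Set G} {Ω : Set (Set G)} {ρ : ℕ}
  {x y z c : G} {P W : Set G}

/-- The components on the side `X` that are tied to the edge `xC`. -/
def Mk (Γ : Gen G) (C : Subgroup G) (X : Set G) (Ω : Set (Set G)) (ρ : ℕ) (x : G) :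
    Set (Set G) :=
  {P | P ∈ Ω ∧ P ⊆ X ∧ (¬ Γ.Near (tr x C) Pᶜ ∨ Γ.Near (Γ.fr P) (tr x C)) ∧
    ∃ p ∈ tr x C, p ∈ Γ.N ρ P}

/-- Edges that are tied to the same component or are not separated. -/
def R0 (Γ : Gen G) (C : Subgroup G) (X : Set G) (Ω : Set (Set G)) (ρ : ℕ) (x y : G) : Prop :=
  x ∈ X ∧ y ∈ X ∧ ((∃ P ∈ Mk Γ C X Ω ρ x, P ∈ Mk Γ C X Ω ρ y) ∨ ¬ Γ.Apart (tr x C) (tr y C))

/-- The standing hypotheses. -/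
structure Ctx (Γ : Gen G) (C : Subgroup G) (X : Set G) (Ω : Set (Set G)) (ρ : ℕ) : Prop where
  sys : Sys C X
  kk : KK Γ C X Ω
  oe : OE C
  rc : Γ.RC ρ C
  thick : ¬ Γ.Thin C
  rad : ∀ W ∈ Ω, Γ.fr W ⊆ Γ.N ρ C
  cov : ∀ p, p ∉ Γ.N ρ C → ∃ W ∈ Ω, p ∈ W
  pl : ∃ s, ∀ x ∈ X, ∀ W ∈ Ω, W ⊆ far C X x → ∃ P ∈ Mk Γ C X Ω ρ x, Γ.core s (tr x W) ⊆ P

theorem Sys.tr_far (h : Sys C X) (hx : x ∈ X) (hW : W ⊆ far C X x) : tr x W ⊆ X :=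
  fun p hp => by simpa using h.far_mem hx (hW hp)

theorem Sys.out (h : Sys C X) (hW : W ⊆ X) : (C : Set G) ⊆ Γ.N 0 Wᶜ :=
  fun p hp => subset_N _ _ fun h' => h.disj p (hW h') hp

theorem Sys.sub_of_mem (h : Sys C X) (hW : W ⊆ X ∨ W ⊆ opp C X) (hx : x ∉ C) (hz : z ∈ W)
    (hz' : z ∈ far C X x) : W ⊆ far C X x := by
  rcases far_eq hx h.disj with e | e <;> rw [e] at hz' ⊢ <;> rcases hW with h1 | h1
  exacts [h1, absurd hz' (h1 hz).2, absurd (h1 hz) hz'.2, h1]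

theorem exists_ctx (h : Sys C X) (K : KK Γ C X Ω) (hoe : OE C) (hfg : C.FG) (ht : ¬ Γ.Thin C) :
    ∃ ρ, Ctx Γ C X Ω ρ := by
  obtain ⟨r, hr⟩ := (fg_iff_rc (Γ := Γ)).mp hfg
  obtain ⟨R, h1, h2⟩ := K.per.rad
  obtain ⟨s, hs⟩ := K.per.place K.per.side.tr 0
  obtain ⟨t, ht'⟩ := K.per.side.tr.app s
  refine ⟨r + R + t, h, K, hoe, hr.mono (by omega), ht,
    fun W hW => (h1 W hW).trans (N_mono (by omega) subset_rfl),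
    fun p hp => h2 p fun h => hp (N_mono (by omega) subset_rfl h), s, fun x hx W hW hf => ?_⟩
  have hX := h.tr_far hx hf
  obtain ⟨P, hP, hc⟩ := hs _ ⟨x, W, hW, rfl⟩ (h.out hX)
  have e1 : Γ.fr (tr x W) ⊆ Γ.N t P := (ht' _ ⟨x, W, hW, rfl⟩).trans (N_mono le_rfl hc)
  have e2 : Γ.fr (tr x W) ⊆ Γ.N R (tr x C) := by
    rw [← tr_fr, ← tr_N]
    exact tr_mono x (h1 W hW)
  obtain ⟨p, hp⟩ := K.per.side.tr.core_ne ⟨x, W, hW, rfl⟩ s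
  obtain ⟨q, hq⟩ := K.per.side.tr.ne _ ⟨x, W, hW, rfl⟩
  obtain ⟨a, ha, hd⟩ := e2 hq
  refine ⟨P, ⟨hP, (K.side P hP).resolve_right fun h' => (h' (hc hp)).2 (hX hp.1), ?_, a, ha,
    N_mono (by omega) subset_rfl (mem_N_of_d (s := R) (e1 hq) (by rwa [d_comm] at hd))⟩, hc⟩
  refine or_iff_not_imp_left.mpr fun hn => ?_
  exact (((K.per.hs W hW).tr x).near_symm (K.per.hs P hP)
    (Near.fr ⟨t, e1⟩ (Near.trans ⟨R, e2⟩ (not_not.mp hn)))).trans ⟨R, e2⟩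

/-- Two sides that contain common deep points and are each close to the outside of the other. -/
theorem corner {U V D E : Set G} (hU : Γ.Side {U}) (hV : Γ.Side {V}) (h1 : Γ.fr U ⊆ Γ.N ρ D)
    (h2 : Γ.fr V ⊆ Γ.N ρ E) (h3 : Γ.Near E Uᶜ) (h4 : Γ.Near D Vᶜ)
    (h : ∀ s, ∃ p ∈ Γ.core s U, p ∈ Γ.core s V) : Γ.Near (Γ.fr U) E ∧ Γ.Near (Γ.fr V) D ∧
      ((∃ p ∈ E, p ∈ Γ.N ρ U) ∨ ∃ p ∈ D, p ∈ Γ.N ρ V) := by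
  have key : ∀ {U V D E : Set G}, Γ.Side {U} → Γ.fr U ⊆ Γ.N ρ D → Γ.fr V ⊆ Γ.N ρ E →
      Γ.Near E Uᶜ → Γ.Near D Vᶜ → (∀ s, ∃ p ∈ Γ.core s U, p ∈ V) → Γ.Near (Γ.fr U) E :=
    fun hU h1 h2 h3 h4 h => by
      obtain ⟨s, hs | hs⟩ := hU.dich rfl (Near.trans ⟨_, h2⟩ h3)
      · exact (((hU.near_core rfl s).trans (Near.of_subset hs)).fr
          (Near.trans ⟨_, h1⟩ h4)).trans ⟨_, h2⟩
      · obtain ⟨p, hp, hp'⟩ := h s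
        exact absurd hp' (hs hp)
  refine ⟨key hU h1 h2 h3 h4 fun s => (h s).imp fun p hp => ⟨hp.1, hp.2.1⟩,
    key hV h2 h1 h4 h3 fun s => (h s).imp fun p hp => ⟨hp.2, hp.1.1⟩, ?_⟩
  by_contra hn
  rcases eq_of_fr_empty (Γ := Γ) (U := U ∩ V) (Set.eq_empty_of_forall_notMem fun p hp => by
    obtain ⟨⟨hpU, hpV⟩, q, hd, hq⟩ := hp
    by_cases hqU : q ∈ U
    · obtain ⟨a, ha, hd'⟩ := h2 (mem_fr hpV (fun h => hq (by simp [*])) hd)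
      exact hn (Or.inl ⟨a, ha, p, hpU, by rwa [d_comm]⟩)
    · obtain ⟨a, ha, hd'⟩ := h1 (mem_fr hpU hqU hd)
      exact hn (Or.inr ⟨a, ha, p, hpV, by rwa [d_comm]⟩)) with e | e
  · obtain ⟨p, hp, hp'⟩ := h 0
    exact e.le ⟨hp.1, hp'.1⟩
  · obtain ⟨p, q, -, hq⟩ := hU.ne U rfl
    exact hq ⟨fun _ => (e.ge trivial).1, fun _ => (e.ge trivial).1⟩

theorem tr_coset (x : G) (hc : c ∈ C) : tr (x * c) (C : Set G) = tr x C := by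
  rw [← tr_tr, tr_subgroup hc]

theorem R0.symm (h : R0 Γ C X Ω ρ x y) : R0 Γ C X Ω ρ y x :=
  ⟨h.2.1, h.1, h.2.2.imp (fun ⟨P, a, b⟩ => ⟨P, b, a⟩) fun h h' => h h'.symm⟩

namespace Ctx

variable (h : Ctx Γ C X Ω ρ)
include h

theorem disj {P Q : Set G} (hP : P ∈ Ω) (hQ : Q ∈ Ω) (h1 : z ∈ P) (h2 : z ∈ Q) : P = Q :=
  h.kk.per.disj P hP Q hQ z h1 h2

theorem mk_tr (hc : c ∈ C) (hP : P ∈ Mk Γ C X Ω ρ x) : tr c P ∈ Mk Γ C X Ω ρ (c * x) := by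
  obtain ⟨h1, h2, h3, p, hp, hp'⟩ := hP
  refine ⟨h.kk.inv c hc P h1, fun p hp => by simpa using h.sys.left c hc _ (h2 hp),
    h3.imp (fun h h' => h ?a) fun h => ?b, c * p, ?_, ?_⟩
  case a =>
    have := h'.tr c⁻¹
    rwa [← tr_tr, tr_inv_tr, ← tr_compl, tr_inv_tr] at this
  case b =>
    rw [← tr_tr, ← tr_fr]
    exact h.tr c
  · rw [← tr_tr]
    exact mul_mem_tr.mpr hp
  · rw [← tr_N]
    exact mul_mem_tr.mpr hp'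

theorem left (hc : c ∈ C) (hR : Relation.EqvGen (R0 Γ C X Ω ρ) x y) :
    Relation.EqvGen (R0 Γ C X Ω ρ) (c * x) (c * y) := by
  induction hR with
  | rel x y hR =>
    refine .rel _ _ ⟨h.sys.left c hc x hR.1, h.sys.left c hc y hR.2.1,
      hR.2.2.imp (fun ⟨P, a, b⟩ => ⟨_, h.mk_tr hc a, h.mk_tr hc b⟩) fun h h' => h ?_⟩
    have := h'.tr c⁻¹
    rwa [tr_tr, tr_tr, inv_mul_cancel_left, inv_mul_cancel_left] at this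
  | refl => exact .refl _
  | symm _ _ _ ih => exact .symm _ _ ih
  | trans _ _ _ _ _ ih ih' => exact .trans _ _ _ ih ih'

theorem thick' (x : G) : ¬ Γ.Thin (tr x C) := fun h' => h.thick (tr_inv_tr x C ▸ h'.tr x⁻¹)

theorem right (hc : c ∈ C) (hx : x ∈ X) : R0 Γ C X Ω ρ x (x * c) :=
  ⟨hx, h.sys.right c hc x hx, Or.inr fun h' => h.thick' x (h'.thin (tr_coset x hc).ge)⟩

theorem ex_far : ∃ F : Set (Set G), F.Finite ∧ F ⊆ Ω ∧ ∀ x, x ∉ C → ∃ W ∈ F, W ⊆ far C X x := by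
  have key : ∀ Y : Set G, ¬ Γ.Near Y C → ∃ W ∈ Ω, ∃ p ∈ W, p ∈ Y := fun Y hY => by
    by_contra hn
    exact hY ⟨ρ, fun p hp => by_contra fun hp' => hn ((h.cov p hp').imp fun W hW =>
      ⟨hW.1, p, hW.2, hp⟩)⟩
  obtain ⟨U, hU, p, hp, hp'⟩ := key X (h.sys.not_near Γ)
  obtain ⟨V, hV, q, hq, hq'⟩ := key _ (h.sys.swap.not_near Γ)
  refine ⟨{U, V}, by simp, by simp [Set.insert_subset_iff, hU, hV], fun x hx => ?_⟩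
  rcases far_eq hx h.sys.disj with e | e
  · exact ⟨U, by simp, h.sys.sub_of_mem (h.kk.side U hU) hx hp (e.ge hp')⟩
  · exact ⟨V, by simp, h.sys.sub_of_mem (h.kk.side V hV) hx hq (e.ge hq')⟩

theorem prox : ∃ t, ∀ x ∈ X, ∃ P ∈ Mk Γ C X Ω ρ x, x ∈ Γ.N t P := by
  obtain ⟨F, hF, h1, h2⟩ := h.ex_far
  obtain ⟨s, hs⟩ := h.pl
  choose! p hp using fun W hW => h.kk.per.side.core_ne (U := W) hW s
  obtain ⟨t, ht⟩ := bdd_of_finite (Γ := Γ) (hF.image p) 1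
  refine ⟨t, fun x hx => ?_⟩
  obtain ⟨W, hW, hf⟩ := h2 x (h.sys.disj x hx)
  obtain ⟨P, hP, hc⟩ := hs x hx W (h1 hW) hf
  refine ⟨P, hP, x * p W, hc ?_, by rw [d_comm, d_mul_right]; exact ht _ ⟨W, hW, rfl⟩⟩
  rw [← tr_core]
  exact mul_mem_tr.mpr (hp W (h1 hW))

theorem deep : ∃ σ, ρ ≤ σ ∧ ∀ x ∈ X, x ∉ Γ.N σ C → ∀ Q ∈ Ω, x ∈ Q → Q ∈ Mk Γ C X Ω ρ x := by
  obtain ⟨t, ht⟩ := h.prox
  refine ⟨ρ + t, by omega, fun x hx hn Q hQ hxQ => ?_⟩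
  obtain ⟨P, hP, p, hp, hd⟩ := ht x hx
  rwa [h.disj hQ hP.1 (core_ball (mem_core hxQ (h.rad Q hQ) hn) (by rwa [d_comm])) hp]

theorem core_sub {U : Set G} {s : ℕ} (hU : (C : Set G) ⊆ Γ.N 0 Uᶜ) (hP : P ∈ Ω)
    (hc : Γ.core s U ⊆ P) (t : ℕ) : Γ.core (s + (ρ + t)) U ⊆ Γ.core t P := fun _ hp =>
  mem_core (hc (core_mono (by omega) hp)) (h.rad P hP)
    (core_not_mem (core_mono (by omega) hp) hU)

theorem D1 (hx : x ∈ X) (hz : z ∈ far C X x) : R0 Γ C X Ω ρ x (x * z) := by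
  have hxz := h.sys.far_mem hx hz
  have hxC := h.sys.disj x hx
  obtain ⟨F, -, h1, h2⟩ := h.ex_far
  obtain ⟨s, hs⟩ := h.pl
  obtain ⟨U, hU, hf⟩ := h2 _ (h.sys.disj _ hxz)
  have e1 : tr z U ⊆ far C X x := fun p hp => by simpa using h.sys.far_far hxC hz (hf hp)
  have e2 : (C : Set G) ⊆ Γ.N 0 (tr z U)ᶜ := fun p hp => subset_N _ _ fun h' => (e1 h').1 hp
  obtain ⟨t, ht⟩ := h.kk.per.place h.kk.per.side.tr 0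
  obtain ⟨W, hW, hc⟩ := ht _ ⟨z, U, h1 hU, rfl⟩ e2
  obtain ⟨q, hq⟩ := h.kk.per.side.tr.core_ne ⟨z, U, h1 hU, rfl⟩ (t + (ρ + s))
  have hqW := h.core_sub e2 hW hc s hq
  obtain ⟨P, hP, hP'⟩ := hs x hx W hW (h.sys.sub_of_mem (h.kk.side W hW) hxC hqW.1 (e1 hq.1))
  obtain ⟨Q, hQ, hQ'⟩ := hs _ hxz U (h1 hU) hf
  rw [← tr_tr, ← tr_core] at hQ'
  rw [← tr_core] at hP'
  exact ⟨hx, hxz, Or.inl ⟨P, hP, h.disj hQ.1 hP.1 (z := x * q)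
    (hQ' (mul_mem_tr.mpr (core_mono (by omega) hq))) (hP' (mul_mem_tr.mpr hqW)) ▸ hQ⟩⟩

omit h in
theorem near_of_not_mem (hP : P ∈ Mk Γ C X Ω ρ y) (hn : P ∉ Mk Γ C X Ω ρ x) :
    Γ.Near (tr x C) Pᶜ := by
  by_contra h'
  refine hn ⟨hP.1, hP.2.1, Or.inl h', by_contra fun h2 => h' (Near.of_subset fun p hp hp' => ?_)⟩
  exact h2 ⟨p, hp, subset_N _ _ hp'⟩

theorem D2 (hx : x ∈ X) (hy : y ∈ X) (hx' : x⁻¹ ∈ X) (hxy : x⁻¹ * y ∈ X)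
    (e : y⁻¹ ∈ X ↔ y⁻¹ * x ∈ X) : R0 Γ C X Ω ρ x y ∨ R0 Γ C X Ω ρ x⁻¹ (x⁻¹ * y) := by
  obtain ⟨F, -, h1, h2⟩ := h.ex_far
  obtain ⟨s, hs⟩ := h.pl
  obtain ⟨W, hW, hf⟩ := h2 _ (h.sys.disj _ hy)
  have hf' : W ⊆ far C X (x⁻¹ * y) := fun p hp => ⟨(hf hp).1, by simpa [← e] using (hf hp).2⟩
  obtain ⟨P, hP, hP'⟩ := hs y hy W (h1 hW) hf
  obtain ⟨Q, hQ, hQ'⟩ := hs _ hxy W (h1 hW) hf'
  by_contra hn
  have n1 : P ∉ Mk Γ C X Ω ρ x := fun h => hn (Or.inl ⟨hx, hy, Or.inl ⟨P, h, hP⟩⟩)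
  have n2 : Q ∉ Mk Γ C X Ω ρ x⁻¹ := fun h => hn (Or.inr ⟨hx', hxy, Or.inl ⟨Q, h, hQ⟩⟩)
  have n3 := (near_of_not_mem hQ n2).tr x
  rw [tr_tr_inv] at n3
  obtain ⟨a1, a2, a3⟩ := corner (V := tr x Q) (E := tr x C) (h.kk.per.hs P hP.1).1
    ((h.kk.per.hs Q hQ.1).tr x).1 (h.rad P hP.1)
    (by rw [← tr_fr, ← tr_N]; exact tr_mono x (h.rad Q hQ.1)) (near_of_not_mem hP n1) n3
    fun t => by
      obtain ⟨q, hq⟩ := h.kk.per.side.tr.core_ne ⟨y, W, h1 hW, rfl⟩ (s + (ρ + t))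
      refine ⟨q, h.core_sub (h.sys.out (h.sys.tr_far hy hf)) hP.1 hP' t hq, ?_⟩
      rw [← tr_core]
      refine h.core_sub (h.sys.out (h.sys.tr_far hxy hf')) hQ.1 hQ' t ?_
      rw [← tr_tr, ← tr_core]
      exact mul_mem_tr.mpr hq
  rcases a3 with a3 | ⟨p, hp, hp'⟩
  · exact n1 ⟨hP.1, hP.2.1, Or.inr a1, a3⟩
  · have := a2.tr x⁻¹
    rw [← tr_fr, tr_inv_tr] at this
    rw [← tr_N] at hp'
    exact n2 ⟨hQ.1, hQ.2.1, Or.inr this, x⁻¹ * p, mul_mem_tr.mpr hp, hp'⟩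

theorem D3 (y : G) : {q : G ⧸ C | ∃ x : G, (x : G ⧸ C) = q ∧ x⁻¹ ∈ X ∧ x⁻¹ * y ∈ X ∧
    ¬ Relation.EqvGen (R0 Γ C X Ω ρ) x⁻¹ (x⁻¹ * y)}.Finite := by
  obtain ⟨σ, h1, h2⟩ := h.deep
  refine ((Gen.ball_finite (Γ := Γ) 1 (σ + Γ.d 1 y)).image fun x : G => (x : G ⧸ C)).subset ?_
  rintro _ ⟨x, rfl, hx, hxy, hn⟩
  by_cases hc : x⁻¹ ∈ Γ.N (σ + Γ.d 1 y) C
  · obtain ⟨c, hc, hd⟩ := hc
    refine ⟨x * c, ?_, QuotientGroup.mk_mul_of_mem x hc⟩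
    rwa [← d_mul x, mul_inv_cancel, d_comm] at hd
  have e1 : x⁻¹ ∉ Γ.N σ C := fun h => hc (N_mono (by omega) subset_rfl h)
  obtain ⟨Q, hQ, hxQ⟩ := h.cov _ fun h => e1 (N_mono h1 subset_rfl h)
  refine absurd (.rel _ _ ⟨hx, hxy, Or.inl ⟨Q, h2 _ hx e1 Q hQ hxQ, h2 _ hxy
    (fun h => hc (mem_N_of_d h (by rw [d_comm, d_mul_right]))) Q hQ (core_ball (mem_core hxQ
      (h.rad Q hQ) fun h => hc (N_mono (by omega) subset_rfl h)) (d_mul_right _ y).le)⟩⟩) hn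

end Ctx

end Pool.Agent.Lib.MP_d98eb9_al.W
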