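import Pool.Agent.Lib.MP_d98eb9_al.W.Blk

/-! The stabiliser of a block. -/

namespace Pool.Agent.Lib.MP_d98eb9_al.W

open Gen

variable {G : Type} [Group G] {Γ : Gen G} {C : Subgroup G} {X : Set G} {Ω : Set (Set G)} {ρ : ℕ}
  {x y z c : G} {P W β : Set G} {S : Set (Set G)}

/-- A block `β` with its components `S`. -/
structure Blo (Γ : Gen G) (C : Subgroup G) (X : Set G) (Ω : Set (Set G)) (ρ : ℕ) (β : Set G)
    (S : Set (Set G)) : Prop extends Ctx Γ C X Ω ρ where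
  eq : ∃ x0 ∈ X, β = {x | x ∈ X ∧ Relation.EqvGen (R0 Γ C X Ω ρ) x0 x}
  eqS : S = {P | ∃ x ∈ β, P ∈ Mk Γ C X Ω ρ x}

/-- The inner frontiers of a family. -/
def inn (Γ : Gen G) (S : Set (Set G)) : Set G := {p | ∃ P ∈ S, p ∈ P ∩ Γ.fr P}

/-- A set filled in with a family. -/
def hat (A : Set G) (S : Set (Set G)) : Set G := A ∪ {p | ∃ P ∈ S, p ∈ P}

theorem hat_proj {A : Set G} {σ s : ℕ} (hC : ∀ P ∈ S, ∀ p ∈ C, p ∉ P) (hA : inn Γ S ⊆ A) {a b : G}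
    (ha : a ∈ hat A S) (hd : Γ.d a b ≤ s) (hb : b ∈ Γ.N σ C ∨ ∀ P ∈ S, b ∉ P) :
    b ∈ Γ.N (s + σ) A := by
  rcases ha with ha | ⟨P, hP, ha⟩
  · exact ⟨a, ha, by omega⟩
  by_cases hbP : b ∈ P
  · obtain ⟨c, hc, hd'⟩ := hb.resolve_right fun h => h P hP hbP
    obtain ⟨q, hq, hq', h⟩ := exists_fr (Γ := Γ) hbP (hC P hP c hc)
    rw [d_comm] at hd'
    exact ⟨q, hA ⟨P, hP, hq', hq⟩, by rw [d_comm]; omega⟩
  · obtain ⟨q, hq, hq', h⟩ := exists_fr (Γ := Γ) ha hbP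
    exact ⟨q, hA ⟨P, hP, hq', hq⟩, by omega⟩

namespace Blo

variable (h : Blo Γ C X Ω ρ β S)
include h

theorem sub (hx : x ∈ β) : x ∈ X := by
  obtain ⟨x0, -, rfl⟩ := h.eq
  exact hx.1

theorem step (hx : x ∈ β) (hR : R0 Γ C X Ω ρ x y) : y ∈ β := by
  obtain ⟨x0, -, rfl⟩ := h.eq
  exact ⟨hR.2.1, .trans _ _ _ hx.2 (.rel _ _ hR)⟩

theorem ne : β.Nonempty := by
  obtain ⟨x0, h0, rfl⟩ := h.eq
  exact ⟨x0, h0, .refl _⟩

theorem ind {T : G → Prop} (hT : ∀ a ∈ β, ∀ b ∈ β, R0 Γ C X Ω ρ a b → T a → T b) (hx : x ∈ β)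
    (hy : y ∈ β) (h1 : T x) : T y := by
  have key : ∀ a b, Relation.EqvGen (R0 Γ C X Ω ρ) a b → (a ∈ β ∧ T a ↔ b ∈ β ∧ T b) := by
    intro a b hR
    induction hR with
    | rel a b hR => exact ⟨fun e => ⟨h.step e.1 hR, hT a e.1 b (h.step e.1 hR) hR e.2⟩,
        fun e => ⟨h.step e.1 hR.symm, hT b e.1 a (h.step e.1 hR.symm) hR.symm e.2⟩⟩
    | refl => rfl
    | symm _ _ _ ih => exact ih.symm
    | trans _ _ _ _ _ ih ih' => exact ih.trans ih'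
  obtain ⟨x0, -, e⟩ := h.eq
  exact ((key x y (.trans _ _ _ (.symm _ _ (e.le hx).2) (e.le hy).2)).mp ⟨hx, h1⟩).2

theorem mem_blk (hc : c ∈ C) (hx : x ∈ β) (hcx : c * x ∈ β) : c ∈ blk C β := by
  obtain ⟨x0, -, rfl⟩ := h.eq
  exact h.sys.mem_blk (Relation.EqvGen.is_equivalence _) (fun c hc _ _ => h.left hc) hc hx hcx.2

theorem unfold : Sys (blk C β) β := by
  obtain ⟨x0, h0, rfl⟩ := h.eq
  exact h.sys.unfold (Relation.EqvGen.is_equivalence _) (fun c hc _ _ => h.left hc)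
    (fun c hc x hx => .rel _ _ (h.right hc hx)) (fun x hx z hz => .rel _ _ (h.D1 hx hz))
    (fun x hx y hy a b c => (h.D2 hx hy a b c).imp (.rel _ _) (.rel _ _)) h.D3 h0

theorem coset (hx : x ∈ β) : tr x C ⊆ β := fun p hp => by
  simpa using h.step hx (h.right hp (h.sub hx))

theorem mem (hx : x ∈ β) (hP : P ∈ Mk Γ C X Ω ρ x) : P ∈ S := h.eqS.ge ⟨x, hx, hP⟩

theorem subS (hP : P ∈ S) : P ∈ Ω ∧ P ⊆ X := by
  obtain ⟨x, -, hx⟩ := h.eqS.le hP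
  exact ⟨hx.1, hx.2.1⟩

theorem neS : S.Nonempty := by
  obtain ⟨x, hx⟩ := h.ne
  obtain ⟨t, ht⟩ := h.prox
  obtain ⟨P, hP, -⟩ := ht x (h.sub hx)
  exact ⟨P, h.mem hx hP⟩

theorem trS (hc : c ∈ blk C β) (hP : P ∈ S) : tr c P ∈ S := by
  obtain ⟨x, hx, hP⟩ := h.eqS.le hP
  exact h.mem (hc.2.le (mul_mem_tr.mpr hx)) (h.mk_tr hc.1 hP)

/-- The stabiliser of a block lies on one side of every set that the block does not cross. -/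
theorem const {D : Set G} {Ω' : Set (Set G)} (hD : Γ.Per D Ω') (ht : ¬ Γ.Thin D) {r : ℕ}
    (h1 : ∀ P ∈ S, D ⊆ Γ.N r Pᶜ) (h2 : ∀ x ∈ β, Γ.Apart (tr x C) D) : Γ.Apart (blk C β) D := by
  obtain ⟨s, hs⟩ := hD.place (h.kk.per.side.mono fun P hP => (h.subS hP).1) r
  obtain ⟨R, hR, -⟩ := hD.rad
  have link : ∀ x ∈ β, ∀ P ∈ Mk Γ C X Ω ρ x, ∀ Q ∈ Ω', ∀ Q' ∈ Ω', Γ.Near (tr x C) Q →
      Γ.core s P ⊆ Q' → Q = Q' := by
    rintro x hx P hP Q hQ Q' hQ' ⟨t, hn⟩ hc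
    rcases hP.2.2.1 with e | e
    · obtain ⟨a, ha, ha'⟩ := Set.not_subset.mp fun h' => e ⟨1 + (s + (r + (R + t))), h'⟩
      have hc' := mem_core (by_contra fun h => ha' (subset_N _ _ h)) (fr_subset' P) ha'
      obtain ⟨b, hb, hd⟩ := hn ha
      exact hD.disj Q hQ Q' hQ' b hb (core_ball (r := t) (mem_core (hc (core_mono (by omega) hc'))
        (hR Q' hQ') (core_not_mem (core_mono (by omega) hc') (h1 P (h.mem hx hP))))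
        (by rwa [d_comm]))
    · exact hD.uniq ht hQ hQ' (h.kk.per.hs P hP.1) (e.trans ⟨t, hn⟩)
        ((h.kk.per.side.near_core hP.1 s).trans (Near.of_subset hc))
  obtain ⟨x0, h0⟩ := h.ne
  obtain ⟨Q, hQ, hn⟩ := hD.near (h2 x0 h0)
  have all : ∀ x ∈ β, Γ.Near (tr x C) Q := fun x hx =>
    h.ind (T := fun x => Γ.Near (tr x C) Q) (fun a ha b hb hR hT => by
      obtain ⟨Q', hQ', hn'⟩ := hD.near (h2 b hb)
      rcases hR.2.2 with ⟨P, e1, e2⟩ | e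
      · obtain ⟨Q1, hQ1, hc⟩ := hs P (h.mem ha e1) (h1 P (h.mem ha e1))
        rwa [link a ha P e1 Q hQ Q1 hQ1 hT hc, ← link b hb P e2 Q' hQ' Q1 hQ1 hn' hc]
      · by_contra hn
        exact e ⟨Q, hD.hs Q hQ, hT, hn'.trans (Near.of_subset (hD.sub hQ hQ' fun e' =>
          hn (e' ▸ hn')))⟩) h0 hx hn
  refine hD.apart hQ ((near_of_inv (A := {p | ∃ P ∈ S, p ∈ Γ.core s P}) ?_ ?_).trans
    (Near.of_subset ?_))
  · rintro c hc a ⟨P, hP, ha⟩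
    exact ⟨_, h.trS hc hP, by rw [← tr_core]; exact mul_mem_tr.mpr ha⟩
  · obtain ⟨P, hP⟩ := h.neS
    obtain ⟨p, hp⟩ := h.kk.per.side.core_ne (h.subS hP).1 s
    exact ⟨p, P, hP, hp⟩
  · rintro p ⟨P, hP, hp⟩
    obtain ⟨Q1, hQ1, hc⟩ := hs P hP (h1 P hP)
    obtain ⟨x, hx, hP⟩ := h.eqS.le hP
    exact link x hx P hP Q hQ Q1 hQ1 (all x hx) hc ▸ hc hp

theorem inn_sub : inn Γ S ⊆ Γ.N ρ C := fun _ ⟨P, hP, hp⟩ => h.rad P (h.subS hP).1 hp.2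

theorem blk_near : Γ.Near (blk C β) (inn Γ S) := by
  refine near_of_inv (fun c hc a ⟨P, hP, ha⟩ => ⟨_, h.trS hc hP, mul_mem_tr.mpr ha.1, ?_⟩) ?_
  · rw [← tr_fr]
    exact mul_mem_tr.mpr ha.2
  · obtain ⟨P, hP⟩ := h.neS
    obtain ⟨p, hp⟩ := h.kk.per.side.ne P (h.subS hP).1
    obtain ⟨q, hq, -⟩ := fr_subset_inner P hp
    exact ⟨q, P, hP, hq⟩

theorem near_blk (σ : ℕ) : Γ.Near (β ∩ Γ.N σ C ∪ inn Γ S) (blk C β) := by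
  refine (near_of_stab ⟨σ, Set.inter_subset_right⟩ fun c hc a ha hca =>
    h.mem_blk hc ha.1 hca.1).union (near_of_stab ⟨ρ, h.inn_sub⟩ ?_)
  rintro c hc a ⟨P, hP, ha⟩ ⟨Q, hQ, hca⟩
  obtain ⟨x, hx, hP⟩ := h.eqS.le hP
  obtain ⟨y, hy, hQ⟩ := h.eqS.le hQ
  have := h.mk_tr hc hP
  rw [h.disj this.1 hQ.1 (mul_mem_tr.mpr ha.1) hca.1] at this
  exact h.mem_blk hc hx (h.step hy ⟨h.sub hy, h.sys.left c hc x (h.sub hx), Or.inl ⟨Q, hQ, this⟩⟩)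

theorem cover : ∃ σ, ρ ≤ σ ∧ (∀ x ∈ β, x ∉ Γ.N σ C → ∃ P ∈ S, x ∈ P) ∧
    ∀ y ∈ X, y ∉ β → ∀ P ∈ S, tr y C ⊆ Γ.N σ Pᶜ := by
  obtain ⟨σ, h1, h2⟩ := h.deep
  refine ⟨σ, h1, fun x hx hn => ?_, fun y hy hn P hP p hp => by_contra fun hp' => hn ?_⟩
  · obtain ⟨P, hP, hxP⟩ := h.cov x fun h => hn (N_mono h1 subset_rfl h)
    exact ⟨P, h.mem hx (h2 x (h.sub hx) hn P hP hxP), hxP⟩
  · obtain ⟨x, hx, hP⟩ := h.eqS.le hP
    have hpX : p ∈ X := by simpa using h.sys.right _ hp y hy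
    have := h.step hx ⟨h.sub hx, hpX, Or.inl ⟨P, hP, h2 p hpX (fun h' => hp' (N_mono le_rfl
      (h.kk.per.out P hP.1) h')) P hP.1 (by_contra fun h => hp' (subset_N _ _ h))⟩⟩
    exact h.coset this (by simpa using C.inv_mem hp)

/-- Close points of two filled sets give close points of the sets. -/
theorem hat_close {A B : Set G} {L L' : Set (Set G)} {σ s : ℕ} (hL : L ⊆ S) (hL' : L' ⊆ S)
    (hd : ∀ P ∈ L, P ∉ L') (hA : inn Γ L ⊆ A) (hB : inn Γ L' ⊆ B) (hA' : A ⊆ Γ.N σ C)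
    (hB' : B ⊆ Γ.N σ C) :
    Γ.N s (hat A L) ∩ hat B L' ⊆ Γ.N (s + σ) (Γ.N (s + σ + σ) B ∩ A) := by
  rintro b ⟨⟨a, ha, hab⟩, hb⟩
  have out := fun P (hP : P ∈ S) => h.kk.per.out P (h.subS hP).1
  obtain ⟨a', ha', hd'⟩ := hat_proj (fun P hP => out P (hL hP)) hA ha hab
    (hb.imp (fun h => hB' h) fun ⟨Q, hQ, hbQ⟩ P hP hbP =>
      hd P hP (h.disj (h.subS (hL hP)).1 (h.subS (hL' hQ)).1 hbP hbQ ▸ hQ))
  exact ⟨a', ⟨hat_proj (fun P hP => out P (hL' hP)) hB hb (by rwa [d_comm]) (Or.inl (hA' ha')),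
    ha'⟩, hd'⟩

theorem rc_inn : ∃ r, ∀ P ∈ S, Γ.RC r (P ∩ Γ.fr P) := by
  obtain ⟨r, hr⟩ := h.kk.rc
  exact ⟨_, fun P hP => (hr P (h.subS hP).1).near (fr_subset_inner P)
    (Set.inter_subset_right.trans (subset_N _ _))⟩

theorem fg : (blk C β).FG := by
  obtain ⟨σ, h1, h2, -⟩ := h.cover
  obtain ⟨r, hr⟩ := h.rc_inn
  obtain ⟨t, ht⟩ := h.kk.per.close ρ
  set Z := β ∩ Γ.N σ C ∪ inn Γ S with hZ
  have hZC : Z ⊆ Γ.N σ C := Set.union_subset Set.inter_subset_right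
    (h.inn_sub.trans (N_mono h1 subset_rfl))
  refine fg_of_near (r := r + (ρ + t + σ + σ)) (Z := Z) (fun A hA p hp q hq hpA => ?_)
    (h.near_blk σ) (h.blk_near.trans (Near.of_subset Set.subset_union_right))
  have k0 : ∀ P ∈ S, ∀ a ∈ P ∩ Γ.fr P, a ∈ A → P ∩ Γ.fr P ⊆ A := fun P hP a ha haA b hb =>
    hr P hP A (fun x hx y hy hd => hA x (Or.inr ⟨P, hP, hx⟩) y (Or.inr ⟨P, hP, hy⟩) (by omega))
      a ha b hb haA
  set A' := hat (A ∩ Z) {P | P ∈ S ∧ P ∩ Γ.fr P ⊆ A} with hA'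
  set B' := hat (Aᶜ ∩ Z) {P | P ∈ S ∧ ¬ P ∩ Γ.fr P ⊆ A} with hB'
  have k1 : ∀ b ∈ Γ.N (ρ + t) A', b ∉ B' := fun b hb hb' => by
    obtain ⟨a, ⟨⟨x, hx, hd⟩, ha⟩, -⟩ := h.hat_close (σ := σ) (fun P hP => hP.1) (fun P hP => hP.1)
      (fun P hP hP' => hP'.2 hP.2) (fun a ⟨P, hP, ha⟩ => ⟨hP.2 ha, Or.inr ⟨P, hP.1, ha⟩⟩)
      (fun a ⟨P, hP, ha⟩ => ⟨fun haA => hP.2 (k0 P hP.1 a ha haA), Or.inr ⟨P, hP.1, ha⟩⟩)
      (Set.inter_subset_right.trans hZC) (Set.inter_subset_right.trans hZC) ⟨hb, hb'⟩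
    exact hx.1 (hA a ha.2 x hx.2 (by rw [d_comm]; omega) ha.1)
  have k2 : ∀ x ∈ β, x ∈ Γ.N (ρ + t) A' → x ∈ A' := fun x hx hn => by
    by_contra hx'
    refine k1 x hn ?_
    by_cases hσ : x ∈ Γ.N σ C
    · exact Or.inl ⟨fun h => hx' (Or.inl ⟨h, Or.inl ⟨hx, hσ⟩⟩), Or.inl ⟨hx, hσ⟩⟩
    · obtain ⟨P, hP, hxP⟩ := h2 x hx hσ
      exact Or.inr ⟨P, ⟨hP, fun h => hx' (Or.inr ⟨P, ⟨hP, h⟩, hxP⟩)⟩, hxP⟩
  have k3 : ∀ x ∈ β, ∀ a ∈ tr x C, a ∈ Γ.N (ρ + t) A' → tr x C ⊆ A' := fun x hx a ha hn b hb =>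
    h.rc.tr x A' (fun u _ v hv hd hu => k2 v (h.coset hx hv) ⟨u, hu, by omega⟩) a ha b hb
      (k2 a (h.coset hx ha) hn)
  have k4 : ∀ x ∈ β, ∀ P ∈ Mk Γ C X Ω ρ x, (tr x C ⊆ A' ↔ P ∩ Γ.fr P ⊆ A) := by
    rintro x hx P hP
    obtain ⟨a, ha, b, hb, hd⟩ := hP.2.2.2
    exact ⟨fun e => by_contra fun e' => k1 b ⟨a, e ha, by rw [d_comm]; omega⟩
      (Or.inr ⟨P, ⟨h.mem hx hP, e'⟩, hb⟩), fun e => k3 x hx a ha
        ⟨b, Or.inr ⟨P, ⟨h.mem hx hP, e⟩, hb⟩, by omega⟩⟩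
  have k5 : ∃ x ∈ β, tr x C ⊆ A' := by
    rcases hp with hp' | ⟨P, hP, hp'⟩
    · exact ⟨p, hp'.1, k3 p hp'.1 p (by simp) (subset_N _ _ (Or.inl ⟨hpA, Or.inl hp'⟩))⟩
    · obtain ⟨x, hx, hP'⟩ := h.eqS.le hP
      exact ⟨x, hx, (k4 x hx P hP').mpr (k0 P hP p hp' hpA)⟩
  obtain ⟨x0, h0, h0'⟩ := k5
  have all : ∀ x ∈ β, tr x C ⊆ A' := fun x hx =>
    h.ind (T := fun x => tr x C ⊆ A') (fun a ha b hb hR hT => by
      rcases hR.2.2 with ⟨P, e1, e2⟩ | e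
      · exact (k4 b hb P e2).mpr ((k4 a ha P e1).mp hT)
      · obtain ⟨u, hu, hu'⟩ := ht (tr a⁻¹ (tr b C)) ⟨a⁻¹ * b, by simp⟩ ((h.rc.tr b).tr a⁻¹)
          fun h' => e (by simpa only [tr_tr_inv] using (h'.tr a).symm)
        refine k3 b hb (a * u) (by simpa using hu) (N_mono (r := t) (by omega) hT ?_)
        rw [← tr_N]
        exact mul_mem_tr.mpr hu') h0 hx h0'
  rcases hq with hq' | ⟨P, hP, hq'⟩
  · by_contra hn
    exact k1 q (subset_N _ _ (all q hq'.1 (by simp))) (Or.inl ⟨hn, Or.inl hq'⟩)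
  · obtain ⟨x, hx, hP'⟩ := h.eqS.le hP
    exact (k4 x hx P hP').mp (all x hx) hq'

theorem inf (hP : P ∈ S) : (P ∩ Γ.fr P).Infinite := fun hf =>
  (h.kk.oes P (h.subS hP).1).1 (Near.finite ⟨1, fr_subset_inner P⟩ hf)

theorem lab_finite {A B : Set G} {L : Set (Set G)} (hL : L ⊆ S) (h1 : inn Γ L ⊆ A ∪ B)
    (h2 : ∀ P ∈ L, Γ.Far B (Γ.fr P)) (h3 : Γ.Far A B) : (inn Γ L \ A).Finite := by
  obtain ⟨r, hr⟩ := h.rc_inn
  have k1 : ∀ P ∈ L, ((P ∩ Γ.fr P) \ A).Finite := fun P hP => (h2 P hP 0).subset fun p hp =>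
    ⟨subset_N _ _ ((h1 ⟨P, hP, hp.1⟩).resolve_left hp.2), hp.1.2⟩
  refine ((h3 r).biUnion (t := fun b => {p | ∃ P ∈ L, b ∈ P ∧ p ∈ (P ∩ Γ.fr P) \ A})
    fun b _ => ?_).subset ?_
  · by_cases e : ∃ P ∈ L, b ∈ P
    · obtain ⟨P, hP, hb⟩ := e
      exact (k1 P hP).subset fun p ⟨Q, hQ, hb', hp⟩ =>
        h.disj (h.subS (hL hQ)).1 (h.subS (hL hP)).1 hb' hb ▸ hp
    · exact Set.finite_empty.subset fun p ⟨Q, hQ, hb', _⟩ => e ⟨Q, hQ, hb'⟩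
  · rintro p ⟨⟨P, hP, hp⟩, hpA⟩
    obtain ⟨a, ha, ha'⟩ := (h.inf (hL hP)).exists_notMem_finite (k1 P hP)
    by_contra hn
    exact hpA (hr P (hL hP) A (fun u _ v hv hd hu => by_contra fun hv' => hn (Set.mem_biUnion
      (x := v) ⟨⟨u, hu, hd⟩, (h1 ⟨P, hP, hv⟩).resolve_left hv'⟩ ⟨P, hP, hv.1, hp, hpA⟩)) a ha p hp
      (by_contra fun e => ha' ⟨ha, e⟩))

theorem not_far (hx : x ∈ β) (hP : P ∈ Mk Γ C X Ω ρ x) : ¬ Γ.Far P (tr x C) := fun hf => by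
  rcases hP.2.2.1 with e | e
  · obtain ⟨r, hr⟩ := bdd_of_finite (Γ := Γ) (hf 0) 1
    refine e ⟨r, fun p hp => ?_⟩
    by_cases hpP : p ∈ P
    · exact ⟨1, h.kk.per.out P hP.1 1 C.one_mem, hr p ⟨subset_N _ _ hpP, hp⟩⟩
    · exact subset_N _ _ hpP
  · exact h.inf (h.mem hx hP) ((hf.near_left (Near.of_subset Set.inter_subset_left)).finite
      ((Near.of_subset Set.inter_subset_right).trans e))

theorem oe' : OE (blk C β) := by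
  obtain ⟨σ, h1, h2, -⟩ := h.cover
  set Z := β ∩ Γ.N σ C ∪ inn Γ S with hZ
  have hZC : Z ⊆ Γ.N σ C := Set.union_subset Set.inter_subset_right
    (h.inn_sub.trans (N_mono h1 subset_rfl))
  refine (oes_iff (Γ := Γ)).mp (OEs.near (Z := inn Γ S) ⟨?_, fun A B hn hf => ?_⟩
    ((Near.of_subset Set.subset_union_right).trans (h.near_blk σ)) h.blk_near)
  · obtain ⟨P, hP⟩ := h.neS
    exact (h.inf hP).mono fun p hp => ⟨P, hP, hp⟩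
  obtain ⟨t, ht⟩ := ((h.near_blk σ).trans h.blk_near).trans hn
  rw [N_union] at ht
  have f1 : Γ.Far (Γ.N t A) (Γ.N t B) := (hf.near_left (near_N t A)).near_right (near_N t B)
  set L := {P | P ∈ S ∧ Γ.Far (Γ.N t B) (Γ.fr P)} with hL
  set L' := {P | P ∈ S ∧ ¬ Γ.Far (Γ.N t B) (Γ.fr P)} with hL'
  have i1 : inn Γ L ⊆ Z := fun p ⟨P, hP, hp⟩ => Or.inr ⟨P, hP.1, hp⟩
  have i2 : inn Γ L' ⊆ Z := fun p ⟨P, hP, hp⟩ => Or.inr ⟨P, hP.1, hp⟩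
  have g1 := h.lab_finite (L := L) (fun P hP => hP.1) (i1.trans ht) (fun P hP => hP.2) f1
  have g2 := h.lab_finite (L := L') (fun P hP => hP.1) (i2.trans (ht.trans (Set.union_comm _ _).le))
    (fun P hP => ((h.kk.oes P (h.subS hP.1).1).2 _ _ (Near.trans ⟨1, fr_subset_inner P⟩
      (Near.of_subset fun p hp => ht (Or.inr ⟨P, hP.1, hp⟩))) f1).resolve_right hP.2) f1.symm
  have f2 : Γ.Far (Γ.N t B ∪ inn Γ L') (Γ.N t A ∪ inn Γ L) := by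
    rw [← Set.union_sdiff_self, ← Set.union_sdiff_self (s := Γ.N t A)]
    exact (f1.union (far_of_finite g1 _)).symm.union (far_of_finite g2 _)
  set A' := hat ((Γ.N t A ∪ inn Γ L) ∩ Z) L with hA'
  set B' := hat ((Γ.N t B ∪ inn Γ L') ∩ Z) L' with hB'
  have f3 : Γ.Far A' B' := fun s => (N_finite (Γ := Γ) ((f2 (s + σ + σ)).subset
    (Set.inter_subset_inter (N_mono le_rfl Set.inter_subset_left) Set.inter_subset_left)) _).subset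
      (h.hat_close (fun P hP => hP.1) (fun P hP => hP.1) (fun P hP hP' => hP'.2 hP.2)
        (fun p hp => ⟨Or.inr hp, i1 hp⟩) (fun p hp => ⟨Or.inr hp, i2 hp⟩)
        (Set.inter_subset_right.trans hZC) (Set.inter_subset_right.trans hZC))
  have k1 : ∀ x ∈ β, tr x C ⊆ A' ∪ B' := fun x hx p hp => by
    have hp' := h.coset hx hp
    by_cases hσ : p ∈ Γ.N σ C
    · exact (ht (Or.inl ⟨hp', hσ⟩)).imp (fun e => Or.inl ⟨Or.inl e, Or.inl ⟨hp', hσ⟩⟩)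
        fun e => Or.inl ⟨Or.inl e, Or.inl ⟨hp', hσ⟩⟩
    · obtain ⟨P, hP, hxP⟩ := h2 p hp' hσ
      by_cases e : Γ.Far (Γ.N t B) (Γ.fr P)
      · exact Or.inl (Or.inr ⟨P, ⟨hP, e⟩, hxP⟩)
      · exact Or.inr (Or.inr ⟨P, ⟨hP, e⟩, hxP⟩)
  have oec := fun x => ((oes_iff (Γ := Γ)).mpr h.oe).tr x
  have k2 : ∀ x ∈ β, ¬ Γ.Far B' (tr x C) → Γ.Far A' (tr x C) := fun x hx e =>
    ((oec x).2 _ _ (Near.of_subset (k1 x hx)) f3).resolve_right e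
  have k3 : ∀ x ∈ β, ∀ P ∈ Mk Γ C X Ω ρ x, (Γ.Far B' (tr x C) ↔ P ∈ L) := fun x hx P hP =>
    ⟨fun e => ⟨h.mem hx hP, by_contra fun e' => h.not_far hx hP (e.near_left (Near.of_subset
      fun p hp => Or.inr ⟨P, ⟨h.mem hx hP, e'⟩, hp⟩))⟩, fun e => by_contra fun e' =>
        h.not_far hx hP ((k2 x hx e').near_left (Near.of_subset fun p hp => Or.inr ⟨P, e, hp⟩))⟩
  have all : ∀ x ∈ β, ∀ y ∈ β, Γ.Far B' (tr x C) → Γ.Far B' (tr y C) := fun x hx y hy =>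
    h.ind (T := fun x => Γ.Far B' (tr x C)) (fun a ha b hb hR hT => by
      rcases hR.2.2 with ⟨P, e1, e2⟩ | e
      · exact (k3 b hb P e2).mpr ((k3 a ha P e1).mp hT)
      · by_contra hn
        refine e ((h.kk.per.tr a).apart_of_far (oec b) (h.rc.tr b)
          (((k2 b hb hn).union (far_of_finite (hT 0) _)).near_left (Near.of_subset
            fun p hp => (k1 a ha hp).imp id fun e => ⟨subset_N _ _ e, hp⟩))).symm) hx hy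
  by_cases e : ∃ x ∈ β, Γ.Far B' (tr x C)
  · obtain ⟨x, hx, e⟩ := e
    refine Or.inr ((f2.near_left (Near.of_subset fun p hp => Or.inl (subset_N _ _ hp))).near_right
      (Near.of_subset fun p ⟨P, hP, hp⟩ => Or.inr ⟨P, ?_, hp⟩))
    obtain ⟨y, hy, hP⟩ := h.eqS.le hP
    exact (k3 y hy P hP).mp (all x hx y hy e)
  · refine Or.inl ((f2.symm.near_left (Near.of_subset fun p hp =>
      Or.inl (subset_N _ _ hp))).near_right (Near.of_subset fun p ⟨P, hP, hp⟩ =>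
        Or.inr ⟨P, ⟨hP, fun e' => ?_⟩, hp⟩))
    obtain ⟨y, hy, hP'⟩ := h.eqS.le hP
    exact e ⟨y, hy, (k3 y hy P hP').mpr ⟨hP, e'⟩⟩

end Blo

end Pool.Agent.Lib.MP_d98eb9_al.W
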