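import Pool.Agent.Lib.MP_d98eb9_al.W.Defs

/-! Classes of groups. -/

namespace Pool.Agent.Lib.MP_d98eb9_al.W

/-- The integral group ring embeds in a division ring. -/
def Agrarian (J : Type) [Group J] : Prop :=
  ∃ (D : Type) (_ : DivisionRing D) (ι : MonoidAlgebra ℤ J →+* D), Function.Injective ι

/-- The analytic zero divisor property: if `ξ` is square summable, `r ∈ ℤ[J]` and the convolution
`ξ * r` vanishes, then `r = 0` or `ξ = 0`. -/
def AZD (J : Type) [Group J] : Prop :=
  ∀ (r : MonoidAlgebra ℤ J) (ξ : J → ℝ), Summable (fun h => ξ h ^ 2) →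
    (∀ h, ∑ g ∈ r.coeff.support, ξ (h * g⁻¹) * (r.coeff g : ℝ) = 0) → r = 0 ∨ ξ = 0

/-- There is a linear order that is invariant under left multiplication. -/
def LeftOrd (J : Type) [Group J] : Prop :=
  ∃ o : LinearOrder J, ∀ a b c : J, o.lt b c → o.lt (a * b) (a * c)

end Pool.Agent.Lib.MP_d98eb9_al.W
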