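import Pool.Agent.Lib.MP_d98eb9_al.W.Sys

/-! Reduction to a finitely generated edge group. -/

namespace Pool.Agent.Lib.MP_d98eb9_al.W

variable {G : Type} [Group G] {C : Subgroup G} {X : Set G}

namespace FG

open Gen

variable {Γ : Gen G} {D : Subgroup G} {u : G → ℤ} {p q : G} {r : ℕ}

open Classical in
/-- The indicator function. -/
noncomputable def ind (A : Set G) (p : G) : ℤ := if p ∈ A then 1 else 0

omit [Group G] in
lemma ind_pos {A : Set G} (h : p ∈ A) : ind A p = 1 := if_pos h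

omit [Group G] in
lemma ind_neg {A : Set G} (h : p ∉ A) : ind A p = 0 := if_neg h

omit [Group G] in
lemma ind_congr {A B : Set G} (h : p ∈ A ↔ q ∈ B) : ind A p = ind B q := by
  classical
  exact if_congr h rfl rfl

/-- A geodesic stays close to both of its ends. -/
lemma geo (h : Γ.d p q ≤ r) : Γ.Conn {y | ¬ (Γ.d p y ≤ r ∧ Γ.d y q ≤ r)} p q := by
  have key : ∀ k x, Γ.d x q ≤ k → Γ.d p x + k ≤ r →
      Γ.Conn {y | ¬ (Γ.d p y ≤ r ∧ Γ.d y q ≤ r)} x q := fun k => by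
    induction k with
    | zero => exact fun x h _ => eq_of_d h ▸ Conn.refl _ _
    | succ k ih =>
      intro x h1 h2
      obtain ⟨y, h3, h4⟩ := d_step h1
      have h5 := d_tri (Γ := Γ) p x y
      refine Conn.trans (Conn.single (fun e => e ⟨?_, ?_⟩) (fun e => e ⟨?_, ?_⟩) h3)
        (ih y h4 ?_) <;> omega
  exact key r p h (by simp)

lemma of_gen {φ : G → G → ℤ} (h0 : ∀ p q, φ p q = -φ q p) (h : Γ.d p q ≤ 1)
    (hp : ∀ i, φ p (p * Γ.s i) = u (p * Γ.s i) - u p)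
    (hq : ∀ i, φ q (q * Γ.s i) = u (q * Γ.s i) - u q) : u q = u p + φ p q := by
  rcases d_le_one.1 h with rfl | ⟨i, rfl | rfl⟩
  · have := h0 q q
    omega
  · rw [hp, add_sub_cancel]
  · rw [h0, hq]
    ring

/-- The cochain supported on the edges from `D` to `X`. -/
noncomputable def ph (D : Subgroup G) (X : Set G) (p q : G) : ℤ :=
  ind D p * ind X q - ind D q * ind X p

lemma ph_zero (hp : p ∉ D) (hq : q ∉ D) : ph D X p q = 0 := by
  rw [ph, ind_neg hp, ind_neg hq, zero_mul, zero_mul, sub_zero]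

lemma ph_eq (h : Sys C X) (hJ : ∀ p q, Γ.d p q ≤ 1 → p ∈ X → q ∉ opp C X) (hd : Γ.d p q ≤ 1)
    (hp : p ∈ D ↔ p ∈ C) (hq : q ∈ D ↔ q ∈ C) : ph D X p q = ind X q - ind X p := by
  have h1 := hJ p q hd
  have h2 := hJ q p (by rwa [d_comm])
  have h3 := h.disj p
  have h4 := h.disj q
  rw [ph, ind_congr (A := D) (B := C) (p := p) hp, ind_congr (A := D) (B := C) (p := q) hq]
  by_cases a : p ∈ C <;> by_cases b : q ∈ C <;> by_cases c : p ∈ X <;> by_cases e : q ∈ X <;>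
    simp_all [ind, opp]

/-- The subgroup generated by the short elements. -/
def sh (Γ : Gen G) (C : Subgroup G) (r : ℕ) : Subgroup G :=
  Subgroup.closure ({q | Γ.d 1 q ≤ r} ∩ C)

lemma sh_le : sh Γ C r ≤ C := (Subgroup.closure_le _).2 Set.inter_subset_right

lemma sh_iff (hp : p ∈ sh Γ C r) (h : Γ.d p q ≤ r) : q ∈ sh Γ C r ↔ q ∈ C :=
  ⟨fun e => sh_le e, fun e => by
    simpa using (sh Γ C r).mul_mem hp (Subgroup.subset_closure (a := p⁻¹ * q)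
      ⟨by rwa [d_eq] at h, C.mul_mem (C.inv_mem (sh_le hp)) e⟩)⟩

lemma sh_ind {P : G → Prop} (h1 : P 1) (hs : ∀ c ∈ sh Γ C r, ∀ g ∈ C, Γ.d 1 g ≤ r → P c → P (c * g))
    {c : G} (hc : c ∈ sh Γ C r) : P c := by
  induction hc using Subgroup.closure_induction_right with
  | one => exact h1
  | mul_right x hx g hg ih => exact hs x hx g hg.2 hg.1 ih
  | mul_inv_cancel x hx g hg ih =>
    exact hs x hx _ (C.inv_mem hg.2) (by rw [d_comm, d_eq, inv_inv, mul_one]; exact hg.1) ih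

lemma sys_of (h : Sys C X) (hJ : ∀ p q, Γ.d p q ≤ 1 → p ∈ X → q ∉ opp C X) (h0 : u 1 = 0)
    (hu : ∀ p q, Γ.d p q ≤ 1 → u q = u p + ph (sh Γ C r) X p q) :
    Sys (sh Γ C r) {p | u p ≠ 0} := by
  have A : ∀ c ∈ sh Γ C r, ∀ y, Γ.d c y ≤ r → u y = u c + ind X y := fun c hc y hy =>
    (geo hy).ind (P := fun y => u y = u c + ind X y)
      (by rw [ind_neg fun e => h.disj c e (sh_le hc), add_zero]) fun a b ha hb hd e => by
        rw [hu a b hd, ph_eq h hJ hd (sh_iff hc (not_not.1 ha).1) (sh_iff hc (not_not.1 hb).1), e]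
        ring
  have B : ∀ c ∈ sh Γ C r, u c = 0 := fun c hc => sh_ind (P := fun c => u c = 0) h0
    (fun c hc g hg hd e => by
      rw [A c hc _ ((d_mul_right c g).trans_le hd), e,
        ind_neg fun e => h.disj _ e (C.mul_mem (sh_le hc) hg), add_zero]) hc
  have E : ∀ a b, a ∉ sh Γ C r → b ∉ sh Γ C r → Γ.d a b ≤ 1 → u b = u a := fun a b ha hb hd => by
    rw [hu a b hd, ph_zero ha hb, add_zero]
  have L : ∀ c ∈ sh Γ C r, ∀ p, u (c * p) = u p := fun c hc p =>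
    (conn_empty (Γ := Γ) 1 p).ind (P := fun p => u (c * p) = u p) (by rw [mul_one, B c hc, h0])
      fun a b _ _ hd e => by
        rw [hu a b hd, hu (c * a) (c * b) (by rwa [d_mul]), e, ph, ph,
          ind_congr (A := sh Γ C r) (B := sh Γ C r) (p := c * a) (q := a)
            ((sh Γ C r).mul_mem_cancel_left hc),
          ind_congr (A := sh Γ C r) (B := sh Γ C r) (p := c * b) (q := b)
            ((sh Γ C r).mul_mem_cancel_left hc),
          ind_congr (h.left_iff (sh_le hc)), ind_congr (h.left_iff (sh_le hc))]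
  have R0 : ∀ g ∈ C, Γ.d 1 g ≤ r → ∀ p, u (p * g) = u p := fun g hg hd p => by
    by_cases h1 : ∃ c ∈ sh Γ C r, Γ.d p c ≤ r ∧ Γ.d c (p * g) ≤ r
    · obtain ⟨c, hc, h2, h3⟩ := h1
      rw [A c hc _ h3, A c hc p (by rwa [d_comm]), ind_congr (h.right_iff hg)]
    · exact (geo ((d_mul_right p g).trans_le hd)).ind (P := fun y => u y = u p) rfl
        fun a b ha hb hd e => (E a b (fun k => h1 ⟨a, k, not_not.1 ha⟩)
          (fun k => h1 ⟨b, k, not_not.1 hb⟩) hd).trans e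
  have R : ∀ c ∈ sh Γ C r, ∀ p, u (p * c) = u p := fun c hc p =>
    sh_ind (P := fun c => u (p * c) = u p) (by rw [mul_one])
      (fun c _ g hg hd e => by rw [← mul_assoc, R0 g hg hd, e]) hc
  have F : ∀ {U : Set G}, 1 ∈ U → Uᶜ.Nonempty → ∃ b ∈ U, ∃ q ∉ U, Γ.d b q ≤ 1 := fun h1 ⟨x, hx⟩ => by
    obtain ⟨b, ⟨q, hd, e⟩, hb, -⟩ := exists_fr (Γ := Γ) h1 hx
    exact ⟨b, hb, q, fun k => e (iff_of_true hb k), hd⟩
  have h1 : (1 : G) ∉ X := fun e => h.disj 1 e C.one_mem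
  have T : ∀ t, Γ.d 1 t ≤ 1 → u t = ind X t := fun t ht => by
    rw [hu 1 t ht, h0, ph, ind_pos (SetLike.mem_coe.2 (sh Γ C r).one_mem), ind_neg h1]
    ring
  refine ⟨fun x hx e => hx (B x e), fun c hc x hx e => hx ((L c hc x).symm.trans e),
    fun c hc x hx e => hx ((R c hc x).symm.trans e), fun x y hx hy hxy => ?_, fun y => ?_, ?_, ?_⟩
  · have h2 : ∀ a, u a = u y → x⁻¹ * a ∉ sh Γ C r := fun a e k => hxy (by
      have := R _ k x
      rw [mul_inv_cancel_left, e] at this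
      simp only [Set.mem_ofPred_eq, this])
    have h3 := (conn_empty (Γ := Γ) y 1).ind (P := fun p => (p ∉ sh Γ C r ∧ u p = u y ∧
      u (x⁻¹ * p) = u (x⁻¹ * y)) ∨ u x⁻¹ = u (x⁻¹ * y)) (Or.inl ⟨hy, rfl, rfl⟩)
      fun a b _ _ hd e => e.elim (fun ⟨k1, k2, k3⟩ => by
        have hd' : Γ.d (x⁻¹ * a) (x⁻¹ * b) ≤ 1 := by rwa [d_mul]
        by_cases hb : b ∈ sh Γ C r
        · refine Or.inr ((R b hb _).symm.trans ((E _ _ (h2 a k2) (fun k => hx ?_) hd').trans k3))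
          exact (sh Γ C r).inv_mem_iff.1 (((sh Γ C r).mul_mem_cancel_right hb).1 k)
        · have k4 := (E a b k1 hb hd).trans k2
          exact Or.inl ⟨hb, k4, (E _ _ (h2 a k2) (h2 b k4) hd').trans k3⟩) Or.inr
    have h4 := h3.resolve_left fun e => e.1 (sh Γ C r).one_mem
    simp only [Set.mem_ofPred_eq, h4]
  · obtain ⟨S, hS, h2⟩ := (conn_empty (Γ := Γ) 1 y).exists_finite
    refine (hS.image QuotientGroup.mk).subset ?_
    rintro _ ⟨x, rfl, -, -, h3⟩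
    by_contra h4
    have h5 : ∀ a, a ∉ ∅ ∪ Sᶜ → x⁻¹ * a ∉ sh Γ C r := fun a ha k =>
      h4 ⟨a, by simpa using ha, (QuotientGroup.eq.2 k).symm⟩
    have h6 := h2.ind (P := fun p => u (x⁻¹ * p) = u x⁻¹) (by rw [mul_one])
      fun a b ha hb hd e => (E _ _ (h5 a ha) (h5 b hb) (by rwa [d_mul])).trans e
    exact h3 (by simp only [Set.mem_ofPred_eq, h6])
  · obtain ⟨b, hb, q, hq, hd⟩ := F (U := Xᶜ) h1 (by simpa using h.ne)
    have h2 : b ∈ C := by_contra fun e => hJ q b (by rwa [d_comm]) (not_not.1 hq) ⟨e, hb⟩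
    refine ⟨b⁻¹ * q, fun e => ?_⟩
    rw [T _ (by rwa [d_eq] at hd), ind_pos (h.left _ (C.inv_mem h2) q (not_not.1 hq))] at e
    exact one_ne_zero e
  · obtain ⟨b, hb, q, hq, hd⟩ := F (U := (opp C X)ᶜ) (fun e => e.1 C.one_mem)
      (by simpa using h.ne')
    have h2 : q ∈ opp C X := not_not.1 hq
    have h3 : b ∈ C := by_contra fun e => hb ⟨e, fun k => hJ b q hd k h2⟩
    refine ⟨b⁻¹ * q, fun e => h2.1 ((C.mul_mem_cancel_left (C.inv_mem h3)).1 (sh_le e)),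
      fun e => e ?_⟩
    rw [T _ (by rwa [d_eq] at hd), ind_neg fun k => h2.2 ((h.left_iff (C.inv_mem h3)).1 k)]

end FG

open FG Gen

theorem Sys.exists_fg (h : Sys C X) (hG : Group.FG G) (hLP : ∀ Γ : Gen G, Γ.LP0) :
    ∃ C' : Subgroup G, C' ≤ C ∧ C'.FG ∧ ∃ X', Sys C' X' := by
  obtain ⟨Γ, hJ, -⟩ := h.exists_gen hG ∅ (by simp)
  obtain ⟨ρ, hρ⟩ := hLP Γ
  obtain ⟨u, hu⟩ := hρ ℤ (fun p i => ph (sh Γ C (2 * ρ + 2)) X p (p * Γ.s i)) fun k => by
    have h1 : ∀ p i, Γ.d k p ≤ ρ → Γ.d k (p * Γ.s i) ≤ ρ + 1 := fun p i hd =>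
      (d_tri k p _).trans (add_le_add hd (d_gen p i))
    by_cases h2 : ∃ c ∈ sh Γ C (2 * ρ + 2), Γ.d k c ≤ ρ + 1
    · obtain ⟨c, hc, h3⟩ := h2
      have h4 : ∀ y, Γ.d k y ≤ ρ + 1 → (y ∈ sh Γ C (2 * ρ + 2) ↔ y ∈ C) := fun y hy =>
        sh_iff hc ((d_tri c k y).trans (by rw [d_comm c k]; omega))
      exact ⟨ind X, fun p i hd => ph_eq h hJ (d_gen p i) (h4 p (by omega)) (h4 _ (h1 p i hd))⟩
    · exact ⟨0, fun p i hd => (ph_zero (fun e => h2 ⟨p, e, by omega⟩)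
        fun e => h2 ⟨_, e, h1 p i hd⟩).trans (sub_self _).symm⟩
  refine ⟨sh Γ C (2 * ρ + 2), sh_le, (Subgroup.fg_iff _).2
    ⟨_, rfl, (ball_finite 1 _).inter_of_left _⟩, _,
    sys_of (u := fun p => u p - u 1) h hJ (sub_self _) fun p q hd => ?_⟩
  rw [of_gen (φ := ph (sh Γ C (2 * ρ + 2)) X) (fun p q => (neg_sub _ _).symm) hd (hu p) (hu q)]
  ring

/-- Two sides that are one-ended meet in a one-ended set. -/
theorem Gen.LP1.sides {Γ : Gen G} (hLP : Γ.LP1) {Y1 Y2 L : Set G}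
    (hY : ∀ p q, Γ.d p q ≤ 1 → (p ∈ Y1 ∧ q ∈ Y1) ∨ (p ∈ Y2 ∧ q ∈ Y2)) (h1 : Γ.OEf Y1)
    (h2 : Γ.OEf Y2) (hL : L ⊆ Y1 ∩ Y2) (hf : Γ.Far L ((Y1 ∩ Y2) \ L)) :
    L.Finite ∨ ((Y1 ∩ Y2) \ L).Finite := by
  classical
  obtain ⟨ρ, hρ⟩ := hLP
  let φ : G → G → ℤ := fun p q => if p ∈ Y2 ∧ q ∈ Y2 then ind L q - ind L p else 0
  obtain ⟨u, hu⟩ := hρ (fun p i => φ p (p * Γ.s i)) ((hf.near_right (near_N (ρ + 1) _)
    (ρ + 1)).subset fun k hk => by
      have h3 : ∀ p i, Γ.d k p ≤ ρ → Γ.d (p * Γ.s i) k ≤ ρ + 1 := fun p i hd =>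
        (d_comm _ _).trans_le ((d_tri k p _).trans (add_le_add hd (d_gen p i)))
      have h4 : ∀ p, Γ.d k p ≤ ρ → Γ.d p k ≤ ρ + 1 := fun p hd => by rw [d_comm]; omega
      refine ⟨by_contra fun e => hk ⟨0, fun p i hd => ?_⟩,
        by_contra fun e => hk ⟨ind Y1, fun p i hd => ?_⟩⟩
      · simp only [φ, ind_neg fun k => e ⟨_, k, h3 p i hd⟩, ind_neg fun k => e ⟨_, k, h4 p hd⟩]
        simp
      · have h5 : ∀ y ∈ Y2, Γ.d y k ≤ ρ + 1 → ind L y = ind Y1 y := fun y hy hd => ind_congr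
          ⟨fun k => (hL k).1, fun k => by_contra fun k' => e ⟨y, ⟨⟨k, hy⟩, k'⟩, hd⟩⟩
        by_cases h6 : p ∈ Y2 ∧ p * Γ.s i ∈ Y2
        · simp only [φ, if_pos h6, h5 _ h6.1 (h4 p hd), h5 _ h6.2 (h3 p i hd)]
        · have h7 := (hY _ _ (d_gen p i)).resolve_right h6
          simp only [φ, if_neg h6, ind_pos h7.1, ind_pos h7.2, sub_self])
  have h3 : ∀ p q, p ∉ Γ.N 1 {p | ∃ i, φ p (p * Γ.s i) ≠ u (p * Γ.s i) - u p} → Γ.d p q ≤ 1 →
      u q = u p + φ p q := fun p q hp hd => of_gen (fun p q => by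
        simp only [φ, and_comm (a := p ∈ Y2)]
        split_ifs <;> ring) hd (fun i => by_contra fun e => hp (subset_N _ _ ⟨i, e⟩))
      fun i => by_contra fun e => hp ⟨q, ⟨i, e⟩, by rwa [d_comm]⟩
  obtain ⟨a, ha⟩ := h1 u (((N_finite (Γ := Γ) hu 1).union (N_finite (Γ := Γ) (hf 1) 1)).subset (by
    rintro p ⟨hp, q, hq, hd, e⟩
    by_contra! k
    rw [Set.mem_union, not_or] at k
    refine e ?_
    rw [h3 p q k.1 hd, left_eq_add]
    refine ite_eq_right_iff.2 fun k' => sub_eq_zero.2 (ind_congr ⟨fun l => ?_, fun l => ?_⟩)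
    · exact by_contra fun l' => k.2 (subset_N _ _ ⟨⟨q, l, by rwa [d_comm]⟩, ⟨hp, k'.1⟩, l'⟩)
    · exact by_contra fun l' => k.2 ⟨q, ⟨⟨p, l, hd⟩, ⟨hq, k'.2⟩, l'⟩, by rwa [d_comm]⟩))
  obtain ⟨b, hb⟩ := h2 (fun p => u p - ind L p) ((N_finite (Γ := Γ) hu 1).subset (by
    rintro p ⟨hp, q, hq, hd, e⟩
    by_contra k
    refine e ?_
    simp only [h3 p q k hd, φ, if_pos (And.intro hp hq)]
    ring))
  by_cases e : a = b
  · refine Or.inl ((ha.union hb).subset fun p hp => ?_)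
    by_cases k : u p = a
    · exact Or.inr ⟨(hL hp).2, by simp only [ind_pos hp]; omega⟩
    · exact Or.inl ⟨(hL hp).1, k⟩
  · refine Or.inr ((ha.union hb).subset fun p hp => ?_)
    by_cases k : u p = a
    · exact Or.inr ⟨hp.1.2, by simp only [ind_neg hp.2]; omega⟩
    · exact Or.inl ⟨hp.1.1, k⟩

end Pool.Agent.Lib.MP_d98eb9_al.W
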