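import Pool.Agent.Lib.MP_d98eb9_al.W.Cay

/-! Half-spaces and peripheral structures. -/

namespace Pool.Agent.Lib.MP_d98eb9_al.W

namespace Gen

variable {G : Type} [Group G] (Γ : Gen G)

/-- The points of `U` at distance more than `r` from the frontier. -/
def core (r : ℕ) (U : Set G) : Set G := U \ Γ.N r (Γ.fr U)

/-- One side of a uniform family of half-spaces. -/
structure Side (F : Set (Set G)) : Prop where
  ne : ∀ U ∈ F, (Γ.fr U).Nonempty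
  app : ∀ r, ∃ r', ∀ U ∈ F, Γ.fr U ⊆ Γ.N r' (Γ.core r U)
  two : ∀ r, ∃ r', ∀ U ∈ F, ∀ p ∈ Γ.core r' U, ∀ q ∈ Γ.core r' U, Γ.Conn (Γ.N r (Γ.fr U)) p q

/-- A half-space. -/
def HS (U : Set G) : Prop := Γ.Side {U} ∧ Γ.Side {Uᶜ}

/-- Coarsely separated by a half-space. -/
def Apart (A B : Set G) : Prop := ∃ U, Γ.HS U ∧ Γ.Near A U ∧ Γ.Near B Uᶜ

/-- Coarsely contained in the frontier of a half-space. -/
def Thin (D : Set G) : Prop := ∃ U, Γ.HS U ∧ Γ.Near D (Γ.fr U)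

/-- The deep complementary components of `D`. -/
structure Per (D : Set G) (Ω : Set (Set G)) : Prop where
  side : Γ.Side Ω
  hs : ∀ W ∈ Ω, Γ.HS W
  rad : ∃ R, (∀ W ∈ Ω, Γ.fr W ⊆ Γ.N R D) ∧ ∀ p, p ∉ Γ.N R D → ∃ W ∈ Ω, p ∈ W
  disj : ∀ W ∈ Ω, ∀ W' ∈ Ω, ∀ p ∈ W, p ∈ W' → W = W'
  out : ∀ W ∈ Ω, ∀ p ∈ D, p ∉ W

variable {Γ} {F F' Ω : Set (Set G)} {A B D U V Z : Set G} {r s : ℕ} {p q : G}

theorem core_mono (h : r ≤ s) : Γ.core s U ⊆ Γ.core r U :=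
  fun _ hp => ⟨hp.1, fun h' => hp.2 (N_mono h subset_rfl h')⟩

theorem tr_core (g : G) (r : ℕ) (U : Set G) : tr g (Γ.core r U) = Γ.core r (tr g U) := by
  rw [core, core, ← tr_fr, ← tr_N]
  rfl

theorem core_not_mem (hp : p ∈ Γ.core (r + s) U) (hD : D ⊆ Γ.N r Uᶜ) : p ∉ Γ.N s D :=
  fun h => hp.2 (mem_N_fr hp.1 (N_N hD h))

theorem core_ball (hp : p ∈ Γ.core r U) (h : Γ.d p q ≤ r) : q ∈ U :=
  by_contra fun hq => hp.2 (mem_N_fr hp.1 ⟨q, hq, by rwa [d_comm]⟩)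

theorem mem_core (hp : p ∈ U) (hD : Γ.fr U ⊆ Γ.N r D) (h : p ∉ Γ.N (r + s) D) : p ∈ Γ.core s U :=
  ⟨hp, fun h' => h (N_N hD h')⟩

theorem Side.mono (h : Γ.Side F) (hF : F' ⊆ F) : Γ.Side F' :=
  ⟨fun U hU => h.ne U (hF hU), fun r => (h.app r).imp fun _ h U hU => h U (hF hU),
    fun r => (h.two r).imp fun _ h U hU => h U (hF hU)⟩

theorem Side.one (h : Γ.Side F) (hU : U ∈ F) : Γ.Side {U} := h.mono (by simpa using hU)

theorem Side.tr (h : Γ.Side F) : Γ.Side {V | ∃ g, ∃ U ∈ F, V = tr g U} := by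
  refine ⟨?_, fun r => ?_, fun r => ?_⟩
  · rintro _ ⟨g, U, hU, rfl⟩
    obtain ⟨p, hp⟩ := h.ne U hU
    exact ⟨g * p, by rw [← tr_fr]; simpa using hp⟩
  · obtain ⟨r', hr⟩ := h.app r
    refine ⟨r', ?_⟩
    rintro _ ⟨g, U, hU, rfl⟩
    rw [← tr_fr, ← tr_core, ← tr_N]
    exact tr_mono g (hr U hU)
  · obtain ⟨r', hr⟩ := h.two r
    refine ⟨r', ?_⟩
    rintro _ ⟨g, U, hU, rfl⟩ p hp q hq
    rw [← tr_core] at hp hq
    have := (hr U hU _ hp _ hq).mul g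
    rwa [tr_N, tr_fr, mul_inv_cancel_left, mul_inv_cancel_left] at this

theorem side_of_finite (hF : F.Finite) (h : ∀ U ∈ F, Γ.Side {U}) : Γ.Side F := by
  induction F, hF using Set.Finite.induction_on with
  | empty => exact ⟨by simp, by simp, by simp⟩
  | @insert U F _ _ ih =>
    have h1 := h U (by simp)
    have h2 := ih fun V hV => h V (by simp [hV])
    refine ⟨fun V hV => (h V hV).ne V rfl, fun r => ?_, fun r => ?_⟩
    · obtain ⟨a, ha⟩ := h1.app r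
      obtain ⟨b, hb⟩ := h2.app r
      refine ⟨a + b, fun V hV => ?_⟩
      rcases hV with rfl | hV
      · exact (ha _ rfl).trans (N_mono (by omega) subset_rfl)
      · exact (hb _ hV).trans (N_mono (by omega) subset_rfl)
    · obtain ⟨a, ha⟩ := h1.two r
      obtain ⟨b, hb⟩ := h2.two r
      refine ⟨a + b, fun V hV p hp q hq => ?_⟩
      rcases hV with rfl | hV
      · exact ha _ rfl p (core_mono (by omega) hp) q (core_mono (by omega) hq)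
      · exact hb _ hV p (core_mono (by omega) hp) q (core_mono (by omega) hq)

theorem Side.core_ne (h : Γ.Side F) (hU : U ∈ F) (r : ℕ) : (Γ.core r U).Nonempty := by
  obtain ⟨p, hp⟩ := h.ne U hU
  obtain ⟨r', hr⟩ := h.app r
  obtain ⟨q, hq, -⟩ := hr U hU hp
  exact ⟨q, hq⟩

theorem Side.near_core (h : Γ.Side F) (hU : U ∈ F) (r : ℕ) : Γ.Near (Γ.fr U) (Γ.core r U) :=
  (h.app r).imp fun _ h => h U hU

theorem Side.near_core' (h : Γ.Side F) (hU : U ∈ F) (r : ℕ) : Γ.Near U (Γ.core r U) :=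
  (Near.of_subset fun p hp => by
    by_cases h : p ∈ Γ.N r (Γ.fr U)
    · exact Or.inr h
    · exact Or.inl ⟨hp, h⟩).trans ((Near.refl _).union ((near_N r _).trans (h.near_core hU r)))

/-- A side is not near the frontier of a side. -/
theorem Side.not_near (h : Γ.Side F) (hU : U ∈ F) (h' : Γ.Side F') (hV : V ∈ F') :
    ¬ Γ.Near U (Γ.fr V) := by
  rintro ⟨r, hr⟩
  obtain ⟨s, hs⟩ := h'.app r
  obtain ⟨p, hp⟩ := h.core_ne hU (r + s)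
  obtain ⟨a, ha, hd⟩ := hr hp.1
  obtain ⟨b, hb, hd'⟩ := hs V hV ha
  have := d_tri (Γ := Γ) b a p
  exact hb.2 (hr (core_ball hp (by rw [d_comm]; omega)))

/-- The core of a side avoids the sets that are near the complement. -/
theorem Side.conn (h : Γ.Side F) (r : ℕ) : ∃ s, r ≤ s ∧ ∀ U ∈ F, ∀ Z, Z ⊆ Γ.N r Uᶜ →
    ∀ p ∈ Γ.core s U, ∀ q ∈ Γ.core s U, Γ.Conn Z p q := by
  obtain ⟨s, hs⟩ := h.two r
  exact ⟨r + s, by omega, fun U hU Z hZ p hp q hq =>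
    (hs U hU p (core_mono (by omega) hp) q (core_mono (by omega) hq)).inside
      (fun x hx => subset_N _ _ hx.2) hp.1 fun x hx => mem_N_fr hx.2 (hZ hx.1)⟩

theorem Side.dich (h : Γ.Side F) (hU : U ∈ F) (hV : Γ.Near (Γ.fr V) Uᶜ) :
    ∃ s, Γ.core s U ⊆ V ∨ Γ.core s U ⊆ Vᶜ := by
  obtain ⟨r, hr⟩ := hV
  obtain ⟨s, -, hs⟩ := h.conn r
  by_cases h1 : ∃ p ∈ Γ.core s U, p ∈ V
  · obtain ⟨p, hp, hpV⟩ := h1
    exact ⟨s, Or.inl fun q hq => (hs U hU _ hr p hp q hq).mem Set.inter_subset_right hpV⟩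
  · exact ⟨s, Or.inr fun q hq hqV => h1 ⟨q, hq, hqV⟩⟩

theorem HS.compl (h : Γ.HS U) : Γ.HS Uᶜ := ⟨h.2, by rw [compl_compl]; exact h.1⟩

theorem HS.tr (h : Γ.HS U) (g : G) : Γ.HS (tr g U) :=
  ⟨h.1.tr.one ⟨g, U, rfl, rfl⟩, h.2.tr.one ⟨g, Uᶜ, rfl, rfl⟩⟩

/-- Parallel half-spaces. -/
theorem HS.par (h : Γ.HS U) (h' : Γ.HS V) (hn : Γ.Near (Γ.fr U) (Γ.fr V)) :
    ∃ s, (Γ.core s V ⊆ U ∧ Γ.core s Vᶜ ⊆ Uᶜ) ∨ (Γ.core s V ⊆ Uᶜ ∧ Γ.core s Vᶜ ⊆ U) := by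
  obtain ⟨a, ha⟩ := h'.1.dich rfl (hn.trans ⟨1, fr_subset' V⟩)
  obtain ⟨b, hb⟩ := h'.2.dich (V := U) rfl (hn.trans ⟨1, by simpa using fr_subset V⟩)
  have key : ∀ T, Γ.Side {T} → Γ.core a V ⊆ Tᶜ → ¬ Γ.core b Vᶜ ⊆ Tᶜ := fun T hT h1 h2 =>
    hT.not_near rfl h'.1 rfl ⟨a + b, fun p hp => by
      by_contra hp'
      by_cases hV : p ∈ V
      · exact h1 ⟨hV, fun h => hp' (N_mono (by omega) subset_rfl h)⟩ hp
      · exact h2 ⟨hV, fun h => hp' (N_mono (by omega) (fr_compl V).subset h)⟩ hp⟩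
  have e1 : Γ.core (a + b) V ⊆ Γ.core a V := core_mono (by omega)
  have e2 : Γ.core (a + b) Vᶜ ⊆ Γ.core b Vᶜ := core_mono (by omega)
  rcases ha with ha | ha <;> rcases hb with hb | hb
  · exact absurd (by simpa using hb) (key _ h.2 (by simpa using ha))
  · exact ⟨a + b, Or.inl ⟨e1.trans ha, e2.trans hb⟩⟩
  · exact ⟨a + b, Or.inr ⟨e1.trans ha, e2.trans hb⟩⟩
  · exact absurd hb (key _ h.1 ha)

theorem HS.near_symm (h : Γ.HS U) (h' : Γ.HS V) (hn : Γ.Near (Γ.fr U) (Γ.fr V)) :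
    Γ.Near (Γ.fr V) (Γ.fr U) := by
  obtain ⟨s, hs⟩ := h.par h' hn
  have e1 := h'.1.near_core rfl s
  have e2 := fr_compl (Γ := Γ) V ▸ h'.2.near_core rfl s
  rcases hs with hs | hs
  · exact (e1.trans (Near.of_subset hs.1)).fr (e2.trans (Near.of_subset hs.2))
  · exact (e2.trans (Near.of_subset hs.2)).fr (e1.trans (Near.of_subset hs.1))

theorem Apart.symm (h : Γ.Apart A B) : Γ.Apart B A := by
  obtain ⟨U, h1, h2, h3⟩ := h
  exact ⟨Uᶜ, h1.compl, h3, by rwa [compl_compl]⟩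

theorem Apart.near {A' B' : Set G} (h : Γ.Apart A B) (hA : Γ.Near A' A) (hB : Γ.Near B' B) :
    Γ.Apart A' B' := by
  obtain ⟨U, h1, h2, h3⟩ := h
  exact ⟨U, h1, hA.trans h2, hB.trans h3⟩

theorem Apart.tr (h : Γ.Apart A B) (g : G) : Γ.Apart (tr g A) (tr g B) := by
  obtain ⟨U, h1, h2, h3⟩ := h
  exact ⟨_, h1.tr g, h2.tr g, h3.tr g⟩

theorem Apart.thin (h : Γ.Apart A B) (hA : A ⊆ B) : Γ.Thin A := by
  obtain ⟨U, h1, h2, h3⟩ := h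
  exact ⟨U, h1, h2.fr ((Near.of_subset hA).trans h3)⟩

theorem Thin.tr (h : Γ.Thin A) (g : G) : Γ.Thin (tr g A) := by
  obtain ⟨U, h1, h2⟩ := h
  exact ⟨_, h1.tr g, tr_fr (Γ := Γ) g U ▸ h2.tr g⟩

theorem Per.tr (h : Γ.Per D Ω) (g : G) : Γ.Per (tr g D) (tr g '' Ω) := by
  refine ⟨h.side.tr.mono ?_, ?_, ?_, ?_, ?_⟩
  · rintro _ ⟨U, hU, rfl⟩
    exact ⟨g, U, hU, rfl⟩
  · rintro _ ⟨U, hU, rfl⟩
    exact (h.hs U hU).tr g
  · obtain ⟨R, h1, h2⟩ := h.rad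
    refine ⟨R, ?_, fun p hp => ?_⟩
    · rintro _ ⟨U, hU, rfl⟩
      rw [← tr_fr, ← tr_N]
      exact tr_mono g (h1 U hU)
    · rw [← tr_N] at hp
      obtain ⟨U, hU, hpU⟩ := h2 _ hp
      exact ⟨_, ⟨U, hU, rfl⟩, hpU⟩
  · rintro _ ⟨U, hU, rfl⟩ _ ⟨V, hV, rfl⟩ p hp hp'
    rw [h.disj U hU V hV _ hp hp']
  · rintro _ ⟨U, hU, rfl⟩ p hp
    exact h.out U hU _ hp

/-- The core of a side that misses `D` lies in one complementary component. -/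
theorem Per.place (h : Γ.Per D Ω) (hF : Γ.Side F) (r : ℕ) :
    ∃ s, ∀ P ∈ F, D ⊆ Γ.N r Pᶜ → ∃ Q ∈ Ω, Γ.core s P ⊆ Q := by
  obtain ⟨R, h1, h2⟩ := h.rad
  obtain ⟨s, hrs, hs⟩ := hF.conn (r + R)
  refine ⟨s, fun P hP hD => ?_⟩
  obtain ⟨p, hp⟩ := hF.core_ne hP s
  obtain ⟨Q, hQ, hpQ⟩ := h2 p (core_not_mem (core_mono hrs hp) hD)
  exact ⟨Q, hQ, fun q hq => (hs P hP _ (N_N hD) p hp q hq).mem (fun x hx => h1 Q hQ hx.2) hpQ⟩

theorem Per.near (h : Γ.Per D Ω) (hA : Γ.Apart A D) : ∃ Q ∈ Ω, Γ.Near A Q := by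
  obtain ⟨U, h1, h2, r, hr⟩ := hA
  obtain ⟨s, hs⟩ := h.place h1.1 r
  obtain ⟨Q, hQ, hs⟩ := hs U rfl hr
  exact ⟨Q, hQ, h2.trans ((h1.1.near_core' rfl s).trans (Near.of_subset hs))⟩

theorem Per.apart (h : Γ.Per D Ω) {Q : Set G} (hQ : Q ∈ Ω) (hA : Γ.Near A Q) : Γ.Apart A D :=
  ⟨Q, h.hs Q hQ, hA, Near.of_subset (h.out Q hQ)⟩

theorem Per.sub (h : Γ.Per D Ω) {Q Q' : Set G} (hQ : Q ∈ Ω) (hQ' : Q' ∈ Ω) (hne : Q ≠ Q') :
    Q' ⊆ Qᶜ := fun p hp hp' => hne (h.disj Q hQ Q' hQ' p hp' hp)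

/-- The frontier of a half-space is near only one component. -/
theorem Per.uniq (h : Γ.Per D Ω) (hD : ¬ Γ.Thin D) {Q Q' : Set G} (hQ : Q ∈ Ω) (hQ' : Q' ∈ Ω)
    (hU : Γ.HS U) (h1 : Γ.Near (Γ.fr U) Q) (h2 : Γ.Near (Γ.fr U) Q') : Q = Q' := by
  by_contra hne
  have e1 := h1.fr (h2.trans (Near.of_subset (h.sub hQ hQ' hne)))
  have e2 := h2.fr (h1.trans (Near.of_subset (h.sub hQ' hQ (Ne.symm hne))))
  obtain ⟨s, hs | hs⟩ := (h.hs Q hQ).par (h.hs Q' hQ') ((hU.near_symm (h.hs Q hQ) e1).trans e2)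
  · obtain ⟨p, hp⟩ := h.side.core_ne hQ' s
    exact h.sub hQ hQ' hne hp.1 (hs.1 hp)
  · refine hD ⟨Q', h.hs Q' hQ', s, fun p hp => by_contra fun hp' => ?_⟩
    exact h.out Q hQ p hp (hs.2 ⟨h.out Q' hQ' p hp, by rwa [fr_compl]⟩)

/-- A labelling of a one-ended set that rarely changes is almost constant. -/
theorem OEs.ae_const {T : Type} (h : Γ.OEs Z) (hc : Γ.RC r Z) (f : G → T)
    (hf : ∀ s, {p | p ∈ Z ∧ ∃ q ∈ Z, Γ.d p q ≤ s ∧ f p ≠ f q}.Finite) :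
    ∃ a, {p | p ∈ Z ∧ f p ≠ a}.Finite := by
  by_cases h1 : ∃ a, {p | p ∈ Z ∧ f p = a}.Infinite
  · obtain ⟨a, ha⟩ := h1
    rcases h.2 {p | p ∈ Z ∧ f p = a} {p | p ∈ Z ∧ f p ≠ a}
      (Near.of_subset fun p hp => by by_cases h : f p = a <;> simp [hp, h])
      (fun s => (hf s).subset fun p ⟨⟨q, hq, hd⟩, hp⟩ =>
        ⟨hp.1, q, hq.1, by rwa [d_comm], by rw [hq.2]; exact hp.2⟩) with h2 | h2
    · exact absurd (h2.finite (Near.of_subset fun p hp => hp.1)) ha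
    · exact ⟨a, h2.finite (Near.of_subset fun p hp => hp.1)⟩
  · simp only [not_exists, Set.not_infinite] at h1
    refine absurd (((hf r).biUnion fun x _ => h1 (f x)).subset fun p hp => ?_) h.1
    by_contra hp'
    refine h.1 ((h1 (f p)).subset fun q hq => ⟨hq, ?_⟩)
    refine hc {x | f x = f p} (fun a ha b hb hd hab => by_contra fun hb' => hp' ?_) p hp q hq rfl
    exact Set.mem_biUnion (x := a) ⟨ha, b, hb, hd, fun e => hb' (e.symm.trans hab)⟩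
      ⟨hp, (show f a = f p from hab).symm⟩

theorem OEs.tr (h : Γ.OEs Z) (g : G) : Γ.OEs (tr g Z) := by
  have hf : ∀ (g : G) {A B : Set G}, Γ.Far A B → Γ.Far (W.tr g A) (W.tr g B) :=
    fun g A B h r => by
      rw [← tr_N]
      exact tr_finite g (h r)
  refine ⟨fun h' => h.1 (by simpa [tr_inv_tr] using tr_finite g⁻¹ h'), fun A B hn hAB => ?_⟩
  have h1 := hn.tr g⁻¹
  rw [tr_inv_tr] at h1
  refine (h.2 (W.tr g⁻¹ A) (W.tr g⁻¹ B) h1 (hf _ hAB)).imp (fun h => ?_) fun h => ?_ <;>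
    simpa [tr_tr_inv] using hf g h

/-- A one-ended set that is far from `D` is separated from it. -/
theorem Per.apart_of_far (h : Γ.Per D Ω) (hZ : Γ.OEs Z) (hc : Γ.RC r Z) (hf : Γ.Far D Z) :
    Γ.Apart Z D := by
  obtain ⟨R, h1, h2⟩ := h.rad
  obtain ⟨a, ha⟩ := hZ.ae_const hc (fun p => {W | W ∈ Ω ∧ p ∈ W}) fun s =>
    (hf (R + s)).subset fun p ⟨hp, q, _, hd, hne⟩ => ⟨by_contra fun hp' => hne (Set.ext fun W =>
      and_congr_right fun hW => by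
        have key : p ∉ Γ.N s (Γ.fr W) := fun h => hp' (N_N (h1 W hW) h)
        exact ⟨fun h => core_ball ⟨h, key⟩ hd, fun h => by_contra fun h' =>
          core_ball (U := Wᶜ) ⟨h', by rwa [fr_compl]⟩ hd h⟩), hp⟩
  obtain ⟨p, hp, hp'⟩ := hZ.1.exists_notMem_finite (ha.union (hf R))
  obtain ⟨Q, hQ, hpQ⟩ := h2 p fun h => hp' (Or.inr ⟨h, hp⟩)
  have e : a = {W | W ∈ Ω ∧ p ∈ W} := by_contra fun h => hp' (Or.inl ⟨hp, Ne.symm h⟩)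
  obtain ⟨s, hs⟩ := bdd_of_finite (Γ := Γ) ha p
  refine h.apart hQ ⟨s, fun q hq => ?_⟩
  by_cases h : {W | W ∈ Ω ∧ q ∈ W} = a
  · exact subset_N _ _ ((Set.ext_iff.mp (h.trans e) Q).mpr ⟨hQ, hpQ⟩).2
  · exact ⟨p, hpQ, hs q ⟨hq, h⟩⟩

/-- A connected set that is not separated from `D` comes close to it. -/
theorem Per.close (h : Γ.Per D Ω) (r : ℕ) :
    ∃ s, ∀ Z, Z.Nonempty → Γ.RC r Z → ¬ Γ.Apart Z D → ∃ p ∈ Z, p ∈ Γ.N s D := by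
  obtain ⟨R, h1, h2⟩ := h.rad
  refine ⟨R + r, fun Z ⟨p, hp⟩ hc hn => by_contra fun hZ => hn ?_⟩
  obtain ⟨Q, hQ, hpQ⟩ := h2 p fun h => hZ ⟨p, hp, N_mono (by omega) subset_rfl h⟩
  exact h.apart hQ (Near.of_subset fun q hq => hc Q (fun a ha b _ hd haQ =>
    core_ball (mem_core haQ (h1 Q hQ) fun h => hZ ⟨a, ha, h⟩) hd) p hp q hq hpQ)

end Gen

end Pool.Agent.Lib.MP_d98eb9_al.W
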