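import Pool.Agent.Lib.MP_d98eb9_al.W.Comp
import Pool.Agent.Lib.MP_d98eb9_al.W.FG
import Pool.Agent.Lib.MP_d98eb9_al.W.Acyc

/-! The peripheral structure of a one-ended edge group. -/

namespace Pool.Agent.Lib.MP_d98eb9_al.W

open Gen

variable {G : Type} [Group G] {Γ : Gen G} {C : Subgroup G} {X W : Set G} {R : ℕ}

/-- Every finitely generated edge group inside `C` is of type `FP_2`. -/
def Coh (C : Subgroup G) : Prop := ∀ J : Subgroup G, J ≤ C → J.FG → ∀ X, Sys J X → IsFP2 J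

/-- The peripheral structure of an edge group. -/
structure KK (Γ : Gen G) (C : Subgroup G) (X : Set G) (Ω : Set (Set G)) : Prop where
  per : Γ.Per C Ω
  inv : ∀ c ∈ C, ∀ W ∈ Ω, tr c W ∈ Ω
  side : ∀ W ∈ Ω, W ⊆ X ∨ W ⊆ opp C X
  rc : ∃ r, ∀ W ∈ Ω, Γ.RC r (Γ.fr W)
  oes : ∀ W ∈ Ω, Γ.OEs (Γ.fr W)

/-- A deep component of the complement of a large neighbourhood of `C`. -/
structure Deep (Γ : Gen G) (C : Subgroup G) (X : Set G) (R : ℕ) (W : Set G) : Prop where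
  sys : Sys C X
  st : ∀ r, ∃ r', ∀ p q, p ∉ Γ.N r' C → q ∉ Γ.N r' C → Γ.Conn (Γ.N R C) p q → Γ.Conn (Γ.N r C) p q
  rc : Γ.RC R C
  frX : Γ.fr X ⊆ Γ.N R C
  comp : Γ.Comp (Γ.N R C) W
  deep : ¬ Γ.Near W C

namespace Deep

theorem out (h : Deep Γ C X R W) {p : G} (hp : p ∈ C) : p ∉ W :=
  fun h' => h.comp.out h' (subset_N _ _ hp)

theorem side (h : Deep Γ C X R W) : W ⊆ X ∨ W ⊆ opp C X := by
  by_cases h1 : ∃ p ∈ W, p ∈ X
  · obtain ⟨p, hp, hpX⟩ := h1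
    exact Or.inl fun q hq => Conn.mem ((h.comp.eq hp).le hq) (fun x hx => h.frX hx.2) hpX
  · exact Or.inr fun q hq => ⟨fun hc => h.out hc hq, fun hX => h1 ⟨q, hq, hX⟩⟩

theorem deep' (h : Deep Γ C X R W) : ¬ Γ.Near Wᶜ C := fun hn => by
  rcases h.side with h1 | h1
  · exact h.sys.swap.not_near Γ ((Near.of_subset fun x hx hW => hx.2 (h1 hW)).trans hn)
  · exact h.sys.not_near Γ ((Near.of_subset fun x hx hW => (h1 hW).2 hx).trans hn)

theorem fr_sub (h : Deep Γ C X R W) : Γ.fr W ⊆ Γ.N (R + 1) C :=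
  h.comp.fr_subset.trans (N_N subset_rfl)

theorem mul (h : Deep Γ C X R W) {c : G} (hc : c ∈ C) : Deep Γ C X R (tr c W) := by
  refine ⟨h.sys, h.st, h.rc, h.frX, ?_, fun hn => h.deep ?_⟩
  · have := h.comp.tr c
    rwa [tr_N, tr_subgroup hc] at this
  · have := hn.tr c⁻¹
    rwa [tr_inv_tr, tr_subgroup (C.inv_mem hc)] at this

theorem near_blk (h : Deep Γ C X R W) : Γ.Near (Γ.fr W) (blk C W) :=
  Near.trans ⟨1, fr_subset_inner W⟩ (near_of_stab (J := C) ⟨_, fun _ hp => h.fr_sub hp.2⟩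
    fun _ hc _ ha hca => ⟨hc, (h.mul hc).comp.disj h.comp (by simpa using ha.1) hca.1⟩)

theorem conn' (h : Deep Γ C X R W) {p q : G} (hp : p ∉ W) (hq : q ∉ W) : Γ.Conn W p q :=
  h.comp.conn' ⟨1, subset_N _ _ C.one_mem⟩ (fun _ hp _ hq => conn_N h.rc le_rfl hp hq) hp hq

theorem fr_ne (h : Deep Γ C X R W) : (Γ.fr W).Nonempty := by
  obtain ⟨p, hp⟩ := h.comp.ne
  obtain ⟨b, hb, -⟩ := exists_fr (Γ := Γ) hp (h.out C.one_mem)
  exact ⟨b, hb⟩

theorem blk_near (h : Deep Γ C X R W) : Γ.Near (blk C W) (Γ.fr W) :=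
  near_of_inv (fun c hc a ha => by
    rw [← hc.2, ← tr_fr]
    simpa using ha) h.fr_ne

theorem app (h : Deep Γ C X R W) {U : Set G} (hU : U = W ∨ U = Wᶜ) (r : ℕ) :
    Γ.Near (Γ.fr U) (Γ.core r U) := by
  have e : Γ.fr U = Γ.fr W := by rcases hU with rfl | rfl <;> simp [fr_compl]
  have e2 : ¬ Γ.Near U C := by
    rcases hU with rfl | rfl
    exacts [h.deep, h.deep']
  rw [e]
  refine h.near_blk.trans (near_of_inv (fun c hc a ha => ?_) ?_)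
  · have : tr c U = U := by
      rcases hU with rfl | rfl
      exacts [hc.2, by rw [tr_compl, hc.2]]
    rw [← this, ← tr_core]
    simpa using ha
  · by_contra hn
    exact e2 ⟨R + 1 + r, fun p hp => by_contra fun hp' => hn ⟨p, mem_core hp (e ▸ h.fr_sub) hp'⟩⟩

theorem st' (h : Deep Γ C X R W) (r : ℕ) : ∃ r', ∀ p ∈ W, ∀ q ∈ W, p ∉ Γ.N r' C → q ∉ Γ.N r' C →
    Γ.Conn (Γ.N r C) p q :=
  (h.st r).imp fun _ hr p hp q hq h1 h2 => hr p q h1 h2 ((h.comp.eq hp).le hq)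

theorem hs (h : Deep Γ C X R W) (Y : Geo Γ) (hfg : C.FG) (hcoh : Coh C) (hoe : OE C) :
    Γ.HS W := by
  obtain ⟨r0, hr0⟩ := Y.lp0.rc_fr
  have hS : (blk C W).FG := fg_of_near (hr0 W (fun _ hp _ hq => h.comp.conn hp hq)
    fun _ hp _ hq => h.conn' hp hq) h.near_blk h.blk_near
  refine ⟨⟨by simpa using h.fr_ne, fun r => by simpa [Near] using h.app (Or.inl rfl) r, fun r => ?_⟩,
    by simpa [fr_compl] using h.fr_ne, fun r => by simpa [Near] using h.app (Or.inr rfl) r,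
    fun r => ?_⟩
  · obtain ⟨s, hs⟩ := h.st' (R + 1 + r)
    have key : ∀ p ∈ Γ.core s W, p ∉ Γ.N s C := fun p hp => core_not_mem (r := 0)
      (by simpa using hp) fun x hx => subset_N _ _ (h.out hx)
    refine ⟨s, fun U hU p hp q hq => ?_⟩
    obtain rfl : U = W := hU
    exact (hs p hp.1 q hq.1 (key p hp) (key q hq)).mono (N_N h.fr_sub)
  · obtain ⟨a, ha⟩ := h.near_blk
    obtain ⟨b, hb⟩ := h.blk_near
    obtain ⟨s, hs⟩ := Y.other_side hfg (hcoh C le_rfl hfg X h.sys) hoe hS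
      (fun hn => h.deep ((Near.of_subset (Set.subset_univ _)).trans
        (hn.trans (Near.of_subset (blk_le C W))))) (fun c hc => hc) ⟨_, h.fr_sub⟩ h.deep h.st'
      (a + r)
    refine ⟨b + s, fun U hU p hp q hq => ?_⟩
    obtain rfl : U = Wᶜ := hU
    rw [Gen.core, fr_compl] at hp hq
    rw [fr_compl]
    exact (hs p q (fun h => hp.2 (N_N hb h)) (fun h => hq.2 (N_N hb h))
      (h.conn' hp.1 hq.1)).mono (N_N ha)

theorem infin (h : Deep Γ C X R W) : Set.Infinite W ∧ Set.Infinite (Wᶜ) := by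
  have key : ∀ U : Set G, ¬ Γ.Near U C → U.Infinite := fun U hU hf => by
    obtain ⟨r, hr⟩ := bdd_of_finite (Γ := Γ) hf 1
    exact hU ⟨r, fun p hp => ⟨1, C.one_mem, hr p hp⟩⟩
  exact ⟨key _ h.deep, key _ h.deep'⟩

theorem oef (h : Deep Γ C X R W) : Γ.OEf W := by
  intro u hu
  obtain ⟨r, hr⟩ := bdd_of_finite (Γ := Γ) hu 1
  obtain ⟨s, hs⟩ := h.st' (R + r)
  obtain ⟨p0, hp0⟩ : (W \ Γ.N s C).Nonempty := by
    by_contra hn
    exact h.deep ⟨s, fun p hp => by_contra fun hp' => hn ⟨p, hp, hp'⟩⟩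
  have k1 : ∀ q ∈ W \ Γ.N s C, u q = u p0 := fun q hq =>
    (Conn.ind (P := fun x => x ∈ W ∧ u x = u p0) (hs p0 hp0.1 q hq.1 hp0.2 hq.2) ⟨hp0.1, rfl⟩
      fun a b ha hb hd e => by
        have hb' : b ∈ W := by_contra fun h' =>
          hb (N_mono (by omega) subset_rfl (h.comp.adj e.1 h' hd))
        exact ⟨hb', by_contra fun hn => ha ⟨1, C.one_mem,
          (hr a ⟨e.1, b, hb', hd, fun e' => hn (e'.symm.trans e.2)⟩).trans (by omega)⟩⟩).2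
  obtain ⟨t, ht⟩ : Γ.Near (W ∩ Γ.N s C) (W \ Γ.N s C) :=
    Near.trans ⟨s, fun p hp => mem_N_fr hp.1 (N_mono le_rfl (fun x hx => h.out hx) hp.2)⟩
      ((h.app (Or.inl rfl) s).trans (Near.of_subset fun p hp => ⟨hp.1, core_not_mem (r := 0)
        (by simpa using hp) fun x hx => subset_N _ _ (h.out hx)⟩))
  obtain ⟨l, hl⟩ := bdd_conn (Γ := Γ) (J := C) (Z := Γ.N R C)
    (fun c hc => by rw [tr_N, tr_subgroup hc]) s t
  refine ⟨u p0, (N_finite (Γ := Γ) hu l).subset fun p hp => by_contra fun hp' => hp.2 ?_⟩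
  by_cases hps : p ∈ Γ.N s C
  · obtain ⟨q, hq, hd⟩ := ht ⟨hp.1, hps⟩
    have := (hl p hps q (by rwa [d_comm]) ((h.comp.eq hp.1).le hq.1))
    rw [← k1 q hq]
    exact (Conn.ind (P := fun x => x ∈ W ∧ u p = u x) this ⟨hp.1, rfl⟩ fun a b ha hb hd e => by
      have hb' : b ∈ W := by_contra fun h' => hb (Or.inl (h.comp.adj e.1 h' hd))
      exact ⟨hb', by_contra fun hn => hp' ⟨a, ⟨e.1, b, hb', hd, fun e' => hn (e.2.trans e')⟩,
        by rw [d_comm]; exact not_lt.mp fun h => ha (Or.inr h)⟩⟩).2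
  · exact k1 p ⟨hp.1, hps⟩

theorem oef' (h : Deep Γ C X R W) (h1 : OE (⊤ : Subgroup G)) (hoe : OE C) :
    Γ.OEf (Wᶜ ∪ W ∩ Γ.fr W) := by
  intro u hu
  have hZ : Γ.N R C ⊆ Wᶜ := fun p hp hW => h.comp.out hW hp
  obtain ⟨a, ha⟩ := ((oes_iff.mpr hoe).near (Near.of_subset (subset_N R _)) (near_N R _)).ae_const
    (h.rc.near (s := R) ((subset_N R _).trans (subset_N R _)) subset_rfl) u fun s => by
      obtain ⟨l, hl⟩ := bdd_conn (Γ := Γ) (J := C) (Z := (Γ.N R C)ᶜ)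
        (fun c hc => by rw [tr_compl, tr_N, tr_subgroup hc]) R s
      refine (N_finite (Γ := Γ) hu l).subset fun p ⟨hp, q, hq, hd, hne⟩ => by_contra fun hp' =>
        hne ((hl p hp q hd (conn_N h.rc le_rfl hp hq)).const u
          (fun x hx => Or.inl (hZ (not_not.mp fun h => hx (Or.inl h)))) fun x hx hE =>
            hp' ⟨x, hE, by rw [d_comm]; exact not_lt.mp fun h => hx (Or.inr h)⟩).symm
  refine ⟨a, (OE.finite_of_fr (Γ := Γ) h1 ((hu.union (N_finite (Γ := Γ) ha 1)).subset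
    fun p hp => ?a)).resolve_right fun hf =>
      hoe.1 ((Set.Finite.union hf ha).subset fun c hc => ?b)⟩
  case a =>
    obtain ⟨hp, q, hd, hn⟩ := hp
    by_cases hq : q ∈ Wᶜ ∪ W ∩ Γ.fr W
    · exact Or.inl ⟨hp.1, q, hq, hd, fun e => hn ⟨fun _ => ⟨hq, e ▸ hp.2⟩, fun _ => hp⟩⟩
    have hqW : q ∈ W := by_contra fun h => hq (Or.inl h)
    have hpW : p ∈ W := by_contra fun h => hq (Or.inr ⟨hqW, mem_fr hqW h (by rwa [d_comm])⟩)
    obtain ⟨z, hd', hn'⟩ := (hp.1.resolve_left fun h => h hpW).2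
    have hz := h.comp.adj hpW (by tauto) hd'
    by_cases e : u z = a
    · exact Or.inl ⟨hp.1, z, Or.inl (hZ hz), hd', fun e' => hp.2 (e'.trans e)⟩
    · exact Or.inr ⟨z, ⟨hz, e⟩, by rwa [d_comm]⟩
  case b =>
    by_cases e : u c = a
    · exact Or.inl fun h => h.2 e
    · exact Or.inr ⟨subset_N _ _ hc, e⟩

theorem oes (h : Deep Γ C X R W) (Y : Geo Γ) (hoe : OE C) : Γ.OEs (Γ.fr W) := by
  refine OEs.near (Z := W ∩ Γ.fr W) ⟨fun hf => ?_, fun A B ⟨t, ht⟩ hf => ?_⟩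
    (Near.of_subset Set.inter_subset_right) ⟨1, fr_subset_inner W⟩
  · exact (OE.finite_of_fr Y.oe hf).elim h.infin.1 h.infin.2
  have e : W ∩ (Wᶜ ∪ W ∩ Γ.fr W) = W ∩ Γ.fr W := by
    ext p
    simp only [Set.mem_inter_iff, Set.mem_union, Set.mem_compl_iff]
    tauto
  rw [N_union] at ht
  have hAB : Γ.Far (Γ.N t A) (Γ.N t B) := (hf.near_left (near_N t A)).near_right (near_N t B)
  have hB : (W ∩ Γ.fr W) \ (W ∩ Γ.fr W ∩ Γ.N t A) ⊆ Γ.N t B := fun p hp =>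
    (ht hp.1).resolve_left fun h => hp.2 ⟨hp.1, h⟩
  have := Y.lp1.sides (L := W ∩ Γ.fr W ∩ Γ.N t A) (fun p q hd => by
      by_cases hp : p ∈ W <;> by_cases hq : q ∈ W
      · exact Or.inl ⟨hp, hq⟩
      · exact Or.inr ⟨Or.inr ⟨hp, mem_fr hp hq hd⟩, Or.inl hq⟩
      · exact Or.inr ⟨Or.inl hp, Or.inr ⟨hq, mem_fr hq hp (by rwa [d_comm])⟩⟩
      · exact Or.inr ⟨Or.inl hp, Or.inl hq⟩) h.oef (h.oef' Y.oe hoe)
    (by rw [e]; exact Set.inter_subset_left) (by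
      rw [e]
      exact (hAB.near_left (Near.of_subset Set.inter_subset_right)).near_right (Near.of_subset hB))
  rw [e] at this
  refine this.imp (fun h1 s => ?_) fun h1 s => ?_
  · refine (h1.union (hf.near_right (near_N t B) s)).subset fun p hp => ?_
    exact (ht hp.2).imp (fun h => ⟨hp.2, h⟩) fun h => ⟨hp.1, h⟩
  · refine (h1.union (hf.symm.near_right (near_N t A) s)).subset fun p hp => ?_
    by_cases h : p ∈ Γ.N t A
    · exact Or.inr ⟨hp.1, h⟩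
    · exact Or.inl ⟨hp.2, fun h' => h h'.2⟩

end Deep

theorem exists_kk (Y : Geo Γ) (h : Sys C X) (hfg : C.FG) (hcoh : Coh C) (hoe : OE C) :
    ∃ Ω, KK Γ C X Ω := by
  obtain ⟨R0, h0⟩ := Y.stable hfg (hcoh C le_rfl hfg X h) fun hn =>
    h.not_near Γ ((Near.of_subset (Set.subset_univ _)).trans hn)
  obtain ⟨R1, h1⟩ := (fg_iff_rc (Γ := Γ)).mp hfg
  obtain ⟨R2, h2⟩ := h.fr_near Γ
  obtain ⟨R, e0, e1, e2⟩ : ∃ R, R0 ≤ R ∧ R1 ≤ R ∧ R2 ≤ R := ⟨R0 + R1 + R2, by omega⟩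
  have mk : ∀ W, Γ.Comp (Γ.N R C) W → ¬ Γ.Near W C → Deep Γ C X R W := fun W a b =>
    ⟨h, fun r => (h0 r).imp fun _ hr p q hp hq hc => hr p q hp hq (hc.mono (N_mono e0 subset_rfl)),
      h1.mono e1, h2.trans (N_mono e2 subset_rfl), a, b⟩
  obtain ⟨F, hF, hF1, hF2⟩ := comp_finite (Γ := Γ) R C
  obtain ⟨r0, hr0⟩ := Y.lp0.rc_fr
  refine ⟨{W | Deep Γ C X R W}, ⟨?_, fun W hW => hW.hs Y hfg hcoh hoe, ?_,
    fun W hW U hU p hp hp' => hW.comp.disj hU.comp hp hp', fun W hW p hp => Deep.out hW hp⟩,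
    fun c hc W hW => Deep.mul hW hc, fun W hW => hW.side, ⟨r0, fun W hW => hr0 W
      (fun _ hp _ hq => hW.comp.conn hp hq) fun _ hp _ hq => hW.conn' hp hq⟩,
    fun W hW => hW.oes Y hoe⟩
  · refine (side_of_finite (hF.inter_of_left {W | Deep Γ C X R W})
      fun U hU => (hU.2.hs Y hfg hcoh hoe).1).tr.mono fun W hW => ?_
    obtain ⟨c, hc, U, hU, rfl⟩ := hF2 W hW.comp
    exact ⟨c, U, ⟨hU, by simpa [tr_inv_tr] using Deep.mul hW (C.inv_mem hc)⟩, rfl⟩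
  · have : ∀ U : Set G, ∃ s, Γ.Near U C → U ⊆ Γ.N s C := fun U => by
      by_cases h : Γ.Near U C
      · exact h.imp fun _ h _ => h
      · exact ⟨0, fun h' => absurd h' h⟩
    choose s hs using this
    obtain ⟨S, hS⟩ := (hF.image s).bddAbove
    refine ⟨R + 1 + S, fun W hW => hW.fr_sub.trans (N_mono (by omega) subset_rfl),
      fun p hp => ?_⟩
    have hc : Γ.Comp (Γ.N R C) _ := ⟨p, fun h => hp (N_mono (by omega) subset_rfl h), rfl⟩
    refine ⟨_, mk _ hc fun hn => hp ?_, Conn.refl _ _⟩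
    obtain ⟨c, hcC, U, hU, e⟩ := hF2 _ hc
    have h3 := hn.tr c⁻¹
    rw [e, tr_inv_tr, tr_subgroup (C.inv_mem hcC)] at h3
    have h4 := hS ⟨U, hU, rfl⟩
    have h5 : c⁻¹ * p ∈ U := e.le (Conn.refl _ _)
    exact (mul_mem_N (C.inv_mem hcC)).mp (N_mono (by omega) subset_rfl (hs U h3 h5))

end Pool.Agent.Lib.MP_d98eb9_al.W
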