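import Pool.Agent.Lib.MP_d98eb9_al.W.Rk
import Pool.Agent.Lib.MP_d98eb9_al.W.L2

/-! Square-summable functions as a module over the group ring. -/

namespace Pool.Agent.Lib.MP_d98eb9_al.W

variable {H : Type} [Group H]

namespace Linnell

open L2 MonoidAlgebra

/-- The group ring acting on square-summable functions. -/
noncomputable def T : ZG H →+ (E H →L[ℝ] E H) := lsum fun g => re (Equiv.mulLeft g)

lemma T_single (g : H) : T (single g 1) = re (Equiv.mulLeft g) := by
  simp [T]

lemma T_mul (r s : ZG H) (x : E H) : T s (T r x) = T (r * s) x := by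
  induction r using ind1 with
  | h0 => simp
  | hadd a b ha hb => simp only [map_add, add_mul, add_apply, ha, hb]
  | hneg a ha => simp only [map_neg, neg_mul, _root_.neg_apply, ha]
  | hs g =>
    induction s using ind1 with
    | h0 => simp
    | hadd a b ha hb => simp only [map_add, mul_add, add_apply, ha, hb]
    | hneg a ha => simp only [map_neg, mul_neg, _root_.neg_apply, ha]
    | hs k =>
      rw [single_mul_single, mul_one, T_single, T_single, T_single]
      ext c
      simp [re_apply]

lemma T_apply (r : ZG H) (x : E H) (h : H) :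
    T r x h = ∑ g ∈ r.coeff.support, (r.coeff g : ℝ) * x (g * h) := by
  have h1 : T r = ∑ g ∈ r.coeff.support, (r.coeff g) • re (Equiv.mulLeft g) := by
    simp [T, lsum, Finsupp.sum]
  have h2 : T r x = ∑ g ∈ r.coeff.support, (r.coeff g : ℝ) • re (Equiv.mulLeft g) x := by
    rw [h1, sum_apply]
    refine Finset.sum_congr rfl fun g _ => ?_
    rw [_root_.smul_apply, Int.cast_smul_eq_zsmul]
  rw [h2]
  change lp.evalₗ (𝕜 := ℝ) (fun _ : H => ℝ) 2 h _ = _
  simp only [map_sum, map_smul]
  rfl

/-- The action as a biadditive map. -/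
noncomputable def act : E H →+ ZG H →+ E H :=
  AddMonoidHom.mk' (fun x => AddMonoidHom.mk' (fun r => T r x) fun r s => by simp)
    fun x y => AddMonoidHom.ext fun r => by simp

lemma act_apply (x : E H) (r : ZG H) : act x r = T r x := rfl

/-- Right translation. -/
noncomputable def U (h : H) : E H →L[ℝ] E H := re (Equiv.mulRight h)

lemma U_apply (h : H) (x : E H) (c : H) : U h x c = x (c * h) := rfl

lemma U_U (h k : H) (x : E H) : U h (U k x) = U (h * k) x := by
  ext c
  simp [U_apply, mul_assoc]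

lemma U_one (x : E H) : U 1 x = x := by
  ext c
  simp [U_apply]

lemma inner_U (h : H) (x y : E H) : inner ℝ (U h x) (U h y) = inner ℝ x y := inner_re _ x y

lemma inner_U_left (h : H) (x y : E H) : inner ℝ (U h x) y = inner ℝ x (U h⁻¹ y) := by
  rw [← inner_U h x, U_U, mul_inv_cancel, U_one]

open Classical in
/-- The standard unit vectors. -/
noncomputable def dl (c : H) : E H := lp.single 2 c (1 : ℝ)

omit [Group H] in
lemma inner_dl (c : H) (x : E H) : inner ℝ (dl c) x = x c := by
  classical
  simp [dl, lp.inner_single_left]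

omit [Group H] in
lemma norm_dl (c : H) : ‖dl c‖ = 1 := by
  classical
  rw [dl, lp.norm_single (by norm_num)]
  simp

lemma key (η x : E H) (hη : ‖η‖ = 1) (h1 : ∀ p, p ≠ 1 → inner ℝ η (U p η) = 0)
    (h2 : ∀ h, inner ℝ (U h η) x = 0) : x = 0 := by
  have hn : inner ℝ η η = (1 : ℝ) := by rw [real_inner_self_eq_norm_sq, hη]; norm_num
  have ho : Orthonormal ℝ fun h : H => U h η := by
    refine ⟨fun h => ?_, fun h k hne => ?_⟩
    · have h3 := inner_U h η η
      rw [hn, real_inner_self_eq_norm_sq] at h3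
      exact (pow_eq_one_iff_of_nonneg (norm_nonneg _) two_ne_zero).1 h3
    · change inner ℝ (U h η) (U k η) = 0
      rw [inner_U_left, U_U]
      exact h1 _ fun h0 => hne (inv_mul_eq_one.1 h0)
  ext y
  have h3 : ∀ s : ℝ, 0 ≤ -(2 * (s * x y)) + s ^ 2 * ‖x‖ ^ 2 := by
    intro s
    have h4 := ho.tsum_inner_products_le (dl y - s • x)
    have h5 : ∀ h, ‖inner ℝ (U h η) (dl y - s • x)‖ ^ 2 = η (y * h) * η (y * h) := by
      intro h
      rw [inner_sub_right, real_inner_smul_right, h2, mul_zero, sub_zero, real_inner_comm,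
        inner_dl, U_apply, Real.norm_eq_abs, sq_abs, sq]
    have h6 : ∑' h, η (y * h) * η (y * h) = 1 := by
      rw [← hn, inner_E]
      exact (Equiv.mulLeft y).tsum_eq fun c => η c * η c
    simp only [h5] at h4
    rw [h6, norm_sub_sq_real, norm_dl, real_inner_smul_right, inner_dl, norm_smul, mul_pow,
      Real.norm_eq_abs, sq_abs] at h4
    linarith
  have hb : 0 < ‖x‖ ^ 2 + 1 := by positivity
  have h4 := h3 (x y / (‖x‖ ^ 2 + 1))
  have h5 : -(2 * (x y / (‖x‖ ^ 2 + 1) * x y)) + (x y / (‖x‖ ^ 2 + 1)) ^ 2 * ‖x‖ ^ 2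
      = -(x y ^ 2 * (‖x‖ ^ 2 + 2)) / (‖x‖ ^ 2 + 1) ^ 2 := by
    field_simp
    ring
  rw [h5, le_div_iff₀ (by positivity), zero_mul] at h4
  have h6 : x y ^ 2 ≤ 0 := by nlinarith [sq_nonneg (x y), sq_nonneg ‖x‖]
  have h7 : x y = 0 := pow_eq_zero_iff two_ne_zero |>.1 (le_antisymm h6 (sq_nonneg _))
  simpa using h7

lemma wander (P : Set H) (hP : ∀ p q, p ∈ P → q ∈ P → p * q ∈ P)
    (hP2 : ∀ g, g ≠ 1 → g ∈ P ∨ g⁻¹ ∈ P) (w x : E H) (g0 : H) (hw : w g0 ≠ 0)
    (hw0 : ∀ p ∈ P, w (g0 * p) = 0) (hx : ∀ h, inner ℝ (U h w) x = 0) : x = 0 := by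
  set M : Submodule ℝ (E H) := (Submodule.span ℝ ((fun p => U p w) '' P)).topologicalClosure
    with hM
  have hle : ∀ K : Submodule ℝ (E H), IsClosed (K : Set (E H)) → (∀ p ∈ P, U p w ∈ K) →
      M ≤ K := by
    intro K hK h
    refine Submodule.topologicalClosure_minimal _ (Submodule.span_le.2 ?_) hK
    rintro _ ⟨p, hp, rfl⟩
    exact h p hp
  have hwM : ∀ p ∈ P, U p w ∈ M := fun p hp =>
    Submodule.le_topologicalClosure _ (Submodule.subset_span ⟨p, hp, rfl⟩)
  have hMc : IsClosed (M : Set (E H)) := Submodule.isClosed_topologicalClosure _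
  have hM0 : ∀ m ∈ M, m g0 = 0 := by
    intro m hm
    have := hle (innerSL ℝ (dl g0)).ker (ContinuousLinearMap.isClosed_ker _)
      (fun p hp => by simpa [inner_dl, U_apply] using hw0 p hp) hm
    simpa [inner_dl] using this
  have hMU : ∀ p ∈ P, ∀ m ∈ M, U p m ∈ M := by
    intro p hp m hm
    exact hle (M.comap (U p : E H →ₗ[ℝ] E H)) (hMc.preimage (U p).continuous)
      (fun q hq => by
        change U p (U q w) ∈ M
        rw [U_U]
        exact hwM _ (hP p q hp hq)) hm
  have hMx : ∀ h, ∀ m ∈ M, inner ℝ (U h m) x = 0 := by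
    intro h m hm
    have := hle ((innerSL ℝ x) ∘L U h).ker (ContinuousLinearMap.isClosed_ker _)
      (fun p hp => by
        change inner ℝ x (U h (U p w)) = 0
        rw [U_U, real_inner_comm, hx]) hm
    rw [real_inner_comm]
    exact this
  have : CompleteSpace M := hMc.completeSpace_coe
  set m : E H := M.starProjection w with hm
  have hmM : m ∈ M := M.starProjection_apply_mem w
  have hη : w - m ∈ Mᗮ := M.sub_starProjection_mem_orthogonal w
  have hη0 : w - m ≠ 0 := by
    intro h0
    rw [sub_eq_zero] at h0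
    exact hw (by rw [h0]; exact hM0 m hmM)
  have hn : ‖w - m‖ ≠ 0 := norm_ne_zero_iff.2 hη0
  have hP1 : ∀ p ∈ P, inner ℝ (U p (w - m)) (w - m) = 0 := by
    intro p hp
    refine (M.mem_orthogonal _).1 hη _ ?_
    rw [map_sub]
    exact M.sub_mem (hwM p hp) (hMU p hp m hmM)
  refine key (‖w - m‖⁻¹ • (w - m)) x ?_ (fun p hp => ?_) fun h => ?_
  · rw [norm_smul, norm_inv, norm_norm, inv_mul_cancel₀ hn]
  · have h1 : inner ℝ (w - m) (U p (w - m)) = 0 := by
      rcases hP2 p hp with h | h
      · rw [real_inner_comm]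
        exact hP1 p h
      · have := hP1 _ h
        rwa [inner_U_left, inv_inv] at this
    rw [map_smul, real_inner_smul_left, real_inner_smul_right, h1, mul_zero, mul_zero]
  · rw [map_smul, real_inner_smul_left, map_sub, inner_sub_left, hx, hMx h m hmM, sub_zero,
      mul_zero]

/-- A square-summable function composed with inversion. -/
noncomputable def flipE (ξ : H → ℝ) (hξ : Summable fun h => ξ h ^ 2) : E H :=
  ⟨fun h => ξ h⁻¹, (mem_iff _).2 (((Equiv.inv H).summable_iff (f := fun c => ξ c ^ 2)).2 hξ)⟩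

lemma flipE_apply (ξ : H → ℝ) (hξ : Summable fun h => ξ h ^ 2) (h : H) :
    flipE ξ hξ h = ξ h⁻¹ := rfl

/-- The coefficients of a group ring element as a square-summable function. -/
noncomputable def vec (r : ZG H) : E H :=
  ⟨fun h => (r.coeff h : ℝ), (mem_iff _).2 (summable_of_ne_finset_zero (s := r.coeff.support)
    fun c hc => by simp [Finsupp.notMem_support_iff.1 hc])⟩

lemma vec_apply (r : ZG H) (h : H) : vec r h = (r.coeff h : ℝ) := rfl

end Linnell

open Linnell L2

theorem AZD.rk (h : AZD H) : Nonempty (Rk H) := by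
  refine ⟨{ A := E H, act := act, mul := fun a r s => T_mul r s a, one := fun a => ?_
            inj := fun a r h0 => ?_, rank := fun m M => ?_ }⟩
  · rw [act_apply, MonoidAlgebra.one_def, T_single]
    ext c
    simp [re_apply]
  · have h1 := h r (fun c => a c⁻¹)
      (((Equiv.inv H).summable_iff (f := fun c => a c ^ 2)).2 ((mem_iff _).1 a.2)) fun c => ?_
    · rcases h1 with h1 | h1
      · exact Or.inr h1
      · left
        ext c
        simpa using congrFun h1 c⁻¹
    · have h2 := T_apply r a c⁻¹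
      rw [← act_apply, h0] at h2
      have h3 : (0 : E H) c⁻¹ = 0 := rfl
      rw [h3] at h2
      rw [h2]
      refine Finset.sum_congr rfl fun g _ => ?_
      simp [mul_comm]
  · by_contra hc
    push Not at hc
    have h1 := card_le (ι := Fin (m + 1)) (κ := Fin m)
      (op (fun j i => (M i j).coeff.support) fun j i c => ((M i j).coeff c : ℝ))
      (op_tau _ _) fun x hx => ?_
    · simp at h1
    by_contra hx0
    obtain ⟨k, hk⟩ := hc (fun i => x i) fun h0 => hx0 (by
      ext i c
      simpa using congrFun (congrArg (fun z : E H => (z : H → ℝ)) (congrFun h0 i)) c)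
    apply hk
    ext c
    have h2 := op_apply (fun j i => (M i j).coeff.support)
      (fun j i c => ((M i j).coeff c : ℝ)) x k c
    rw [hx] at h2
    have h3 : (0 : F (Fin m) H) k c = 0 := rfl
    rw [h3] at h2
    change lp.evalₗ (𝕜 := ℝ) (fun _ : H => ℝ) 2 c _ = 0
    rw [map_sum, h2]
    exact Finset.sum_congr rfl fun i _ => T_apply (M i k) (x i) c

theorem Agrarian.rk (h : Agrarian H) : Nonempty (Rk H) := by
  obtain ⟨D, _, ι, hι⟩ := h
  refine ⟨{ A := D, act := (AddMonoidHom.mul (R := D)).compl₂ ι.toAddMonoidHom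
            mul := fun a r s => by simp [mul_assoc], one := fun a => by simp
            inj := fun a r h0 => ?_, rank := fun m M => ?_ }⟩
  · have h1 : a * ι r = 0 := by simpa using h0
    rcases mul_eq_zero.1 h1 with h2 | h2
    · exact Or.inl h2
    · exact Or.inr (hι (by rw [h2, map_zero]))
  · let L : (Fin (m + 1) → D) →ₗ[D] (Fin m → D) :=
      LinearMap.pi fun k => ∑ i, (LinearMap.toSpanSingleton D D (ι (M i k))) ∘ₗ LinearMap.proj i
    obtain ⟨a, ha, ha0⟩ := Submodule.exists_mem_ne_zero_of_ne_bot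
      (LinearMap.ker_ne_bot_of_finrank_lt (f := L) (by simp))
    refine ⟨a, ha0, fun k => ?_⟩
    simpa [L] using congrFun (LinearMap.mem_ker.mp ha) k

theorem LeftOrd.azd (h : LeftOrd H) : AZD H := by
  obtain ⟨o, ho⟩ := h
  intro r ξ hξ h0
  by_cases hr : r = 0
  · exact Or.inl hr
  right
  have hne : r.coeff.support.Nonempty := by
    rw [Finsupp.support_nonempty_iff]
    intro h1
    exact hr (MonoidAlgebra.coeff_injective (by rw [h1]; rfl))
  have ho' : ∀ a b c : H, b < c → a * b < a * c := ho
  have h1 := wander {p : H | 1 < p} (fun p q hp hq => ?_) (fun g hg => ?_) (vec r) (flipE ξ hξ)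
    (r.coeff.support.max' hne) ?_ (fun p hp => ?_) fun h => ?_
  · ext c
    simpa [flipE_apply] using congrFun (congrArg (fun z : E H => (z : H → ℝ)) h1) c⁻¹
  · have := ho' p 1 q hq
    rw [mul_one] at this
    exact lt_trans hp this
  · rcases lt_or_gt_of_ne hg with h1 | h1
    · right
      have := ho' g⁻¹ g 1 h1
      rwa [inv_mul_cancel, mul_one] at this
    · exact Or.inl h1
  · rw [vec_apply]
    exact Int.cast_ne_zero.2 (Finsupp.mem_support_iff.1 (r.coeff.support.max'_mem hne))
  · rw [vec_apply]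
    have h2 := ho' (r.coeff.support.max' hne) 1 p hp
    rw [mul_one] at h2
    have h3 : r.coeff.support.max' hne * p ∉ r.coeff.support := fun h4 =>
      absurd (r.coeff.support.le_max' _ h4) (not_le.2 h2)
    exact Int.cast_eq_zero.2 (Finsupp.notMem_support_iff.1 h3)
  · rw [inner_U_left, inner_E, tsum_eq_sum (s := r.coeff.support), ← h0 h]
    · refine Finset.sum_congr rfl fun g _ => ?_
      simp [vec_apply, U_apply, flipE_apply, mul_comm]
    · intro c hc
      simp [vec_apply, Finsupp.notMem_support_iff.1 hc]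

end Pool.Agent.Lib.MP_d98eb9_al.W
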