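import Pool.Agent.Lib.MP_d98eb9_al.W.Geo

/-! Local properties of the Cayley complex. -/

namespace Pool.Agent.Lib.MP_d98eb9_al.W

open MonoidAlgebra

variable {G : Type} [Group G] {Γ : Gen G}

namespace Loc

theorem fr_ind {n : ℕ} {p : Fr G n → Prop} (h0 : p 0) (hadd : ∀ a b, p a → p b → p (a + b))
    (hneg : ∀ a, p a → p (-a)) (hs : ∀ g i, p (e g i)) (x : Fr G n) : p x := by
  induction x using Finsupp.induction_linear with
  | zero => exact h0
  | add a b ha hb => exact hadd a b ha hb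
  | single i r =>
    induction r using ind1 with
    | h0 => rw [Finsupp.single_zero]; exact h0
    | hadd a b ha hb => rw [Finsupp.single_add]; exact hadd _ _ ha hb
    | hneg a ha => rw [Finsupp.single_neg]; exact hneg _ ha
    | hs g => exact hs g i

theorem e_eq {n : ℕ} (g : G) (i : Fin n) : e g i = (single g 1 : ZG G) • e 1 i := by
  rw [smul_e, mul_one]

theorem co_single {P : Type} [AddCommGroup P] [Module (ZG G) P] (q : P →ₗ[ZG G] ZG G) (g : G)
    (x : P) : co q ((single g 1 : ZG G) • x) = (q x).coeff g⁻¹ := by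
  rw [co_apply, map_smul, smul_eq_mul, coeff_single_mul_apply, one_mul, mul_one]

theorem co_fin {P : Type} [AddCommGroup P] [Module (ZG G) P] (q : P →ₗ[ZG G] ZG G) (x : P) :
    {g : G | co q ((single g 1 : ZG G) • x) ≠ 0}.Finite :=
  ((q x).coeff.support.finite_toSet.preimage (f := fun g : G => g⁻¹)
    inv_injective.injOn).subset fun g hg => by
      rw [Set.mem_ofPred_eq, co_single] at hg
      exact Finset.mem_coe.mpr (Finsupp.mem_support_iff.mpr hg)

theorem exists_coeff {f : G → ℤ} (h : {g | f g ≠ 0}.Finite) :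
    ∃ r : ZG G, ∀ g, r.coeff g⁻¹ = f g :=
  ⟨ofCoeff (Finsupp.ofSupportFinite (fun g => f g⁻¹)
    (h.preimage (f := fun g : G => g⁻¹) inv_injective.injOn)), fun g => by
      simp [Finsupp.ofSupportFinite_coe]⟩

theorem aug_smul (g : G) (x : ZG G) :
    (aug G).toAddMonoidHom ((single g 1 : ZG G) • x) = (aug G).toAddMonoidHom x := by simp

theorem aug_surj : Function.Surjective (aug G).toAddMonoidHom := fun k => ⟨single 1 k, by simp⟩

theorem lsum_bd_e {A : Type} [AddCommGroup A] {n : ℕ} (s : Fin n → G) (u : G → A) (g : G)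
    (i : Fin n) : lsum u (bd s (e g i)) = u (g * s i) - u g := by
  rw [bd_e, map_sub, lsum_single, lsum_single, one_smul, one_smul]

theorem aug_eq [Fintype G] (r : ZG G) : aug G r = ∑ g, r.coeff g := by
  have h := lsum_const (1 : ℤ) r
  rw [lsum_eq] at h
  simp only [smul_eq_mul, mul_one] at h
  rw [← h]
  exact Finset.sum_subset (Finset.subset_univ _) fun g _ hg => Finsupp.notMem_support_iff.mp hg

end Loc

open Loc

/-- A chain only involves the basis elements in a ball. -/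
theorem loc (Γ : Gen G) {n : ℕ} (x : Fr G n) : ∃ ρ, ∀ (A : Type) [AddCommGroup A] (φ : Fr G n →+ A)
    (g : G), (∀ h i, Γ.d g h ≤ ρ → φ (e h i) = 0) → φ ((single g 1 : ZG G) • x) = 0 := by
  induction x using fr_ind with
  | h0 => exact ⟨0, fun A _ φ g _ => by simp⟩
  | hadd a b ha hb =>
    obtain ⟨r, hr⟩ := ha
    obtain ⟨s, hs⟩ := hb
    refine ⟨r + s, fun A _ φ g h => ?_⟩
    rw [smul_add, map_add, hr A φ g fun k i hk => h k i (by omega),
      hs A φ g fun k i hk => h k i (by omega), add_zero]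
  | hneg a ha =>
    obtain ⟨r, hr⟩ := ha
    exact ⟨r, fun A _ φ g h => by rw [smul_neg, map_neg, hr A φ g h, neg_zero]⟩
  | hs k i =>
    refine ⟨Γ.d 1 k, fun A _ φ g h => ?_⟩
    rw [smul_e]
    exact h _ i (Gen.d_mul_right g k).le

/-- The same for the boundaries of the cells. -/
theorem loc_map (Γ : Gen G) {m n : ℕ} (d : Fr G m →ₗ[ZG G] Fr G n) : ∃ ρ, ∀ (A : Type)
    [AddCommGroup A] (φ : Fr G n →+ A) (g : G) (k : Fin m),
      (∀ h i, Γ.d g h ≤ ρ → φ (e h i) = 0) → φ (d (e g k)) = 0 := by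
  choose ρ hρ using fun k => loc Γ (d (e 1 k))
  refine ⟨Finset.univ.sup ρ, fun A _ φ g k h => ?_⟩
  rw [e_eq, map_smul]
  exact hρ k A φ g fun p i hp => h p i (hp.trans (Finset.le_sup (Finset.mem_univ k)))

theorem co_finite {n : ℕ} (q : Fr G n →ₗ[ZG G] ZG G) : {g | ∃ i, co q (e g i) ≠ 0}.Finite :=
  (Set.finite_iUnion fun i => co_fin q (e 1 i)).subset fun g ⟨i, hi⟩ =>
    Set.mem_iUnion.mpr ⟨i, by rwa [e_eq] at hi⟩

theorem co_finite0 (q : ZG G →ₗ[ZG G] ZG G) : {g | co q (single g 1) ≠ 0}.Finite := by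
  simpa using co_fin q 1

theorem co_ext {P : Type} [AddCommGroup P] [Module (ZG G) P] {q q' : P →ₗ[ZG G] ZG G}
    (h : ∀ x, co q x = co q' x) : q = q' := by
  ext x g
  have := h ((single g⁻¹ 1 : ZG G) • x)
  rwa [co_single, co_single, inv_inv] at this

theorem exists_co {n : ℕ} (φ : Fr G n →+ ℤ) (h : {g | ∃ i, φ (e g i) ≠ 0}.Finite) :
    ∃ q : Fr G n →ₗ[ZG G] ZG G, co q = φ := by
  choose r hr using fun i => exists_coeff (f := fun g => φ (e g i))
    (h.subset fun g hg => ⟨i, hg⟩)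
  refine ⟨Finsupp.linearCombination (ZG G) r, AddMonoidHom.ext (fr_ext fun g i => ?_)⟩
  rw [e_eq, co_single, smul_e, mul_one, ← hr, e, Finsupp.linearCombination_single, ← one_def,
    one_smul]

theorem exists_co0 (φ : ZG G →+ ℤ) (h : {g | φ (single g 1) ≠ 0}.Finite) :
    ∃ q : ZG G →ₗ[ZG G] ZG G, co q = φ := by
  obtain ⟨r, hr⟩ := exists_coeff h
  refine ⟨LinearMap.toSpanSingleton (ZG G) _ r, AddMonoidHom.ext (hom_ext fun g => ?_)⟩
  rw [co_apply, LinearMap.toSpanSingleton_apply, smul_eq_mul, coeff_single_mul_apply, one_mul,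
    mul_one, hr]

theorem co_smul {P : Type} [AddCommGroup P] [Module (ZG G) P] {w : G →* ℤ} {J : Subgroup G}
    (c : J) (q : Du w J P) (x : P) :
    co ((single c 1 : ZG J) • q).ev ((single (c : G) 1 : ZG G) • x) = w c * co q.ev x := by
  rw [co_single, Du.ev_single_smul, coeff_mul_single_apply, inv_inv, inv_mul_cancel, co_apply,
    mul_comm]

/-- A cochain that kills the cycles has a potential. -/
theorem exists_pot {H : Type} [Group H] {n : ℕ} (s : Fin n → H)
    (hs : Subgroup.closure (Set.range s) = ⊤) {A : Type} [AddCommGroup A] (φ : Fr H n →+ A)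
    (h : ∀ x, bd s x = 0 → φ x = 0) : ∃ u : H → A, ∀ x, φ x = lsum u (bd s x) := by
  have ex := exact_bd s hs
  choose y hy using fun g : H => (ex (single g 1 - 1)).mp (by simp)
  have h1 : ∀ r : ZG H, bd s (lsum y r) = r - aug H r • (1 : ZG H) := fun r => by
    induction r using ind1 with
    | h0 => simp
    | hadd a b ha hb => rw [map_add, map_add, ha, hb, map_add, add_smul, add_sub_add_comm]
    | hneg a ha => rw [map_neg, map_neg, ha, map_neg, neg_smul, neg_sub']
    | hs g => simp [hy]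
  refine ⟨fun g => φ (y g), fun x => ?_⟩
  have h2 := h (x - lsum y (bd s x)) (by
    rw [map_sub, h1, ex.apply_apply_eq_zero, zero_smul, sub_zero, sub_self])
  rw [map_sub, sub_eq_zero] at h2
  rw [h2]
  exact hom_ext (f := φ.comp (lsum y)) (fun g => by simp) _

/-- A path gives a chain. -/
theorem exists_chain {Z : Set G} {p q : G} (h : Γ.Conn Z p q) : ∃ x : Fr G Γ.n,
    bd Γ.s x = single q 1 - single p 1 ∧ ∀ (A : Type) [AddCommGroup A] (φ : Fr G Γ.n →+ A),
      (∀ g i, g ∉ Z → φ (e g i) = 0) → φ x = 0 := by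
  induction h with
  | refl => exact ⟨0, by simp, fun A _ φ _ => map_zero φ⟩
  | @tail a b _ h2 ih =>
    obtain ⟨x, hx, hφ⟩ := ih
    rcases Gen.d_le_one.mp h2.2.2 with h | ⟨i, h | h⟩
    · exact ⟨x, by rw [hx, h], hφ⟩
    · refine ⟨x + e a i, ?_, fun A _ φ h0 => ?_⟩
      · rw [map_add, hx, bd_e, h]
        abel
      · rw [map_add, hφ A φ h0, h0 a i h2.1, add_zero]
    · refine ⟨x - e b i, ?_, fun A _ φ h0 => ?_⟩
      · rw [map_sub, hx, bd_e, h]
        abel
      · rw [map_sub, hφ A φ h0, h0 b i h2.2.1, sub_zero]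

theorem Loc.loc_cocycle (X : Geo Γ) : ∃ ρ, ∀ (A : Type) [AddCommGroup A] (z : G → Fin Γ.n → A)
    (h : G), (∃ g : G → A, ∀ p i, Γ.d h p ≤ ρ → z p i = g (p * Γ.s i) - g p) →
      ∀ k, ofFun z (X.d1 (e h k)) = 0 := by
  obtain ⟨ρ, hρ⟩ := loc_map Γ X.d1
  refine ⟨ρ, fun A _ z h ⟨g, hg⟩ k => ?_⟩
  have := hρ A (ofFun z - (lsum g).comp (bd Γ.s).toAddMonoidHom) h k fun p i hp => by
    change ofFun z (e p i) - lsum g (bd Γ.s (e p i)) = 0
    rw [ofFun_e, lsum_bd_e, hg p i hp, sub_self]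
  change ofFun z _ - lsum g (bd Γ.s _) = 0 at this
  rwa [X.ex1.apply_apply_eq_zero, map_zero, sub_zero] at this

theorem Geo.lp0 (X : Geo Γ) : Γ.LP0 := by
  obtain ⟨ρ, hρ⟩ := loc_cocycle X
  refine ⟨ρ, fun A _ z hz => ?_⟩
  obtain ⟨u, hu⟩ := exists_pot Γ.s Γ.gen (ofFun z) fun x hx => by
    obtain ⟨y, rfl⟩ := (X.ex1 x).mp hx
    exact fr_ext (φ := (ofFun z).comp X.d1.toAddMonoidHom) (ψ := 0)
      (fun h k => hρ A z h (hz h) k) y
  exact ⟨u, fun p i => by rw [← lsum_bd_e, ← hu, ofFun_e]⟩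

theorem Geo.lp1 (X : Geo Γ) : Γ.LP1 := by
  obtain ⟨ρ, hρ⟩ := loc_cocycle X
  refine ⟨ρ, fun z hz => ?_⟩
  obtain ⟨q, hq⟩ := exists_co ((ofFun z).comp X.d1.toAddMonoidHom)
    (hz.subset fun h ⟨k, hk⟩ hg => hk (hρ ℤ z h hg k))
  have hq' : ∀ y, co q y = ofFun z (X.d1 y) := fun y => by rw [hq]; rfl
  obtain ⟨φ, hφ⟩ := X.H2 q fun y hy => by
    ext g
    have := hq' ((single g⁻¹ 1 : ZG G) • y)
    rwa [co_single, inv_inv, map_smul, hy, smul_zero, map_zero] at this
  obtain ⟨u, hu⟩ := exists_pot Γ.s Γ.gen (ofFun z - co φ) fun x hx => by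
    obtain ⟨y, rfl⟩ := (X.ex1 x).mp hx
    rw [AddMonoidHom.sub_apply, ← hq', ← hφ]
    exact sub_self _
  refine ⟨u, (co_finite φ).subset fun p ⟨i, hi⟩ => ⟨i, fun h0 => hi ?_⟩⟩
  rw [← lsum_bd_e, ← hu, AddMonoidHom.sub_apply, ofFun_e, h0, sub_zero]

theorem Geo.oe (X : Geo Γ) : OE (⊤ : Subgroup G) := by
  have := X.inf
  refine ⟨by simpa using Set.infinite_univ, fun L _ hL => ?_⟩
  obtain ⟨B0⟩ := exists_DB (G := G) (ZG G)
  have h := one_ended aug_smul aug_surj (exact_bd Γ.s Γ.gen) X.ex1 B0 X.H1 {g | g⁻¹ ∈ L} fun k => by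
    refine (((hL k⁻¹ trivial).preimage (f := fun g : G => g⁻¹) inv_injective.injOn).union
      ((hL k trivial).preimage (f := fun g : G => (k * g)⁻¹)
        (inv_injective.comp (mul_right_injective k)).injOn)).subset fun g hg => ?_
    simp only [Set.mem_ofPred_eq, Set.mem_union, Set.mem_preimage, mul_inv_rev,
      inv_mul_cancel_right] at hg ⊢
    tauto
  refine h.imp (fun h => ?_) fun h => ?_
  · exact (h.preimage (f := fun g : G => g⁻¹) inv_injective.injOn).subset fun g hg => by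
      simpa using hg
  · exact (h.preimage (f := fun g : G => g⁻¹) inv_injective.injOn).subset fun g hg => by
      simpa using hg.2

theorem Geo.ker_proj (X : Geo Γ) (J : Subgroup G) [Infinite (G ⧸ J)] {k : ℕ} (t : Fin k → J)
    (ht : Subgroup.closure (Set.range t) = ⊤) :
    Module.Projective (ZG J) (LinearMap.ker (bd t)) := by
  obtain ⟨Y⟩ := X.dual J
  obtain ⟨B0⟩ := exists_DB (G := G) (ZG G)
  obtain ⟨B1⟩ := exists_DB (G := G) (Fr G Γ.n)
  obtain ⟨B2⟩ := exists_DB (G := G) (Fr G X.m)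
  have := Y.proj
  exact (core aug_smul aug_surj (exact_bd Γ.s Γ.gen) X.ex1 B0 B1 B2 X.H1 Y.e1 Y.η Y.η_smul
    (fun k => ⟨k • Y.q 1, by rw [map_zsmul, Y.η_q, smul_eq_mul, mul_one]⟩) Y.exη Y.ex2 t ht).1

theorem Loc.card_eq_one {J : Type} [Group J] [Fintype J] (t : Fin 1 → J)
    (ht : Subgroup.closure (Set.range t) = ⊤)
    (hp : Module.Projective (ZG J) (LinearMap.ker (bd t))) : Fintype.card J = 1 := by
  have hbd : ∀ x : Fr J 1, bd t x = x 0 * single (t 0) 1 - x 0 := fun x => by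
    conv_lhs => rw [Finsupp.unique_single x]
    simp [bd, mul_sub]
  have hinv : ∀ x : LinearMap.ker (bd t), ∀ c : J, x.1 0 * single c 1 = x.1 0 := by
    intro x c
    have hc : c ∈ Subgroup.closure (Set.range t) := ht ▸ Subgroup.mem_top c
    induction hc using Subgroup.closure_induction with
    | mem c hc =>
      obtain ⟨i, rfl⟩ := hc
      rw [Subsingleton.elim i 0, ← sub_eq_zero, ← hbd]
      exact x.2
    | one => rw [← one_def, mul_one]
    | mul a b _ _ ha hb =>
      rw [← one_mul (1 : ℤ), ← single_mul_single, ← mul_assoc, ha, hb]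
    | inv a _ ha =>
      conv_lhs => rw [← ha]
      rw [mul_assoc, single_mul_single, mul_inv_cancel, one_mul, ← one_def, mul_one]
  let T : LinearMap.ker (bd t) →+ ℤ := AddMonoidHom.mk' (fun x => (x.1 0).coeff 1)
    fun x y => by simp
  obtain ⟨β, hβ⟩ := exists_beta' (η := T) fun c x => by
    change ((single c 1 : ZG J) * x.1 0).coeff 1 = (x.1 0).coeff 1
    conv_rhs => rw [← hinv x c]
    rw [coeff_single_mul_apply, coeff_mul_single_apply, one_mul, mul_one, one_mul, mul_one]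
  let N : ZG J := ofCoeff (Finsupp.equivFunOnFinite.symm fun _ => 1)
  have hN : ∀ c, N.coeff c = 1 := fun c => by simp [N]
  let x : LinearMap.ker (bd t) := ⟨Finsupp.single 0 N, by
    rw [LinearMap.mem_ker, hbd, Finsupp.single_eq_same, sub_eq_zero]
    ext c
    rw [coeff_mul_single_apply, hN, hN, mul_one]⟩
  have hx : ∀ c : J, (β x).coeff c = (β x).coeff 1 := fun c => by
    have h1 : (single c 1 : ZG J) • x = x := Subtype.ext (by
      change (single c 1 : ZG J) • Finsupp.single 0 N = Finsupp.single 0 N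
      rw [Finsupp.smul_single, smul_eq_mul]
      congr 1
      ext y
      rw [coeff_single_mul_apply, hN, hN, mul_one])
    conv_lhs => rw [← h1]
    rw [map_smul, smul_eq_mul, coeff_single_mul_apply, inv_mul_cancel, one_mul]
  have h1 : T x = 1 := by
    change (Finsupp.single (0 : Fin 1) N 0).coeff 1 = 1
    rw [Finsupp.single_eq_same, hN]
  rw [← hβ, aug_eq, Finset.sum_congr rfl fun c _ => hx c, Finset.sum_const, Finset.card_univ,
    nsmul_eq_mul] at h1
  exact_mod_cast Int.eq_one_of_mul_eq_one_right (Nat.cast_nonneg _) h1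

theorem Geo.tf (X : Geo Γ) (g : G) (hg : IsOfFinOrder g) : g = 1 := by
  have := X.inf
  have hfin : Finite (Subgroup.zpowers g) := hg.finite_zpowers
  have : Infinite (G ⧸ Subgroup.zpowers g) := by
    by_contra h
    rw [not_infinite_iff_finite] at h
    exact not_finite_iff_infinite.mpr X.inf
      (Finite.of_equiv _ (Subgroup.groupEquivQuotientProdSubgroup (s := Subgroup.zpowers g)).symm)
  have ht : Subgroup.closure (Set.range fun _ : Fin 1 =>
      (⟨g, Subgroup.mem_zpowers g⟩ : Subgroup.zpowers g)) = ⊤ := by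
    rw [Set.range_const, ← Subgroup.zpowers_eq_closure, eq_top_iff]
    rintro ⟨_, k, rfl⟩ -
    exact ⟨k, rfl⟩
  have := Fintype.ofFinite (Subgroup.zpowers g)
  have h1 := Fintype.card_le_one_iff_subsingleton.mp (card_eq_one _ ht (X.ker_proj _ _ ht)).le
  exact congrArg Subtype.val
    (Subsingleton.elim (⟨g, Subgroup.mem_zpowers g⟩ : Subgroup.zpowers g) 1)

theorem IsFP2.ker_finite {H : Type} [Group H] (h : IsFP2 H) {k : ℕ} (t : Fin k → H)
    (ht : Subgroup.closure (Set.range t) = ⊤) :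
    Module.Finite (ZG H) (LinearMap.ker (bd t)) := by
  obtain ⟨P0, P1, P2, d1, d0, ε, hε, hs, ex0, ex1, -, -, f2, p0, p1, -⟩ := h
  have exb := exact_bd t ht
  obtain ⟨x0, hx0⟩ := hs 1
  choose u hu using fun i : Fin k => exists_d0 hε ex0 (t i) x0
  let α1 : (Fin k →₀ ZG H) →ₗ[ZG H] P1 := Finsupp.linearCombination (ZG H) u
  have hα : ∀ v, d0 (α1 v) = bd t v • x0 := by
    intro v
    induction v using Finsupp.induction_linear with
    | zero => simp
    | add a b ha hb => simp only [map_add, ha, hb, add_smul]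
    | single k r => simp [α1, bd, hu, mul_smul, sub_smul]
  obtain ⟨β0, hβ0⟩ := exists_beta' hε
  obtain ⟨β1, hβ1⟩ := Module.projective_lifting_property (bd t).rangeRestrict
    ((β0 ∘ₗ d0).codRestrict (LinearMap.range (bd t)) fun x =>
      (exb _).mp (by rw [LinearMap.comp_apply, hβ0]; exact ex0.apply_apply_eq_zero x))
    (bd t).surjective_rangeRestrict
  have hβ : ∀ x, bd t (β1 x) = β0 (d0 x) := fun x =>
    congrArg Subtype.val (LinearMap.congr_fun hβ1 x)
  obtain ⟨s0, hs0⟩ := (exb (β0 x0 - 1)).mp (by rw [map_sub, hβ0, hx0, map_one, sub_self])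
  let s1 : (Fin k →₀ ZG H) →ₗ[ZG H] LinearMap.ker (bd t) :=
    (LinearMap.id + LinearMap.toSpanSingleton (ZG H) _ s0 ∘ₗ bd t - β1 ∘ₗ α1).codRestrict _
      fun v => by
        simp only [LinearMap.mem_ker, LinearMap.sub_apply, LinearMap.comp_apply, LinearMap.id_apply,
          LinearMap.add_apply, map_add,
          LinearMap.toSpanSingleton_apply, map_sub, map_smul, hβ, hα, hs0, smul_eq_mul]
        noncomm_ring
  have hs1 : ∀ p : LinearMap.ker (bd t), (s1 p : Fin k →₀ ZG H) = p - β1 (α1 p) := by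
    intro p
    have hp : bd t p = 0 := p.2
    simp [s1, hp]
  let m : P2 →ₗ[ZG H] LinearMap.ker (bd t) := (β1 ∘ₗ d1).codRestrict _ fun q => by
    rw [LinearMap.mem_ker, LinearMap.comp_apply, hβ, ex1.apply_apply_eq_zero, map_zero]
  refine Module.Finite.of_surjective (m.coprod s1) fun p => ?_
  obtain ⟨z, hz⟩ := (ex1 (α1 p)).mp (by rw [hα, show bd t p = 0 from p.2, zero_smul])
  refine ⟨(z, p), Subtype.ext ?_⟩
  rw [LinearMap.coprod_apply, Submodule.coe_add, hs1]
  simp [m, hz]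

theorem IsFP.fp2 {H : Type} [Group H] (h : IsFP H) : IsFP2 H := by
  obtain ⟨X⟩ := h
  exact ⟨X.P 0, X.P 1, X.P 2, X.d 1, X.d 0, X.ε, X.ε_smul, X.ε_surj, X.exact_zero, X.exact_succ 0,
    X.finite 0, X.finite 1, X.finite 2, X.projective 0, X.projective 1, X.projective 2⟩

theorem exists_gen_family {J : Subgroup G} (h : J.FG) :
    ∃ (k : ℕ) (t : Fin k → J), Subgroup.closure (Set.range t) = ⊤ := by
  obtain ⟨T, hT⟩ := ((Group.fg_iff_subgroup_fg J).mpr h).out
  refine ⟨_, fun k => (T.equivFin.symm k : J), ?_⟩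
  rw [← hT]
  congr 1
  ext g
  exact ⟨by rintro ⟨k, rfl⟩; exact (T.equivFin.symm k).2,
    fun h => ⟨T.equivFin ⟨g, h⟩, by simp⟩⟩

end Pool.Agent.Lib.MP_d98eb9_al.W
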