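import Pool.Agent.Lib.MP_d98eb9_al.W.OneEndA
import Pool.Agent.Lib.MP_d98eb9_al.W.OneEndB

/-! Reduction to a one-ended edge group. -/

namespace Pool.Agent.Lib.MP_d98eb9_al.W

variable {G : Type} [Group G] {C : Subgroup G} {X : Set G}

theorem Sys.exists_oe (h : Sys C X) (hG : Group.FG G) (h1 : OE (⊤ : Subgroup G))
    (hLP : ∀ Γ : Gen G, Γ.LP1) (tf : ∀ g : G, IsOfFinOrder g → g = 1) (hC : C.FG) :
    ∃ C' : Subgroup G, C' ≤ C ∧ C'.FG ∧ OE C' ∧ ∃ X', Sys C' X' := by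
  obtain ⟨d, hd⟩ := Iota.bdd C ((Group.fg_iff_subgroup_fg C).mpr hC)
  have key : ∀ m, ∀ (D : Subgroup G) (Y : Set G), Sys D Y → D.FG → (∀ k, Iota D k → k < m) →
      ∃ C' : Subgroup G, C' ≤ D ∧ C'.FG ∧ OE C' ∧ ∃ X', Sys C' X' := by
    intro m
    induction m with
    | zero => exact fun D _ _ _ hk => absurd (hk 0 (Iota.zero D)) (by omega)
    | succ m ih =>
      intro D Y hD hfg hk
      by_cases hoe : OE D
      · exact ⟨D, le_rfl, hfg, hoe, Y, hD⟩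
      obtain ⟨X', Γ, L, a1, a2, a3, a4, a5, a6, a7, a8, a9⟩ := hD.exists_cut hG h1 hLP hfg hoe
      obtain ⟨D', b1, b2, ⟨Y', b3⟩, b4⟩ := a1.cut_step h1 tf Γ L a2 a3 a4 a5 a6 a7 a8 a9
      obtain ⟨C', c1, c2⟩ := ih D' Y' b3 b2 fun k hk' => by
        have := hk _ (b4 k hk')
        omega
      exact ⟨C', c1.trans b1, c2⟩
  exact key (d + 1) C X h hC fun k hk => Nat.lt_succ_of_le (hd k hk)

end Pool.Agent.Lib.MP_d98eb9_al.W
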