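import Pool.Agent.Lib.MP_d98eb9_al.W.Alg

/-! A one-ended subgroup with two complementary components is a Poincare duality group. -/

namespace Pool.Agent.Lib.MP_d98eb9_al.W

open MonoidAlgebra

namespace PD

section res

variable {C : Type} [Group C]

theorem subs (X : Resol C) (i : ℕ)
    (h : ∀ f : X.Cochain i, f ∘ₗ X.d i = 0 → f ∈ X.coboundaries i) : Subsingleton (X.H i) := by
  refine ⟨fun a b => ?_⟩
  induction a using QuotientAddGroup.induction_on with
  | H a =>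
    induction b using QuotientAddGroup.induction_on with
    | H b =>
      exact QuotientAddGroup.eq.mpr (AddSubgroup.mem_addSubgroupOf.mpr (h _ (-a + b).2))

theorem top (X : Resol C) (i : ℕ) (ψ : X.Cochain (i + 1) →+ ℤ)
    (h0 : ∀ f : X.Cochain (i + 1), f ∘ₗ X.d (i + 1) = 0) (hs : Function.Surjective ψ)
    (hk : ∀ μ, ψ μ = 0 ↔ ∃ ν : X.Cochain i, ν ∘ₗ X.d i = μ) : Nonempty (X.H (i + 1) ≃+ ℤ) := by
  let ψ' : (X.δ (i + 1)).ker →+ ℤ := ψ.comp (X.δ (i + 1)).ker.subtype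
  have h1 : Function.Surjective ψ' := fun n => by
    obtain ⟨μ, hμ⟩ := hs n
    exact ⟨⟨μ, h0 μ⟩, hμ⟩
  have h2 : (X.coboundaries (i + 1)).addSubgroupOf (X.δ (i + 1)).ker = ψ'.ker := by
    ext μ
    exact (hk μ.1).symm
  exact ⟨(QuotientAddGroup.quotientAddEquivOfEq h2).trans
    (QuotientAddGroup.quotientKerEquivOfSurjective ψ' h1)⟩

theorem isPD_two {k : ℕ} (t : Fin k → C) (ht : Subgroup.closure (Set.range t) = ⊤)
    (hf : Module.Finite (ZG C) (LinearMap.ker (bd t)))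
    (hp : Module.Projective (ZG C) (LinearMap.ker (bd t)))
    (H0 : ∀ f : ZG C →ₗ[ZG C] ZG C, f ∘ₗ bd t = 0 → f = 0)
    (H1 : ∀ φ : (Fin k →₀ ZG C) →ₗ[ZG C] ZG C, φ ∘ₗ (LinearMap.ker (bd t)).subtype = 0 →
      ∃ θ : ZG C →ₗ[ZG C] ZG C, θ ∘ₗ bd t = φ)
    (ψ : (LinearMap.ker (bd t) →ₗ[ZG C] ZG C) →+ ℤ) (hs : Function.Surjective ψ)
    (hk : ∀ μ, ψ μ = 0 ↔
      ∃ ν : (Fin k →₀ ZG C) →ₗ[ZG C] ZG C, ν ∘ₗ (LinearMap.ker (bd t)).subtype = μ) :
    IsPD 2 C := by
  let P : ℕ → ModuleCat.{0} (ZG C) := fun n => match n with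
    | 0 => ModuleCat.of _ (ZG C)
    | 1 => ModuleCat.of _ (Fin k →₀ ZG C)
    | 2 => ModuleCat.of _ (LinearMap.ker (bd t))
    | _ + 3 => ModuleCat.of _ PUnit
  let d : ∀ n, P (n + 1) →ₗ[ZG C] P n := fun n => match n with
    | 0 => bd t
    | 1 => (LinearMap.ker (bd t)).subtype
    | 2 => 0
    | _ + 3 => 0
  have ex : ∀ n, Function.Exact (d (n + 1)) (d n) := fun n => by
    match n with
    | 0 => exact LinearMap.exact_subtype_ker_map _
    | 1 =>
      intro y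
      exact ⟨fun h => ⟨0, Subtype.ext (Eq.symm h)⟩, fun ⟨_, h⟩ => by
        rw [← h]
        exact map_zero _⟩
    | 2 => exact fun y => ⟨fun _ => ⟨0, rfl⟩, fun _ => rfl⟩
    | _ + 3 => exact fun y => ⟨fun _ => ⟨0, rfl⟩, fun _ => rfl⟩
  have fin : ∀ n, Module.Finite (ZG C) (P n) := fun n => by
    match n with
    | 0 => exact (inferInstance : Module.Finite (ZG C) (ZG C))
    | 1 => exact (inferInstance : Module.Finite (ZG C) (Fin k →₀ ZG C))
    | 2 => exact hf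
    | _ + 3 => exact (inferInstance : Module.Finite (ZG C) PUnit)
  have pro : ∀ n, Module.Projective (ZG C) (P n) := fun n => by
    match n with
    | 0 => exact (inferInstance : Module.Projective (ZG C) (ZG C))
    | 1 => exact (inferInstance : Module.Projective (ZG C) (Fin k →₀ ZG C))
    | 2 => exact hp
    | _ + 3 => exact (inferInstance : Module.Projective (ZG C) PUnit)
  have hε : ∀ (g : C) (x : ZG C), (aug C).toAddMonoidHom ((single g 1 : ZG C) • x) =
      (aug C).toAddMonoidHom x := fun g x => by simp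
  have hε' : Function.Surjective (aug C).toAddMonoidHom := fun n => ⟨single 1 n, by simp⟩
  let X : Resol C := ⟨P, d, (aug C).toAddMonoidHom, hε, hε', exact_bd t ht, ex, fin, pro, 3,
    fun n hn => by
      obtain ⟨j, rfl⟩ := Nat.exists_eq_add_of_le' hn
      exact (inferInstance : Subsingleton PUnit)⟩
  refine ⟨X, fun i hi => subs X i fun f hf => ?_,
    top X 1 ψ (fun f => LinearMap.comp_zero _) hs hk⟩
  match i, hi, f, hf with
  | 0, _, f, hf => exact H0 f hf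
  | 1, _, f, hf => exact H1 f hf
  | 2, hi, _, _ => exact absurd rfl hi
  | j + 3, _, f, _ =>
    have : f = 0 := LinearMap.ext fun x => by
      rw [show x = 0 from rfl, map_zero, map_zero]
    rw [this]
    exact zero_mem _

theorem H0 [Infinite C] {k : ℕ} (t : Fin k → C) (ht : Subgroup.closure (Set.range t) = ⊤)
    (f : ZG C →ₗ[ZG C] ZG C) (hf : f ∘ₗ bd t = 0) : f = 0 := by
  have h1 : ∀ g : C, single g 1 * f 1 = f 1 := by
    intro g
    obtain ⟨y, hy⟩ := (exact_bd t ht (single g 1 - 1)).mp (by simp)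
    have := LinearMap.congr_fun hf y
    rw [LinearMap.comp_apply, hy, map_sub, LinearMap.zero_apply, sub_eq_zero] at this
    rw [← smul_eq_mul, ← map_smul, smul_eq_mul, mul_one, this]
  have h2 : ∀ g : C, (f 1).coeff g = (f 1).coeff 1 := by
    intro g
    conv_lhs => rw [← h1 g, coeff_single_mul_apply]
    simp
  have h3 : (f 1).coeff 1 = 0 := by
    by_contra h
    refine Set.infinite_univ (α := C) ((f 1).coeff.support.finite_toSet.subset fun g _ => ?_)
    simpa [h2 g] using h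
  have h4 : f 1 = 0 := by
    ext g
    simp [h2 g, h3]
  exact LinearMap.ext_ring h4

end res

variable {G : Type} [Group G] {Γ : Gen G}

theorem ae_const {J : Subgroup G} (hoe : OE J) {k : ℕ} (t : Fin k → J)
    (ht : Subgroup.closure (Set.range t) = ⊤) (u : J → ℤ)
    (hu : {g | ∃ i, u (g * t i) ≠ u g}.Finite) : ∃ a, {g | u g ≠ a}.Finite := by
  have h1 : ∀ g : J, {x | u (x * g) ≠ u x}.Finite := by
    intro g
    have hg : g ∈ Subgroup.closure (Set.range t) := ht ▸ Subgroup.mem_top g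
    induction hg using Subgroup.closure_induction with
    | mem g hg =>
      obtain ⟨i, rfl⟩ := hg
      exact hu.subset fun x hx => ⟨i, hx⟩
    | one => simp
    | mul a b _ _ ha hb =>
      refine (ha.union (hb.preimage (f := fun x => x * a)
        (mul_left_injective a).injOn)).subset fun x hx => ?_
      by_contra hn
      simp only [Set.mem_union, Set.mem_ofPred_eq, Set.mem_preimage, not_or, not_not] at hn
      exact hx (by rw [← mul_assoc, hn.2, hn.1])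
    | inv a _ ha =>
      refine (ha.preimage (f := fun x => x * a⁻¹) (mul_left_injective _).injOn).subset
        fun x hx => ?_
      simp only [Set.mem_ofPred_eq, Set.mem_preimage, inv_mul_cancel_right] at hx ⊢
      exact Ne.symm hx
  let B := {g | ∃ i, u (g * t i) ≠ u g}
  let F : Set J := {1} ∪ (B ∪ ⋃ i, (fun g => g * t i) '' B)
  have hF : F.Finite := (Set.finite_singleton _).union
    (hu.union (Set.finite_iUnion fun i => hu.image _))
  have h2 : ∀ g : J, u g ∈ u '' F := by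
    intro g
    have hg : g ∈ Subgroup.closure (Set.range t) := ht ▸ Subgroup.mem_top g
    induction hg using Subgroup.closure_induction_right with
    | one => exact ⟨1, Or.inl rfl, rfl⟩
    | mul_right x _ y hy ih =>
      obtain ⟨i, rfl⟩ := hy
      by_cases hx : u (x * t i) = u x
      · rwa [hx]
      · exact ⟨_, Or.inr (Or.inr (Set.mem_iUnion.mpr ⟨i, x, ⟨i, hx⟩, rfl⟩)), rfl⟩
    | mul_inv_cancel x _ y hy ih =>
      obtain ⟨i, rfl⟩ := hy
      by_cases hx : u (x * (t i)⁻¹ * t i) = u (x * (t i)⁻¹)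
      · rw [← hx, inv_mul_cancel_right]
        exact ih
      · exact ⟨_, Or.inr (Or.inl ⟨i, hx⟩), rfl⟩
  by_contra hno
  push Not at hno
  have h3 : ∀ a, {g | u g = a}.Finite := by
    intro a
    have := hoe.2 (Subtype.val '' {g | u g = a}) (by rintro _ ⟨g, -, rfl⟩; exact g.2)
      fun g hg => ((h1 ⟨g, hg⟩).image Subtype.val).subset (by
        rintro _ ⟨⟨x, hx, rfl⟩, hx'⟩
        refine ⟨x, fun h => hx' ⟨x * ⟨g, hg⟩, ?_, rfl⟩, rfl⟩
        exact h.trans hx)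
    rcases this with h | h
    · exact h.preimage Subtype.val_injective.injOn |>.subset fun g hg => ⟨g, hg, rfl⟩
    · refine absurd ((h.preimage Subtype.val_injective.injOn).subset fun g hg => ⟨g.2, ?_⟩) (hno a)
      rintro ⟨x, hx, hx'⟩
      exact hg (Subtype.ext hx' ▸ hx)
  refine hoe.1 ((((hF.image u).biUnion fun a _ => h3 a).image Subtype.val).subset fun g hg => ?_)
  exact ⟨⟨g, hg⟩, Set.mem_biUnion (h2 _) rfl, rfl⟩

theorem H1 {J : Subgroup G} (hoe : OE J) {k : ℕ} (t : Fin k → J)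
    (ht : Subgroup.closure (Set.range t) = ⊤) (φ : (Fin k →₀ ZG J) →ₗ[ZG J] ZG J)
    (h : φ ∘ₗ (LinearMap.ker (bd t)).subtype = 0) :
    ∃ θ : ZG J →ₗ[ZG J] ZG J, θ ∘ₗ bd t = φ := by
  obtain ⟨u, hu⟩ := exists_pot t ht (co φ) fun x hx => by
    have := LinearMap.congr_fun h ⟨x, hx⟩
    rw [co_apply, show φ x = 0 from this]
    rfl
  obtain ⟨a, ha⟩ := ae_const hoe t ht u ((co_finite φ).subset fun g ⟨i, hi⟩ => ⟨i, by
    rw [hu, bd_e]
    simpa [sub_eq_zero] using hi⟩)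
  obtain ⟨θ, hθ⟩ := exists_co0 (lsum fun g => u g - a) (ha.subset fun g hg => by
    simpa [sub_eq_zero] using hg)
  refine ⟨θ, co_ext fun x => ?_⟩
  have h1 : co (θ ∘ₗ bd t) x = co θ (bd t x) := rfl
  rw [h1, hθ, hu]
  exact fr_ext (φ := (lsum fun g => u g - a).comp (bd t).toAddMonoidHom)
    (ψ := (lsum u).comp (bd t).toAddMonoidHom) (fun g i => by simp [bd_e]) x

theorem const_conn {A : Type} (u : G → A) {Z : Set G}
    (hu : ∀ g i, g ∉ Z → u (g * Γ.s i) = u g) {p q : G} (h : Γ.Conn Z p q) : u q = u p :=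
  h.ind (P := fun x => u x = u p) rfl fun a b ha hb hd hP => by
    rcases Gen.d_le_one.mp hd with h | ⟨i, h | h⟩
    · rw [h, hP]
    · rw [h, hu a i ha, hP]
    · rw [← hP, h, hu b i hb]

theorem exists_far {J : Subgroup G} {U : Set G} (h : ¬ Γ.Near U J) (r : ℕ) :
    ∃ p ∈ U, p ∉ Γ.N r J := by
  by_contra hn
  push Not at hn
  exact h ⟨r, hn⟩

theorem rel3 {w : G →* ℤ} {J : Subgroup G} {A : Type} [AddCommGroup A] {P : Type}
    [AddCommGroup P] [Module (ZG G) P] (B : DB G P) {T1 T2 T3 : Type} [Fintype T1] [Fintype T2]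
    [Fintype T3] (a1 : T1 → ZG J →+ A) (q1 : T1 → Du w J P) (a2 : T2 → ZG J →+ A)
    (q2 : T2 → Du w J P) (a3 : T3 → ZG J →+ A) (q3 : T3 → Du w J P)
    (h : ∀ x, ∑ t, a1 t (prAt w J x (q1 t)) =
      ∑ t, a2 t (prAt w J x (q2 t)) + ∑ t, a3 t (prAt w J x (q3 t)))
    (μ : Du w J P →ₗ[ZG J] ZG J) :
    ∑ t, a1 t (μ (q1 t)) = ∑ t, a2 t (μ (q2 t)) + ∑ t, a3 t (μ (q3 t)) := by
  have := rel B (T := T1 ⊕ T2 ⊕ T3)
    (Sum.elim a1 (Sum.elim (fun t => -a2 t) fun t => -a3 t)) (Sum.elim q1 (Sum.elim q2 q3))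
    (fun x => by
      simp only [Fintype.sum_sum_type, Sum.elim_inl, Sum.elim_inr, AddMonoidHom.neg_apply,
        Finset.sum_neg_distrib]
      rw [h]
      abel) μ
  simp only [Fintype.sum_sum_type, Sum.elim_inl, Sum.elim_inr, AddMonoidHom.neg_apply,
    Finset.sum_neg_distrib] at this
  rw [← sub_eq_zero, ← this]
  abel

theorem exists_psi (X : Geo Γ) {J : Subgroup G} {k : ℕ} (t : Fin k → J)
    (ht : Subgroup.closure (Set.range t) = ⊤)
    (hf : Module.Finite (ZG J) (LinearMap.ker (bd t)))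
    (hp : Module.Projective (ZG J) (LinearMap.ker (bd t)))
    {U : Set G} (hU : Γ.Near (Γ.fr U) J) (h1 : ¬ Γ.Near U J) (h2 : ¬ Γ.Near Uᶜ J)
    (h : ∀ r, ∃ r', ∀ p q, p ∉ Γ.N r' J → q ∉ Γ.N r' J → (p ∈ U ↔ q ∈ U) →
      Γ.Conn (Γ.N r J) p q) :
    ∃ ψ : (LinearMap.ker (bd t) →ₗ[ZG J] ZG J) →+ ℤ, Function.Surjective ψ ∧ ∀ μ, ψ μ = 0 ↔
      ∃ ν : (Fin k →₀ ZG J) →ₗ[ZG J] ZG J, ν ∘ₗ (LinearMap.ker (bd t)).subtype = μ := by
  classical
  obtain ⟨D⟩ := X.dual J
  obtain ⟨α⟩ := exists_alpha D t hp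
  obtain ⟨β⟩ := exists_beta α ht
  obtain ⟨R, hR⟩ := α.supp hf
  obtain ⟨B1⟩ := exists_DB (G := G) (Fr G Γ.n)
  obtain ⟨B2⟩ := exists_DB (G := G) (Fr G X.m)
  obtain ⟨BK⟩ := exists_DB (G := J) (LinearMap.ker (bd t))
  obtain ⟨r, hr⟩ := hU
  let χ : G → ℤ := fun g => if g ∈ U then 1 else 0
  obtain ⟨T, _, a, q, hq⟩ := repr (Γ := Γ) (J := J) X.w
    ((lsum χ).comp (bd Γ.s).toAddMonoidHom) (r := r) fun g i hg => by
      have : g ∈ U ↔ g * Γ.s i ∈ U := by
        by_contra hc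
        exact hg (hr ⟨_, Gen.d_gen g i, hc⟩)
      simp [bd_e, χ, this]
  replace hq : ∀ x, lsum χ (bd Γ.s x) = ∑ j, a j (prAt X.w J x (q j)) := hq
  let ψ : (LinearMap.ker (bd t) →ₗ[ZG J] ZG J) →+ ℤ :=
    AddMonoidHom.mk' (fun μ => ∑ j, a j (μ (β.β2 (q j)))) fun μ μ' => by
      simp [Finset.sum_add_distrib]
  have hψ : ∀ μ, ψ μ = ∑ j, a j (μ (β.β2 (q j))) := fun _ => rfl
  let res : ((Fin k →₀ ZG J) →ₗ[ZG J] ZG J) →+ (LinearMap.ker (bd t) →ₗ[ZG J] ZG J) :=
    AddMonoidHom.mk' (fun ν => ν ∘ₗ (LinearMap.ker (bd t)).subtype) fun _ _ =>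
      LinearMap.add_comp _ _ _
  have hres : res.range ≤ ψ.ker := by
    rintro _ ⟨ν, rfl⟩
    have := rel B2 a (fun j => Du.map X.w J X.d1 (q j)) (fun z => by
      have := hq (X.d1 z)
      rw [X.ex1.apply_apply_eq_zero, map_zero] at this
      simpa using this.symm) (ν ∘ₗ β.β1)
    rw [AddMonoidHom.mem_ker, hψ, ← this]
    refine Finset.sum_congr rfl fun j _ => ?_
    rw [LinearMap.comp_apply, ← β.hβ]
    rfl
  let π := QuotientAddGroup.mk' res.range
  let ψ' := QuotientAddGroup.lift res.range ψ hres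
  have hψ' : ∀ μ, ψ' (π μ) = ψ μ := fun _ => rfl
  let Λ : Fr G Γ.n →+ (LinearMap.ker (bd t) →ₗ[ZG J] ZG J) :=
    AddMonoidHom.mk' (fun x => prAt X.w J x ∘ₗ α.α2) fun x y => LinearMap.ext fun κ => by simp
  have hΛ : ∀ x κ, Λ x κ = prAt X.w J x (α.α2 κ) := fun _ _ => rfl
  obtain ⟨u, hu⟩ := exists_pot Γ.s Γ.gen (π.comp Λ) fun x hx => by
    obtain ⟨z, rfl⟩ := (X.ex1 x).mp hx
    refine (QuotientAddGroup.eq_zero_iff _).mpr ⟨prAt X.w J z ∘ₗ α.α1, LinearMap.ext fun κ => ?_⟩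
    change prAt X.w J z (α.α1 κ) = _
    rw [← α.h2]
    rfl
  replace hu : ∀ x, π (Λ x) = lsum u (bd Γ.s x) := hu
  have hu1 : ∀ g i, g ∉ Γ.N R J → u (g * Γ.s i) = u g := fun g i hg => by
    have h0 : Λ (e g i) = 0 := LinearMap.ext fun κ =>
      prAt_eq_zero (fun c hc g hg => (Gen.mul_mem_N hc).mpr hg) _ (hR κ) hg i
    have := hu (e g i)
    rw [h0, map_zero, bd_e] at this
    simpa [sub_eq_zero] using this.symm
  obtain ⟨r1, hr1⟩ := h R
  obtain ⟨v, r2, hv, hv'⟩ := β.pot χ a q hq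
  obtain ⟨p1, hp1, hp1'⟩ := exists_far h1 (r1 + r2)
  obtain ⟨p2, hp2, hp2'⟩ := exists_far h2 (r1 + r2)
  have hp2U : p2 ∉ U := hp2
  have n1 : ∀ {g}, g ∉ Γ.N (r1 + r2) J → g ∉ Γ.N r1 J := fun hg h' =>
    hg (Gen.N_mono (by omega) subset_rfl h')
  have n2 : ∀ {g}, g ∉ Γ.N (r1 + r2) J → g ∉ Γ.N r2 J := fun hg h' =>
    hg (Gen.N_mono (by omega) subset_rfl h')
  have hd : ψ' (u p1 - u p2) = 1 := by
    have hc := const_conn (Γ := Γ) (fun g => ψ' (u g) - χ g + v g) (Z := ∅) (fun g i _ => by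
      have e1 := hv' (e g i)
      have e2 := congrArg ψ' (hu (e g i))
      rw [hψ', hψ] at e2
      simp only [hΛ] at e2
      rw [e1] at e2
      simp only [bd_e, map_sub, lsum_single, one_smul] at e2
      linarith) (Gen.conn_empty p2 p1)
    simp only [χ, if_pos hp1, if_neg hp2U, hv _ (n2 hp1'), hv _ (n2 hp2')] at hc
    rw [map_sub]
    linarith
  obtain ⟨T', _, a', q', hq'⟩ := repr0 (Γ := Γ) (J := J) X.w
    (fun g => u g - u p2 - χ g • (u p1 - u p2)) (r := r1) fun g hg => by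
      by_cases hgU : g ∈ U
      · rw [const_conn u hu1 (hr1 p1 g (n1 hp1') hg (by simp [hp1, hgU]))]
        simp [χ, hgU]
      · rw [const_conn u hu1 (hr1 p2 g (n1 hp2') hg (by simp [hp2U, hgU]))]
        simp [χ, hgU]
  let b : Fin BK.n → ZG J →+ (LinearMap.ker (bd t) →ₗ[ZG J] ZG J) := fun l =>
    AddMonoidHom.mk' (fun s => MulOpposite.op s • BK.f l) fun s s' => by
      rw [MulOpposite.op_add, add_smul]
  have hb : ∀ μ : Du X.w J (Fr G Γ.n) →ₗ[ZG J] ZG J,
      ∑ l, b l (μ (α.α2 (BK.x l))) = μ ∘ₗ α.α2 := fun μ => LinearMap.ext fun κ => by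
    conv_rhs => rw [← BK.sum_eq κ, map_sum]
    rw [LinearMap.sum_apply]
    refine Finset.sum_congr rfl fun l _ => ?_
    rw [map_smul]
    rfl
  have key : ∀ μ, π μ = ψ μ • (u p1 - u p2) := by
    intro μ
    have := rel3 B1 (fun l => π.comp (b l)) (fun l => α.α2 (BK.x l))
      (fun j => (zmultiplesHom _ (u p1 - u p2)).comp (a j)) q a'
      (fun j => Du.map X.w J (bd Γ.s) (q' j)) (fun x => by
        simp only [AddMonoidHom.comp_apply, zmultiplesHom_apply]
        rw [← map_sum, hb, ← Finset.sum_smul, ← hq]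
        have e1 : ∑ j, a' j (prAt X.w J x (Du.map X.w J (bd Γ.s) (q' j))) =
            ∑ j, a' j (prAt X.w J (bd Γ.s x) (q' j)) := rfl
        rw [e1, ← hq']
        refine (hu x).trans ?_
        exact fr_ext (φ := (lsum u).comp (bd Γ.s).toAddMonoidHom)
          (ψ := ((zmultiplesHom _ (u p1 - u p2)).comp (lsum χ) +
            lsum fun g => u g - u p2 - χ g • (u p1 - u p2)).comp (bd Γ.s).toAddMonoidHom)
          (fun g i => by
            simp only [AddMonoidHom.comp_apply, LinearMap.toAddMonoidHom_coe, bd_e, map_sub,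
              lsum_single, one_smul, AddMonoidHom.add_apply, zmultiplesHom_apply]
            abel) x) (μ ∘ₗ β.β2)
    simp only [AddMonoidHom.comp_apply, zmultiplesHom_apply] at this
    have e0 : ∀ j, β.β2 (Du.map X.w J (bd Γ.s) (q' j)) = 0 := fun j => Subtype.ext (by
      have : Du.map X.w J X.d1 (Du.map X.w J (bd Γ.s) (q' j)) = 0 :=
        Du.ext fun z => by simp [X.ex1.apply_apply_eq_zero]
      rw [β.hβ, this, map_zero]
      rfl)
    rw [← map_sum, hb, ← Finset.sum_smul] at this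
    simp only [LinearMap.comp_apply, e0, map_zero, Finset.sum_const_zero, add_zero] at this
    rw [hψ, ← this]
    refine QuotientAddGroup.eq.mpr ⟨-(μ ∘ₗ β.k1), LinearMap.ext fun κ => ?_⟩
    have e3 := congrArg μ (β.hk κ)
    rw [map_add] at e3
    change -μ (β.k1 κ) = -μ κ + μ (β.β2 (α.α2 κ))
    rw [e3]
    abel
  refine ⟨ψ, fun n => ?_, fun μ => ⟨fun h0 => ?_, fun hν => hres hν⟩⟩
  · obtain ⟨μ, hμ⟩ := QuotientAddGroup.mk'_surjective res.range (u p1 - u p2)
    refine ⟨n • μ, ?_⟩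
    rw [map_zsmul, ← hψ', hμ, hd, smul_eq_mul, mul_one]
  · have := key μ
    rw [h0, zero_smul] at this
    exact (QuotientAddGroup.eq_zero_iff _).mp this

end PD

variable {G : Type} [Group G] {Γ : Gen G}

theorem Geo.isPD (X : Geo Γ) {J : Subgroup G} (hfg : J.FG) (hfp : IsFP2 J) (hoe : OE J)
    {U : Set G} (hU : Γ.Near (Γ.fr U) J) (h1 : ¬ Γ.Near U J) (h2 : ¬ Γ.Near Uᶜ J)
    (h : ∀ r, ∃ r', ∀ p q, p ∉ Γ.N r' J → q ∉ Γ.N r' J → (p ∈ U ↔ q ∈ U) →
      Γ.Conn (Γ.N r J) p q) : IsPD 2 J := by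
  obtain ⟨k, t, ht⟩ := exists_gen_family hfg
  have := Gen.infinite_quot (Γ := Γ) (J := J)
    fun h' => h1 ((Gen.Near.of_subset (Set.subset_univ U)).trans h')
  have hp := X.ker_proj J t ht
  have hf := hfp.ker_finite t ht
  have : Infinite J := hoe.1.to_subtype
  obtain ⟨ψ, hs, hk⟩ := PD.exists_psi X t ht hf hp hU h1 h2 h
  exact PD.isPD_two t ht hf hp (PD.H0 t ht) (PD.H1 hoe t ht) ψ hs hk

end Pool.Agent.Lib.MP_d98eb9_al.W
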