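import Pool.Agent.Lib.MP_d98eb9_al.W.Rk
import Pool.Agent.Lib.MP_d98eb9_al.W.PD
import Pool.Agent.Lib.MP_d98eb9_al.W.Comp

/-! The relation module of a subgroup with a rank condition is finitely generated. -/

namespace Pool.Agent.Lib.MP_d98eb9_al.W

open MonoidAlgebra Gen

/-- A projective module whose functionals have bounded rank is finite. -/
theorem Rk.finite {H : Type} [Group H] (R : Rk H) {K : Type} [AddCommGroup K] [Module (ZG H) K]
    [Module.Projective (ZG H) K] (N : ℕ) (h : ∀ p : Fin (N + 1) → K, ∃ a : Fin (N + 1) → R.A,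
      a ≠ 0 ∧ ∀ l : K →ₗ[ZG H] ZG H, ∑ j, R.act (a j) (l (p j)) = 0) : Module.Finite (ZG H) K := by
  classical
  obtain ⟨s, hs⟩ := Module.projective_def'.mp (inferInstance : Module.Projective (ZG H) K)
  by_contra hn
  have step : ∀ T : Finset K, ∃ x : K × K, x.2 ∉ T ∧ s x.1 x.2 ≠ 0 := fun T => by
    by_contra hT
    refine hn ⟨⟨T, eq_top_iff.mpr fun x _ => ?_⟩⟩
    have hx : Finsupp.linearCombination (ZG H) id (s x) = x := LinearMap.congr_fun hs x
    rw [← hx, Finsupp.linearCombination_apply, Finsupp.sum]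
    exact Submodule.sum_mem _ fun a ha => Submodule.smul_mem _ _ (Submodule.subset_span
      (by_contra fun h => hT ⟨(x, a), h, Finsupp.mem_support_iff.mp ha⟩))
  choose f hf using step
  let T : ℕ → Finset K := fun n => Nat.rec ∅ (fun _ T => T ∪ (s (f T).1).support) n
  have hT : Monotone T := monotone_nat_of_le_succ fun n => Finset.subset_union_left
  have hz : ∀ i j : ℕ, j < i → s (f (T j)).1 (f (T i)).2 = 0 := fun i j hij => by
    by_contra h0
    exact (hf (T i)).1 (hT hij (Finset.mem_union_right _ (Finsupp.mem_support_iff.mpr h0)))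
  obtain ⟨a, ha, h0⟩ := h fun j => (f (T j)).1
  obtain ⟨i, hi, hmax⟩ := Finset.exists_max_image (Finset.univ.filter fun j => a j ≠ 0) id (by
    by_contra h1
    exact ha (funext fun j => by_contra fun hj => h1 ⟨j, by simpa using hj⟩))
  have h1 := h0 (Finsupp.lapply (f (T i)).2 ∘ₗ s)
  rw [Finset.sum_eq_single i (fun j _ hj => ?_) (by simp)] at h1
  · exact (R.inj _ _ h1).elim (by simpa using hi) (hf (T i)).2
  · rcases lt_or_gt_of_ne hj with hj | hj
    · simp [hz i j hj]
    · have : a j = 0 := by_contra fun h2 => absurd (hmax j (by simpa using h2)) (not_le.mpr hj)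
      simp [this]

variable {G : Type} [Group G] {Γ : Gen G} {J : Subgroup G}

/-- An equivariant function that is locally constant far from `J` vanishes far from `J`. -/
theorem vanish_far (h1 : OE (⊤ : Subgroup G)) (hJ : (J : Set G).Infinite) {A : Type} [Zero A]
    (u : G → A) (h2 : ∀ c ∈ J, ∀ g, u g = 0 → u (c * g) = 0)
    (h3 : ∀ c ∈ J, ∀ g, u g ≠ 0 → u (c * g) = u g → c = 1) {r : ℕ}
    (h4 : ∀ g i, g ∉ Γ.N r J → u (g * Γ.s i) = u g) : ∃ r', ∀ g, g ∉ Γ.N r' J → u g = 0 := by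
  have lev : ∀ v, v ≠ 0 → {g | u g = v}.Finite := fun v hv => by
    have k1 : ∀ f : G, {g | u g = v ∧ g * f⁻¹ ∈ J}.Finite := fun f =>
      Set.Subsingleton.finite fun a ha b hb => by
        have := h3 (a * b⁻¹) (by simpa using J.mul_mem ha.2 (J.inv_mem hb.2)) b (hb.1 ▸ hv)
          (by simp [ha.1, hb.1])
        exact mul_inv_eq_one.mp this
    refine (OE.finite_of_fr (Γ := Γ) h1 (((Gen.ball_finite (Γ := Γ) 1 (r + 1)).biUnion
      fun f _ => k1 f).subset fun p ⟨hp, q, hd, hn⟩ => ?_)).resolve_right fun hf =>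
        hJ ((Set.Finite.union hf (k1 1)).subset fun c hc => by
          by_cases e : u c = v
          · exact Or.inr ⟨e, by simpa using hc⟩
          · exact Or.inl e)
    obtain ⟨c, hc, hd'⟩ : p ∈ Γ.N (r + 1) J := by_contra fun hp' => hn (by
      have := PD.const_conn u h4 (conn_of_d (r := 1) (fun h => hp' (N_N subset_rfl h)) hd)
      simp [this])
    exact Set.mem_biUnion (x := c⁻¹ * p) (by rwa [d_eq] at hd') ⟨hp, by simpa using hc⟩
  obtain ⟨F, hF, hF1, hF2⟩ := comp_finite (Γ := Γ) r J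
  obtain ⟨s, hs⟩ := bdd_of_finite (Γ := Γ) (hF.biUnion (t := fun U => {g | g ∈ U ∧ u g ≠ 0})
    fun U hU => by
      by_cases e : ∃ g ∈ U, u g ≠ 0
      · obtain ⟨g, hg, hg'⟩ := e
        exact (lev _ hg').subset fun x hx => PD.const_conn u h4 (((hF1 U hU).eq hg).le hx.1)
      · exact Set.finite_empty.subset fun x hx => e ⟨x, hx⟩) 1
  refine ⟨r + s, fun g hg => by_contra fun h0 => hg ?_⟩
  obtain ⟨c, hc, U, hU, e⟩ := hF2 _ ⟨g, fun h => hg (N_mono (by omega) subset_rfl h), rfl⟩
  refine ⟨c, hc, ?_⟩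
  have := hs (c⁻¹ * g) (Set.mem_biUnion hU ⟨e.le (Conn.refl _ _), fun h => h0 (by
    simpa using h2 c hc _ h)⟩)
  rw [d_eq]
  omega

theorem Geo.ker_finite (X : Geo Γ) (hinf : ¬ Γ.Near Set.univ J) (R : Rk J) {k : ℕ}
    (t : Fin k → J) (ht : Subgroup.closure (Set.range t) = ⊤) :
    Module.Finite (ZG J) (LinearMap.ker (bd t)) := by
  classical
  by_cases hJ : (J : Set G).Finite
  · have : Finite J := hJ
    have : Module.Finite ℤ (LinearMap.ker (bd t)) := Module.Finite.of_injective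
      ((LinearMap.ker (bd t)).subtype.restrictScalars ℤ) Subtype.val_injective
    exact Module.Finite.of_restrictScalars_finite ℤ _ _
  have := infinite_quot hinf
  have := X.ker_proj J t ht
  obtain ⟨D⟩ := X.dual J
  obtain ⟨α⟩ := exists_alpha D t this
  obtain ⟨β⟩ := exists_beta α ht
  obtain ⟨B⟩ := exists_DB (G := G) (Fr G Γ.n)
  choose y hy using fun i => exists_chain (conn_empty (Γ := Γ) 1 (t i : G))
  refine R.finite (K := LinearMap.ker (bd t)) (k + k) fun p => ?_
  obtain ⟨a, ha, h0⟩ := R.rank (k + k) fun j => Fin.addCases (fun i => (p j).1 i)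
    fun i => prAt X.w J (y i) (α.α2 (p j))
  have h1 : ∀ ν : (Fin k →₀ ZG J) →ₗ[ZG J] ZG J, ∑ j, R.act (a j) (ν (p j)) = 0 :=
    Rep.rel_map (fun j => R.act (a j)) (fun j => (p j).1) fun i r => by
      have := congrArg (fun x => R.act x r) (h0 (Fin.castAdd k i))
      simpa [R.mul] using this
  let Φ : Fr G Γ.n →+ R.A := ∑ j, (R.act (a j)).comp ((pr X.w J).comp
    (α.α2 (p j)).ev.toAddMonoidHom)
  have hΦ : ∀ x, Φ x = ∑ j, R.act (a j) (prAt X.w J x (α.α2 (p j))) := fun x => by simp [Φ]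
  obtain ⟨u0, hu0⟩ := exists_pot Γ.s Γ.gen Φ fun x hx => by
    obtain ⟨z, rfl⟩ := (X.ex1 x).mp hx
    rw [hΦ, ← h1 (prAt X.w J z ∘ₗ α.α1)]
    exact Finset.sum_congr rfl fun j _ => by rw [LinearMap.comp_apply, ← α.h2]; rfl
  obtain ⟨u, hu1, hu⟩ : ∃ u : G → R.A, u 1 = 0 ∧ ∀ x, Φ x = lsum u (bd Γ.s x) :=
    ⟨fun g => u0 g - u0 1, sub_self _, fun x => (hu0 x).trans
      (fr_ext (φ := (lsum u0).comp (bd Γ.s).toAddMonoidHom)
        (ψ := (lsum fun g => u0 g - u0 1).comp (bd Γ.s).toAddMonoidHom)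
        (fun g i => by simp [bd_e]) x)⟩
  have he : ∀ g i, Φ (e g i) = u (g * Γ.s i) - u g := fun g i => by simp [hu, bd_e]
  have hc : ∀ (c : J) g, u (c * g) = R.act (u g) (single c⁻¹ (X.w c)) + u c := fun c g => by
    have := PD.const_conn (Γ := Γ) (fun g => u (c * g) - R.act (u g) (single c⁻¹ (X.w c))) (Z := ∅)
      (fun g i _ => by
        have e1 : Φ (e (c * g) i) = R.act (Φ (e g i)) (single c⁻¹ (X.w c)) := by
          rw [hΦ, hΦ, map_sum, AddMonoidHom.finsetSum_apply]
          refine Finset.sum_congr rfl fun j _ => ?_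
          rw [R.mul, prAt_apply, prAt_apply, ← smul_e, map_smul, smul_eq_mul, pr_mul_left]
        rw [he, he, map_sub, AddMonoidHom.sub_apply, mul_assoc] at e1
        linear_combination (norm := abel) e1) (conn_empty 1 g)
    simp only [hu1, mul_one, map_zero, AddMonoidHom.zero_apply, sub_zero] at this
    rw [← this, add_sub_cancel]
  have hz : ∀ c : J, u c = 0 := fun c => by
    have hc' : c ∈ Subgroup.closure (Set.range t) := ht ▸ Subgroup.mem_top c
    induction hc' using Subgroup.closure_induction with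
    | mem c hc' =>
      obtain ⟨i, rfl⟩ := hc'
      have := hu (y i)
      rw [(hy i).1, hΦ] at this
      have e2 := h0 (Fin.natAdd k i)
      simp only [Fin.addCases_right] at e2
      rw [e2] at this
      simpa [hu1] using this.symm
    | one => exact hu1
    | mul a b _ _ ha hb => simp [hc, ha, hb]
    | inv a _ ha =>
      have := hc a⁻¹ a
      simpa [ha, hu1] using this.symm
  obtain ⟨r, hr⟩ := bdd_of_finite (Γ := Γ) (Set.finite_iUnion fun j => co_finite (α.α2 (p j)).ev) 1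
  obtain ⟨r', hr'⟩ := vanish_far (Γ := Γ) X.oe hJ u
    (fun c hc' g hg => by simpa [hg, hz ⟨c, hc'⟩] using hc ⟨c, hc'⟩ g)
    (fun c hc' g hg e => by
      have e1 := hc ⟨c, hc'⟩ g
      rw [hz, add_zero] at e1
      have e2 := (R.inj (u g) (single (⟨c, hc'⟩ : J)⁻¹ (X.w c) - 1) (by
        rw [map_sub, R.one, ← e1, sub_eq_zero]
        exact e)).resolve_left hg
      rw [sub_eq_zero, one_def] at e2
      rcases single_inj.mp e2 with h | h
      · simpa using congrArg Subtype.val h.1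
      · exact absurd h.2 one_ne_zero) (r := r) fun g i hg => by
      rw [← sub_eq_zero, ← he, hΦ]
      refine Finset.sum_eq_zero fun j _ => ?_
      rw [prAt_eq_zero (Z := Γ.N r J) (fun c hc g hg => (mul_mem_N hc).mpr hg) _
        (fun g i hg => by_contra fun h => hg ⟨1, J.one_mem, hr g (Set.mem_iUnion.mpr ⟨j, i, h⟩)⟩)
        hg, map_zero]
  obtain ⟨T, _, b, q, hq⟩ := repr0 (Γ := Γ) (J := J) X.w u hr'
  refine ⟨a, ha, fun l => ?_⟩
  have h2 := PD.rel3 B (T3 := Empty) (fun j => R.act (a j)) (fun j => α.α2 (p j)) b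
    (fun t => Du.map X.w J (bd Γ.s) (q t)) Empty.elim Empty.elim
    (fun x => by rw [← hΦ, hu, hq]; simp) (l ∘ₗ β.β2)
  have h3 : ∀ t, β.β2 (Du.map X.w J (bd Γ.s) (q t)) = 0 := fun t => Subtype.ext (by
    rw [β.hβ, show Du.map X.w J X.d1 (Du.map X.w J (bd Γ.s) (q t)) = 0 from
      Du.ext fun z => by simp [X.ex1.apply_apply_eq_zero], map_zero]
    rfl)
  simp only [LinearMap.comp_apply, h3, map_zero, Finset.sum_const_zero, Finset.univ_eq_empty,
    Finset.sum_empty, add_zero] at h2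
  rw [← add_zero (0 : R.A)]
  nth_rw 1 [← h2]
  rw [← h1 (l ∘ₗ β.k1), ← Finset.sum_add_distrib]
  refine Finset.sum_congr rfl fun j _ => ?_
  conv_lhs => rw [β.hk (p j)]
  simp only [map_add, LinearMap.comp_apply]

end Pool.Agent.Lib.MP_d98eb9_al.W
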