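import Pool.Agent.Lib.MP_d98eb9_al.W.Geo

/-! Construction of the Cayley complex with its duality properties. -/

namespace Pool.Agent.Lib.MP_d98eb9_al.W

open MonoidAlgebra

variable {G : Type} [Group G]

namespace Resolve

theorem lift {P M N : Type} [AddCommGroup P] [AddCommGroup M] [AddCommGroup N] [Module (ZG G) P]
    [Module (ZG G) M] [Module (ZG G) N] (hP : Module.Projective (ZG G) P) (d : M →ₗ[ZG G] N)
    (f : P →ₗ[ZG G] N) (h : ∀ x, ∃ y, d y = f x) : ∃ g : P →ₗ[ZG G] M, ∀ x, d (g x) = f x := by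
  obtain ⟨g, hg⟩ := Module.projective_lifting_property d.rangeRestrict
    (f.codRestrict (LinearMap.range d) h) d.surjective_rangeRestrict
  exact ⟨g, fun x => congrArg Subtype.val (LinearMap.congr_fun hg x)⟩

theorem dep_choice {A : ℕ → Type} (Q : ∀ n, A n → Prop) (R : ∀ n, A n → A (n + 1) → Prop)
    (a : A 0) (h0 : Q 0 a) (step : ∀ n a, Q n a → ∃ b, Q (n + 1) b ∧ R n a b) :
    ∃ f : ∀ n, A n, f 0 = a ∧ ∀ n, R n (f n) (f (n + 1)) := by
  choose s hs using step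
  let f : ∀ n, {a : A n // Q n a} := fun n =>
    Nat.rec (motive := fun n => {a : A n // Q n a}) ⟨a, h0⟩
      (fun n b => ⟨s n b.1 b.2, (hs n b.1 b.2).1⟩) n
  exact ⟨fun n => (f n).1, rfl, fun n => (hs n (f n).1 (f n).2).2⟩

theorem exists_chain (X Y : Resol G) : ∃ f : ∀ n, X.P n →ₗ[ZG G] Y.P n,
    (∀ x, Y.ε (f 0 x) = X.ε x) ∧ ∀ n x, Y.d n (f (n + 1) x) = f n (X.d n x) := by
  obtain ⟨B⟩ := X.db 0
  obtain ⟨β, hβ⟩ := exists_beta X.ε_smul B
  obtain ⟨y, hy⟩ := Y.ε_surj 1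
  have h0 : ∀ x, Y.ε ((LinearMap.toSpanSingleton (ZG G) _ y ∘ₗ β) x) = X.ε x := fun x => by
    rw [LinearMap.comp_apply, LinearMap.toSpanSingleton_apply, eps_smul Y.ε_smul, hβ, hy, mul_one]
  obtain ⟨f, e, hf⟩ := dep_choice (A := fun n => X.P n →ₗ[ZG G] Y.P n)
    (fun n f => ∀ x, ∃ y, Y.d n y = f (X.d n x))
    (fun n f g => ∀ x, Y.d n (g x) = f (X.d n x)) _
    (fun x => (Y.exact_zero _).1 ((h0 _).trans (X.exact_zero.apply_apply_eq_zero x)))
    fun n f hf => by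
      obtain ⟨g, hg⟩ := lift (X.projective (n + 1)) (Y.d n) (f ∘ₗ X.d n) hf
      exact ⟨g, fun x => (Y.exact_succ n _).1 (by
        rw [hg, LinearMap.comp_apply, (X.exact_succ n).apply_apply_eq_zero, map_zero]), hg⟩
  exact ⟨f, fun x => by rw [e, h0], hf⟩

theorem exists_htpy (X : Resol G) (k : ∀ n, X.P n →ₗ[ZG G] X.P n) (k0 : ∀ x, X.ε (k 0 x) = 0)
    (hk : ∀ n x, X.d n (k (n + 1) x) = k n (X.d n x)) : ∃ h : ∀ n, X.P n →ₗ[ZG G] X.P (n + 1),
      (∀ x, X.d 0 (h 0 x) = k 0 x) ∧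
        ∀ n x, X.d (n + 1) (h (n + 1) x) = k (n + 1) x - h n (X.d n x) := by
  obtain ⟨a, ha⟩ := lift (X.projective 0) (X.d 0) (k 0) fun x => (X.exact_zero _).1 (k0 x)
  obtain ⟨h, e, hh⟩ := dep_choice (A := fun n => X.P n →ₗ[ZG G] X.P (n + 1))
    (fun n h => ∀ x, X.d n (h (X.d n x)) = k n (X.d n x))
    (fun n h g => ∀ x, X.d (n + 1) (g x) = k (n + 1) x - h (X.d n x)) a (fun x => ha _)
    fun n h hh => by
      obtain ⟨g, hg⟩ := lift (X.projective (n + 1)) (X.d (n + 1)) (k (n + 1) - h ∘ₗ X.d n)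
        fun x => (X.exact_succ n _).1 (by
          rw [LinearMap.sub_apply, LinearMap.comp_apply, map_sub, hk, hh, sub_self])
      exact ⟨g, fun x => by rw [hg, LinearMap.sub_apply, LinearMap.comp_apply,
        (X.exact_succ n).apply_apply_eq_zero, map_zero, sub_zero], hg⟩
  exact ⟨h, fun x => by rw [e, ha], hh⟩

/-- The map on cocycles induced by a chain map. -/
noncomputable def zmap {X Y : Resol G} (f : ∀ n, X.P n →ₗ[ZG G] Y.P n)
    (hf : ∀ n x, Y.d n (f (n + 1) x) = f n (X.d n x)) (i : ℕ) : (Y.δ i).ker →+ (X.δ i).ker :=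
  AddMonoidHom.mk' (fun t => ⟨t.1 ∘ₗ f i, LinearMap.ext fun x => by
    have : t.1 (Y.d i (f (i + 1) x)) = 0 := LinearMap.congr_fun t.2 _
    rwa [hf] at this⟩) fun a b => Subtype.ext (LinearMap.add_comp _ _ _)

/-- The map on cohomology induced by a chain map. -/
noncomputable def hmap {X Y : Resol G} (f : ∀ n, X.P n →ₗ[ZG G] Y.P n)
    (hf : ∀ n x, Y.d n (f (n + 1) x) = f n (X.d n x)) (i : ℕ) : Y.H i →+ X.H i :=
  QuotientAddGroup.map _ _ (zmap f hf i) fun t ht => by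
    rw [AddSubgroup.mem_comap, AddSubgroup.mem_addSubgroupOf]
    rw [AddSubgroup.mem_addSubgroupOf] at ht
    cases i with
    | zero =>
      have h : t.1 = 0 := ht
      change t.1 ∘ₗ f 0 = 0
      rw [h, LinearMap.zero_comp]
    | succ i =>
      obtain ⟨θ, hθ⟩ := ht
      refine ⟨θ ∘ₗ f i, LinearMap.ext fun x => ?_⟩
      change θ (f i (X.d i x)) = t.1 (f (i + 1) x)
      rw [← hθ, ← hf]
      rfl

theorem hmap_hmap {X Y : Resol G} (f : ∀ n, X.P n →ₗ[ZG G] Y.P n) (f0 : ∀ x, Y.ε (f 0 x) = X.ε x)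
    (hf : ∀ n x, Y.d n (f (n + 1) x) = f n (X.d n x)) (g : ∀ n, Y.P n →ₗ[ZG G] X.P n)
    (g0 : ∀ x, X.ε (g 0 x) = Y.ε x) (hg : ∀ n x, X.d n (g (n + 1) x) = g n (Y.d n x)) (i : ℕ) :
    (hmap f hf i).comp (hmap g hg i) = AddMonoidHom.id _ := by
  obtain ⟨h, h0, hh⟩ := exists_htpy X (fun n => g n ∘ₗ f n - LinearMap.id)
    (fun x => by simp [g0, f0]) fun n x => by simp [hg, hf]
  refine QuotientAddGroup.addMonoidHom_ext _ (AddMonoidHom.ext fun t => ?_)
  refine (QuotientAddGroup.eq_iff_sub_mem (x := zmap f hf i (zmap g hg i t)) (y := t)).2 ?_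
  rw [AddSubgroup.mem_addSubgroupOf]
  have ht : ∀ x, t.1 (X.d i x) = 0 := LinearMap.congr_fun t.2
  cases i with
  | zero =>
    refine LinearMap.ext fun x => ?_
    change t.1 (g 0 (f 0 x)) - t.1 x = 0
    rw [← map_sub, ← ht (h 0 x), h0]
    rfl
  | succ i =>
    refine ⟨t.1 ∘ₗ h i, LinearMap.ext fun x => ?_⟩
    change t.1 (h i (X.d i x)) = t.1 (g (i + 1) (f (i + 1) x)) - t.1 x
    have := ht (h (i + 1) x)
    rw [hh, map_sub, sub_eq_zero] at this
    rw [← this, ← map_sub]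
    rfl

/-- A finite resolution of a submodule by finitely generated projective modules. -/
structure Tail {M : Type} [AddCommGroup M] [Module (ZG G) M] (K : Submodule (ZG G) M) where
  P : ℕ → ModuleCat.{0} (ZG G)
  d : ∀ n, P (n + 1) →ₗ[ZG G] P n
  π : P 0 →ₗ[ZG G] M
  range_π : ∀ x, x ∈ K ↔ ∃ y, π y = x
  ex0 : Function.Exact (d 0) π
  exs : ∀ n, Function.Exact (d (n + 1)) (d n)
  finite : ∀ n, Module.Finite (ZG G) (P n)
  projective : ∀ n, Module.Projective (ZG G) (P n)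
  bounded : ∃ m, ∀ n, m ≤ n → Subsingleton (P n)

variable {M Q : Type} [AddCommGroup M] [Module (ZG G) M] [AddCommGroup Q] [Module (ZG G) Q]

/-- The empty resolution. -/
noncomputable def Tail.nil {K : Submodule (ZG G) M} (hK : ∀ x ∈ K, x = 0) : Tail K where
  P _ := ModuleCat.of _ PUnit
  d _ := 0
  π := 0
  range_π x := ⟨fun h => ⟨0, (hK x h).symm⟩, fun ⟨_, h⟩ => h ▸ K.zero_mem⟩
  ex0 _ := ⟨fun _ => ⟨0, rfl⟩, fun _ => rfl⟩
  exs _ _ := ⟨fun _ => ⟨0, rfl⟩, fun _ => rfl⟩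
  finite _ := (inferInstance : Module.Finite (ZG G) PUnit)
  projective _ := (inferInstance : Module.Projective (ZG G) PUnit)
  bounded := ⟨0, fun _ _ => (inferInstance : Subsingleton PUnit)⟩

/-- One more step. -/
noncomputable def Tail.cons {K : Submodule (ZG G) M} (F : Module.Finite (ZG G) Q)
    (hQ : Module.Projective (ZG G) Q) (π : Q →ₗ[ZG G] M) (hπ : ∀ x, x ∈ K ↔ ∃ y, π y = x)
    (T : Tail (LinearMap.ker π)) : Tail K where
  P n := match n with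
    | 0 => ModuleCat.of _ Q
    | n + 1 => T.P n
  d n := match n with
    | 0 => T.π
    | n + 1 => T.d n
  π := π
  range_π := hπ
  ex0 := T.range_π
  exs n := match n with
    | 0 => T.ex0
    | n + 1 => T.exs n
  finite n := match n with
    | 0 => F
    | n + 1 => T.finite n
  projective n := match n with
    | 0 => hQ
    | n + 1 => T.projective n
  bounded := by
    obtain ⟨m, hm⟩ := T.bounded
    refine ⟨m + 1, fun n hn => ?_⟩
    obtain ⟨k, rfl⟩ : ∃ k, n = k + 1 := ⟨n - 1, by omega⟩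
    exact hm k (by omega)

/-- `K` is a stable retract of the module of boundaries of `X` in degree `i`. -/
def St (X : Resol G) (i : ℕ) (K : Submodule (ZG G) M) : Prop :=
  ∃ (A : X.P i →ₗ[ZG G] M) (B : M →ₗ[ZG G] X.P i) (σ : M →ₗ[ZG G] M), (∀ y, A (X.d i y) ∈ K) ∧
    (∀ x ∈ K, ∃ y, X.d i y = B x) ∧ (∀ x, σ x ∈ K) ∧ ∀ x ∈ K, A (B x) + σ x = x

theorem St.step {X : Resol G} {i : ℕ} {K : Submodule (ZG G) M} (h : St X i K)
    (hM : Module.Projective (ZG G) M) (hQ : Module.Projective (ZG G) Q) (π : Q →ₗ[ZG G] M)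
    (hπ : ∀ x, x ∈ K ↔ ∃ y, π y = x) : St X (i + 1) (LinearMap.ker π) := by
  obtain ⟨A, B, σ, h1, h2, h3, h4⟩ := h
  have hK : ∀ y, π y ∈ K := fun y => (hπ _).2 ⟨y, rfl⟩
  obtain ⟨A', hA⟩ := lift (X.projective (i + 1)) π (A ∘ₗ X.d i) fun y => (hπ _).1 (h1 y)
  obtain ⟨B', hB⟩ := lift hQ (X.d i) (B ∘ₗ π) fun y => h2 _ (hK y)
  obtain ⟨T, hT⟩ := lift hM π σ fun y => (hπ _).1 (h3 y)
  refine ⟨A', B', LinearMap.id - A' ∘ₗ B' - T ∘ₗ π, fun y => ?_, fun x hx => ?_, fun x => ?_,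
    fun x hx => ?_⟩
  · simp [hA, (X.exact_succ i).apply_apply_eq_zero]
  · exact (X.exact_succ i _).1 (by simp [hB, LinearMap.mem_ker.1 hx])
  · simp [hA, hB, hT, sub_sub, h4 _ (hK x)]
  · simp [LinearMap.mem_ker.1 hx]

theorem St.gen {X : Resol G} {i : ℕ} {K : Submodule (ZG G) M} (h : St X i K) :
    ∃ π : (X.P (i + 1) × M) →ₗ[ZG G] M, ∀ x, x ∈ K ↔ ∃ y, π y = x := by
  obtain ⟨A, B, σ, h1, h2, h3, h4⟩ := h
  refine ⟨(A ∘ₗ X.d i).coprod σ, fun x => ⟨fun hx => ?_, ?_⟩⟩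
  · obtain ⟨y, hy⟩ := h2 x hx
    exact ⟨(y, x), by simp [hy, h4 x hx]⟩
  · rintro ⟨y, rfl⟩
    exact K.add_mem (h1 _) (h3 _)

theorem St.tail {X : Resol G} {m : ℕ} (hm : ∀ n, m ≤ n → Subsingleton (X.P n)) (k : ℕ) :
    ∀ (i : ℕ) (M : Type) [AddCommGroup M] [Module (ZG G) M] (K : Submodule (ZG G) M), m ≤ i + k →
      Module.Finite (ZG G) M → Module.Projective (ZG G) M → St X i K → Nonempty (Tail K) := by
  induction k with
  | zero =>
    rintro i M _ _ K hi F hM ⟨A, B, σ, -, -, h3, h4⟩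
    have := hm i hi
    have e : ∀ x : K, σ.codRestrict K h3 x = x := fun x => Subtype.ext (by
      have := h4 x x.2
      rwa [Subsingleton.elim (B x) 0, map_zero, zero_add] at this)
    exact ⟨Tail.cons (Module.Finite.of_surjective (σ.codRestrict K h3) fun x => ⟨x, e x⟩)
      (Module.Projective.of_split K.subtype (σ.codRestrict K h3) (LinearMap.ext e)) K.subtype
      (fun x => ⟨fun h => ⟨⟨x, h⟩, rfl⟩, fun ⟨y, h⟩ => h ▸ y.2⟩)
      (Tail.nil fun x hx => Subtype.ext hx)⟩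
  | succ k ih =>
    intro i M _ _ K hi F hM h
    obtain ⟨π, hπ⟩ := h.gen
    have := X.finite (i + 1)
    have := X.projective (i + 1)
    obtain ⟨T⟩ := ih (i + 1) _ _ (by omega) inferInstance inferInstance
      (h.step hM inferInstance π hπ)
    exact ⟨Tail.cons inferInstance inferInstance π hπ T⟩

theorem exists_tail (X : Resol G) (Γ : Gen G) : ∃ (m : ℕ) (d1 : Fr G m →ₗ[ZG G] Fr G Γ.n),
    (∀ x, x ∈ LinearMap.ker (bd Γ.s) ↔ ∃ y, d1 y = x) ∧ Nonempty (Tail (LinearMap.ker d1)) := by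
  obtain ⟨B⟩ := X.db 0
  obtain ⟨β, hβ⟩ := exists_beta X.ε_smul B
  obtain ⟨y, hy⟩ := X.ε_surj 1
  have ex := exact_bd Γ.s Γ.gen
  have hε : ∀ r : ZG G, X.ε (r • y) = aug G r := fun r => by rw [eps_smul X.ε_smul, hy, mul_one]
  have s0 : St X 0 (LinearMap.range (bd Γ.s)) :=
    ⟨β, LinearMap.toSpanSingleton _ _ y, LinearMap.id - β ∘ₗ LinearMap.toSpanSingleton _ _ y,
      fun x => (ex _).1 ((hβ _).trans (X.exact_zero.apply_apply_eq_zero x)),
      fun x hx => (X.exact_zero _).1 ((hε x).trans ((ex x).2 hx)),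
      fun x => (ex _).1 (by simp [-map_smul, hβ, hy]), fun x _ => by simp⟩
  have s1 := s0.step inferInstance inferInstance (bd Γ.s) fun _ => Iff.rfl
  obtain ⟨π, hπ⟩ := s1.gen
  have := X.finite (0 + 1 + 1)
  have fg : (LinearMap.ker (bd Γ.s)).FG := by
    rw [show LinearMap.ker (bd Γ.s) = LinearMap.range π from Submodule.ext hπ]
    exact Module.Finite.iff_fg.1 inferInstance
  obtain ⟨m, v, hv⟩ := Submodule.fg_iff_exists_fin_generating_family.1 fg
  have h1 : ∀ x, x ∈ LinearMap.ker (bd Γ.s) ↔ ∃ y, Finsupp.linearCombination (ZG G) v y = x :=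
    fun x => by rw [← hv, ← Finsupp.range_linearCombination]; rfl
  obtain ⟨b, hb⟩ := X.bounded
  exact ⟨m, _, h1, St.tail hb b _ _ _ (by omega) inferInstance inferInstance
    (s1.step inferInstance inferInstance _ h1)⟩

/-- The resolution which begins with the Cayley complex. -/
noncomputable def cay (Γ : Gen G) (T : Tail (LinearMap.range (bd Γ.s))) : Resol G where
  P n := match n with
    | 0 => ModuleCat.of _ (ZG G)
    | n + 1 => T.P n
  d n := match n with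
    | 0 => T.π
    | n + 1 => T.d n
  ε := (aug G).toAddMonoidHom
  ε_smul g x := by
    change aug G (single g 1 * x) = aug G x
    simp
  ε_surj k := ⟨single 1 k, aug_single 1 k⟩
  exact_zero x := (exact_bd Γ.s Γ.gen x).trans (T.range_π x)
  exact_succ n := match n with
    | 0 => T.ex0
    | n + 1 => T.exs n
  finite n := match n with
    | 0 => (inferInstance : Module.Finite (ZG G) (ZG G))
    | n + 1 => T.finite n
  projective n := match n with
    | 0 => (inferInstance : Module.Projective (ZG G) (ZG G))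
    | n + 1 => T.projective n
  bounded := by
    obtain ⟨m, hm⟩ := T.bounded
    refine ⟨m + 1, fun n hn => ?_⟩
    obtain ⟨k, rfl⟩ : ∃ k, n = k + 1 := ⟨n - 1, by omega⟩
    exact hm k (by omega)

theorem inf (Γ : Gen G) (h : ∀ θ : ZG G →ₗ[ZG G] ZG G, θ ∘ₗ bd Γ.s = 0 → θ = 0) : Infinite G := by
  classical
  by_contra hf
  have : Fintype G := fintypeOfNotInfinite hf
  have hN : ∀ g : G, (single g 1 : ZG G) * ∑ k, single k 1 = ∑ k, single k 1 := fun g => by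
    rw [Finset.mul_sum]
    exact Fintype.sum_equiv (Equiv.mulLeft g) _ _ fun k => by simp [single_mul_single]
  have := h (LinearMap.toSpanSingleton _ _ (∑ k, single k 1)) (Finsupp.lhom_ext' fun i =>
    LinearMap.ext_ring (by simp [bd_single, sub_mul, hN]))
  have h1 := congrArg (fun θ : ZG G →ₗ[ZG G] ZG G => (θ 1).coeff 1) this
  simp [coeff_sum, Finsupp.single_apply] at h1

theorem exists_dual (Γ : Gen G) {m : ℕ} (d1 : Fr G m →ₗ[ZG G] Fr G Γ.n) {P3 P4 : Type}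
    [AddCommGroup P3] [Module (ZG G) P3] [AddCommGroup P4] [Module (ZG G) P4]
    (d2 : P3 →ₗ[ZG G] Fr G m) (d3 : P4 →ₗ[ZG G] P3) (h23 : ∀ z, d2 (d3 z) = 0) (B : DB G P3)
    (w : G →* ℤ) (J : Subgroup G) (K : AddSubgroup (P3 →ₗ[ZG G] ZG G))
    (hK : ∀ t, t ∈ K ↔ t ∘ₗ d3 = 0) (η0 : K →+ ℤ) (hs0 : Function.Surjective η0)
    (hk0 : ∀ t, η0 t = 0 ↔ ∃ θ : Fr G m →ₗ[ZG G] ZG G, θ ∘ₗ d2 = t)
    (hinv : ∀ (g : G) (t t' : K), (∀ x, t'.1 x = t.1 x * single g⁻¹ (w g)) → η0 t' = η0 t)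
    (ρ : Du w J P3 →ₗ[ZG J] Du w J P3) (hρ1 : ∀ q, Du.map w J d3 (ρ q) = 0)
    (hρ2 : ∀ q, Du.map w J d3 q = 0 → ρ q = q)
    (H2 : Function.Exact (Du.map w J d1) (Du.map w J d2)) : Nonempty (Dual Γ w d1 J) := by
  let Q := LinearMap.ker (Du.map w J d3)
  have p3 := B.projective (w := w) (C := J)
  have hQ : Module.Projective (ZG J) Q := Module.Projective.of_split Q.subtype
    (ρ.codRestrict Q hρ1) (LinearMap.ext fun q => Subtype.ext (hρ2 q q.2))
  let e1 : Du w J (Fr G m) →ₗ[ZG J] Q := (Du.map w J d2).codRestrict Q fun q =>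
    Du.ext fun z => by simp [h23]
  let toK : Q →+ K := AddMonoidHom.mk' (fun q => ⟨q.1.ev, (hK _).2 q.2⟩) fun _ _ => rfl
  let η : Q →+ ℤ := η0.comp toK
  have exη : Function.Exact e1 η := fun q =>
    (hk0 (toK q)).trans ⟨fun ⟨θ, hθ⟩ => ⟨Du.mk w J θ, Subtype.ext hθ⟩,
      fun ⟨θ, hθ⟩ => ⟨θ.ev, congrArg Subtype.val hθ⟩⟩
  obtain ⟨t, ht⟩ := hs0 1
  let q : G → Q := fun g => ⟨rm w J t.1 (single g⁻¹ (w g)), Du.ext fun z => by
    have : t.1 (d3 z) = 0 := LinearMap.congr_fun ((hK _).1 t.2) z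
    simp [this]⟩
  have hq : ∀ g x, (q g).1.ev x = t.1 x * single g⁻¹ (w g) := fun _ _ => rfl
  have ηq : ∀ g, η (q g) = 1 := fun g => (hinv g t (toK (q g)) fun _ => rfl).trans ht
  have mul : ∀ a b : G, (single a⁻¹ (w a) : ZG G) * single b⁻¹ (w b) =
      single (b * a)⁻¹ (w (b * a)) := fun a b => by
    rw [single_mul_single, mul_inv_rev, map_mul, mul_comm (w a)]
  choose θ hθ using fun i => (exη (q (Γ.s i) - q 1)).1 (by rw [map_sub, ηq, ηq, sub_self])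
  refine ⟨⟨ModuleCat.of _ Q, hQ, e1, η, fun g x => hinv g _ _ fun z => Du.ev_single_smul g x.1 z,
    exη, fun x => Subtype.ext_iff.trans (H2 x), q, ηq,
    fun c g => Subtype.ext (Du.ext fun x => ?_), fun g i => rm w J (θ i).ev (single g⁻¹ (w g)),
    fun g i => Subtype.ext (Du.ext fun x => ?_), fun c g i => ?_, ?_⟩⟩
  · exact (Du.ev_single_smul c (q g).1 x).trans (by rw [hq, hq, mul_assoc, mul])
  · have h : (θ i).ev (d2 x) = (q (Γ.s i)).1.ev x - (q 1).1.ev x :=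
      congrArg (fun v : Q => v.1.ev x) (hθ i)
    change (θ i).ev (d2 x) * single g⁻¹ (w g) = (q (g * Γ.s i)).1.ev x - (q g).1.ev x
    rw [h, hq, hq, hq, hq, sub_mul, mul_assoc, mul_assoc, mul, mul, mul_one]
  · rw [← rm_mul, mul]
  · obtain ⟨r, hr⟩ := Gen.bdd_of_finite (Γ := Γ) (Set.finite_iUnion fun p : Fin Γ.n × Fin m =>
      (((θ p.1).ev (e 1 p.2)).coeff.support).finite_toSet) 1
    refine ⟨r, fun g i h k hne => ?_⟩
    rw [Gen.d_comm, Gen.d_eq]
    refine hr _ (Set.mem_iUnion.2 ⟨(i, k), Finsupp.mem_support_iff.2 fun h0 => hne ?_⟩)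
    rw [co_apply, rm_ev, ← mul_one h, ← smul_e, map_smul, smul_eq_mul, coeff_mul_single_apply,
      coeff_single_mul_apply]
    simp [h0]

end Resolve

open Resolve

/-- Cohomology does not depend on the resolution. -/
theorem Resol.H_equiv (X Y : Resol G) (i : ℕ) : Nonempty (X.H i ≃+ Y.H i) := by
  obtain ⟨f, f0, hf⟩ := exists_chain X Y
  obtain ⟨g, g0, hg⟩ := exists_chain Y X
  exact ⟨(hmap g hg i).toAddEquiv (hmap f hf i) (hmap_hmap f f0 hf g g0 hg i)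
    (hmap_hmap g g0 hg f f0 hf i)⟩

theorem exists_geo (hG : IsPD 3 G) (Γ : Gen G) : Nonempty (Geo Γ) := by
  obtain ⟨X, hX, ⟨φ⟩⟩ := hG
  obtain ⟨m, d1, h1, ⟨T⟩⟩ := exists_tail X Γ
  let Y := cay Γ (Tail.cons inferInstance inferInstance (bd Γ.s) (fun _ => Iff.rfl)
    (Tail.cons inferInstance inferInstance d1 h1 T))
  have hY : ∀ i, i ≠ 3 → Subsingleton (Y.H i) := fun i hi => by
    obtain ⟨ψ⟩ := Resol.H_equiv Y X i
    have := hX i hi
    exact ψ.toEquiv.subsingleton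
  obtain ⟨ψ⟩ := Resol.H_equiv Y X 3
  obtain ⟨w, η0, hs0, hk0, hinv⟩ := Y.orient (ψ.trans φ)
  obtain ⟨B⟩ := Y.db 3
  refine ⟨⟨m, d1, h1, w, inf Γ fun θ h => Y.mem_cob (hY 0 (by omega)) θ h,
    fun θ h => Y.mem_cob (hY 1 (by omega)) θ h, fun θ h => Y.mem_cob (hY 2 (by omega)) θ
      (LinearMap.ext fun z => h _ ((Y.exact_succ 1).apply_apply_eq_zero z)), fun J => ?_⟩⟩
  obtain ⟨ρ, hρ1, hρ2⟩ := Y.retract w J hY
  exact exists_dual Γ d1 (Y.d 2) (Y.d 3) (Y.exact_succ 2).apply_apply_eq_zero B w J (Y.δ 3).ker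
    (fun _ => Iff.rfl) η0 hs0 hk0 hinv ρ hρ1 hρ2 (Y.exact_Du w J (hY 2 (by omega)))

theorem IsPD.fg (hG : IsPD 3 G) : Group.FG G := by
  obtain ⟨X, -⟩ := hG
  obtain ⟨B0⟩ := X.db 0
  obtain ⟨B1⟩ := X.db 1
  obtain ⟨S, -, hS⟩ := exists_gen X.ε_smul X.ε_surj X.exact_zero B0 B1
  exact ⟨⟨S, hS⟩⟩

end Pool.Agent.Lib.MP_d98eb9_al.W
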