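import Pool.Agent.Lib.MP_1d6a3f_al.Defs
import Pool.Agent.Lib.MP_d98eb9_al.W.Sys

/-! A system gives a splitting. -/

namespace Pool.Agent.Lib.MP_d98eb9_al.W

open Pool.Agent.Lib.MP_1d6a3f_al

variable {G : Type} [Group G] {C : Subgroup G} {X : Set G}

namespace Split

/-- The edge `yC` is adjacent to the edge `C`. -/
def Adj (C : Subgroup G) (X : Set G) (y : G) : Prop :=
  y ∉ C ∧ ∀ u, u ∉ C → u * y ∉ C → (u ∈ X ↔ u * y ∈ X)

theorem Adj.inv {y : G} (hy : Adj C X y) : Adj C X y⁻¹ := by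
  refine ⟨fun hc => hy.1 (by simpa using C.inv_mem hc), fun u hu huy => ?_⟩
  have := hy.2 (u * y⁻¹) huy (by simpa using hu)
  simpa using this.symm

theorem Adj.opp {y : G} (hy : Adj C X y) : Adj C (opp C X) y := by
  refine ⟨hy.1, fun u hu huy => ?_⟩
  have := hy.2 u hu huy
  simp only [W.opp, Set.mem_ofPred_eq]
  tauto

theorem Adj.left (h : Sys C X) {y c : G} (hy : Adj C X y) (hc : c ∈ C) : Adj C X (c * y) := by
  refine ⟨fun hcy => hy.1 ((C.mul_mem_cancel_left hc).1 hcy), fun u hu huy => ?_⟩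
  have h1 : u * c ∉ C := fun h' => hu ((C.mul_mem_cancel_right hc).1 h')
  have := hy.2 (u * c) h1 (by rwa [mul_assoc])
  rw [h.right_iff hc, mul_assoc] at this
  exact this

theorem Adj.right (h : Sys C X) {y c : G} (hy : Adj C X y) (hc : c ∈ C) : Adj C X (y * c) := by
  have := (hy.inv.left h (C.inv_mem hc)).inv
  simpa using this

theorem Adj.mul (h : Sys C X) {g k : G} (hg : Adj C X g) (hk : Adj C X k) (hgk : g * k ∉ C)
    (hs : g⁻¹ ∈ X ↔ k ∈ X) :
    Adj C X (g * k) ∧ (g * k ∈ X ↔ g ∈ X) ∧ ((g * k)⁻¹ ∈ X ↔ k⁻¹ ∈ X) := by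
  refine ⟨⟨hgk, fun u hu hugk => ?_⟩, (hk.2 g hg.1 hgk).symm, ?_⟩
  · by_cases hug : u * g ∈ C
    · have e1 : u = (u * g) * g⁻¹ := by group
      have e2 : u * (g * k) = (u * g) * k := by group
      rw [e2, h.left_iff hug]
      conv_lhs => rw [e1]
      rw [h.left_iff hug]
      exact hs
    · have e2 : u * (g * k) = (u * g) * k := by group
      rw [e2] at hugk ⊢
      exact (hg.2 u hu hug).trans (hk.2 _ hug hugk)
  · have h1 : k⁻¹ * g⁻¹ ∉ C := fun h' => hgk (by simpa using C.inv_mem h')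
    have := hg.inv.2 k⁻¹ hk.inv.1 h1
    rw [mul_inv_rev]
    exact this.symm

/-- The stabiliser of the head of the base edge. -/
def vx (h : Sys C X) : Subgroup G where
  carrier := {g | g ∈ C ∨ (Adj C X g ∧ g ∈ X ∧ g⁻¹ ∈ X)}
  one_mem' := Or.inl C.one_mem
  mul_mem' := by
    rintro a b (ha | ⟨ha, ha1, ha2⟩) (hb | ⟨hb, hb1, hb2⟩)
    · exact Or.inl (C.mul_mem ha hb)
    · refine Or.inr ⟨hb.left h ha, h.left a ha b hb1, ?_⟩
      rw [mul_inv_rev]; exact h.right _ (C.inv_mem ha) _ hb2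
    · refine Or.inr ⟨ha.right h hb, h.right b hb a ha1, ?_⟩
      rw [mul_inv_rev]; exact h.left _ (C.inv_mem hb) _ ha2
    · by_cases hab : a * b ∈ C
      · exact Or.inl hab
      · obtain ⟨h1, h2, h3⟩ := ha.mul h hb hab (by simp [ha2, hb1])
        exact Or.inr ⟨h1, h2.2 ha1, h3.2 hb2⟩
  inv_mem' := by
    rintro a (ha | ⟨ha, ha1, ha2⟩)
    · exact Or.inl (C.inv_mem ha)
    · exact Or.inr ⟨ha.inv, ha2, by simpa using ha1⟩

theorem mem_vx (h : Sys C X) {g : G} :
    g ∈ vx h ↔ g ∈ C ∨ (Adj C X g ∧ g ∈ X ∧ g⁻¹ ∈ X) := Iff.rfl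

theorem le_vx (h : Sys C X) : C ≤ vx h := fun _ hc => Or.inl hc

theorem vx_not_opp (h : Sys C X) {g : G} (hg : g ∈ vx h) : g ∉ opp C X := by
  rintro ⟨h1, h2⟩
  rcases hg with hg | hg
  · exact h1 hg
  · exact h2 hg.2.1

theorem vx_ne_top (h : Sys C X) : vx h ≠ ⊤ := by
  intro he
  obtain ⟨y, hy⟩ := h.ne'
  exact vx_not_opp h (he ▸ Subgroup.mem_top y) hy

/-- Ping-pong step. -/
theorem step (h : Sys C X) {s w : G} (hs : s ∈ X) (hw : w ∈ C ∨ (w ∉ C ∧ ¬ (s⁻¹ ∈ X ↔ w ∈ X))) :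
    s * w ∈ X := by
  rcases hw with hw | hw
  · exact h.right w hw s hs
  · exact h.far_mem hs hw

theorem pp (h : Sys C X) {a w : G} (ha : a ∈ X) (ha' : a⁻¹ ∈ X) (hw : w ∉ X) : a * w ∈ X := by
  refine step h ha ?_
  by_cases hc : w ∈ C
  · exact Or.inl hc
  · exact Or.inr ⟨hc, fun hi => hw (hi.1 ha')⟩

/-- The group is generated by `C` and the adjacent elements. -/
theorem gen (h : Sys C X) (H : Subgroup G) (hC : C ≤ H) (hA : ∀ y, Adj C X y → y ∈ H) (y : G) :
    y ∈ H := by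
  suffices hs : ∀ n, ∀ y, nn C X y = n → y ∈ H from hs _ y rfl
  intro n
  induction n using Nat.strong_induction_on with
  | _ n ih =>
    intro y hy
    by_cases hc : y ∈ C
    · exact hC hc
    by_cases ha : Adj C X y
    · exact hA y ha
    have : ∃ u, u ∉ C ∧ u * y ∉ C ∧ ¬ (u ∈ X ↔ u * y ∈ X) := by
      by_contra hn
      apply ha
      refine ⟨hc, fun u hu huy => ?_⟩
      by_contra hi
      exact hn ⟨u, hu, huy, hi⟩
    obtain ⟨u, hu, huy, hi⟩ := this
    have h1 := h.nn_lt hu huy hi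
    have h2 := h.nn_lt huy hu (fun h' => hi h'.symm)
    have e1 : u⁻¹ * (u * y) = y := by group
    have e2 : (u * y)⁻¹ * u = y⁻¹ := by group
    rw [e1, hy] at h1
    rw [e2, h.nn_inv, hy] at h2
    have m1 := ih _ h1 _ rfl
    have m2 := ih _ h2 _ rfl
    rw [← e1]
    exact H.mul_mem (H.inv_mem m2) m1

/-! The amalgam -/

/-- The two sides. -/
def sd (C : Subgroup G) (X : Set G) : Bool → Set G
  | true => X
  | false => opp C X

theorem sys_sd (h : Sys C X) : ∀ i, Sys C (sd C X i)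
  | true => h
  | false => h.swap

theorem sd_disj {i j : Bool} (hij : i ≠ j) {w : G} (hw : w ∈ sd C X j) : w ∉ sd C X i := by
  cases i <;> cases j
  · exact absurd rfl hij
  · exact fun h' => h'.2 hw
  · exact hw.2
  · exact absurd rfl hij

theorem list_side (h : Sys C X) :
    ∀ (l : List (Σ i : Bool, vx (sys_sd h i))) (a : Σ i : Bool, vx (sys_sd h i)),
      (∀ b ∈ a :: l, (b.2 : G) ∉ C) → (a :: l).IsChain (fun b c => b.1 ≠ c.1) →
      ((a :: l).map fun b => (b.2 : G)).prod ∈ sd C X a.1 := by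
  intro l
  induction l with
  | nil =>
    intro a ha _
    have h1 := ha a List.mem_cons_self
    rcases a.2.2 with h2 | h2
    · exact absurd h2 h1
    · simpa using h2.2.1
  | cons b l ih =>
    intro a ha hch
    have h1 := ha a List.mem_cons_self
    rw [List.isChain_cons_cons] at hch
    have h3 := ih b (fun c hc => ha c (List.mem_cons_of_mem _ hc)) hch.2
    rw [List.map_cons, List.prod_cons]
    rcases a.2.2 with h2 | h2
    · exact absurd h2 h1
    · exact pp (sys_sd h a.1) h2.2.1 h2.2.2 (sd_disj hch.1 h3)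

open Monoid in
theorem amalgam (h : Sys C X) (hn : ∀ t, Adj C X t → t ∈ X → t⁻¹ ∈ X) : IsAmalgamOver C := by
  classical
  let φ : ∀ i : Bool, C →* vx (sys_sd h i) := fun i => Subgroup.inclusion (le_vx (sys_sd h i))
  have hφ : ∀ i, Function.Injective (φ i) := fun i => Subgroup.inclusion_injective _
  let f : PushoutI φ →* G :=
    PushoutI.lift (fun i => (vx (sys_sd h i)).subtype) C.subtype (fun i => by ext; rfl)
  have f_of : ∀ i (a : vx (sys_sd h i)), f (PushoutI.of (φ := φ) i a) = a := fun i a =>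
    PushoutI.lift_of (φ := φ) (fun i => (vx (sys_sd h i)).subtype) C.subtype _ a
  have f_base : ∀ c : C, f (PushoutI.base φ c) = c := fun c =>
    PushoutI.lift_base (φ := φ) (fun i => (vx (sys_sd h i)).subtype) C.subtype _ c
  have hsurj : Function.Surjective f := by
    intro y
    refine gen h f.range (fun c hc => ⟨_, f_base ⟨c, hc⟩⟩) (fun y hy => ?_) y
    by_cases hx : y ∈ X
    · exact ⟨_, f_of true ⟨y, Or.inr ⟨hy, hx, hn y hy hx⟩⟩⟩
    · refine ⟨_, f_of false ⟨y, Or.inr ⟨hy.opp, ⟨hy.1, hx⟩, hy.inv.1, fun h' => hx ?_⟩⟩⟩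
      simpa using hn _ hy.inv h'
  have hinj : Function.Injective f := by
    rw [injective_iff_map_eq_one]
    intro p hp
    obtain ⟨d⟩ := PushoutI.NormalWord.transversal_nonempty φ hφ
    obtain ⟨w, rfl⟩ : ∃ w : PushoutI.NormalWord d, w.prod = p :=
      ⟨p • PushoutI.NormalWord.empty, by simp⟩
    have hprod : ∀ l : List (Σ i : Bool, vx (sys_sd h i)),
        f (PushoutI.ofCoprodI (l.map fun b => CoprodI.of b.2).prod) =
          (l.map fun b => (b.2 : G)).prod := by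
      intro l
      induction l with
      | nil => simp
      | cons b l ih => simp only [List.map_cons, List.prod_cons, map_mul, ih,
          PushoutI.ofCoprodI_of, f_of]
    have hlet : ∀ b ∈ w.toList, (b.2 : G) ∉ C := by
      rintro ⟨i, g⟩ hb hc
      have h1 : g ∈ d.set i := w.normalized i g hb
      have h2 : g ≠ 1 := w.ne_one _ hb
      have h3 : g ∈ (φ i).range := ⟨⟨g, hc⟩, rfl⟩
      have h4 := (d.compl i).1
        (a₁ := (⟨g, h3⟩, ⟨1, d.one_mem i⟩)) (a₂ := (⟨1, (φ i).range.one_mem⟩, ⟨g, h1⟩)) (by simp)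
      apply h2
      simpa using congrArg (fun z => (z.1 : vx (sys_sd h i))) h4
    have hch := w.chain_ne
    simp only [PushoutI.NormalWord.prod, CoprodI.Word.prod, map_mul, f_base, hprod] at hp ⊢
    cases hl : w.toList with
    | nil =>
      rw [hl] at hp
      have : w.head = 1 := by simpa using hp
      simp [this]
    | cons a l =>
      exfalso
      rw [hl] at hp hlet hch
      have h1 := list_side h l a hlet hch
      have h2 := (sys_sd h a.1).left _ w.head.2 _ h1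
      rw [hp] at h2
      exact (sys_sd h a.1).disj _ h2 C.one_mem
  refine ⟨C, inferInstance, fun i => vx (sys_sd h i), inferInstance, φ,
    MulEquiv.ofBijective f ⟨hinj, hsurj⟩, hφ, ?_, fun i => ?_⟩
  · ext g
    constructor
    · rintro ⟨c, rfl⟩
      have : f (PushoutI.base φ c) ∈ C := by rw [f_base]; exact c.2
      exact this
    · intro hg
      exact ⟨⟨g, hg⟩, f_base ⟨g, hg⟩⟩
  · intro he
    apply vx_ne_top (sys_sd h i)
    rw [eq_top_iff]
    intro g _
    obtain ⟨a, ha⟩ : g ∈ _ := he ▸ Subgroup.mem_top g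
    have : f (PushoutI.of (φ := φ) i a) = g := ha
    rw [f_of] at this
    exact this ▸ a.2

/-! The HNN extension -/

/-- Elements carrying the tail of the base edge to its head. -/
def Tt (C : Subgroup G) (X : Set G) (s : G) : Prop := Adj C X s ∧ s ∈ X ∧ s⁻¹ ∉ X

theorem Tt.inv_opp {s : G} (hs : Tt C X s) : s⁻¹ ∈ opp C X := ⟨hs.1.inv.1, hs.2.2⟩

theorem Tt.mul (h : Sys C X) {a s : G} (ha : a ∈ vx h) (hs : Tt C X s) : Tt C X (a * s) := by
  rcases ha with ha | ⟨ha, ha1, ha2⟩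
  · refine ⟨hs.1.left h ha, h.left a ha s hs.2.1, ?_⟩
    rw [mul_inv_rev, h.right_iff (C.inv_mem ha)]
    exact hs.2.2
  · have hc : a * s ∉ C := by
      intro hc
      apply hs.2.2
      have : s⁻¹ = (a * s)⁻¹ * a := by group
      rw [this]
      exact h.left _ (C.inv_mem hc) _ ha1
    obtain ⟨h1, h2, h3⟩ := ha.mul h hs.1 hc (by simp [ha2, hs.2.1])
    exact ⟨h1, h2.2 ha1, fun h' => hs.2.2 (h3.1 h')⟩

theorem Tt.div (h : Sys C X) {g t : G} (hg : Tt C X g) (ht : Tt C X t) : g * t⁻¹ ∈ vx h := by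
  by_cases hc : g * t⁻¹ ∈ C
  · exact Or.inl hc
  · obtain ⟨h1, h2, h3⟩ := hg.1.mul h ht.1.inv hc (by simp [hg.2.2, ht.2.2])
    exact Or.inr ⟨h1, h2.2 hg.2.1, h3.2 (by simpa using ht.2.1)⟩

theorem Tt.right (h : Sys C X) {t c : G} (ht : Tt C X t) (hc : c ∈ C) : Tt C X (t * c) := by
  refine ⟨ht.1.right h hc, h.right c hc t ht.2.1, ?_⟩
  rw [mul_inv_rev, h.left_iff (C.inv_mem hc)]
  exact ht.2.2

theorem Tt.conj (h : Sys C X) {t c : G} (ht : Tt C X t) (hc : c ∈ C) : t * c * t⁻¹ ∈ vx h :=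
  (ht.right h hc).div h ht

/-- The regions of the ping-pong argument. -/
def Rg (C : Subgroup G) (X : Set G) (t : G) (u : ℤˣ) : Set G :=
  {w | if u = 1 then t⁻¹ * w ∉ opp C X else w ∈ opp C X}

theorem Tt.inv_mul (h : Sys C X) {t a : G} (ht : Tt C X t) (ha : a ∈ vx h) :
    t⁻¹ * a ∈ opp C X := by
  have := (ht.mul h ((vx h).inv_mem ha)).inv_opp
  simpa using this

theorem not_Rg (h : Sys C X) {t a : G} (ht : Tt C X t) (ha : a ∈ vx h) (u : ℤˣ) :
    a ∉ Rg C X t u := by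
  unfold Rg
  rw [Set.mem_ofPred_eq]
  split_ifs
  · exact fun h' => h' (ht.inv_mul h ha)
  · exact vx_not_opp h ha

theorem Rg_one (t w : G) : w ∈ Rg C X t 1 ↔ t⁻¹ * w ∉ opp C X := by simp [Rg]

theorem Rg_neg (t w : G) : w ∈ Rg C X t (-1) ↔ w ∈ opp C X := by
  have : (-1 : ℤˣ) ≠ 1 := by decide
  simp [Rg, this]

theorem mem_X {w : G} (hw : w ∈ X) : w ∉ opp C X := fun h' => h'.2 hw

theorem s11 (h : Sys C X) {t a w : G} (ht : Tt C X t) (ha : a ∈ vx h) (hw : w ∈ Rg C X t 1) :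
    t * a * w ∈ Rg C X t 1 := by
  rw [Rg_one] at hw ⊢
  have hs := ht.mul h ha
  have e : t⁻¹ * (t * a * w) = (a * t) * (t⁻¹ * w) := by group
  rw [e]
  refine mem_X (step h hs.2.1 ?_)
  by_cases hc : t⁻¹ * w ∈ C
  · exact Or.inl hc
  · refine Or.inr ⟨hc, fun hi => hw ⟨hc, fun h' => hs.2.2 (hi.2 h')⟩⟩

theorem s1n (h : Sys C X) {t a w : G} (ha : a ∈ vx h) (hc : a ∉ C) (hw : w ∈ Rg C X t (-1)) :
    t * a * w ∈ Rg C X t 1 := by
  rw [Rg_neg] at hw
  rw [Rg_one]
  have e : t⁻¹ * (t * a * w) = a * w := by group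
  rw [e]
  rcases ha with ha | ha
  · exact absurd ha hc
  · exact mem_X (pp h ha.2.1 ha.2.2 hw.2)

theorem snn (h : Sys C X) {t a w : G} (ht : Tt C X t) (ha : a ∈ vx h) (hw : w ∈ Rg C X t (-1)) :
    t⁻¹ * a * w ∈ Rg C X t (-1) := by
  rw [Rg_neg] at hw ⊢
  have hs := ht.mul h ((vx h).inv_mem ha)
  refine step h.swap (ht.inv_mul h ha) (Or.inr ⟨hw.1, fun hi => ?_⟩)
  have := hi.2 hw
  apply this.2
  simpa using hs.2.1

theorem sn1 (h : Sys C X) {t a w : G} (ht : Tt C X t) (ha : a ∈ vx h) (hc : t⁻¹ * a * t ∉ C)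
    (hw : w ∈ Rg C X t 1) : t⁻¹ * a * w ∈ Rg C X t (-1) := by
  rw [Rg_one] at hw
  rw [Rg_neg]
  have hs := ht.mul h ha
  rw [mul_assoc] at hc
  obtain ⟨h1, h2, h3⟩ := ht.1.inv.mul h hs.1 hc (by simp [ht.2.1, hs.2.1])
  have e : t⁻¹ * a * w = (t⁻¹ * (a * t)) * (t⁻¹ * w) := by group
  rw [e]
  exact pp h.swap ⟨hc, fun h' => ht.2.2 (h2.1 h')⟩ ⟨h1.inv.1, fun h' => hs.2.2 (h3.1 h')⟩ hw

/-- The conjugate of `C`, as a subgroup of the vertex group. -/
def cj (h : Sys C X) (t : G) : Subgroup (vx h) :=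
  (C.comap (MulAut.conj t⁻¹).toMonoidHom).subgroupOf (vx h)

theorem mem_cj (h : Sys C X) (t : G) (a : vx h) : a ∈ cj h t ↔ t⁻¹ * a * t ∈ C := by
  simp [cj, Subgroup.mem_subgroupOf]

theorem list_Rg (h : Sys C X) {t : G} (ht : Tt C X t) :
    ∀ (l : List (ℤˣ × vx h)) (a : ℤˣ × vx h),
      (a :: l).IsChain (fun b c =>
        b.2 ∈ HNNExtension.toSubgroup (C.subgroupOf (vx h)) (cj h t) b.1 → b.1 = c.1) →
      ((a :: l).map fun b => t ^ (b.1 : ℤ) * (b.2 : G)).prod ∈ Rg C X t a.1 := by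
  have hne : (-1 : ℤˣ) ≠ 1 := by decide
  intro l
  induction l with
  | nil =>
    rintro ⟨u, a⟩ _
    rcases Int.units_eq_one_or u with rfl | rfl
    · rw [Rg_one]
      simpa using vx_not_opp h a.2
    · rw [Rg_neg]
      simpa using ht.inv_mul h a.2
  | cons b l ih =>
    rintro ⟨u, a⟩ hch
    rw [List.isChain_cons_cons] at hch
    have h3 := ih b hch.2
    have h4 := hch.1
    rw [List.map_cons, List.prod_cons]
    generalize (List.map (fun b : ℤˣ × vx h => t ^ (b.1 : ℤ) * (b.2 : G)) (b :: l)).prod = w at h3 ⊢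
    obtain ⟨v, b⟩ := b
    rcases Int.units_eq_one_or u with rfl | rfl <;> rcases Int.units_eq_one_or v with rfl | rfl
    · simpa using s11 h ht a.2 h3
    · have : (a : G) ∉ C := fun hc => hne (h4 hc).symm
      simpa using s1n h a.2 this h3
    · have : t⁻¹ * a * t ∉ C := fun hc => hne (h4 ((mem_cj h t a).2 hc))
      simpa using sn1 h ht a.2 this h3
    · simpa using snn h ht a.2 h3

/-- Conjugation by the stable letter. -/
def cjEquiv (h : Sys C X) {t : G} (ht : Tt C X t) : C.subgroupOf (vx h) ≃* cj h t where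
  toFun c := ⟨⟨t * c.1.1 * t⁻¹, ht.conj h c.2⟩, (mem_cj h t _).2 (by
    have : (c.1.1 : G) ∈ C := c.2
    simpa [mul_assoc] using this)⟩
  invFun b := ⟨⟨t⁻¹ * b.1.1 * t, le_vx h ((mem_cj h t _).1 b.2)⟩, (mem_cj h t _).1 b.2⟩
  left_inv c := by ext; simp [mul_assoc]
  right_inv b := by ext; simp [mul_assoc]
  map_mul' a b := by ext; simp [mul_assoc]

theorem hnn (h : Sys C X) {t : G} (ht : Tt C X t) : IsHNNOver C := by
  classical
  let φ := cjEquiv h ht
  let f : HNNExtension (vx h) (C.subgroupOf (vx h)) (cj h t) φ →* G :=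
    HNNExtension.lift (vx h).subtype t (fun a => by
      change t * (a.1 : G) = t * a.1.1 * t⁻¹ * t
      group)
  have f_of : ∀ a : vx h, f (HNNExtension.of a) = a := fun a => HNNExtension.lift_of _ _ _ a
  have f_t : f HNNExtension.t = t := HNNExtension.lift_t _ _ _
  have hsurj : Function.Surjective f := by
    have hA : ∀ a ∈ vx h, a ∈ f.range := fun a ha => ⟨_, f_of ⟨a, ha⟩⟩
    have htr : t ∈ f.range := ⟨_, f_t⟩
    have hT : ∀ g, Tt C X g → g ∈ f.range := fun g hg => by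
      have := f.range.mul_mem (hA _ (hg.div h ht)) htr
      simpa using this
    have hT' : ∀ g, Tt C X g⁻¹ → g ∈ f.range := fun g hg => by
      simpa using f.range.inv_mem (hT _ hg)
    intro y
    refine gen h f.range (fun c hc => hA c (le_vx h hc)) (fun y hy => ?_) y
    by_cases hx : y ∈ X <;> by_cases hx' : y⁻¹ ∈ X
    · exact hA y (Or.inr ⟨hy, hx, hx'⟩)
    · exact hT y ⟨hy, hx, hx'⟩
    · exact hT' y ⟨hy.inv, hx', by simpa using hx⟩
    · have : y * t⁻¹ ∈ f.range := by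
        by_cases hc : y * t⁻¹ ∈ C
        · exact hA _ (le_vx h hc)
        · obtain ⟨h1, h2, h3⟩ := hy.mul h ht.1.inv hc (by simp [hx', ht.2.2])
          refine hT' _ ⟨h1.inv, h3.2 (by simpa using ht.2.1), ?_⟩
          rw [inv_inv]
          exact fun h' => hx (h2.1 h')
      simpa using f.range.mul_mem this htr
  have hinj : Function.Injective f := by
    rw [injective_iff_map_eq_one]
    intro p hp
    obtain ⟨d⟩ : Nonempty (HNNExtension.NormalWord.TransversalPair (vx h) (C.subgroupOf (vx h))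
      (cj h t)) := inferInstance
    obtain ⟨w, rfl⟩ : ∃ w : HNNExtension.NormalWord d, w.prod φ = p :=
      ⟨(HNNExtension.NormalWord.equiv φ d) p, (HNNExtension.NormalWord.equiv φ d).left_inv p⟩
    have hprod : ∀ l : List (ℤˣ × vx h),
        f (l.map fun b => HNNExtension.t ^ (b.1 : ℤ) * HNNExtension.of b.2).prod =
          (l.map fun b => t ^ (b.1 : ℤ) * (b.2 : G)).prod := by
      intro l
      induction l with
      | nil => simp
      | cons b l ih => simp only [List.map_cons, List.prod_cons, map_mul, ih, map_zpow, f_of, f_t]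
    have hch := w.chain
    simp only [HNNExtension.NormalWord.ReducedWord.prod, map_mul, f_of, hprod] at hp ⊢
    cases hl : w.toList with
    | nil =>
      rw [hl] at hp
      have : w.head = 1 := by simpa using hp
      simp [this]
    | cons a l =>
      exfalso
      rw [hl] at hp hch
      have h1 := list_Rg h ht l a hch
      rw [eq_inv_of_mul_eq_one_right hp] at h1
      exact not_Rg h ht ((vx h).inv_mem w.head.2) _ h1
  refine ⟨vx h, inferInstance, C.subgroupOf (vx h), cj h t, φ,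
    MulEquiv.ofBijective f ⟨hinj, hsurj⟩, ?_⟩
  ext g
  constructor
  · rintro ⟨c, hc, rfl⟩
    have : f (HNNExtension.of c) ∈ C := by rw [f_of]; exact hc
    exact this
  · intro hg
    exact ⟨⟨g, le_vx h hg⟩, hg, f_of ⟨g, le_vx h hg⟩⟩

end Split

theorem Sys.splits (h : Sys C X) : SplitsOver C := by
  by_cases hn : ∃ t, Split.Tt C X t
  · obtain ⟨t, ht⟩ := hn
    exact Or.inr (Split.hnn h ht)
  · refine Or.inl (Split.amalgam h fun t ht hx => ?_)
    by_contra h'
    exact hn ⟨t, ht, hx, h'⟩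

end Pool.Agent.Lib.MP_d98eb9_al.W
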