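import Pool.Agent.Lib.MP_1d6a3f_al.BassSerre
import Pool.Agent.Lib.MP_d98eb9_al.W.Sys
import Pool.Agent.Shared.GroupTree

/-! A splitting gives a system. -/

namespace Pool.Agent.Lib.MP_d98eb9_al.W

open Pool.Agent.Lib.MP_1d6a3f_al

namespace Tree

open SimpleGraph Pool.Agent.Shared.GroupTree

variable {V : Type} {T : SimpleGraph V} {a b u v w : V}

theorem edge_aux (hT : T.IsTree) (h : T.Adj u v) (hu : Toward T a b u) (hv : ¬ Toward T a b v) :
    s(u, v) = s(a, b) := by
  have h1 := dist_add hT hu hv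
  have h2 := hu.2
  rw [dist_adj h] at h1
  rw [(dist_zero_iff hT).1 (show T.dist a v = 0 by omega),
    (dist_zero_iff hT).1 (show T.dist b u = 0 by omega)]
  exact Sym2.eq_swap

theorem edge (hT : T.IsTree) (h : T.Adj u v) (hne : s(u, v) ≠ s(a, b)) :
    Toward T a b u ↔ Toward T a b v :=
  ⟨fun hu => by_contra fun hv => hne (edge_aux hT h hu hv),
    fun hv => by_contra fun hu => hne (Sym2.eq_swap.trans (edge_aux hT h.symm hv hu))⟩

theorem sep (hT : T.IsTree) (h : ¬ (Toward T a b u ↔ Toward T a b w)) :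
    T.dist u w = T.dist a u + T.dist a w := by
  by_cases hu : Toward T a b u
  · exact dist_add hT hu fun hw => h (iff_of_true hu hw)
  · rw [dist_comm, add_comm]
    exact dist_add hT (by_contra fun hw => h (iff_of_false hu hw)) hu

theorem nest (hT : T.IsTree) (huv : Toward T a b u ↔ Toward T a b v)
    (h : ¬ (Toward T a b u ↔ Toward T a b w)) : Toward T u v w ↔ Toward T u v a := by
  have h1 := sep hT h
  have h2 := sep hT fun e => h (huv.trans e)
  rw [dist_comm (u := a)] at h1 h2
  exact and_congr_right fun _ => by omega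

theorem flip (hT : T.IsTree) (h : T.Adj a b) : Toward T b a u ↔ ¬ Toward T a b u :=
  ⟨fun h1 h2 => by have := h1.2; have := h2.2; omega, toward_of_not hT h⟩

theorem finite_between (hT : T.IsTree) (q : V) : ∀ (n : ℕ) (p : V), T.dist p q = n →
    {v | T.dist p q = T.dist v p + T.dist v q}.Finite := by
  intro n
  induction n with
  | zero =>
    intro p h
    refine (Set.finite_singleton p).subset fun v hv => ?_
    have : T.dist p q = T.dist v p + T.dist v q := hv
    exact (dist_zero_iff hT).1 (by omega)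
  | succ n ih =>
    intro p h
    obtain ⟨w, hw⟩ := exists_toward hT (x := p) (y := q) fun e => by simp [e] at h
    refine ((ih w (by have := hw.2; omega)).insert p).subset fun v hv => ?_
    have h1 : T.dist p q = T.dist v p + T.dist v q := hv
    by_cases e : p = v
    · exact Or.inl e.symm
    · obtain ⟨w', hw'⟩ := exists_toward hT e
      rw [dist_comm (u := v)] at h1
      obtain rfl := toward_unique hT hw (toward_of_between hT hw' h1)
      refine Or.inr (show T.dist w q = T.dist v w + T.dist v q from ?_)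
      have := hw.2
      have := hw'.2
      rw [dist_comm (u := v)]
      omega

variable {G : Type} [Group G] [MulAction G V]

theorem leaf (h : GTree G T) (hab : T.Adj a b)
    (ho : ∀ x y : V, T.Adj x y → ∃ g : G, s(g • a, g • b) = s(x, y))
    (hl : ∀ v, T.Adj b v → v = a) (g : G) : g • a = a := by
  have hl' : ∀ (x : G) v, T.Adj (x • b) v → v = x • a := fun x v hv => by
    have := h.adj x⁻¹ _ _ hv
    rw [inv_smul_smul] at this
    exact inv_smul_eq_iff.1 (hl _ this)
  have hb : ∀ x : G, x • b ≠ a := fun x e =>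
    h.noinv x a b hab (hl' x b (e ▸ hab)).symm e
  by_contra hg
  obtain ⟨w, hw⟩ := exists_toward h.tree (Ne.symm hg)
  obtain ⟨x, hx⟩ := ho a w hw.1
  rcases Sym2.eq_iff.1 hx with ⟨h1, h2⟩ | ⟨-, h2⟩
  · by_cases e : w = g • a
    · exact hb (g⁻¹ * x) (by rw [mul_smul, h2, e, inv_smul_smul])
    · obtain ⟨w', hw'⟩ := exists_toward h.tree e
      have h3 := hl' x w' (h2 ▸ hw'.1)
      have h4 := hw.2
      have h5 := hw'.2
      rw [h3, h1] at h5
      omega
  · exact hb x h2

theorem toward_iff (h : GTree G T) (g : G) :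
    Toward T a b (g⁻¹ • u) ↔ Toward T (g • a) (g • b) u :=
  ⟨fun h1 => by simpa using h.toward_smul g h1, fun h1 => by simpa using h.toward_smul g⁻¹ h1⟩

theorem main {C : Subgroup G} (h : GTree G T) (hab : T.Adj a b) (hn : ∀ v : V, ∃ g : G, g • v ≠ v)
    (ho : ∀ x y : V, T.Adj x y → ∃ g : G, s(g • a, g • b) = s(x, y))
    (hC : ∀ g : G, g ∈ C ↔ s(g • a, g • b) = s(a, b)) :
    Sys C {x | x ∉ C ∧ Toward T a b (x • a)} := by
  have hT := h.tree
  have fix : ∀ c ∈ C, c • a = a ∧ c • b = b := fun c hc =>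
    (Sym2.eq_iff.1 ((hC c).1 hc)).resolve_right fun e => h.noinv c a b hab e.1 e.2
  have he : ∀ x ∉ C, Toward T a b (x • a) ↔ Toward T a b (x • b) := fun x hx =>
    edge hT (h.adj x a b hab) (mt (hC x).2 hx)
  have ha : ¬ Toward T a b a := fun e => e.ne rfl
  have hb : Toward T a b b := ⟨hab, by rw [dist_self, dist_adj hab]⟩
  refine ⟨fun _ hx => hx.1, fun c hc x hx => ⟨mt (C.mul_mem_cancel_left hc).1 hx.1, ?_⟩,
    fun c hc x hx => ⟨mt (C.mul_mem_cancel_right hc).1 hx.1, ?_⟩, fun x y hx hy hxy => ?_,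
    fun y => ?_, ?_, ?_⟩
  · have := h.toward_smul c hx.2
    rwa [(fix c hc).1, (fix c hc).2, ← mul_smul] at this
  · rw [mul_smul, (fix c hc).1]
    exact hx.2
  · simp only [Set.mem_ofPred_eq, hx, hy, not_false_eq_true, true_and] at hxy
    have h1 : x⁻¹ * y ∉ C := fun e => hxy (by
      rw [← mul_inv_cancel_left x y, mul_smul, (fix _ e).1])
    simp only [Set.mem_ofPred_eq, h1, inv_mem_iff, hx, not_false_eq_true, true_and, mul_smul,
      toward_iff h]
    exact nest hT (he x hx) hxy
  · have hf := finite_between hT (y • a) _ a rfl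
    refine ((hf.prod hf).preimage (f := fun q : G ⧸ C => (q.out • a, q.out • b)) ?_).subset ?_
    · intro q _ q' _ e
      obtain ⟨e1, e2⟩ := Prod.ext_iff.1 e
      rw [← QuotientGroup.out_eq' q, ← QuotientGroup.out_eq' q', QuotientGroup.eq, hC, mul_smul,
        mul_smul, ← show q.out • a = q'.out • a from e1, ← show q.out • b = q'.out • b from e2,
        inv_smul_smul, inv_smul_smul]
    · rintro _ ⟨x, rfl, hx, hy, hxy⟩
      obtain ⟨c, hc⟩ := QuotientGroup.mk_out_eq_mul C x
      simp only [Set.mem_ofPred_eq, hy, inv_mem_iff, hx, not_false_eq_true, true_and, mul_smul,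
        toward_iff h] at hxy
      simp only [Set.mem_preimage, Set.mem_prod, Set.mem_ofPred_eq, hc, mul_smul, (fix c c.2).1,
        (fix c c.2).2]
      refine ⟨sep hT hxy, sep hT (b := x • a) ?_⟩
      rwa [flip hT (h.adj x a b hab), flip hT (h.adj x a b hab), not_iff_not]
  · by_contra h0
    obtain ⟨g, hg⟩ := hn a
    refine hg (leaf h hab ho (fun v hv => ?_) g)
    obtain ⟨x, hx⟩ := ho b v hv
    by_cases hxC : x ∈ C
    · rw [(hC x).1 hxC, Sym2.eq_swap] at hx
      exact (Sym2.congr_right.1 hx).symm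
    · refine absurd ⟨x, hxC, ?_⟩ h0
      rcases Sym2.eq_iff.1 hx with ⟨h1, -⟩ | ⟨-, h1⟩
      · rwa [h1]
      · exact (he x hxC).2 (by rwa [h1])
  · by_contra h0
    obtain ⟨g, hg⟩ := hn b
    refine hg (leaf h hab.symm (fun x y hxy => (ho x y hxy).imp fun _ e => Sym2.eq_swap.trans e)
      (fun v hv => ?_) g)
    obtain ⟨x, hx⟩ := ho a v hv
    by_cases hxC : x ∈ C
    · rw [(hC x).1 hxC] at hx
      exact (Sym2.congr_right.1 hx).symm
    · refine absurd ⟨x, hxC, fun e => ha ?_⟩ h0
      rcases Sym2.eq_iff.1 hx with ⟨h1, -⟩ | ⟨-, h1⟩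
      · simpa only [h1] using e.2
      · simpa only [h1] using (he x hxC).1 e.2

end Tree

variable {G : Type} [Group G] {C : Subgroup G}

theorem sys_of_splits (h : SplitsOver C) : ∃ X, Sys C X := by
  obtain ⟨S⟩ := h.tree
  let := MulAction.compHom S.V S.ρ
  exact ⟨_, Tree.main ⟨S.isTree, S.adj, fun g x y h e e' => S.no_inversion g x y h ⟨e, e'⟩⟩
    S.adj₀ S.no_fixed S.one_orbit S.stabilizer⟩

end Pool.Agent.Lib.MP_d98eb9_al.W
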