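import Pool.Agent.Lib.MP_d98eb9_al.W.Loc

/-! Type `FP_2` passes to finite extensions. -/

namespace Pool.Agent.Lib.MP_d98eb9_al.W

open MonoidAlgebra

namespace Virt

theorem lift {R P M N : Type} [Ring R] [AddCommGroup P] [AddCommGroup M] [AddCommGroup N]
    [Module R P] [Module R M] [Module R N] [Module.Projective R P] (d : M →ₗ[R] N)
    (f : P →ₗ[R] N) (h : ∀ x, f x ∈ Set.range d) : ∃ g : P →ₗ[R] M, ∀ x, d (g x) = f x := by
  obtain ⟨g, hg⟩ := Module.projective_lifting_property d.rangeRestrict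
    (f.codRestrict (LinearMap.range d) h) d.surjective_rangeRestrict
  exact ⟨g, fun x => congrArg Subtype.val (LinearMap.congr_fun hg x)⟩

theorem exists_cover {G : Type} [Group G] {P Q : Type} [AddCommGroup P] [AddCommGroup Q]
    [Module (ZG G) P] [Module (ZG G) Q] [Module.Projective (ZG G) P] {η : P →+ ℤ} {ε : Q →+ ℤ}
    (hη : ∀ (g : G) (x : P), η ((single g 1 : ZG G) • x) = η x)
    (hε : ∀ (g : G) (x : Q), ε ((single g 1 : ZG G) • x) = ε x) (hs : Function.Surjective ε) :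
    ∃ α : P →ₗ[ZG G] Q, ∀ x, ε (α x) = η x := by
  obtain ⟨x0, hx0⟩ := hs 1
  obtain ⟨β, hβ⟩ := exists_beta' hη
  refine ⟨LinearMap.toSpanSingleton (ZG G) Q x0 ∘ₗ β, fun x => ?_⟩
  rw [LinearMap.comp_apply, LinearMap.toSpanSingleton_apply, eps_smul hε, hβ, hx0]
  simp

theorem schanuel {G : Type} [Group G] (h : IsFP2 G) {M0 M1 : Type} [AddCommGroup M0]
    [AddCommGroup M1] [Module (ZG G) M0] [Module (ZG G) M1] [Module.Projective (ZG G) M0]
    [Module.Projective (ZG G) M1] [Module.Finite (ZG G) M1] (d : M1 →ₗ[ZG G] M0) (η : M0 →+ ℤ)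
    (hη : ∀ (g : G) (x : M0), η ((single g 1 : ZG G) • x) = η x) (hsη : Function.Surjective η)
    (ex : Function.Exact d η) : Module.Finite (ZG G) (LinearMap.ker d) := by
  obtain ⟨P0, P1, P2, d1, d0, ε, hε, hs, ex0, ex1, -, -, f2, p0, p1, -⟩ := h
  obtain ⟨α0, hα0⟩ := exists_cover hη hε hs
  obtain ⟨β0, hβ0⟩ := exists_cover hε hη hsη
  obtain ⟨α1, hα⟩ := lift d0 (α0 ∘ₗ d) fun x =>
    (ex0 _).mp (by rw [LinearMap.comp_apply, hα0]; exact ex.apply_apply_eq_zero x)
  obtain ⟨β1, hβ⟩ := lift d (β0 ∘ₗ d0) fun x =>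
    (ex _).mp (by rw [LinearMap.comp_apply, hβ0]; exact ex0.apply_apply_eq_zero x)
  obtain ⟨s0, hs0⟩ := lift d (β0 ∘ₗ α0 - LinearMap.id) fun x =>
    (ex _).mp (by
      rw [LinearMap.sub_apply, map_sub, LinearMap.comp_apply, hβ0, hα0, LinearMap.id_apply,
        sub_self])
  let s1 : M1 →ₗ[ZG G] LinearMap.ker d :=
    (LinearMap.id + s0 ∘ₗ d - β1 ∘ₗ α1).codRestrict _ fun v => by
      simp only [LinearMap.mem_ker, LinearMap.sub_apply, LinearMap.comp_apply, LinearMap.id_apply,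
        LinearMap.add_apply, map_add, map_sub, hβ, hα, hs0]
      abel
  have hs1 : ∀ p : LinearMap.ker d, (s1 p : M1) = p - β1 (α1 p) := by
    intro p
    have hp : d p = 0 := p.2
    simp [s1, hp]
  let m : P2 →ₗ[ZG G] LinearMap.ker d := (β1 ∘ₗ d1).codRestrict _ fun q => by
    rw [LinearMap.mem_ker, LinearMap.comp_apply, hβ, LinearMap.comp_apply,
      ex1.apply_apply_eq_zero, map_zero]
  refine Module.Finite.of_surjective (m.coprod s1) fun p => ?_
  obtain ⟨z, hz⟩ := (ex1 (α1 p)).mp (by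
    rw [hα, LinearMap.comp_apply, show d p = 0 from p.2, map_zero])
  refine ⟨(z, p), Subtype.ext ?_⟩
  rw [LinearMap.coprod_apply, Submodule.coe_add, hs1]
  simp [m, hz]

theorem exists_split {H0 H : Type} [Group H0] [Group H] (φ : H0 →* H)
    (hφ : Function.Injective φ) [Module (ZG H0) (ZG H)]
    (hs : ∀ (a : H0) (r : ZG H), (single a 1 : ZG H0) • r = single (φ a) 1 * r) :
    ∃ (s : ZG H →ₗ[ZG H0] (H ⧸ φ.range →₀ ZG H0)) (t : (H ⧸ φ.range →₀ ZG H0) →ₗ[ZG H0] ZG H),
      t ∘ₗ s = LinearMap.id := by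
  have hm : ∀ g : H, ∃ a, φ a = g * ((g⁻¹ : H) : H ⧸ φ.range).out := fun g => by
    have := φ.range.inv_mem (out_inv_mul_mem (C := φ.range) g⁻¹)
    simpa using this
  choose c hc using hm
  have hq : ∀ (a : H0) (g : H), (((φ a * g)⁻¹ : H) : H ⧸ φ.range) = ((g⁻¹ : H) : H ⧸ φ.range) :=
    fun a g => QuotientGroup.eq.mpr ⟨a, by simp⟩
  have hc' : ∀ (a : H0) (g : H), c (φ a * g) = a * c g := fun a g => hφ (by
    rw [hc, map_mul, hc, hq, mul_assoc])
  let s0 : ZG H →+ (H ⧸ φ.range →₀ ZG H0) :=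
    lsum fun g => Finsupp.single ((g⁻¹ : H) : H ⧸ φ.range) (single (c g) 1)
  have hs0 : ∀ g : H, s0 (single g 1) =
      Finsupp.single ((g⁻¹ : H) : H ⧸ φ.range) (single (c g) 1) := fun g => by
    simp only [s0, lsum_single, one_smul]
  have h1 : ∀ (a : H0) (r : ZG H),
      s0 ((single a 1 : ZG H0) • r) = (single a 1 : ZG H0) • s0 r := by
    intro a r
    induction r using ind1 with
    | h0 => simp
    | hadd x y hx hy => rw [smul_add, map_add, hx, hy, map_add, smul_add]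
    | hneg x hx => rw [smul_neg, map_neg, hx, map_neg, smul_neg]
    | hs g =>
      rw [hs, single_mul_single, one_mul, hs0, hs0, hq, hc', Finsupp.smul_single, smul_eq_mul,
        single_mul_single, one_mul]
  refine ⟨mkLin s0 h1,
    Finsupp.linearCombination (ZG H0) fun y : H ⧸ φ.range => (single y.out⁻¹ 1 : ZG H),
    LinearMap.ext fun r => ?_⟩
  rw [LinearMap.comp_apply, mkLin_apply, LinearMap.id_apply]
  induction r using ind1 with
  | h0 => simp
  | hadd x y hx hy => rw [map_add, map_add, hx, hy]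
  | hneg x hx => rw [map_neg, map_neg, hx]
  | hs g =>
    rw [hs0, Finsupp.linearCombination_single, hs, single_mul_single, hc, one_mul,
      mul_inv_cancel_right]

end Virt

theorem IsFP2.of_ker {H : Type} [Group H] {k : ℕ} (t : Fin k → H)
    (ht : Subgroup.closure (Set.range t) = ⊤)
    (h : Module.Finite (ZG H) (LinearMap.ker (bd t))) : IsFP2 H := by
  obtain ⟨n, f, hf⟩ := Module.Finite.exists_fin' (ZG H) (LinearMap.ker (bd t))
  refine ⟨ModuleCat.of _ (ZG H), ModuleCat.of _ (Fin k →₀ ZG H), ModuleCat.of _ (Fin n → ZG H),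
    (LinearMap.ker (bd t)).subtype ∘ₗ f, bd t, (aug H).toAddMonoidHom, Loc.aug_smul, Loc.aug_surj,
    exact_bd t ht, fun x => ⟨fun hx => ?_, ?_⟩, inferInstance, inferInstance, inferInstance,
    inferInstance, inferInstance, inferInstance⟩
  · obtain ⟨y, hy⟩ := hf ⟨x, hx⟩
    exact ⟨y, congrArg Subtype.val hy⟩
  · rintro ⟨y, rfl⟩
    exact (f y).2

theorem IsFP2.of_finiteIndex {H0 H : Type} [Group H0] [Group H] (φ : H0 →* H)
    (hφ : Function.Injective φ) (hi : φ.range.FiniteIndex) (hfg : Group.FG H) (h : IsFP2 H0) :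
    IsFP2 H := by
  obtain ⟨k, t, ht⟩ : ∃ (k : ℕ) (t : Fin k → H), Subgroup.closure (Set.range t) = ⊤ := by
    obtain ⟨T, hT⟩ := hfg.out
    refine ⟨_, fun k => (T.equivFin.symm k : H), ?_⟩
    rw [← hT]
    congr 1
    ext g
    exact ⟨by rintro ⟨k, rfl⟩; exact (T.equivFin.symm k).2,
      fun h => ⟨T.equivFin ⟨g, h⟩, by simp⟩⟩
  refine IsFP2.of_ker t ht ?_
  let ι : ZG H0 →+* ZG H := MonoidAlgebra.mapDomainRingHom ℤ φ
  let _ : Module (ZG H0) (ZG H) := Module.compHom (ZG H) ι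
  have hs : ∀ (a : H0) (r : ZG H), (single a 1 : ZG H0) • r = single (φ a) 1 * r := fun a r => by
    change ι (single a 1) * r = _
    simp [ι]
  have : IsScalarTower (ZG H0) (ZG H) (ZG H) := ⟨fun a b c => mul_assoc (ι a) b c⟩
  obtain ⟨s, u, hsu⟩ := Virt.exists_split φ hφ hs
  have : Module.Projective (ZG H0) (ZG H) := Module.Projective.of_split s u hsu
  have : Module.Finite (ZG H0) (ZG H) :=
    Module.Finite.of_surjective u fun q => ⟨s q, LinearMap.congr_fun hsu q⟩
  have : Module.Projective (ZG H0) (Fin k →₀ ZG H) :=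
    Module.Projective.of_split (Finsupp.mapRange.linearMap s) (Finsupp.mapRange.linearMap u) (by
      rw [← Finsupp.mapRange.linearMap_comp, hsu, Finsupp.mapRange.linearMap_id])
  have hk := Virt.schanuel h ((bd t).restrictScalars (ZG H0)) (aug H).toAddMonoidHom
    (fun a r => by rw [hs]; exact Loc.aug_smul _ _) Loc.aug_surj (exact_bd t ht)
  rw [Module.Finite.iff_fg] at hk ⊢
  exact Submodule.FG.of_restrictScalars (ZG H0) hk

end Pool.Agent.Lib.MP_d98eb9_al.W
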