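import Pool.Agent.Lib.MP_d98eb9_al.W.Step
import Pool.Agent.Lib.MP_d98eb9_al.W.OneEnd
import Pool.Agent.Lib.MP_d98eb9_al.W.Resolve
import Pool.Agent.Lib.MP_d98eb9_al.W.Split
import Pool.Agent.Lib.MP_d98eb9_al.W.Tree
import Pool.Agent.Lib.MP_d98eb9_al.W.Rank
import Pool.Agent.Lib.MP_d98eb9_al.W.Linnell
import Pool.Agent.Lib.MP_d98eb9_al.W.Virt

/-! Splitting over a Poincare duality group of dimension two. -/

namespace Pool.Agent.Lib.MP_d98eb9_al.W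

open Pool.Agent.Lib.MP_1d6a3f_al

variable {G : Type} [Group G]

theorem exists_Gen (h : Group.FG G) : Nonempty (Gen G) := by
  obtain ⟨T, hT⟩ := h.out
  refine ⟨T.card, fun i => (T.equivFin.symm i : G), hT ▸ congrArg _ (Set.ext fun x => ?_)⟩
  exact ⟨fun ⟨i, e⟩ => e ▸ (T.equivFin.symm i).2, fun hx => ⟨T.equivFin ⟨x, hx⟩, by simp⟩⟩

theorem split_pd (hG : IsPD 3 G) {C : Subgroup G} (hC : SplitsOver C) (hcoh : Coh C) :
    ∃ S : Subgroup G, S ≤ C ∧ IsPD 2 S ∧ SplitsOver S := by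
  have hfg := IsPD.fg hG
  have geo := fun Γ : Gen G => (exists_geo hG Γ).some
  obtain ⟨Γ⟩ := exists_Gen hfg
  obtain ⟨X, h⟩ := sys_of_splits hC
  obtain ⟨C1, a1, a2, X1, h1⟩ := h.exists_fg hfg fun Γ => (geo Γ).lp0
  obtain ⟨C2, b1, b2, b3, X2, h2⟩ := h1.exists_oe hfg (geo Γ).oe (fun Γ => (geo Γ).lp1)
    (geo Γ).tf a2
  have hc := hcoh.mono (b1.trans a1)
  obtain ⟨Ω, K⟩ := exists_kk (geo Γ) h2 b2 hc b3
  obtain ⟨j, hj⟩ := exists_bound h2 K b2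
  obtain ⟨S, c1, c2, c3, c4, X3, h3⟩ := exists_thin (geo Γ) j C2 X2 h2 b2 hc b3 hj
  exact ⟨S, c1.trans (b1.trans a1), isPD_of_thin (geo Γ) h3 c2 (hc.mono c1) c3 c4, h3.splits⟩

theorem fp2_of_rk (hG : IsPD 3 G) {J K : Subgroup G} {X : Set G} (h : Sys J X) (hK : K ≤ J)
    (hfg : K.FG) (R : Nonempty (Rk K)) : IsFP2 K := by
  obtain ⟨R⟩ := R
  obtain ⟨Γ⟩ := exists_Gen (IsPD.fg hG)
  obtain ⟨Y⟩ := exists_geo hG Γ
  obtain ⟨k, t, ht⟩ := exists_gen_family hfg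
  exact IsFP2.of_ker t ht (Y.ker_finite (fun hn => h.not_near Γ ((Gen.Near.of_subset
    (Set.subset_univ _)).trans (hn.trans (Gen.Near.of_subset hK)))) R t ht)

theorem split_pd' (hG : IsPD 3 G) {C : Subgroup G} (hC : SplitsOver C)
    (h : ∀ J : Subgroup G, J ≤ C → J.FG → SplitsOver J → ∃ K : Subgroup G, K ≤ J ∧
      (K.subgroupOf J).FiniteIndex ∧ (IsFP2 K ∨ Agrarian K ∨ AZD K ∨ LeftOrd K)) :
    ∃ S : Subgroup G, S ≤ C ∧ IsPD 2 S ∧ SplitsOver S := by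
  refine split_pd hG hC fun J hJ hfg X hX => ?_
  obtain ⟨K, hK, hi, h1⟩ := h J hJ hfg hX.splits
  have f1 := (Group.fg_iff_subgroup_fg J).mpr hfg
  have f2 : K.FG := (Group.fg_iff_subgroup_fg K).mp (Group.fg_of_surjective
    (f := (Subgroup.subgroupOfEquivOfLe hK).toMonoidHom) (Subgroup.subgroupOfEquivOfLe hK).surjective)
  refine IsFP2.of_finiteIndex (Subgroup.inclusion hK) (Subgroup.inclusion_injective hK)
    (by rwa [Subgroup.inclusion_range]) f1 ?_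
  rcases h1 with h1 | h1 | h1 | h1
  exacts [h1, fp2_of_rk hG hX hK f2 h1.rk, fp2_of_rk hG hX hK f2 h1.rk,
    fp2_of_rk hG hX hK f2 h1.azd.rk]

end Pool.Agent.Lib.MP_d98eb9_al.W
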