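import Pool.Agent.Lib.MP_d98eb9_al.W.Defs2
import Pool.Agent.Lib.MP_d98eb9_al.Dual

/-! Torsion-free modules with a rank condition. -/

namespace Pool.Agent.Lib.MP_d98eb9_al.W

/-- A torsion-free right module in which underdetermined systems have nonzero solutions. -/
structure Rk (H : Type) [Group H] : Type 1 where
  A : Type
  [inst : AddCommGroup A]
  act : A →+ ZG H →+ A
  mul : ∀ a r s, act (act a r) s = act a (r * s)
  one : ∀ a, act a 1 = a
  inj : ∀ a r, act a r = 0 → a = 0 ∨ r = 0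
  rank : ∀ (m : ℕ) (M : Fin (m + 1) → Fin m → ZG H),
    ∃ a : Fin (m + 1) → A, a ≠ 0 ∧ ∀ k, ∑ i, act (a i) (M i k) = 0

attribute [instance] Rk.inst

end Pool.Agent.Lib.MP_d98eb9_al.W
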