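import Pool.Agent.Lib.MP_d98eb9_al.W.Const
import Pool.Agent.Lib.MP_d98eb9_al.W.PD

/-! Unfolding until the edge group is thin. -/

namespace Pool.Agent.Lib.MP_d98eb9_al.W

open Gen

variable {G : Type} [Group G] {Γ : Gen G} {C : Subgroup G} {X : Set G} {y : G}

/-- The edge `yC` crosses the edge `C`. -/
def Sep (Γ : Gen G) (C : Subgroup G) (y : G) : Prop := y ∉ C ∧ ¬ Γ.Apart C (tr y C)

theorem Sep.inv (h : Sep Γ C y) : Sep Γ C y⁻¹ :=
  ⟨fun h' => h.1 (by simpa using h'), fun h' => h.2 (by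
    simpa only [tr_tr_inv] using (h'.tr y).symm)⟩

theorem Coh.mono {C' : Subgroup G} (h : Coh C) (h' : C' ≤ C) : Coh C' :=
  fun J hJ => h J (hJ.trans h')

theorem step (Y : Geo Γ) (h : Sys C X) (hfg : C.FG) (hcoh : Coh C) (hoe : OE C)
    (ht : ¬ Γ.Thin C) : ∃ (C' : Subgroup G) (β : Set G), C' ≤ C ∧ C'.FG ∧ OE C' ∧ Sys C' β ∧
      β ⊆ X ∧ (Γ.Thin C' ∨ (∃ y, Sep Γ C y) ∧ ∀ y, Sep Γ C' y → Sep Γ C y ∧
        nn C' β y ≤ nn C X y ∧ ((∀ z, Sep Γ C z → nn C X z ≤ nn C X y) → y ∈ β)) := by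
  obtain ⟨Ω, K⟩ := exists_kk Y h hfg hcoh hoe
  obtain ⟨ρ, hc⟩ := exists_ctx h K hoe hfg ht
  obtain ⟨x0, h0⟩ := h.ne
  obtain ⟨β, S, B⟩ : ∃ β S, Blo Γ C X Ω ρ β S := ⟨_, _, hc, ⟨x0, h0, rfl⟩, rfl⟩
  refine ⟨blk C β, β, blk_le C β, B.fg, B.oe', B.unfold, fun x => B.sub,
    or_iff_not_imp_left.mpr fun ht' => ⟨by_contra fun hn => ht' ?_, ?_⟩⟩
  · refine (B.const K.per ht (fun P hP => h.out (B.subS hP).2) fun x hx => ?_).thin (blk_le C β)
    exact Apart.symm (by_contra fun e => hn ⟨x, h.disj x (B.sub hx), e⟩)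
  have le : Γ.Near (blk C β) C := Near.of_subset (blk_le C β)
  obtain ⟨σ, -, -, hσ⟩ := B.cover
  have a1 : ∀ y ∈ X, y ∉ β → Γ.Apart (blk C β) (tr y C) := fun y hy hn =>
    B.const (K.per.tr y) (hc.thick' y) (hσ y hy hn) fun x hx => by_contra fun e =>
      hn (B.step hx ⟨B.sub hx, hy, Or.inr e⟩)
  have a2 : ∀ y ∈ C, y ∉ blk C β → Γ.Apart (blk C β) (tr y (blk C β)) := fun y hy hn => by
    obtain ⟨Ω', K'⟩ := exists_kk Y B.unfold B.fg (hcoh.mono (blk_le C β)) B.oe'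
    refine B.const (K'.per.tr y) (fun e => ht' (tr_inv_tr y (blk C β : Set G) ▸ e.tr y⁻¹))
      (fun P hP p hp => h.out (B.subS hP).2 (by simpa using C.mul_mem hy hp.1)) fun x hx => ?_
    have := (a1 (y⁻¹ * x) (h.left _ (C.inv_mem hy) x (B.sub hx)) fun e => hn (by
      simpa using (blk C β).inv_mem (B.mem_blk (C.inv_mem hy) hx e))).tr y
    rw [tr_tr, mul_inv_cancel_left] at this
    exact this.symm
  have a3 : ∀ y, Sep Γ (blk C β) y → Sep Γ C y ∧ (y ∈ X → y ∈ β) := fun y hy =>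
    ⟨⟨fun e => hy.2 (a2 y e hy.1), fun e => hy.2 (e.near le (le.tr y))⟩,
      fun e => by_contra fun e' => hy.2 ((a1 y e e').near (Near.refl _) (le.tr y))⟩
  have a4 : ∀ y, Sep Γ (blk C β) y → ∀ a ∈ β, a * y ∉ blk C β → a * y ∉ β → a * y ∈ opp C X := by
    intro y hy a ha n1 n2
    refine ⟨fun e => n1 ?_, fun e => (a3 y hy).1.2 ?_⟩
    · have := (a3 _ hy.inv).2 (by simpa using h.left _ (C.inv_mem e) a (B.sub ha))
      simpa using (blk C β).inv_mem (B.mem_blk (C.inv_mem e) ha (by simpa using this))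
    · have := Apart.tr (by_contra fun e' => n2 (B.step ha ⟨B.sub ha, e, Or.inr e'⟩)) a⁻¹
      rwa [tr_inv_tr, tr_tr, inv_mul_cancel_left] at this
  intro y hy
  refine ⟨(a3 y hy).1, ?_, fun hm => (a3 y hy).2 (by_contra fun e => hy.2 ?_)⟩
  · have key : ∀ x : G, x ∉ blk C β → x⁻¹ * y ∉ blk C β → ¬ (x⁻¹ ∈ β ↔ x⁻¹ * y ∈ β) →
        x⁻¹ ∈ β ∧ x⁻¹ * y ∈ opp C X ∨ x⁻¹ * y ∈ β ∧ x⁻¹ ∈ opp C X := fun x n1 n2 n3 => by
      by_cases e : x⁻¹ ∈ β
      · exact Or.inl ⟨e, a4 y hy _ e n2 (by tauto)⟩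
      · exact Or.inr ⟨by tauto, by
          simpa using a4 _ hy.inv (x⁻¹ * y) (by tauto) (by simpa using n1) (by simpa using e)⟩
    refine Set.ncard_le_ncard_of_injOn (Subgroup.quotientMapOfLE (blk_le C β)) ?_ ?_ (h.fin y)
    · rintro _ ⟨x, rfl, n1, n2, n3⟩
      rcases key x n1 n2 n3 with e | e
      · exact ⟨x, rfl, fun h' => h.disj _ (B.sub e.1) (C.inv_mem h'), e.2.1,
          fun h' => e.2.2 (h'.mp (B.sub e.1))⟩
      · exact ⟨x, rfl, fun h' => e.2.1 (C.inv_mem h'), h.disj _ (B.sub e.1),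
          fun h' => e.2.2 (h'.mpr (B.sub e.1))⟩
    · rintro _ ⟨x, rfl, n1, n2, n3⟩ _ ⟨z, rfl, m1, m2, m3⟩ e
      have hc' : z⁻¹ * x ∈ C := QuotientGroup.eq.mp e.symm
      refine (QuotientGroup.eq.mpr ?_).symm
      rcases key x n1 n2 n3 with e1 | e1 <;> rcases key z m1 m2 m3 with e2 | e2
      · exact B.mem_blk hc' e1.1 (by simpa using e2.1)
      · exact absurd (by simpa using h.left _ hc' _ (B.sub e1.1)) e2.2.2
      · exact absurd (by simpa [mul_assoc] using h.left _ hc' _ (B.sub e1.1)) e2.2.2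
      · exact B.mem_blk hc' e1.1 (by simpa [mul_assoc] using e2.1)
  · have hyC := (a3 y hy).1.1
    refine (B.const (K.per.tr y) (hc.thick' y) (r := 0) (fun P hP p hp => subset_N _ _ fun h' => e
      (by simpa using h.right _ (C.inv_mem hp) p ((B.subS hP).2 h'))) fun x hx => ?_).near
      (Near.refl _) (le.tr y)
    have hlt := h.nn_lt (h.disj x (B.sub hx)) hyC fun h' => e (h'.mp (B.sub hx))
    have := Apart.tr (by_contra fun e' => absurd (hm (x⁻¹ * y) ⟨fun h' => e (by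
      simpa using h.right _ h' x (B.sub hx)), e'⟩) (by omega)) x
    rwa [tr_tr, mul_inv_cancel_left] at this

theorem exists_thin (Y : Geo Γ) (j : ℕ) : ∀ (C : Subgroup G) (X : Set G), Sys C X → C.FG → Coh C →
    OE C → (∀ y, Sep Γ C y → nn C X y < j) →
      ∃ S : Subgroup G, S ≤ C ∧ S.FG ∧ OE S ∧ Γ.Thin S ∧ ∃ X', Sys S X' := by
  induction j with
  | zero =>
    intro C X h hfg hcoh hoe hj
    by_cases ht : Γ.Thin C
    · exact ⟨C, le_rfl, hfg, hoe, ht, X, h⟩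
    obtain ⟨C', β, a1, a2, a3, a4, -, a5 | ⟨⟨y, hy⟩, -⟩⟩ := step Y h hfg hcoh hoe ht
    · exact ⟨C', a1, a2, a3, a5, β, a4⟩
    · exact absurd (hj y hy) (by omega)
  | succ j ih =>
    intro C X h hfg hcoh hoe hj
    by_cases ht : Γ.Thin C
    · exact ⟨C, le_rfl, hfg, hoe, ht, X, h⟩
    obtain ⟨C', β, a1, a2, a3, a4, -, a5⟩ := step Y h hfg hcoh hoe ht
    by_cases ht' : Γ.Thin C'
    · exact ⟨C', a1, a2, a3, ht', β, a4⟩
    obtain ⟨-, a5⟩ := a5.resolve_left ht'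
    obtain ⟨D, γ, b1, b2, b3, b4, b5, b6 | ⟨-, b6⟩⟩ := step Y a4.swap a2 (hcoh.mono a1) a3 ht'
    · exact ⟨D, b1.trans a1, b2, b3, b6, γ, b4⟩
    obtain ⟨S, c1, c2⟩ := ih D γ b4 b2 (hcoh.mono (b1.trans a1)) b3 fun y hy => by
      obtain ⟨d1, d2, d3⟩ := b6 y hy
      obtain ⟨e1, e2, e3⟩ := a5 y d1
      have f1 := hj y e1
      simp only [nn_opp] at d2 d3
      by_contra hn
      exact (b5 (d3 fun z hz => by
        have := (a5 z hz).2.1
        have := hj z (a5 z hz).1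
        omega)).2 (e3 fun z hz => by
          have := hj z hz
          omega)
    exact ⟨S, c1.trans (b1.trans a1), c2⟩

theorem exists_bound (h : Sys C X) {Ω : Set (Set G)} (K : KK Γ C X Ω) (hfg : C.FG) :
    ∃ j, ∀ y, Sep Γ C y → nn C X y < j := by
  obtain ⟨r, hr⟩ := (fg_iff_rc (Γ := Γ)).mp hfg
  obtain ⟨s, hs⟩ := K.per.close r
  obtain ⟨j, hj⟩ := h.nn_bdd Γ s
  refine ⟨j + 1, fun y hy => ?_⟩
  obtain ⟨p, hp, hp'⟩ := hs _ ⟨y, by simp⟩ (hr.tr y) fun e => hy.2 e.symm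
  exact Nat.lt_succ_of_le (hj y _ hp (by simpa using hp'))

theorem isPD_of_thin (Y : Geo Γ) (h : Sys C X) (hfg : C.FG) (hcoh : Coh C) (hoe : OE C)
    (ht : Γ.Thin C) : IsPD 2 C := by
  obtain ⟨Ω, K⟩ := exists_kk Y h hfg hcoh hoe
  obtain ⟨U, hU, hn⟩ := ht
  obtain ⟨R, h1, h2⟩ := K.per.rad
  obtain ⟨p, -, hp⟩ := Set.not_subset.mp fun e => h.not_near Γ ⟨R, e⟩
  obtain ⟨W, hW, -⟩ := h2 p hp
  obtain ⟨a, ha⟩ := ((K.per.hs W hW).near_symm hU (Near.trans ⟨R, h1 W hW⟩ hn)).trans ⟨R, h1 W hW⟩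
  refine Y.isPD hfg (hcoh C le_rfl hfg X h) hoe ⟨a, ha⟩
    (fun e => hU.1.not_near rfl hU.1 rfl (e.trans hn))
    (fun e => hU.2.not_near rfl hU.1 rfl (e.trans hn)) fun r => ?_
  obtain ⟨b, hb⟩ := hn
  obtain ⟨s, hs⟩ := hU.1.two (b + r)
  obtain ⟨t, ht⟩ := hU.2.two (b + r)
  refine ⟨a + (s + t), fun p q hp hq e => ?_⟩
  by_cases hpU : p ∈ U
  · exact (hs U rfl p (core_mono (by omega) (mem_core hpU ha hp)) q
      (core_mono (by omega) (mem_core (e.mp hpU) ha hq))).mono (N_N hb)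
  · rw [← fr_compl] at ha hb
    exact (ht _ rfl p (core_mono (by omega) (mem_core hpU ha hp)) q
      (core_mono (by omega) (mem_core (mt e.mpr hpU) ha hq))).mono (N_N hb)

end Pool.Agent.Lib.MP_d98eb9_al.W
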